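import Mathlib
import Pool.Agent.H8.KA.Lib.R_seed8.H119R2.Kp.Defs
import Pool.Agent.H8.KA.Lib.R_seed8.H119R2.Kp.PVE
import Pool.Agent.H8.KA.Lib.R_seed8.H119R2.Kp.Rel
import Pool.Agent.H8.KA.Lib.R_pool_sql_team_seeded_9f66d723.W5h78.Karp.RelPi

set_option autoImplicit false

/-!
MP_257582_lc (helper8): relations between the values of a property on patterns, for an arbitrary
vertex set with a part function.
-/

namespace Pool.Agent.H8.KA

open Finset
open Pool.Agent.H98R2.Ev (EV toG NE)
open Pool.Agent.H119R2.Kp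
open Pool.Agent.W5h78.Karp (ad ad_comm addP cnt)

/-- pattern graph -/
def PGr {N : ℕ} {V : Type} (prt : V → Fin N) (Γ : Fin N → Fin N → Bool) : SimpleGraph V where
  Adj u v := u ≠ v ∧ ad Γ (prt u) (prt v) = true
  symm := ⟨fun u v h => ⟨h.1.symm, by rw [ad_comm]; exact h.2⟩⟩
  loopless := ⟨fun _ h => h.1 rfl⟩

theorem PGr_adj {N : ℕ} {V : Type} (prt : V → Fin N) (Γ : Fin N → Fin N → Bool) (u v : V) :
    (PGr prt Γ).Adj u v ↔ u ≠ v ∧ ad Γ (prt u) (prt v) = true := Iff.rfl

theorem PGr_sup {N m : ℕ} {V : Type} (prt : V → Fin N) (Γ : Fin N → Fin N → Bool)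
    (O : Fin m → Fin N → Fin N → Bool) (I : Finset (Fin m)) :
    (PGr prt Γ ⊔ ⨆ j ∈ I, PGr prt (O j)) = PGr prt (addP Γ O I) := by
  ext u v
  simp only [SimpleGraph.sup_adj, SimpleGraph.iSup_adj, PGr_adj, ad, addP]
  simp only [Bool.or_eq_true, decide_eq_true_eq]
  constructor
  · rintro (⟨h1, h2⟩ | ⟨j, hj, h1, h2⟩)
    · exact ⟨h1, h2.imp Or.inl Or.inl⟩
    · exact ⟨h1, h2.imp (fun h => Or.inr ⟨j, hj, h⟩) (fun h => Or.inr ⟨j, hj, h⟩)⟩
  · rintro ⟨h1, (h2 | ⟨j, hj, h2⟩) | (h2 | ⟨j, hj, h2⟩)⟩
    · exact Or.inl ⟨h1, Or.inl h2⟩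
    · exact Or.inr ⟨j, hj, h1, Or.inl h2⟩
    · exact Or.inl ⟨h1, Or.inr h2⟩
    · exact Or.inr ⟨j, hj, h1, Or.inr h2⟩

section

variable {N : ℕ} {V : Type} [Fintype V] (prt : V → Fin N) (s : Fin N → ℕ)
  (hf : ∀ A, Nat.card {w : V // prt w = A} = s A)

include hf

theorem exists_equiv :
    ∃ e : V ≃ Σ i : Fin N, Fin (s i), ∀ w, (e w).1 = prt w := by
  classical
  refine ⟨(Equiv.sigmaFiberEquiv prt).symm.trans
    (Equiv.sigmaCongrRight (fun A => Fintype.equivFinOfCardEq
      (by rw [← Nat.card_eq_fintype_card]; exact hf A))), ?_⟩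
  intro w
  rfl

theorem PV_PGr {n q : ℕ} {P : SimpleGraph (Fin n) → Prop} (hP : GP n q P)
    (Γ : Fin N → Fin N → Bool) :
    PV P V (PGr prt Γ) ↔ PV P _ (BU s Γ) := by
  obtain ⟨e, he⟩ := exists_equiv prt s hf
  constructor
  · apply PV.mono hP e
    intro u v h
    refine ⟨fun h' => h.1 (e.injective h'), ?_⟩
    rw [he, he]
    simpa [ad] using h.2
  · apply PV.mono hP e.symm
    intro u v h
    refine ⟨fun h' => h.1 (e.symm.injective h'), ?_⟩
    rw [← he, ← he, e.apply_symm_apply, e.apply_symm_apply]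
    simpa [ad] using h.2

theorem card_PGr (Γ : Fin N → Fin N → Bool) :
    2 * Nat.card (PGr prt Γ).edgeSet = cnt s Γ := by
  classical
  set G : SimpleGraph V := PGr prt Γ with hG
  have fib : ∀ A, Fintype.card {w : V // prt w = A} = s A := fun A => by
    rw [← Nat.card_eq_fintype_card]; exact hf A
  have h1 : Nat.card G.edgeSet = G.edgeFinset.card := by
    rw [Nat.card_eq_fintype_card, SimpleGraph.edgeFinset_card]
  rw [h1, ← SimpleGraph.sum_degrees_eq_twice_card_edges]
  have h2 : ∀ v : V, G.degree v =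
      ∑ B, if ad Γ (prt v) B = true then (if prt v = B then s B - 1 else
        s B) else 0 := by
    intro v
    rw [← SimpleGraph.card_neighborFinset_eq_degree]
    rw [Finset.card_eq_sum_card_fiberwise (f := prt) (t := univ)
      (fun _ _ => Finset.mem_coe.mpr (mem_univ _))]
    apply Finset.sum_congr rfl
    intro B _
    have hfib : (univ.filter (fun w : V => prt w = B)).card = s B := by
      rw [← fib B, Fintype.card_subtype]
    split_ifs with h3 h4
    · have : (G.neighborFinset v).filter (fun w => prt w = B) =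
          (univ.filter (fun w : V => prt w = B)).erase v := by
        ext w
        simp only [mem_filter, SimpleGraph.mem_neighborFinset, mem_erase, mem_univ, true_and]
        constructor
        · rintro ⟨h, rfl⟩
          exact ⟨h.1.symm, rfl⟩
        · rintro ⟨h, rfl⟩
          exact ⟨⟨h.symm, h3⟩, rfl⟩
      rw [this, Finset.card_erase_of_mem (by simp [h4]), hfib]
    · have : (G.neighborFinset v).filter (fun w => prt w = B) =
          (univ.filter (fun w : V => prt w = B)) := by
        ext w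
        simp only [mem_filter, SimpleGraph.mem_neighborFinset, mem_univ, true_and]
        constructor
        · rintro ⟨h, rfl⟩
          rfl
        · rintro rfl
          exact ⟨⟨fun h => h4 (by rw [h]), h3⟩, rfl⟩
      rw [this, hfib]
    · rw [Finset.card_eq_zero, Finset.filter_eq_empty_iff]
      intro w hw hB
      rw [SimpleGraph.mem_neighborFinset] at hw
      apply h3
      rw [← hB]
      exact hw.2
  rw [Finset.sum_congr rfl (fun v _ => h2 v)]
  rw [← Finset.sum_fiberwise (s := univ) (g := prt)]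
  unfold cnt
  apply Finset.sum_congr rfl
  intro A _
  have h3 : ∀ v ∈ univ.filter (fun w : V => prt w = A),
      (∑ B, if ad Γ (prt v) B = true then (if prt v = B then s B - 1 else
        s B) else 0) = ∑ B, if ad Γ A B = true then (if A = B then
          s B - 1 else s B) else 0 := by
    intro v hv
    simp only [mem_filter, mem_univ, true_and] at hv
    rw [hv]
  rw [Finset.sum_congr rfl h3, Finset.sum_const, ← Fintype.card_subtype, fib, smul_eq_mul,
    Finset.mul_sum]
  apply Finset.sum_congr rfl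
  intro B _
  split_ifs with h4 h5
  · rw [h5]
  · rfl
  · simp

/-- the relation on patterns -/
theorem relGen [DecidableEq V] {n q : ℕ} {P : SimpleGraph (Fin n) → Prop} (hP : GP n q P)
    (hV : Fintype.card V = n) (p : ℕ) [Fact p.Prime] {ι : Type} [Fintype ι]
    (a : ι → Equiv.Perm V) (c : Equiv.Perm V)
    (hcomm : ∀ i j, a i * a j = a j * a i) (hap : ∀ i, a i ^ p = 1)
    (hca : ∀ i, c⁻¹ * a i * c ∈ Subgroup.closure (Set.range a))
    (pa : ∀ i w, prt (a i w) = prt w) (πp : Fin N → Fin N) (pc : ∀ w, prt (c w) = πp (prt w))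
    {m : ℕ} (Γ : Fin N → Fin N → Bool) (O : Fin m → Fin N → Fin N → Bool)
    (hΓs : ∀ A B, ad Γ A B = true → ad Γ (πp A) (πp B) = true)
    (hOs : ∀ j A B, ad (O j) A B = true → ad (O j) (πp A) (πp B) = true)
    (hd : ∀ i j, i ≠ j → ∀ A B, ad (O i) A B = true → ad (O j) A B = true → False)
    (hd0 : ∀ i A B, ad Γ A B = true → ad (O i) A B = true → False)
    (hne : ∀ j, ∃ u v : V, u ≠ v ∧ ad (O j) (prt u) (prt v) = true)
    (htr : ∀ j u v u' v', u ≠ v → u' ≠ v' → ad (O j) (prt u) (prt v) = true →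
      ad (O j) (prt u') (prt v') = true →
      ∃ g ∈ Subgroup.closure (insert c (Set.range a)), (g u = u' ∧ g v = v') ∨ (g u = v' ∧ g v = u'))
    (hq : 2 * q < ∑ j, cnt s (O j)) :
    ∑ I : Finset (Fin m), (-1 : ℤ) ^ I.card * hv P s (addP Γ O I) = 0 := by
  classical
  have key := rel hP hV p a c hcomm hap hca (PGr prt Γ) (fun j => PGr prt (O j))
    (fun i u v h => ⟨fun h' => h.1 ((a i).injective h'), by rw [pa, pa]; exact h.2⟩)
    (fun u v h => ⟨fun h' => h.1 (c.injective h'), by rw [pc, pc]; exact hΓs _ _ h.2⟩)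
    (fun j i u v h => ⟨fun h' => h.1 ((a i).injective h'), by rw [pa, pa]; exact h.2⟩)
    (fun j u v h => ⟨fun h' => h.1 (c.injective h'), by rw [pc, pc]; exact hOs _ _ _ h.2⟩)
    (fun i j hij => by
      rw [disjoint_iff_inf_le]
      intro u v h
      exact hd i j hij _ _ h.1.2 h.2.2)
    (fun i => by
      rw [disjoint_iff_inf_le]
      intro u v h
      exact hd0 i _ _ h.1.2 h.2.2)
    (fun j => by
      obtain ⟨u, v, h1, h2⟩ := hne j
      exact ⟨u, v, h1, h2⟩)
    (fun j u v u' v' h1 h2 => htr j u v u' v' h1.1 h2.1 h1.2 h2.2)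
    (by
      have h1 : 2 * ∑ j, Nat.card (PGr prt (O j)).edgeSet = ∑ j, cnt s (O j) := by
        rw [Finset.mul_sum]
        exact Finset.sum_congr rfl fun j _ => card_PGr prt s hf (O j)
      omega)
  rw [← key]
  refine Finset.sum_congr rfl fun I _ => ?_
  congr 1
  rw [PGr_sup]
  unfold hv
  by_cases h : PV P V (PGr prt (addP Γ O I))
  · rw [if_pos h, if_pos ((PV_PGr prt s hf hP _).1 h)]
  · rw [if_neg h, if_neg (fun h' => h ((PV_PGr prt s hf hP _).2 h'))]

end

/-- the value depends only on the symmetric pattern -/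
theorem hv_congr {n q : ℕ} {P : SimpleGraph (Fin n) → Prop} (hP : GP n q P) {N : ℕ}
    (s : Fin N → ℕ) (Γ Γ' : Fin N → Fin N → Bool) (h : ∀ a b, ad Γ a b = ad Γ' a b) :
    hv P s Γ = hv P s Γ' := by
  have : BU s Γ = BU s Γ' := by
    ext u v
    simp only [BU]
    have h1 := h u.1 v.1
    simp only [ad] at h1
    rw [Bool.eq_iff_iff] at h1
    simp only [Bool.or_eq_true] at h1
    rw [h1]
  unfold hv
  rw [this]

/-- merging parts with the same neighbours -/
theorem hv_merge {n q : ℕ} {P : SimpleGraph (Fin n) → Prop} (hP : GP n q P) {N M : ℕ}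
    (s : Fin N → ℕ) (s' : Fin M → ℕ) (μ : Fin N → Fin M)
    (hs : ∀ j, ∑ i, (if μ i = j then s i else 0) = s' j)
    (Γ : Fin N → Fin N → Bool) (Γ' : Fin M → Fin M → Bool)
    (h : ∀ a b, ad Γ a b = ad Γ' (μ a) (μ b)) : hv P s Γ = hv P s' Γ' := by
  apply le_antisymm
  · refine emb hP s s' Γ Γ' (fun i a => if μ i = a then s i else 0) (fun i => ?_) hs ?_
    · rw [Finset.sum_ite_eq, if_pos (Finset.mem_univ _)]
    · intro i j a b hij hia hjb
      have h1 : μ i = a := by
        by_contra hne
        exact hia (if_neg hne)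
      have h2 : μ j = b := by
        by_contra hne
        exact hjb (if_neg hne)
      have h3 : ad Γ i j = true := by
        unfold ad
        rcases hij with h4 | h4 <;> simp [h4]
      rw [h, h1, h2] at h3
      unfold ad at h3
      simpa using h3
  · refine emb hP s' s Γ' Γ (fun a i => if μ i = a then s i else 0) hs (fun i => ?_) ?_
    · rw [Finset.sum_ite_eq, if_pos (Finset.mem_univ _)]
    · intro a b i j hab hia hjb
      have h1 : μ i = a := by
        by_contra hne
        exact hia (if_neg hne)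
      have h2 : μ j = b := by
        by_contra hne
        exact hjb (if_neg hne)
      have h3 : ad Γ' a b = true := by
        unfold ad
        rcases hab with h4 | h4 <;> simp [h4]
      rw [← h1, ← h2, ← h] at h3
      unfold ad at h3
      simpa using h3

end Pool.Agent.H8.KA
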