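import Mathlib
import Pool.Agent.H8.KA.Gen

set_option autoImplicit false

/-!
MP_257582_lc (helper8): relation E1: five blocks of prime size `p` permuted by `π`, two fixed parts
of sizes `s` and `r`.
-/

namespace Pool.Agent.H8.KA

open Finset
open Pool.Agent.H98R2.Ev (EV toG NE)
open Pool.Agent.H119R2.Kp
open Pool.Agent.W5h78.Karp (ad ad_comm addP cnt VV tr tr_inl tr_inr rc rc_inl rc_inr mm mc mm_mc
  tr_comm tr_pow tr_zero conj tr_mem trans2 trans3 GG)

/-- sizes of the seven parts -/
def sz7 (s r p : ℕ) : Fin 7 → ℕ := Fin.cons s (Fin.cons r (fun _ => p))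

/-- part of a vertex: the fixed vertices are split into parts `0` and `1` -/
def prt7 {s r p : ℕ} : VV 5 (s + r) p → Fin 7
  | .inl a => if a.val < s then 0 else 1
  | .inr (i, _) => i.succ.succ

theorem fib7 {s r p : ℕ} [NeZero p] (A : Fin 7) :
    Nat.card {w : VV 5 (s + r) p // prt7 w = A} = sz7 s r p A := by
  refine Fin.cases ?_ (fun B => Fin.cases ?_ (fun B => ?_) B) A
  · have e : {w : VV 5 (s + r) p // prt7 w = 0} ≃ Fin s :=
      { toFun := fun w => match w with
          | ⟨Sum.inl a, h⟩ => ⟨a.val, by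
              by_contra hh
              simp only [prt7, if_neg hh] at h
              exact absurd h (by decide)⟩
          | ⟨Sum.inr (b, _), h⟩ => absurd h (by
              simp only [prt7]; exact Fin.succ_ne_zero _)
        invFun := fun a => ⟨Sum.inl ⟨a.val, by omega⟩, by simp [prt7, a.2]⟩
        left_inv := by
          rintro ⟨a | ⟨b, u⟩, h⟩
          · rfl
          · exact absurd h (by simp only [prt7]; exact Fin.succ_ne_zero _)
        right_inv := fun a => rfl }
    rw [Nat.card_congr e, Nat.card_fin]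
    rfl
  · have e : {w : VV 5 (s + r) p // prt7 w = (Fin.succ 0 : Fin 7)} ≃ Fin r :=
      { toFun := fun w => match w with
          | ⟨Sum.inl a, h⟩ => ⟨a.val - s, by
              by_cases hh : a.val < s
              · simp only [prt7, if_pos hh] at h
                exact absurd h (by decide)
              · have := a.2
                omega⟩
          | ⟨Sum.inr (b, _), h⟩ => absurd (Fin.succ_injective _
              (show (b.succ.succ : Fin 7) = Fin.succ 0 from h)) (Fin.succ_ne_zero _)
        invFun := fun a => ⟨Sum.inl ⟨s + a.val, by omega⟩, by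
          have : ¬ (s + a.val < s) := by omega
          simp [prt7, this]⟩
        left_inv := by
          rintro ⟨a | ⟨b, u⟩, h⟩
          · have hh : ¬ a.val < s := by
              intro hh
              simp only [prt7, if_pos hh] at h
              exact absurd h (by decide)
            apply Subtype.ext
            simp only
            congr 1
            apply Fin.ext
            simp only
            omega
          · exact absurd (Fin.succ_injective _
              (show (b.succ.succ : Fin 7) = Fin.succ 0 from h)) (Fin.succ_ne_zero _)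
        right_inv := fun a => by
          apply Fin.ext
          simp }
    rw [Nat.card_congr e, Nat.card_fin]
    rfl
  · have e : {w : VV 5 (s + r) p // prt7 w = B.succ.succ} ≃ ZMod p :=
      { toFun := fun w => match w with
          | ⟨Sum.inl a, _⟩ => 0
          | ⟨Sum.inr (_, u), _⟩ => u
        invFun := fun u => ⟨Sum.inr (B, u), rfl⟩
        left_inv := by
          rintro ⟨a | ⟨b', u⟩, h⟩
          · simp only [prt7] at h
            split_ifs at h
            · exact absurd h.symm (Fin.succ_ne_zero _)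
            · have : (Fin.succ 0 : Fin 7) = B.succ.succ := h
              exact absurd (Fin.succ_injective _ this).symm (Fin.succ_ne_zero _)
          · simp only [prt7] at h
            have := Fin.succ_injective _ (Fin.succ_injective _ h)
            subst this
            rfl
        right_inv := fun a => rfl }
    rw [Nat.card_congr e, Nat.card_zmod]
    rfl

/-- permutation of the parts -/
def pip7 (π : Equiv.Perm (Fin 5)) : Fin 7 → Fin 7 :=
  Fin.cases 0 (Fin.cases 1 (fun i => (π i).succ.succ))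

theorem prt7_tr {s r p : ℕ} (b : Fin 5) (t : ZMod p) (w : VV 5 (s + r) p) :
    prt7 (tr b t w) = prt7 w := by
  rcases w with a | ⟨b', u⟩ <;> rfl

theorem prt7_rc {s r p : ℕ} (π : Equiv.Perm (Fin 5)) (m : Fin 5 → (ZMod p)ˣ)
    (w : VV 5 (s + r) p) : prt7 (rc π m w) = pip7 π (prt7 w) := by
  rcases w with a | ⟨i, u⟩
  · simp only [rc_inl, prt7]
    split_ifs <;> rfl
  · rfl

/-- the relation -/
theorem relE1 {n q : ℕ} {P : SimpleGraph (Fin n) → Prop} (hP : GP n q P) (s r p : ℕ)
    [hpf : Fact p.Prime] (hp : 2 < p) (hn : s + r + 5 * p = n) (π : Equiv.Perm (Fin 5))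
    (mk : Fin 5 → Bool) (hmk : ∀ i, ∃ t, (π ^ t) i = i ∧ mc π mk t i = 1) {m : ℕ}
    (Γ : Fin 7 → Fin 7 → Bool) (O : Fin m → Fin 7 → Fin 7 → Bool)
    (hΓs : ∀ A B, ad Γ A B = true → ad Γ (pip7 π A) (pip7 π B) = true)
    (hOs : ∀ j A B, ad (O j) A B = true → ad (O j) (pip7 π A) (pip7 π B) = true)
    (hd : ∀ i j, i ≠ j → ∀ A B, ad (O i) A B = true → ad (O j) A B = true → False)
    (hd0 : ∀ i A B, ad Γ A B = true → ad (O i) A B = true → False)
    (hO : ∀ j, ∃ A B : Fin 5, ad (O j) A.succ.succ B.succ.succ = true)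
    (hO0 : ∀ j A B, ad (O j) A B = true → A ≠ 0 ∧ A ≠ 1 ∧ B ≠ 0 ∧ B ≠ 1)
    (htr : ∀ j (A B A' B' : Fin 5), ad (O j) A.succ.succ B.succ.succ = true →
      ad (O j) A'.succ.succ B'.succ.succ = true →
      ∃ t : ℕ, ((π ^ t) A = A' ∧ (π ^ t) B = B') ∨ ((π ^ t) A = B' ∧ (π ^ t) B = A'))
    (hq : 2 * q < ∑ j, cnt (sz7 s r p) (O j)) :
    ∑ I : Finset (Fin m), (-1 : ℤ) ^ I.card * hv P (sz7 s r p) (addP Γ O I) = 0 := by
  classical
  have hp0 : NeZero p := ⟨by omega⟩
  obtain ⟨μ, hμ⟩ := IsCyclic.exists_generator (α := (ZMod p)ˣ)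
  set mu : Fin 5 → (ZMod p)ˣ := fun b => if mk b then μ else 1 with hmu
  have hm : ∀ i, ∃ t, (π ^ t) i = i ∧ mm π mu t i = μ := by
    intro i
    obtain ⟨t, h1, h2⟩ := hmk i
    exact ⟨t, h1, by rw [hmu, mm_mc, h2, pow_one]⟩
  have hcard : Fintype.card (VV 5 (s + r) p) = n := by
    rw [Fintype.card_sum, Fintype.card_prod, ZMod.card, Fintype.card_fin, Fintype.card_fin, hn]
  refine relGen (V := VV 5 (s + r) p) prt7 (sz7 s r p) fib7 hP hcard p
    (fun b : Fin 5 => tr b 1) (rc π mu)
    (fun i j => tr_comm i j 1 1) (fun b => ?_) (fun i => ?_) (fun b w => prt7_tr b 1 w)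
    (pip7 π) (fun w => prt7_rc π mu w) Γ O hΓs hOs hd hd0 (fun j => ?_) ?_ hq
  · rw [tr_pow]
    simp [tr_zero]
  · obtain ⟨j, rfl⟩ := π.surjective i
    show _ * tr (π j) 1 * _ ∈ _
    rw [conj]
    exact tr_mem _ _
  · obtain ⟨A, B, hAB⟩ := hO j
    by_cases hA : A = B
    · subst hA
      refine ⟨Sum.inr (A, 0), Sum.inr (A, 1), ?_, hAB⟩
      have : Fact (1 < p) := ⟨by omega⟩
      intro h
      have h2 := congrArg (fun w : VV 5 (s + r) p => match w with
        | .inl _ => (0 : ZMod p)
        | .inr (_, u) => u) h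
      exact zero_ne_one h2
    · refine ⟨Sum.inr (A, 0), Sum.inr (B, 0), ?_, hAB⟩
      intro h
      apply hA
      have h2 : (A.succ.succ : Fin 7) = B.succ.succ :=
        congrArg (fun w : VV 5 (s + r) p => prt7 w) h
      exact Fin.succ_injective _ (Fin.succ_injective _ h2)
  · intro j u v u' v' huv huv' h h'
    have hinl : ∀ (a : Fin (s + r)), prt7 (Sum.inl a : VV 5 (s + r) p) = 0 ∨
        prt7 (Sum.inl a : VV 5 (s + r) p) = 1 := by
      intro a
      simp only [prt7]
      split_ifs
      · exact Or.inl rfl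
      · exact Or.inr rfl
    rcases u with u | ⟨A, a⟩
    · rcases hinl u with h1 | h1
      · exact absurd h1 (hO0 j _ _ h).1
      · exact absurd h1 (hO0 j _ _ h).2.1
    rcases v with v | ⟨B, b⟩
    · rcases hinl v with h1 | h1
      · exact absurd h1 (hO0 j _ _ h).2.2.1
      · exact absurd h1 (hO0 j _ _ h).2.2.2
    rcases u' with u' | ⟨A', a'⟩
    · rcases hinl u' with h1 | h1
      · exact absurd h1 (hO0 j _ _ h').1
      · exact absurd h1 (hO0 j _ _ h').2.1
    rcases v' with v' | ⟨B', b'⟩
    · rcases hinl v' with h1 | h1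
      · exact absurd h1 (hO0 j _ _ h').2.2.1
      · exact absurd h1 (hO0 j _ _ h').2.2.2
    obtain ⟨t, ht⟩ := htr j A B A' B' h h'
    by_cases hAB : A = B
    · subst hAB
      have hab : a ≠ b := fun hh => huv (by rw [hh])
      have e1 : A' = B' := by
        rcases ht with ⟨h1, h2⟩ | ⟨h1, h2⟩
        · rw [← h1, ← h2]
        · rw [← h1, ← h2]
      subst e1
      have hab' : a' ≠ b' := fun hh => huv' (by rw [hh])
      have e2 : (π ^ t) A = A' := by
        rcases ht with ⟨h1, h2⟩ | ⟨h1, h2⟩ <;> exact h1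
      obtain ⟨g, hg, g1, g2⟩ := trans3 (r := s + r) π mu μ hμ hm A a b hab t a' b' hab'
      rw [e2] at g1 g2
      exact ⟨g, hg, Or.inl ⟨g1, g2⟩⟩
    · rcases ht with ⟨h1, h2⟩ | ⟨h1, h2⟩
      · obtain ⟨g, hg, g1, g2⟩ := trans2 (r := s + r) π mu A B hAB a b t a' b'
        rw [h1] at g1
        rw [h2] at g2
        exact ⟨g, hg, Or.inl ⟨g1, g2⟩⟩
      · obtain ⟨g, hg, g1, g2⟩ := trans2 (r := s + r) π mu A B hAB a b t b' a'
        rw [h1] at g1
        rw [h2] at g2
        exact ⟨g, hg, Or.inr ⟨g1, g2⟩⟩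

end Pool.Agent.H8.KA
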