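import Mathlib
import Pool.Agent.H8.KA.Gen

set_option autoImplicit false

/-!
MP_257582_lc (helper8): relations E2, E3: one block `X` of prime size `Q`, on which the affine group
acts, and other parts which are permuted cyclically.
-/

namespace Pool.Agent.H8.KA

open Finset
open Pool.Agent.H98R2.Ev (EV toG NE)
open Pool.Agent.H119R2.Kp
open Pool.Agent.W5h78.Karp (ad ad_comm addP cnt)

namespace EX

variable {Q : ℕ} {W : Type}

/-- translation of `X` by `t` -/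
def tX (t : ZMod Q) : Equiv.Perm (ZMod Q ⊕ W) := Equiv.sumCongr (Equiv.addRight t) (Equiv.refl _)

@[simp] theorem tX_inl (t x : ZMod Q) : tX t (Sum.inl x : ZMod Q ⊕ W) = Sum.inl (x + t) := rfl

@[simp] theorem tX_inr (t : ZMod Q) (w : W) : tX t (Sum.inr w : ZMod Q ⊕ W) = Sum.inr w := rfl

theorem tX_pow (t : ℕ) : (tX 1 : Equiv.Perm (ZMod Q ⊕ W)) ^ t = tX (t : ZMod Q) := by
  induction t with
  | zero =>
    ext w
    rcases w with x | w <;> simp
  | succ t ih =>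
    rw [pow_succ, ih]
    ext w
    rcases w with x | w
    · simp [Equiv.Perm.mul_apply, add_comm, add_left_comm]
    · simp [Equiv.Perm.mul_apply]

/-- the cyclic generator -/
def cX (ζ : (ZMod Q)ˣ) (ρ : Equiv.Perm W) : Equiv.Perm (ZMod Q ⊕ W) :=
  Equiv.sumCongr (Units.mulLeft ζ) ρ

@[simp] theorem cX_inl (ζ : (ZMod Q)ˣ) (ρ : Equiv.Perm W) (x : ZMod Q) :
    cX ζ ρ (Sum.inl x : ZMod Q ⊕ W) = Sum.inl (ζ * x) := rfl

@[simp] theorem cX_inr (ζ : (ZMod Q)ˣ) (ρ : Equiv.Perm W) (w : W) :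
    cX ζ ρ (Sum.inr w : ZMod Q ⊕ W) = Sum.inr (ρ w) := rfl

theorem cX_pow_inl (ζ : (ZMod Q)ˣ) (ρ : Equiv.Perm W) (k : ℕ) (x : ZMod Q) :
    (cX ζ ρ ^ k) (Sum.inl x : ZMod Q ⊕ W) = Sum.inl ((ζ : ZMod Q) ^ k * x) := by
  induction k with
  | zero => simp
  | succ k ih => rw [pow_succ', Equiv.Perm.mul_apply, ih, cX_inl, pow_succ', mul_assoc]

theorem cX_pow_inr (ζ : (ZMod Q)ˣ) (ρ : Equiv.Perm W) (k : ℕ) (w : W) :
    (cX ζ ρ ^ k) (Sum.inr w : ZMod Q ⊕ W) = Sum.inr ((ρ ^ k) w) := by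
  induction k with
  | zero => simp
  | succ k ih => rw [pow_succ', Equiv.Perm.mul_apply, ih, cX_inr, pow_succ', Equiv.Perm.mul_apply]

/-- the group -/
def GX (ζ : (ZMod Q)ˣ) (ρ : Equiv.Perm W) : Subgroup (Equiv.Perm (ZMod Q ⊕ W)) :=
  Subgroup.closure (insert (cX ζ ρ) (Set.range (fun _ : Unit => tX 1)))

theorem tX_mem [NeZero Q] (t : ZMod Q) :
    (tX t : Equiv.Perm (ZMod Q ⊕ W)) ∈
      Subgroup.closure (Set.range (fun _ : Unit => (tX 1 : Equiv.Perm (ZMod Q ⊕ W)))) := by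
  have h : (tX t : Equiv.Perm (ZMod Q ⊕ W)) = (tX 1) ^ t.val := by
    rw [tX_pow, ZMod.natCast_zmod_val]
  rw [h]
  exact Subgroup.pow_mem _ (Subgroup.subset_closure (Set.mem_range_self
    (f := fun _ : Unit => (tX 1 : Equiv.Perm (ZMod Q ⊕ W))) ())) _

theorem memG [NeZero Q] (ζ : (ZMod Q)ˣ) (ρ : Equiv.Perm W) (t : ZMod Q) (k : ℕ) :
    tX t * cX ζ ρ ^ k ∈ GX ζ ρ :=
  Subgroup.mul_mem _ (Subgroup.closure_mono (Set.subset_insert _ _) (tX_mem t))
    (Subgroup.pow_mem _ (Subgroup.subset_closure (Set.mem_insert _ _)) _)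

theorem conjX (ζ : (ZMod Q)ˣ) (ρ : Equiv.Perm W) :
    (cX ζ ρ)⁻¹ * tX 1 * cX ζ ρ = tX ((ζ⁻¹ : (ZMod Q)ˣ) : ZMod Q) := by
  rw [mul_assoc, inv_mul_eq_iff_eq_mul]
  ext w
  rcases w with x | w
  · simp [Equiv.Perm.mul_apply, mul_add]
  · simp [Equiv.Perm.mul_apply]

theorem trXX [Fact Q.Prime] (ζ : (ZMod Q)ˣ) (hζ : ∀ x, x ∈ Subgroup.zpowers ζ)
    (ρ : Equiv.Perm W) (u v u' v' : ZMod Q) (h : u ≠ v) (h' : u' ≠ v') :
    ∃ g ∈ GX ζ ρ, g (Sum.inl u) = Sum.inl u' ∧ g (Sum.inl v) = Sum.inl v' := by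
  have : NeZero Q := ⟨(Fact.out : Q.Prime).ne_zero⟩
  have hd : u - v ≠ 0 := sub_ne_zero.2 h
  have hd' : u' - v' ≠ 0 := sub_ne_zero.2 h'
  obtain ⟨k, hk⟩ : ∃ k : ℕ, ζ ^ k = Units.mk0 (u' - v') hd' / Units.mk0 (u - v) hd := by
    have := hζ (Units.mk0 (u' - v') hd' / Units.mk0 (u - v) hd)
    rwa [← mem_powers_iff_mem_zpowers] at this
  have hk' : (ζ : ZMod Q) ^ k * (u - v) = u' - v' := by
    have h1 := congrArg (fun x : (ZMod Q)ˣ => (x : ZMod Q)) hk
    simp only [Units.val_pow_eq_pow_val, Units.val_div_eq_div_val, Units.val_mk0] at h1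
    rw [h1]
    field_simp
  refine ⟨tX (u' - (ζ : ZMod Q) ^ k * u) * cX ζ ρ ^ k, memG _ _ _ _, ?_, ?_⟩
  · rw [Equiv.Perm.mul_apply, cX_pow_inl, tX_inl]
    congr 1
    ring
  · rw [Equiv.Perm.mul_apply, cX_pow_inl, tX_inl]
    congr 1
    linear_combination -hk'

theorem trXC [NeZero Q] (ζ : (ZMod Q)ˣ) (ρ : Equiv.Perm W) (x x' : ZMod Q) (w w' : W) (k : ℕ)
    (hk : (ρ ^ k) w = w') :
    ∃ g ∈ GX ζ ρ, g (Sum.inl x) = Sum.inl x' ∧ g (Sum.inr w) = Sum.inr w' := by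
  refine ⟨tX (x' - (ζ : ZMod Q) ^ k * x) * cX ζ ρ ^ k, memG _ _ _ _, ?_, ?_⟩
  · rw [Equiv.Perm.mul_apply, cX_pow_inl, tX_inl]
    congr 1
    ring
  · rw [Equiv.Perm.mul_apply, cX_pow_inr, tX_inr, hk]

/-- the part function -/
def prtX {M : ℕ} (prtW : W → Fin M) : ZMod Q ⊕ W → Fin (M + 1)
  | .inl _ => 0
  | .inr w => (prtW w).succ

/-- sizes -/
def szX {M : ℕ} (Q : ℕ) (szW : Fin M → ℕ) : Fin (M + 1) → ℕ := Fin.cons Q szW

theorem fibX [NeZero Q] {M : ℕ} (prtW : W → Fin M) (szW : Fin M → ℕ)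
    (hfW : ∀ A, Nat.card {w : W // prtW w = A} = szW A) (A : Fin (M + 1)) :
    Nat.card {w : ZMod Q ⊕ W // prtX prtW w = A} = szX Q szW A := by
  refine Fin.cases ?_ (fun B => ?_) A
  · have e : {w : ZMod Q ⊕ W // prtX prtW w = 0} ≃ ZMod Q :=
      { toFun := fun w => match w with
          | ⟨Sum.inl a, _⟩ => a
          | ⟨Sum.inr b, h⟩ => absurd h (Fin.succ_ne_zero _)
        invFun := fun a => ⟨Sum.inl a, rfl⟩
        left_inv := by
          rintro ⟨a | b, h⟩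
          · rfl
          · exact absurd h (Fin.succ_ne_zero _)
        right_inv := fun a => rfl }
    rw [Nat.card_congr e, Nat.card_zmod]
    rfl
  · have e : {w : ZMod Q ⊕ W // prtX prtW w = B.succ} ≃ {w : W // prtW w = B} :=
      { toFun := fun w => match w with
          | ⟨Sum.inl a, h⟩ => absurd h.symm (Fin.succ_ne_zero _)
          | ⟨Sum.inr b, h⟩ => ⟨b, Fin.succ_injective _ h⟩
        invFun := fun w => ⟨Sum.inr w.1, by simp [prtX, w.2]⟩
        left_inv := by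
          rintro ⟨a | b, h⟩
          · exact absurd h.symm (Fin.succ_ne_zero _)
          · rfl
        right_inv := fun a => rfl }
    rw [Nat.card_congr e, hfW]
    rfl

/-- the classes: pairs inside `X` (`none`) or pairs between `X` and part `i` (`some i`) -/
def OX {M : ℕ} : Option (Fin M) → Fin (M + 1) → Fin (M + 1) → Bool
  | none => fun a b => decide (a = 0) && decide (b = 0)
  | some i => fun a b => decide (a = 0) && decide (b = i.succ)

theorem OX_none {M : ℕ} (a b : Fin (M + 1)) :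
    ad (OX (none : Option (Fin M))) a b = true ↔ a = 0 ∧ b = 0 := by
  simp only [ad, OX, Bool.or_eq_true, Bool.and_eq_true, decide_eq_true_eq]
  constructor
  · rintro (h | h)
    · exact h
    · exact ⟨h.2, h.1⟩
  · exact Or.inl

theorem OX_some {M : ℕ} (i : Fin M) (a b : Fin (M + 1)) :
    ad (OX (some i)) a b = true ↔ (a = 0 ∧ b = i.succ) ∨ (b = 0 ∧ a = i.succ) := by
  simp only [ad, OX, Bool.or_eq_true, Bool.and_eq_true, decide_eq_true_eq]

end EX

open EX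

/-- the relation with an affine block -/
theorem relX {n q : ℕ} {P : SimpleGraph (Fin n) → Prop} (hP : GP n q P) (Q : ℕ) [Fact Q.Prime]
    {W : Type} [Fintype W] [DecidableEq W] {M : ℕ} (prtW : W → Fin M) (szW : Fin M → ℕ)
    (hfW : ∀ A, Nat.card {w : W // prtW w = A} = szW A) (ρ : Equiv.Perm W)
    (hρ : ∀ w, prtW (ρ w) = prtW w) (hn : Q + Fintype.card W = n)
    {m : ℕ} (cl : Fin m → Option (Fin M)) (hcl : Function.Injective cl)
    (hT : ∀ j i, cl j = some i → (∃ w, prtW w = i) ∧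
      ∀ w w', prtW w = i → prtW w' = i → ∃ t : ℕ, (ρ ^ t) w = w')
    (Γ : Fin (M + 1) → Fin (M + 1) → Bool)
    (hd0 : ∀ i A B, ad Γ A B = true → ad (OX (cl i)) A B = true → False)
    (hq : 2 * q < ∑ j, cnt (szX Q szW) (OX (cl j))) :
    ∑ I : Finset (Fin m), (-1 : ℤ) ^ I.card *
      hv P (szX Q szW) (addP Γ (fun j => OX (cl j)) I) = 0 := by
  classical
  have hQ : Q.Prime := Fact.out
  have : NeZero Q := ⟨hQ.ne_zero⟩
  obtain ⟨ζ, hζ⟩ := IsCyclic.exists_generator (α := (ZMod Q)ˣ)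
  have hcard : Fintype.card (ZMod Q ⊕ W) = n := by
    rw [Fintype.card_sum, ZMod.card, hn]
  have hpc : ∀ w, prtX prtW (cX ζ ρ w) = id (prtX prtW w) := by
    rintro (x | w)
    · rfl
    · simp [prtX, hρ]
  refine relGen (V := ZMod Q ⊕ W) (prtX prtW) (szX Q szW) (fibX prtW szW hfW) hP hcard Q
    (fun _ : Unit => tX 1) (cX ζ ρ) (fun i j => rfl) (fun b => ?_) (fun i => ?_)
    (fun b w => ?_) id hpc Γ (fun j => OX (cl j)) (fun _ _ h => h) (fun _ _ _ h => h) ?_ hd0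
    (fun j => ?_) ?_ hq
  · rw [tX_pow]
    ext w
    rcases w with x | w <;> simp
  · rw [conjX]
    exact tX_mem _
  · rcases w with x | w <;> rfl
  · intro i j hij A B h1 h2
    have hne : cl i ≠ cl j := fun h => hij (hcl h)
    rcases h3 : cl i with _ | x <;> rcases h4 : cl j with _ | y <;> simp only [h3, h4] at h1 h2 hne
    · exact hne rfl
    · rw [OX_none] at h1
      rw [OX_some] at h2
      obtain ⟨rfl, rfl⟩ := h1
      rcases h2 with ⟨-, h2⟩ | ⟨-, h2⟩ <;> exact absurd h2.symm (Fin.succ_ne_zero _)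
    · rw [OX_none] at h2
      rw [OX_some] at h1
      obtain ⟨rfl, rfl⟩ := h2
      rcases h1 with ⟨-, h1⟩ | ⟨-, h1⟩ <;> exact absurd h1.symm (Fin.succ_ne_zero _)
    · rw [OX_some] at h1 h2
      rcases h1 with ⟨h5, h6⟩ | ⟨h5, h6⟩ <;> rcases h2 with ⟨h7, h8⟩ | ⟨h7, h8⟩
      · rw [h6] at h8
        exact hne (by rw [Fin.succ_injective _ h8])
      · rw [h6] at h7
        exact Fin.succ_ne_zero _ h7
      · rw [h6] at h7
        exact Fin.succ_ne_zero _ h7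
      · rw [h6] at h8
        exact hne (by rw [Fin.succ_injective _ h8])
  · rcases h3 : cl j with _ | x
    · refine ⟨Sum.inl 0, Sum.inl 1, ?_, ?_⟩
      · have : Fact (1 < Q) := ⟨hQ.one_lt⟩
        intro h
        exact zero_ne_one (Sum.inl_injective h)
      · rw [OX_none]
        exact ⟨rfl, rfl⟩
    · obtain ⟨⟨w, hw⟩, -⟩ := hT j x h3
      refine ⟨Sum.inl 0, Sum.inr w, Sum.inl_ne_inr, ?_⟩
      rw [OX_some]
      exact Or.inl ⟨rfl, by simp [prtX, hw]⟩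
  · intro j u v u' v' huv huv' h h'
    change ∃ g ∈ GX ζ ρ, _
    rcases h3 : cl j with _ | x
    · rw [h3, OX_none] at h h'
      rcases u with u | u
      swap
      · exact absurd h.1 (Fin.succ_ne_zero _)
      rcases v with v | v
      swap
      · exact absurd h.2 (Fin.succ_ne_zero _)
      rcases u' with u' | u'
      swap
      · exact absurd h'.1 (Fin.succ_ne_zero _)
      rcases v' with v' | v'
      swap
      · exact absurd h'.2 (Fin.succ_ne_zero _)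
      obtain ⟨g, hg, h1, h2⟩ := trXX ζ hζ ρ u v u' v' (fun hh => huv (by rw [hh]))
        (fun hh => huv' (by rw [hh]))
      exact ⟨g, hg, Or.inl ⟨h1, h2⟩⟩
    · obtain ⟨-, ht⟩ := hT j x h3
      rw [h3, OX_some] at h h'
      -- normal form: one end in `X`, the other in part `x`
      have key : ∀ a b : ZMod Q ⊕ W, prtX prtW a = 0 → prtX prtW b = x.succ →
          ∃ y w, a = Sum.inl y ∧ b = Sum.inr w ∧ prtW w = x := by
        intro a b ha hb
        rcases a with y | y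
        swap
        · exact absurd ha (Fin.succ_ne_zero _)
        rcases b with w | w
        · exact absurd hb.symm (Fin.succ_ne_zero _)
        exact ⟨y, w, rfl, rfl, Fin.succ_injective _ hb⟩
      rcases h with ⟨h1, h2⟩ | ⟨h1, h2⟩ <;> rcases h' with ⟨h3', h4⟩ | ⟨h3', h4⟩
      · obtain ⟨y, w, rfl, rfl, hw⟩ := key _ _ h1 h2
        obtain ⟨y', w', rfl, rfl, hw'⟩ := key _ _ h3' h4
        obtain ⟨t, ht'⟩ := ht w w' hw hw'
        obtain ⟨g, hg, g1, g2⟩ := trXC ζ ρ y y' w w' t ht'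
        exact ⟨g, hg, Or.inl ⟨g1, g2⟩⟩
      · obtain ⟨y, w, rfl, rfl, hw⟩ := key _ _ h1 h2
        obtain ⟨y', w', rfl, rfl, hw'⟩ := key _ _ h3' h4
        obtain ⟨t, ht'⟩ := ht w w' hw hw'
        obtain ⟨g, hg, g1, g2⟩ := trXC ζ ρ y y' w w' t ht'
        exact ⟨g, hg, Or.inr ⟨g1, g2⟩⟩
      · obtain ⟨y, w, rfl, rfl, hw⟩ := key _ _ h1 h2
        obtain ⟨y', w', rfl, rfl, hw'⟩ := key _ _ h3' h4
        obtain ⟨t, ht'⟩ := ht w w' hw hw'
        obtain ⟨g, hg, g1, g2⟩ := trXC ζ ρ y y' w w' t ht'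
        exact ⟨g, hg, Or.inr ⟨g2, g1⟩⟩
      · obtain ⟨y, w, rfl, rfl, hw⟩ := key _ _ h1 h2
        obtain ⟨y', w', rfl, rfl, hw'⟩ := key _ _ h3' h4
        obtain ⟨t, ht'⟩ := ht w w' hw hw'
        obtain ⟨g, hg, g1, g2⟩ := trXC ζ ρ y y' w w' t ht'
        exact ⟨g, hg, Or.inl ⟨g2, g1⟩⟩

end Pool.Agent.H8.KA
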