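import Mathlib
import Pool.Agent.H8.KA.E1
import Pool.Agent.H8.KA.EX

set_option autoImplicit false

/-!
MP_257582_lc (helper8): the facts about the values of a property on patterns with seven parts
(part `0` = `G` of size `s`, part `1` = `F` of size `r`, parts `2, …, 6` of size `p`), coded by masks.
-/

namespace Pool.Agent.H8.KA

open Finset
open Pool.Agent.H98R2.Ev (EV toG NE)
open Pool.Agent.H119R2.Kp
open Pool.Agent.W5h78.Karp (ad ad_comm addP cnt)

/-- pattern of a mask: bit `7 a + b` says that parts `a` and `b` are joined -/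
def pK (g : ℕ) : Fin 7 → Fin 7 → Bool := fun a b => g.testBit (7 * a.val + b.val)

/-- the parts `a`, `b` are joined in the mask `g` -/
def ag (g : ℕ) (a b : Fin 7) : Bool := ad (pK g) a b

/-- value of `P` on the pattern of the mask -/
noncomputable def fK {n : ℕ} (P : SimpleGraph (Fin n) → Prop) (s r p : ℕ) (g : ℕ) : ℤ :=
  hv P (sz7 s r p) (pK g)

/-- alternating sum over all sub-unions of the list -/
def altO (f : ℕ → ℤ) : List ℕ → ℕ → ℤ
  | [], g => f g
  | w :: ws, g => altO f ws g - altO f ws (g ||| w)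

/-- union of a list of masks -/
def orL : List ℕ → ℕ
  | [] => 0
  | w :: ws => w ||| orL ws

/-! ### Embeddings -/

/-- support of the transport: `G` goes to part `d0`, `F` goes to part `d1` -/
def tm (d0 d1 i a : Fin 7) : Bool :=
  if i = 0 then decide (a = d0)
  else if i = 1 then (if d0 = 1 then decide (a = 0) || decide (a = 1) else decide (a = d1))
  else decide (a = i) || (decide (a = 0) && decide (d0 = i)) || (decide (a = 1) && decide (d1 = i))

/-- the transport -/
def TT (s r p : ℕ) (d0 d1 i a : Fin 7) : ℕ :=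
  if i = 0 then (if a = d0 then s else 0)
  else if i = 1 then (if d0 = 1 then (if a = 0 then s else if a = 1 then r - s else 0) else
    (if a = d1 then r else 0))
  else (if a = i then p - ((if d0 = i then s else 0) + (if d1 = i then r else 0)) else
    if a = 0 then (if d0 = i then s else 0) else if a = 1 then (if d1 = i then r else 0) else 0)

theorem TT_supp (s r p : ℕ) (d0 d1 i a : Fin 7) (h : TT s r p d0 d1 i a ≠ 0) :
    tm d0 d1 i a = true := by
  unfold TT at h
  unfold tm
  by_cases h1 : i = 0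
  · rw [if_pos h1] at h ⊢
    by_cases h2 : a = d0
    · simp [h2]
    · exact absurd (if_neg h2) h
  · rw [if_neg h1] at h ⊢
    by_cases h2 : i = 1
    · rw [if_pos h2] at h ⊢
      by_cases h3 : d0 = 1
      · rw [if_pos h3] at h ⊢
        by_cases h4 : a = 0
        · simp [h4]
        · by_cases h5 : a = 1
          · simp [h5]
          · rw [if_neg h4, if_neg h5] at h
            exact absurd rfl h
      · rw [if_neg h3] at h ⊢
        by_cases h4 : a = d1
        · simp [h4]
        · exact absurd (if_neg h4) h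
    · rw [if_neg h2] at h ⊢
      by_cases h3 : a = i
      · simp [h3]
      · rw [if_neg h3] at h
        by_cases h4 : a = 0
        · rw [if_pos h4] at h
          by_cases h5 : d0 = i
          · simp [h4, h5]
          · exact absurd (if_neg h5) h
        · rw [if_neg h4] at h
          by_cases h5 : a = 1
          · rw [if_pos h5] at h
            by_cases h6 : d1 = i
            · simp [h5, h6]
            · exact absurd (if_neg h6) h
          · exact absurd (if_neg h5) h

theorem sz7_0 (s r p : ℕ) : sz7 s r p 0 = s := rfl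
theorem sz7_1 (s r p : ℕ) : sz7 s r p 1 = r := rfl
theorem sz7_b (s r p : ℕ) (i : Fin 7) (h0 : i ≠ 0) (h1 : i ≠ 1) : sz7 s r p i = p := by
  obtain ⟨j, rfl⟩ := Fin.exists_succ_eq.2 h0
  have h2 : j ≠ 0 := fun h => h1 (by rw [h]; rfl)
  obtain ⟨l, rfl⟩ := Fin.exists_succ_eq.2 h2
  rfl

theorem TT_row (s r p : ℕ) (hsr : s ≤ r) (hp : s + r ≤ p) (d0 d1 : Fin 7)
    (h01 : d0 = 1 → d1 = 1) (i : Fin 7) : ∑ a, TT s r p d0 d1 i a = sz7 s r p i := by
  by_cases h1 : i = 0
  · subst h1
    simp [TT, sz7_0]
  · by_cases h2 : i = 1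
    · subst h2
      by_cases h3 : d0 = 1
      · rw [Fin.sum_univ_seven, sz7_1]
        simp [TT, h3]
        omega
      · simp [TT, h3, sz7_1]
    · have key : ∀ a, TT s r p d0 d1 i a =
          (if a = i then p - ((if d0 = i then s else 0) + (if d1 = i then r else 0)) else 0) +
          (if a = 0 then (if d0 = i then s else 0) else 0) +
          (if a = 1 then (if d1 = i then r else 0) else 0) := by
        intro a
        unfold TT
        rw [if_neg h1, if_neg h2]
        by_cases h3 : a = i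
        · have h4 : a ≠ 0 := fun h => h1 (by rw [← h3, h])
          have h5 : a ≠ 1 := fun h => h2 (by rw [← h3, h])
          simp only [if_pos h3, if_neg h4, if_neg h5, Nat.add_zero]
        · by_cases h4 : a = 0
          · have h5 : a ≠ 1 := by rw [h4]; decide
            simp only [if_neg h3, if_pos h4, if_neg h5, Nat.zero_add, Nat.add_zero]
          · simp only [if_neg h3, if_neg h4, Nat.zero_add]
      rw [Finset.sum_congr rfl fun a _ => key a, Finset.sum_add_distrib, Finset.sum_add_distrib,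
        Finset.sum_ite_eq', Finset.sum_ite_eq', Finset.sum_ite_eq', if_pos (mem_univ _),
        if_pos (mem_univ _), if_pos (mem_univ _), sz7_b s r p i h1 h2]
      split_ifs <;> omega

theorem TT_col (s r p : ℕ) (hsr : s ≤ r) (hp : s + r ≤ p) (d0 d1 : Fin 7)
    (h01 : d0 = 1 → d1 = 1) (h10 : d1 ≠ 0) (a : Fin 7) :
    ∑ i, TT s r p d0 d1 i a = sz7 s r p a := by
  rw [Fin.sum_univ_seven]
  have e0 : sz7 s r p 0 = s := rfl
  have e1 : sz7 s r p 1 = r := rfl
  have e2 : sz7 s r p 2 = p := rfl
  have e3 : sz7 s r p 3 = p := rfl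
  have e4 : sz7 s r p 4 = p := rfl
  have e5 : sz7 s r p 5 = p := rfl
  have e6 : sz7 s r p 6 = p := rfl
  fin_cases d0 <;> fin_cases d1 <;> first
    | exact absurd rfl h10
    | exact absurd (h01 rfl) (by decide)
    | (fin_cases a <;> simp [TT, e0, e1, e2, e3, e4, e5, e6] <;> omega)

theorem sz7_perm (s r p : ℕ) (σ : Equiv.Perm (Fin 7)) (h0 : σ 0 = 0) (h1 : σ 1 = 1) (i : Fin 7) :
    sz7 s r p (σ i) = sz7 s r p i := by
  by_cases hi : i = 0
  · rw [hi, h0]
  · by_cases hi' : i = 1
    · rw [hi', h1]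
    · rw [sz7_b s r p i hi hi', sz7_b s r p (σ i) (fun h => hi (σ.injective (h.trans h0.symm)))
        (fun h => hi' (σ.injective (h.trans h1.symm)))]

theorem fK_emb {n q : ℕ} {P : SimpleGraph (Fin n) → Prop} (hP : GP n q P) (s r p : ℕ)
    (hsr : s ≤ r) (hp : s + r ≤ p) (d0 d1 : Fin 7) (h01 : d0 = 1 → d1 = 1) (h10 : d1 ≠ 0)
    (σ : Equiv.Perm (Fin 7)) (hσ0 : σ 0 = 0) (hσ1 : σ 1 = 1) (g g' : ℕ)
    (h : ∀ i j, ag g i j = true → ∀ a, tm d0 d1 i a = true → ∀ b, tm d0 d1 j b = true →
      ag g' (σ a) (σ b) = true) : fK P s r p g ≤ fK P s r p g' := by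
  refine emb hP (sz7 s r p) (sz7 s r p) (pK g) (pK g') (fun i a => TT s r p d0 d1 i (σ.symm a))
    (fun i => ?_) (fun a => ?_) ?_
  · rw [Equiv.sum_comp σ.symm (fun a => TT s r p d0 d1 i a)]
    exact TT_row s r p hsr hp d0 d1 h01 i
  · rw [TT_col s r p hsr hp d0 d1 h01 h10]
    have := sz7_perm s r p σ hσ0 hσ1 (σ.symm a)
    rw [Equiv.apply_symm_apply] at this
    exact this.symm
  · intro i j a b hij hia hjb
    have h1 : ag g i j = true := by
      unfold ag ad
      rcases hij with h4 | h4 <;> simp [h4]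
    have h2 := h i j h1 _ (TT_supp _ _ _ _ _ _ _ hia) _ (TT_supp _ _ _ _ _ _ _ hjb)
    rw [Equiv.apply_symm_apply, Equiv.apply_symm_apply] at h2
    unfold ag ad at h2
    simpa using h2

theorem ad_false {Γ : Fin 7 → Fin 7 → Bool} {a b : Fin 7} (h : ad Γ a b = false) :
    Γ a b = false ∧ Γ b a = false := by
  unfold ad at h
  simpa using h

theorem fK_isol {n q : ℕ} {P : SimpleGraph (Fin n) → Prop} (hP : GP n q P) (hS : Star n P)
    (s r p : ℕ) (hs : 0 < s) (hr : 0 < r) (hp : 0 < p) (g : ℕ) (a : Fin 7)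
    (h : ∀ b, ag g a b = false) : fK P s r p g = 0 := by
  refine hv_isol hP hS (sz7 s r p) (pK g) a ?_ (fun j => ad_false (h j))
  by_cases h0 : a = 0
  · subst h0; exact hs.ne'
  · by_cases h1 : a = 1
    · subst h1; exact hr.ne'
    · rw [sz7_b s r p a h0 h1]; exact hp.ne'

theorem fK_univ {n q : ℕ} {P : SimpleGraph (Fin n) → Prop} (hP : GP n q P) (hS : Star n P)
    (s r p : ℕ) (hs : 0 < s) (hr : 0 < r) (hp : 0 < p) (hn : s + r + 5 * p = n) (g : ℕ) (a : Fin 7)
    (h : ∀ b, ag g a b = true) : fK P s r p g = 1 := by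
  refine hv_univ hP hS (sz7 s r p) ?_ (pK g) a ?_ (fun j => ?_)
  · rw [Fin.sum_univ_succ, Fin.sum_univ_succ]
    simp only [sz7, Fin.cons_zero, Fin.cons_succ, Finset.sum_const, Finset.card_univ,
      Fintype.card_fin, smul_eq_mul]
    omega
  · by_cases h0 : a = 0
    · subst h0; exact hs.ne'
    · by_cases h1 : a = 1
      · subst h1; exact hr.ne'
      · rw [sz7_b s r p a h0 h1]; exact hp.ne'
  · have := h j
    unfold ag ad at this
    simpa using this

end Pool.Agent.H8.KA
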