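import Mathlib
import Pool.Agent.H8.KA.Facts

set_option autoImplicit false

/-!
MP_257582_lc (helper8): the relations for the values on masks.
-/

namespace Pool.Agent.H8.KA

open Finset
open Pool.Agent.H98R2.Ev (EV toG NE)
open Pool.Agent.H119R2.Kp
open Pool.Agent.W5h78.Karp (ad ad_comm addP cnt mc)

/-- the block permutations -/
def pis : ℕ → Equiv.Perm (Fin 5)
  | 1 => ⟨![1, 0, 2, 3, 4], ![1, 0, 2, 3, 4], by decide, by decide⟩
  | 2 => ⟨![1, 0, 3, 2, 4], ![1, 0, 3, 2, 4], by decide, by decide⟩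
  | 3 => ⟨![1, 2, 0, 3, 4], ![2, 0, 1, 3, 4], by decide, by decide⟩
  | 4 => ⟨![1, 2, 0, 4, 3], ![2, 0, 1, 4, 3], by decide, by decide⟩
  | 5 => ⟨![1, 2, 3, 0, 4], ![3, 0, 1, 2, 4], by decide, by decide⟩
  | 6 => ⟨![1, 2, 3, 4, 0], ![4, 0, 1, 2, 3], by decide, by decide⟩
  | _ => ⟨![0, 1, 2, 3, 4], ![0, 1, 2, 3, 4], by decide, by decide⟩

/-- one marked block in every cycle -/
def mks : ℕ → Fin 5 → Bool
  | 1 => ![true, false, true, true, true]
  | 2 => ![true, false, true, false, true]
  | 3 => ![true, false, false, true, true]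
  | 4 => ![true, false, false, true, false]
  | 5 => ![true, false, false, false, true]
  | 6 => ![true, false, false, false, false]
  | _ => ![true, true, true, true, true]

/-- masks of the orbits of pairs of parts; the first `nb k` ones are orbits of pairs of blocks -/
def obT : List (List ℕ) :=
    [[65536, 131072, 262144, 524288, 1048576, 16777216, 33554432, 67108864, 134217728,
    4294967296, 8589934592, 17179869184, 1099511627776, 2199023255552, 281474976710656, 1, 2,
    256, 4, 8, 16, 32, 64, 512, 1024, 2048, 4096, 8192], [16842752, 131072, 33816576, 67633152,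
    135266304, 4294967296, 8589934592, 17179869184, 1099511627776, 2199023255552,
    281474976710656, 1, 2, 256, 12, 16, 32, 64, 1536, 2048, 4096, 8192], [16842752, 131072,
    67371008, 34078720, 135266304, 1103806595072, 8589934592, 2216203124736, 281474976710656, 1,
    2, 256, 12, 48, 64, 1536, 6144, 8192], [4311810048, 33947648, 8657567744, 17315135488,
    1099511627776, 2199023255552, 281474976710656, 1, 2, 256, 28, 32, 64, 3584, 4096, 8192],
    [4311810048, 33947648, 25972703232, 282574488338432, 2199023255552, 1, 2, 256, 28, 96, 3584,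
    12288], [1103823437824, 8624144384, 67371008, 2216338391040, 281474976710656, 1, 2, 256, 60,
    64, 7680, 8192], [282578800148480, 2207647924224, 17381982208, 1, 2, 256, 124, 15872]]

/-- number of orbits of pairs of blocks -/
def nb (k : ℕ) : ℕ := ([15, 11, 9, 7, 5, 5, 3] : List ℕ).getD k 0

/-- number of ordered pairs of blocks in the orbits -/
def wtT : List (List ℕ) :=
    [[1, 2, 2, 2, 2, 1, 2, 2, 2, 1, 2, 2, 1, 2, 1], [2, 2, 4, 4, 4, 1, 2, 2, 1, 2, 1], [2, 2, 4,
    4, 4, 2, 2, 4, 1], [3, 6, 6, 6, 1, 2, 1], [3, 6, 12, 2, 2], [4, 8, 4, 8, 1], [5, 10, 10]]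

/-- number of blocks in the orbits -/
def lpT : List (List ℕ) :=
    [[1, 0, 0, 0, 0, 1, 0, 0, 0, 1, 0, 0, 1, 0, 1], [2, 0, 0, 0, 0, 1, 0, 0, 1, 0, 1], [2, 0, 0,
    0, 0, 2, 0, 0, 1], [3, 0, 0, 0, 1, 0, 1], [3, 0, 0, 2, 0], [4, 0, 0, 0, 1], [5, 0, 0]]

/-- orbit `j` of permutation `k` -/
def ob (k j : ℕ) : ℕ := (obT.getD k []).getD j 0

/-- weight of orbit `j` -/
def wt (k j : ℕ) : ℕ := (wtT.getD k []).getD j 0

/-- number of inner classes of orbit `j` -/
def lp (k j : ℕ) : ℕ := (lpT.getD k []).getD j 0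

theorem hmk_all (k : ℕ) : ∀ i, ∃ t, ((pis k) ^ t) i = i ∧ mc (pis k) (mks k) t i = 1 := by
  have key : ∀ k < 7, ∀ i : Fin 5, ∃ t : Fin 7, ((pis k) ^ t.val) i = i ∧
      mc (pis k) (mks k) t.val i = 1 := by decide +kernel
  intro i
  by_cases hk : k < 7
  · obtain ⟨t, ht⟩ := key k hk i
    exact ⟨t.val, ht⟩
  · obtain ⟨k', rfl⟩ : ∃ k', k = k' + 7 := ⟨k - 7, by omega⟩
    have h1 : pis (k' + 7) = pis 0 := rfl
    have h2 : mks (k' + 7) = mks 0 := rfl
    rw [h1, h2]
    obtain ⟨t, ht⟩ := key 0 (by norm_num) i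
    exact ⟨t.val, ht⟩

theorem tab_inv : ∀ k < 7, ∀ j < 28, ∀ A C : Fin 7, ag (ob k j) A C = true →
    ag (ob k j) (pip7 (pis k) A) (pip7 (pis k) C) = true := by decide +kernel

/-- check of disjointness -/
def disjB (k : ℕ) : Bool := (List.range 28).all fun i => (List.range 28).all fun j =>
  (i == j) || (List.finRange 7).all fun A => (List.finRange 7).all fun C =>
    !(ag (ob k i) A C && ag (ob k j) A C)

theorem disjB_ok : ∀ k < 7, disjB k = true := by decide +kernel

theorem tab_disj (k : ℕ) (hk : k < 7) (i : ℕ) (hi : i < 28) (j : ℕ) (hj : j < 28) (hij : i ≠ j)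
    (A C : Fin 7) (h : ag (ob k i) A C = true) : ag (ob k j) A C = false := by
  have h1 := disjB_ok k hk
  unfold disjB at h1
  rw [List.all_eq_true] at h1
  have h2 := h1 i (List.mem_range.2 hi)
  rw [List.all_eq_true] at h2
  have h3 := h2 j (List.mem_range.2 hj)
  rw [Bool.or_eq_true, beq_iff_eq] at h3
  rcases h3 with h3 | h3
  · exact absurd h3 hij
  · rw [List.all_eq_true] at h3
    have h4 := h3 A (List.mem_finRange _)
    rw [List.all_eq_true] at h4
    have h5 := h4 C (List.mem_finRange _)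
    rw [h] at h5
    simpa using h5

/-- check that the orbit does not meet the parts `0` and `1` -/
def blkB (k : ℕ) : Bool := (List.range (nb k)).all fun j =>
  (List.finRange 7).all fun A => (List.finRange 7).all fun C =>
    !(ag (ob k j) A C) || (decide (A ≠ 0) && decide (A ≠ 1) && decide (C ≠ 0) && decide (C ≠ 1))

theorem blkB_ok : ∀ k < 7, blkB k = true := by decide +kernel

theorem tab_blk (k : ℕ) (hk : k < 7) (j : ℕ) (hj : j < nb k) (A C : Fin 7)
    (h : ag (ob k j) A C = true) : A ≠ 0 ∧ A ≠ 1 ∧ C ≠ 0 ∧ C ≠ 1 := by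
  have h1 := blkB_ok k hk
  unfold blkB at h1
  rw [List.all_eq_true] at h1
  have h2 := h1 j (List.mem_range.2 hj)
  rw [List.all_eq_true] at h2
  have h3 := h2 A (List.mem_finRange _)
  rw [List.all_eq_true] at h3
  have h4 := h3 C (List.mem_finRange _)
  rw [h] at h4
  simpa [and_assoc] using h4

theorem tab_ne : ∀ k < 7, ∀ j < nb k, ∃ A C : Fin 5,
    ag (ob k j) A.succ.succ C.succ.succ = true := by decide +kernel

/-- check that the orbit is one orbit -/
def trB (k : ℕ) : Bool := (List.range (nb k)).all fun j =>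
  (List.finRange 5).all fun A => (List.finRange 5).all fun C =>
    !(ag (ob k j) A.succ.succ C.succ.succ) ||
    (List.finRange 5).all fun A' => (List.finRange 5).all fun C' =>
      !(ag (ob k j) A'.succ.succ C'.succ.succ) || (List.range 6).any fun t =>
        (decide ((⇑(pis k))^[t] A = A') && decide ((⇑(pis k))^[t] C = C')) ||
        (decide ((⇑(pis k))^[t] A = C') && decide ((⇑(pis k))^[t] C = A'))

theorem trB_ok : ∀ k < 7, trB k = true := by decide +kernel

theorem tab_tr (k : ℕ) (hk : k < 7) (j : ℕ) (hj : j < nb k) (A C : Fin 5)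
    (h : ag (ob k j) A.succ.succ C.succ.succ = true) (A' C' : Fin 5)
    (h' : ag (ob k j) A'.succ.succ C'.succ.succ = true) :
    ∃ t : ℕ, ((⇑(pis k))^[t] A = A' ∧ (⇑(pis k))^[t] C = C') ∨
      ((⇑(pis k))^[t] A = C' ∧ (⇑(pis k))^[t] C = A') := by
  have h1 := trB_ok k hk
  unfold trB at h1
  rw [List.all_eq_true] at h1
  have h2 := h1 j (List.mem_range.2 hj)
  rw [List.all_eq_true] at h2
  have h3 := h2 A (List.mem_finRange _)
  rw [List.all_eq_true] at h3
  have h4 := h3 C (List.mem_finRange _)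
  rw [h, Bool.not_true, Bool.false_or, List.all_eq_true] at h4
  have h5 := h4 A' (List.mem_finRange _)
  rw [List.all_eq_true] at h5
  have h6 := h5 C' (List.mem_finRange _)
  rw [h', Bool.not_true, Bool.false_or, List.any_eq_true] at h6
  obtain ⟨t, -, ht⟩ := h6
  exact ⟨t, by simpa using ht⟩

theorem tab_wt : ∀ k < 7, ∀ j < nb k,
    (∑ A : Fin 7, ∑ C : Fin 7, if ag (ob k j) A C = true then 1 else 0) = wt k j := by
  decide +kernel

theorem tab_lp : ∀ k < 7, ∀ j < nb k,
    (∑ A : Fin 7, if ag (ob k j) A A = true then 1 else 0) = lp k j := by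
  decide +kernel

theorem tab_lps : ∀ k < 7, ∑ j ∈ range (nb k), lp k j = 5 := by decide +kernel

theorem nb_le : ∀ k < 7, nb k ≤ 15 := by decide +kernel

theorem ob_zero : ∀ k < 7, ∀ j, 28 ≤ j → ob k j = 0 := by
  intro k hk j hj
  have h : ∀ k < 7, (obT.getD k []).length ≤ 28 := by decide +kernel
  unfold ob
  rw [List.getD_eq_getElem?_getD, List.getElem?_eq_none ((h k hk).trans hj)]
  rfl

theorem ag_or (g w : ℕ) (a b : Fin 7) : ag (g ||| w) a b = (ag g a b || ag w a b) := by
  simp only [ag, ad, pK, Nat.testBit_or]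
  cases g.testBit (7 * a.val + b.val) <;> cases w.testBit (7 * a.val + b.val) <;>
    cases g.testBit (7 * b.val + a.val) <;> cases w.testBit (7 * b.val + a.val) <;> rfl

theorem pK_or (g w : ℕ) (a b : Fin 7) : pK (g ||| w) a b = (pK g a b || pK w a b) := by
  simp [pK, Nat.testBit_or]

theorem ag_zero (a b : Fin 7) : ag 0 a b = false := by
  simp [ag, ad, pK]

theorem ag_orL (l : List ℕ) (a b : Fin 7) :
    ag (orL l) a b = true ↔ ∃ w ∈ l, ag w a b = true := by
  induction l with
  | nil => simp [orL, ag_zero]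
  | cons w l ih =>
    rw [orL, ag_or, Bool.or_eq_true, ih]
    simp

/-- alternating sums as sums over sets of classes -/
theorem alt_list {n : ℕ} (P : SimpleGraph (Fin n) → Prop) (s r p : ℕ) {m : ℕ} (B : ℕ)
    (w : Fin m → ℕ) (l : List (Fin m)) (hl : l.Nodup) (J : Finset (Fin m)) (g : ℕ)
    (hJ : ∀ i ∈ l, i ∉ J)
    (hg : pK g = addP (pK B) (fun j => pK (w j)) J) :
    altO (fK P s r p) (l.map w) g = ∑ I ∈ l.toFinset.powerset, (-1 : ℤ) ^ I.card *
      hv P (sz7 s r p) (addP (pK B) (fun j => pK (w j)) (I ∪ J)) := by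
  induction l generalizing g J with
  | nil => simp [altO, fK, hg]
  | cons a l ih =>
    rw [List.nodup_cons] at hl
    have ha : a ∉ l.toFinset := by simpa using hl.1
    have h2 : pK (g ||| w a) = addP (pK B) (fun j => pK (w j)) (insert a J) := by
      funext x y
      rw [pK_or, hg]
      simp only [addP, Finset.mem_insert]
      rw [Bool.eq_iff_iff]
      simp only [Bool.or_eq_true, decide_eq_true_eq]
      constructor
      · rintro ((h | ⟨j, hj, h⟩) | h)
        · exact Or.inl h
        · exact Or.inr ⟨j, Or.inr hj, h⟩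
        · exact Or.inr ⟨a, Or.inl rfl, h⟩
      · rintro (h | ⟨j, rfl | hj, h⟩)
        · exact Or.inl (Or.inl h)
        · exact Or.inr h
        · exact Or.inl (Or.inr ⟨j, hj, h⟩)
    rw [List.toFinset_cons, sum_powerset_insert ha, List.map_cons, altO,
      ih hl.2 J g (fun i hi => hJ i (List.mem_cons_of_mem _ hi)) hg,
      ih hl.2 (insert a J) (g ||| w a) (fun i hi => by
        rw [Finset.mem_insert]
        rintro (rfl | h)
        · exact hl.1 hi
        · exact hJ i (List.mem_cons_of_mem _ hi) h) h2,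
      sub_eq_add_neg, ← sum_neg_distrib]
    congr 1
    apply sum_congr rfl
    intro I hI
    have haI : a ∉ I := fun h => ha (mem_powerset.1 hI h)
    rw [card_insert_of_notMem haI, pow_succ]
    have h3 : I ∪ insert a J = insert a I ∪ J := by
      ext x; simp only [Finset.mem_union, Finset.mem_insert]; tauto
    rw [h3]
    ring

theorem alt_sum {n : ℕ} (P : SimpleGraph (Fin n) → Prop) (s r p : ℕ) (B : ℕ) (ws : List ℕ) :
    altO (fK P s r p) ws B = ∑ I : Finset (Fin ws.length), (-1 : ℤ) ^ I.card *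
      hv P (sz7 s r p) (addP (pK B) (fun j => pK (ws.get j)) I) := by
  have hw : ws = (List.finRange ws.length).map (fun j => ws.get j) := by
    rw [List.map_get_finRange]
  have hb : pK B = addP (pK B) (fun j : Fin ws.length => pK (ws.get j)) ∅ := by
    funext x y
    simp [addP]
  have h1 := alt_list P s r p B (fun j => ws.get j) (List.finRange ws.length)
    (List.nodup_finRange _) ∅ B (by simp) hb
  rw [← hw] at h1
  rw [h1]
  have h2 : (List.finRange ws.length).toFinset = (univ : Finset (Fin ws.length)) := by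
    ext x; simp
  rw [h2, Finset.powerset_univ]
  simp only [Finset.union_empty]

theorem cnt_eq7 (s r p w : ℕ) (h6 : ∀ A C, ag w A C = true → A ≠ 0 ∧ A ≠ 1 ∧ C ≠ 0 ∧ C ≠ 1) :
    cnt (sz7 s r p) (pK w) + (∑ A : Fin 7, if ag w A A = true then 1 else 0) * p =
      (∑ A : Fin 7, ∑ C : Fin 7, if ag w A C = true then 1 else 0) * (p * p) := by
  unfold cnt
  rw [Finset.sum_mul, Finset.sum_mul, ← Finset.sum_add_distrib]
  apply Finset.sum_congr rfl
  intro A _
  rw [Finset.sum_mul]
  have h1 : (if ag w A A = true then 1 else 0) * p =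
      ∑ C : Fin 7, if A = C then (if ag w A C = true then p else 0) else 0 := by
    rw [Finset.sum_ite_eq, if_pos (Finset.mem_univ _)]
    split_ifs <;> simp
  rw [h1, ← Finset.sum_add_distrib]
  apply Finset.sum_congr rfl
  intro C _
  change (if ag w A C = true then _ else 0) + _ = _
  by_cases h2 : ag w A C = true
  · obtain ⟨a0, a1, c0, c1⟩ := h6 A C h2
    rw [if_pos h2, if_pos h2, if_pos h2, one_mul, sz7_b s r p A a0 a1, sz7_b s r p C c0 c1]
    by_cases h3 : A = C
    · rw [if_pos h3, if_pos h3]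
      rcases Nat.eq_zero_or_pos p with hp | hp
      · subst hp; simp
      · obtain ⟨u, rfl⟩ : ∃ u, p = u + 1 := ⟨p - 1, by omega⟩
        simp only [Nat.add_sub_cancel]
        ring
    · rw [if_neg h3, if_neg h3, add_zero]
  · rw [if_neg h2, if_neg h2, if_neg h2]
    split_ifs <;> simp

/-- **E1** -/
theorem rel1 {n q : ℕ} {P : SimpleGraph (Fin n) → Prop} (hP : GP n q P) (s r p T : ℕ)
    [Fact p.Prime] (hp : 2 < p) (hn : s + r + 5 * p = n) (hq : 2 * q + 5 * p < T * (p * p))
    (k : ℕ) (hk : k < 7) (js bs : List ℕ) (hnd : js.Nodup) (hj : ∀ j ∈ js, j < nb k ∧ j ∉ bs)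
    (hT : T ≤ (js.map (wt k)).sum) :
    altO (fK P s r p) (js.map (ob k)) (orL (bs.map (ob k))) = 0 := by
  rw [alt_sum]
  have hjb : ∀ j : Fin (js.map (ob k)).length, ∃ i, i ∈ js ∧ i < nb k ∧ i < 28 ∧ i ∉ bs ∧
      (js.map (ob k)).get j = ob k i ∧ js[j.val]? = some i := by
    intro j
    have h1 : j.val < js.length := by simpa using j.2
    refine ⟨js[j.val], List.getElem_mem h1, (hj _ (List.getElem_mem h1)).1,
      lt_of_lt_of_le (hj _ (List.getElem_mem h1)).1 ((nb_le k hk).trans (by norm_num)),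
      (hj _ (List.getElem_mem h1)).2, by simp, by simp [h1]⟩
  refine relE1 hP s r p hp hn (pis k) (mks k) (hmk_all k) (pK (orL (bs.map (ob k))))
    (fun j => pK ((js.map (ob k)).get j)) ?_ ?_ ?_ ?_ ?_ ?_ ?_ ?_
  · intro A C h
    change ag _ _ _ = true at h ⊢
    rw [ag_orL] at h ⊢
    obtain ⟨w, hw, h1⟩ := h
    refine ⟨w, hw, ?_⟩
    obtain ⟨i, -, rfl⟩ := List.mem_map.1 hw
    by_cases hi : i < 28
    · exact tab_inv k hk i hi A C h1
    · rw [ob_zero k hk i (not_lt.1 hi), ag_zero] at h1
      exact Bool.noConfusion h1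
  · intro j A C h
    change ag _ _ _ = true at h ⊢
    obtain ⟨i, -, -, h28, -, h1, -⟩ := hjb j
    rw [h1] at h ⊢
    exact tab_inv k hk i h28 A C h
  · intro i j hij A C h1 h2
    change ag _ _ _ = true at h1 h2
    obtain ⟨a, -, -, ha, -, ha1, ha2⟩ := hjb i
    obtain ⟨b, -, -, hb, -, hb1, hb2⟩ := hjb j
    rw [ha1] at h1
    rw [hb1] at h2
    have hne : a ≠ b := by
      rintro rfl
      apply hij
      apply Fin.ext
      have h3 : i.val < js.length := by simpa using i.2
      exact (List.nodup_iff_getElem?_ne_getElem?.1 hnd |> fun H => by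
        by_contra hne
        rcases lt_or_gt_of_ne hne with hlt | hlt
        · exact H i.val j.val hlt (by simpa using j.2) (by rw [ha2, hb2])
        · exact H j.val i.val hlt h3 (by rw [ha2, hb2]))
    rw [tab_disj k hk a ha b hb hne A C h1] at h2
    exact Bool.noConfusion h2
  · intro j A C h1 h2
    change ag _ _ _ = true at h1 h2
    obtain ⟨i, -, -, h28, hnb, h3, -⟩ := hjb j
    rw [h3] at h2
    rw [ag_orL] at h1
    obtain ⟨w, hw, h4⟩ := h1
    obtain ⟨b, hb, rfl⟩ := List.mem_map.1 hw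
    by_cases hb28 : b < 28
    · have hne : b ≠ i := fun h => hnb (h ▸ hb)
      rw [tab_disj k hk b hb28 i h28 hne A C h4] at h2
      exact Bool.noConfusion h2
    · rw [ob_zero k hk b (not_lt.1 hb28), ag_zero] at h4
      exact Bool.noConfusion h4
  · intro j
    obtain ⟨i, -, hi, -, -, h3, -⟩ := hjb j
    obtain ⟨A, C, h⟩ := tab_ne k hk i hi
    refine ⟨A, C, ?_⟩
    change ag _ _ _ = true
    rw [h3]
    exact h
  · intro j A C h
    change ag _ _ _ = true at h
    obtain ⟨i, -, hi, -, -, h3, -⟩ := hjb j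
    rw [h3] at h
    exact tab_blk k hk i hi A C h
  · intro j A C A' C' h h'
    change ag _ _ _ = true at h h'
    obtain ⟨i, -, hi, -, -, h3, -⟩ := hjb j
    rw [h3] at h h'
    obtain ⟨t, ht⟩ := tab_tr k hk i hi A C h A' C' h'
    exact ⟨t, by simpa [Equiv.Perm.iterate_eq_pow] using ht⟩
  · -- the weights
    have e1 : ∑ j : Fin (js.map (ob k)).length, cnt (sz7 s r p) (pK ((js.map (ob k)).get j)) =
        (js.map (fun i => cnt (sz7 s r p) (pK (ob k i)))).sum := by
      rw [← List.sum_ofFn]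
      congr 1
      rw [List.ofFn_eq_map]
      have : (fun i => cnt (sz7 s r p) (pK (ob k i))) =
          (fun w => cnt (sz7 s r p) (pK w)) ∘ ob k := rfl
      rw [this, ← List.map_map]
      conv_rhs => rw [← List.map_get_finRange (js.map (ob k))]
      rw [List.map_map]
      rfl
    rw [e1]
    have e2 : ∀ l : List ℕ, (∀ j ∈ l, j < nb k) →
        (l.map (fun i => cnt (sz7 s r p) (pK (ob k i)))).sum + (l.map (lp k)).sum * p =
        (l.map (wt k)).sum * (p * p) := by
      intro l hl
      induction l with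
      | nil => simp
      | cons a l ih =>
        have h7 := ih (fun w hw => hl w (List.mem_cons_of_mem _ hw))
        have ha : a < nb k := hl a List.mem_cons_self
        have h8 := cnt_eq7 s r p (ob k a) (tab_blk k hk a ha)
        rw [tab_wt k hk a ha, tab_lp k hk a ha] at h8
        simp only [List.map_cons, List.sum_cons, add_mul] at h7 h8 ⊢
        omega
    have e3 := e2 js (fun j hj' => (hj j hj').1)
    have e4 : (js.map (lp k)).sum ≤ 5 := by
      rw [← List.sum_toFinset _ hnd, ← tab_lps k hk]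
      apply Finset.sum_le_sum_of_subset
      intro j hj'
      rw [List.mem_toFinset] at hj'
      rw [Finset.mem_range]
      exact (hj j hj').1
    have e6 := Nat.mul_le_mul_right (p * p) hT
    have e7 := Nat.mul_le_mul_right p e4
    omega

end Pool.Agent.H8.KA
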