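import Mathlib
import Pool.Agent.H8.KA.Rel7

set_option autoImplicit false

/-!
MP_257582_lc (helper8): the relations E2 and E3 for the values on masks.
-/

namespace Pool.Agent.H8.KA

open Finset
open Pool.Agent.H98R2.Ev (EV toG NE)
open Pool.Agent.H119R2.Kp
open Pool.Agent.W5h78.Karp (ad ad_comm addP cnt)
open EX

/-- mask of a list of pairs -/
def mkM : List (Fin 7 × Fin 7) → ℕ
  | [] => 0
  | x :: l => (1 <<< (7 * x.1.val + x.2.val)) ||| mkM l

/-- pairs inside `X = {0, 4, 5, 6}` -/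
def mXX : ℕ := mkM [(0, 0), (0, 4), (0, 5), (0, 6), (4, 4), (4, 5), (4, 6), (5, 5), (5, 6), (6, 6)]

/-- pairs between `X` and `{2, 3}` -/
def mXC : ℕ := mkM [(0, 2), (2, 4), (2, 5), (2, 6), (0, 3), (3, 4), (3, 5), (3, 6)]

/-- E2: pairs inside `C = {2, 3}`, between `F` and `X`, between `F` and `C`, inside `F` -/
def b2 : ℕ → ℕ
  | 0 => mkM [(2, 2), (2, 3), (3, 3)]
  | 1 => mkM [(0, 1), (1, 4), (1, 5), (1, 6)]
  | 2 => mkM [(1, 2), (1, 3)]
  | 3 => mkM [(1, 1)]
  | _ => 0

/-- the parts of E2 -/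
def μ2 : Fin 7 → Fin 3 := ![0, 2, 1, 1, 0, 0, 0]

/-- the patterns of E2 -/
def c2 : ℕ → Fin 3 → Fin 3 → Bool
  | 0 => fun a b => decide (a = 1) && decide (b = 1)
  | 1 => fun a b => decide (a = 0) && decide (b = 2)
  | 2 => fun a b => decide (a = 1) && decide (b = 2)
  | 3 => fun a b => decide (a = 2) && decide (b = 2)
  | _ => fun _ _ => false

/-- pairs between `X` and `2` -/
def mX1 : ℕ := mkM [(0, 2), (2, 4), (2, 5), (2, 6)]

/-- pairs between `X` and `{1, 3}` -/
def mX2 : ℕ := mkM [(0, 3), (3, 4), (3, 5), (3, 6), (0, 1), (1, 4), (1, 5), (1, 6)]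

/-- E3: pairs inside `C1 = {2}`, inside `C2 = {3, 1}`, between `C1` and `C2` -/
def b3 : ℕ → ℕ
  | 0 => mkM [(2, 2)]
  | 1 => mkM [(3, 3), (1, 3), (1, 1)]
  | 2 => mkM [(2, 3), (1, 2)]
  | _ => 0

/-- the parts of E3 -/
def μ3 : Fin 7 → Fin 3 := ![0, 2, 1, 2, 0, 0, 0]

/-- the patterns of E3 -/
def c3 : ℕ → Fin 3 → Fin 3 → Bool
  | 0 => fun a b => decide (a = 1) && decide (b = 1)
  | 1 => fun a b => decide (a = 2) && decide (b = 2)
  | 2 => fun a b => decide (a = 1) && decide (b = 2)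
  | _ => fun _ _ => false

theorem t2XX : ∀ a b : Fin 7, ag mXX a b = ad (OX (none : Option (Fin 2))) (μ2 a) (μ2 b) := by
  decide +kernel

theorem t2XC : ∀ a b : Fin 7, ag mXC a b = ad (OX (some (0 : Fin 2))) (μ2 a) (μ2 b) := by
  decide +kernel

theorem t2b : ∀ i < 4, ∀ a b : Fin 7, ag (b2 i) a b = ad (c2 i) (μ2 a) (μ2 b) := by
  decide +kernel

theorem t3XX : ∀ a b : Fin 7, ag mXX a b = ad (OX (none : Option (Fin 2))) (μ3 a) (μ3 b) := by
  decide +kernel

theorem t3X1 : ∀ a b : Fin 7, ag mX1 a b = ad (OX (some (0 : Fin 2))) (μ3 a) (μ3 b) := by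
  decide +kernel

theorem t3X2 : ∀ a b : Fin 7, ag mX2 a b = ad (OX (some (1 : Fin 2))) (μ3 a) (μ3 b) := by
  decide +kernel

theorem t3b : ∀ i < 3, ∀ a b : Fin 7, ag (b3 i) a b = ad (c3 i) (μ3 a) (μ3 b) := by
  decide +kernel

/-- union of patterns -/
def orP (c : ℕ → Fin 3 → Fin 3 → Bool) (l : List ℕ) : Fin 3 → Fin 3 → Bool :=
  fun a b => l.any fun i => c i a b

theorem ad_orP (c : ℕ → Fin 3 → Fin 3 → Bool) (l : List ℕ) (a b : Fin 3) :
    ad (orP c l) a b = true ↔ ∃ i ∈ l, ad (c i) a b = true := by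
  simp only [ad, orP, Bool.or_eq_true, List.any_eq_true]
  constructor
  · rintro (⟨i, hi, h⟩ | ⟨i, hi, h⟩)
    · exact ⟨i, hi, Or.inl h⟩
    · exact ⟨i, hi, Or.inr h⟩
  · rintro ⟨i, hi, h | h⟩
    · exact Or.inl ⟨i, hi, h⟩
    · exact Or.inr ⟨i, hi, h⟩

/-- passing from coarse patterns to masks -/
theorem merge_rel {n q : ℕ} {P : SimpleGraph (Fin n) → Prop} (hP : GP n q P) (s r p : ℕ)
    (s3 : Fin 3 → ℕ) (μ : Fin 7 → Fin 3)
    (hs : ∀ j, ∑ i, (if μ i = j then sz7 s r p i else 0) = s3 j) (B : ℕ) (ws : List ℕ)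
    (Γ : Fin 3 → Fin 3 → Bool) (O : Fin ws.length → Fin 3 → Fin 3 → Bool)
    (hB : ∀ a b, ag B a b = ad Γ (μ a) (μ b))
    (hw : ∀ j a b, ag (ws.get j) a b = ad (O j) (μ a) (μ b))
    (h : ∑ I : Finset (Fin ws.length), (-1 : ℤ) ^ I.card * hv P s3 (addP Γ O I) = 0) :
    altO (fK P s r p) ws B = 0 := by
  rw [alt_sum, ← h]
  refine Finset.sum_congr rfl fun I _ => ?_
  congr 1
  refine hv_merge hP _ _ μ hs _ _ fun a b => ?_
  rw [Bool.eq_iff_iff]
  have h1 : ∀ (x y : Bool), (x || y) = true ↔ x = true ∨ y = true := fun x y => by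
    rw [Bool.or_eq_true]
  have h2 := fun a b => Bool.eq_iff_iff.1 (hB a b)
  have h3 := fun j a b => Bool.eq_iff_iff.1 (hw j a b)
  simp only [ag, ad, h1] at h2 h3
  simp only [ad, addP, h1, decide_eq_true_eq]
  constructor
  · rintro ((h4 | ⟨j, hj, h4⟩) | (h4 | ⟨j, hj, h4⟩))
    · rcases (h2 a b).1 (Or.inl h4) with h5 | h5
      · exact Or.inl (Or.inl h5)
      · exact Or.inr (Or.inl h5)
    · rcases (h3 j a b).1 (Or.inl h4) with h5 | h5
      · exact Or.inl (Or.inr ⟨j, hj, h5⟩)
      · exact Or.inr (Or.inr ⟨j, hj, h5⟩)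
    · rcases (h2 a b).1 (Or.inr h4) with h5 | h5
      · exact Or.inl (Or.inl h5)
      · exact Or.inr (Or.inl h5)
    · rcases (h3 j a b).1 (Or.inr h4) with h5 | h5
      · exact Or.inl (Or.inr ⟨j, hj, h5⟩)
      · exact Or.inr (Or.inr ⟨j, hj, h5⟩)
  · rintro ((h4 | ⟨j, hj, h4⟩) | (h4 | ⟨j, hj, h4⟩))
    · rcases (h2 a b).2 (Or.inl h4) with h5 | h5
      · exact Or.inl (Or.inl h5)
      · exact Or.inr (Or.inl h5)
    · rcases (h3 j a b).2 (Or.inl h4) with h5 | h5
      · exact Or.inl (Or.inr ⟨j, hj, h5⟩)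
      · exact Or.inr (Or.inr ⟨j, hj, h5⟩)
    · rcases (h2 a b).2 (Or.inr h4) with h5 | h5
      · exact Or.inl (Or.inl h5)
      · exact Or.inr (Or.inl h5)
    · rcases (h3 j a b).2 (Or.inr h4) with h5 | h5
      · exact Or.inl (Or.inr ⟨j, hj, h5⟩)
      · exact Or.inr (Or.inr ⟨j, hj, h5⟩)

theorem add_pow_inl {N : ℕ} {W : Type} (σ : Equiv.Perm W) (t : ℕ) (a : ZMod N) :
    ((Equiv.sumCongr (Equiv.addRight (1 : ZMod N)) σ : Equiv.Perm (ZMod N ⊕ W)) ^ t) (Sum.inl a) =
      Sum.inl (a + t) := by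
  induction t with
  | zero => simp
  | succ t ih =>
    rw [pow_succ', Equiv.Perm.mul_apply, ih]
    simp [add_assoc]

theorem add_pow_inr {N : ℕ} {W : Type} (σ : Equiv.Perm (ZMod N)) (ρ : Equiv.Perm W) (t : ℕ) (a : W) :
    ((Equiv.sumCongr σ ρ : Equiv.Perm (ZMod N ⊕ W)) ^ t) (Sum.inr a) =
      Sum.inr ((ρ ^ t) a) := by
  induction t with
  | zero => simp
  | succ t ih =>
    rw [pow_succ', Equiv.Perm.mul_apply, ih, pow_succ', Equiv.Perm.mul_apply]
    simp

theorem add_pow {N : ℕ} (t : ℕ) (a : ZMod N) :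
    ((Equiv.addRight (1 : ZMod N) : Equiv.Perm (ZMod N)) ^ t) a = a + t := by
  induction t with
  | zero => simp
  | succ t ih =>
    rw [pow_succ', Equiv.Perm.mul_apply, ih]
    simp [add_assoc]

theorem ad_c2 (l : List ℕ) (hl : ∀ i ∈ l, i < 4) (a b : Fin 7) :
    ag (orL (l.map b2)) a b = ad (orP c2 l) (μ2 a) (μ2 b) := by
  rw [Bool.eq_iff_iff, ag_orL, ad_orP]
  constructor
  · rintro ⟨w, hw, h⟩
    obtain ⟨i, hi, rfl⟩ := List.mem_map.1 hw
    exact ⟨i, hi, by rw [← t2b i (hl i hi)]; exact h⟩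
  · rintro ⟨i, hi, h⟩
    exact ⟨b2 i, List.mem_map_of_mem hi, by rw [t2b i (hl i hi)]; exact h⟩

theorem ad_c3 (l : List ℕ) (hl : ∀ i ∈ l, i < 3) (a b : Fin 7) :
    ag (orL (l.map b3)) a b = ad (orP c3 l) (μ3 a) (μ3 b) := by
  rw [Bool.eq_iff_iff, ag_orL, ad_orP]
  constructor
  · rintro ⟨w, hw, h⟩
    obtain ⟨i, hi, rfl⟩ := List.mem_map.1 hw
    exact ⟨i, hi, by rw [← t3b i (hl i hi)]; exact h⟩
  · rintro ⟨i, hi, h⟩
    exact ⟨b3 i, List.mem_map_of_mem hi, by rw [t3b i (hl i hi)]; exact h⟩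

theorem d2 : ∀ i < 4, ∀ A B : Fin 3, ad (c2 i) A B = true →
    ad (OX (none : Option (Fin 2))) A B = false ∧ ad (OX (some (0 : Fin 2))) A B = false := by
  decide +kernel

theorem d3 : ∀ i < 3, ∀ A B : Fin 3, ad (c3 i) A B = true →
    ad (OX (none : Option (Fin 2))) A B = false ∧ ad (OX (some (0 : Fin 2))) A B = false ∧
      ad (OX (some (1 : Fin 2))) A B = false := by
  decide +kernel

theorem cnt_none (Q : ℕ) (szW : Fin 2 → ℕ) :
    cnt (szX Q szW) (OX (none : Option (Fin 2))) = Q * (Q - 1) := by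
  have h : ∀ A B : Fin 3, ad (OX (none : Option (Fin 2))) A B = decide (A = 0 ∧ B = 0) := by
    decide +kernel
  unfold cnt
  simp only [h, decide_eq_true_eq]
  change (∑ A : Fin 3, ∑ B : Fin 3, if A = 0 ∧ B = 0 then
    (if A = B then szX Q szW A * (szX Q szW A - 1) else szX Q szW A * szX Q szW B) else 0) = _
  simp only [Fin.sum_univ_three]
  simp [szX]

theorem cnt_some0 (Q : ℕ) (szW : Fin 2 → ℕ) :
    cnt (szX Q szW) (OX (some (0 : Fin 2))) = 2 * (Q * szW 0) := by
  have h : ∀ A B : Fin 3, ad (OX (some (0 : Fin 2))) A B =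
      decide ((A = 0 ∧ B = 1) ∨ (A = 1 ∧ B = 0)) := by
    decide +kernel
  unfold cnt
  simp only [h, decide_eq_true_eq]
  change (∑ A : Fin 3, ∑ B : Fin 3, if (A = 0 ∧ B = 1) ∨ (A = 1 ∧ B = 0) then
    (if A = B then szX Q szW A * (szX Q szW A - 1) else szX Q szW A * szX Q szW B) else 0) = _
  have e0 : szX Q szW 0 = Q := rfl
  have e1 : szX Q szW 1 = szW 0 := rfl
  simp only [Fin.sum_univ_three]
  simp [e0, e1]
  ring

theorem cnt_some1 (Q : ℕ) (szW : Fin 2 → ℕ) :
    cnt (szX Q szW) (OX (some (1 : Fin 2))) = 2 * (Q * szW 1) := by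
  have h : ∀ A B : Fin 3, ad (OX (some (1 : Fin 2))) A B =
      decide ((A = 0 ∧ B = 2) ∨ (A = 2 ∧ B = 0)) := by
    decide +kernel
  unfold cnt
  simp only [h, decide_eq_true_eq]
  change (∑ A : Fin 3, ∑ B : Fin 3, if (A = 0 ∧ B = 2) ∨ (A = 2 ∧ B = 0) then
    (if A = B then szX Q szW A * (szX Q szW A - 1) else szX Q szW A * szX Q szW B) else 0) = _
  have e0 : szX Q szW 0 = Q := rfl
  have e1 : szX Q szW 2 = szW 1 := rfl
  simp only [Fin.sum_univ_three]
  simp [e0, e1]
  ring

/-- **E2** -/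
theorem rel2 {n q : ℕ} {P : SimpleGraph (Fin n) → Prop} (hP : GP n q P) (s r p : ℕ)
    (hp : 0 < p) (hQ : (3 * p + s).Prime) (hn : s + r + 5 * p = n)
    (hq : 2 * q + 3 * p < 21 * (p * p)) (bs : List ℕ) (hb : ∀ i ∈ bs, i < 4) :
    altO (fK P s r p) [mXX, mXC] (orL (bs.map b2)) = 0 := by
  have : Fact (3 * p + s).Prime := ⟨hQ⟩
  have : NeZero (2 * p) := ⟨by omega⟩
  refine merge_rel hP s r p (szX (3 * p + s) ![2 * p, r]) μ2 ?_ _ _ (orP c2 bs)
    (fun j => OX ((![none, some 0] : Fin 2 → Option (Fin 2)) j)) (fun a b => ad_c2 bs hb a b) ?_ ?_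
  · intro j
    rw [Fin.sum_univ_seven]
    have e0 : sz7 s r p 0 = s := rfl
    have e1 : sz7 s r p 1 = r := rfl
    have e2 : sz7 s r p 2 = p := rfl
    have e3 : sz7 s r p 3 = p := rfl
    have e4 : sz7 s r p 4 = p := rfl
    have e5 : sz7 s r p 5 = p := rfl
    have e6 : sz7 s r p 6 = p := rfl
    fin_cases j
    · change _ = 3 * p + s
      simp [μ2, e0, e1, e2, e3, e4, e5, e6]
      omega
    · change _ = 2 * p
      simp [μ2, e0, e1, e2, e3, e4, e5, e6]
      omega
    · change _ = r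
      simp [μ2, e0, e1, e2, e3, e4, e5, e6]
  · intro j a b
    fin_cases j
    · exact t2XX a b
    · exact t2XC a b
  · refine relX hP (3 * p + s) (W := ZMod (2 * p) ⊕ Fin r) (Sum.elim (fun _ => 0) (fun _ => 1))
      ![2 * p, r] ?_ (Equiv.sumCongr (Equiv.addRight (1 : ZMod (2 * p))) (Equiv.refl _)) ?_ ?_
      (m := 2) (![none, some 0] : Fin 2 → Option (Fin 2)) (by decide) ?_ (orP c2 bs) ?_ ?_
    · intro A
      fin_cases A
      · have e : {w : ZMod (2 * p) ⊕ Fin r // (Sum.elim (fun _ => 0) (fun _ => 1) w : Fin 2) = 0} ≃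
            ZMod (2 * p) :=
          { toFun := fun w => match w with
              | ⟨Sum.inl a, _⟩ => a
              | ⟨Sum.inr b, h⟩ => absurd h (by simp)
            invFun := fun a => ⟨Sum.inl a, rfl⟩
            left_inv := by
              rintro ⟨a | b, h⟩
              · rfl
              · exact absurd h (by simp)
            right_inv := fun a => rfl }
        change Nat.card {w : ZMod (2 * p) ⊕ Fin r //
          (Sum.elim (fun _ => 0) (fun _ => 1) w : Fin 2) = 0} = 2 * p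
        rw [Nat.card_congr e, Nat.card_zmod]
      · have e : {w : ZMod (2 * p) ⊕ Fin r // (Sum.elim (fun _ => 0) (fun _ => 1) w : Fin 2) = 1} ≃
            Fin r :=
          { toFun := fun w => match w with
              | ⟨Sum.inl a, h⟩ => absurd h (by simp)
              | ⟨Sum.inr b, _⟩ => b
            invFun := fun a => ⟨Sum.inr a, rfl⟩
            left_inv := by
              rintro ⟨a | b, h⟩
              · exact absurd h (by simp)
              · rfl
            right_inv := fun a => rfl }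
        change Nat.card {w : ZMod (2 * p) ⊕ Fin r //
          (Sum.elim (fun _ => 0) (fun _ => 1) w : Fin 2) = 1} = r
        rw [Nat.card_congr e, Nat.card_fin]
    · rintro (w | w) <;> rfl
    · rw [Fintype.card_sum, ZMod.card, Fintype.card_fin]
      omega
    · intro j i hj
      fin_cases j
      · simp at hj
      · have hi : i = 0 := by simpa using hj.symm
        subst hi
        refine ⟨⟨Sum.inl 0, rfl⟩, ?_⟩
        rintro (w | w) (w' | w') h h'
        · refine ⟨(w' - w).val, ?_⟩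
          rw [add_pow_inl, ZMod.natCast_zmod_val]
          congr 1
          ring
        · simp at h'
        · simp at h
        · simp at h
    · intro j A B h1 h2
      rw [ad_orP] at h1
      obtain ⟨i, hi, h3⟩ := h1
      obtain ⟨h4, h5⟩ := d2 i (hb i hi) A B h3
      fin_cases j
      · rw [show (![none, some 0] : Fin 2 → Option (Fin 2)) ⟨0, by decide⟩ = none from rfl] at h2
        rw [h4] at h2
        exact Bool.noConfusion h2
      · rw [show (![none, some 0] : Fin 2 → Option (Fin 2)) ⟨1, by decide⟩ = some 0 from rfl] at h2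
        rw [h5] at h2
        exact Bool.noConfusion h2
    · rw [Fin.sum_univ_two]
      change 2 * q < cnt _ (OX none) + cnt _ (OX (some 0))
      rw [cnt_none, cnt_some0]
      change 2 * q < (3 * p + s) * (3 * p + s - 1) + 2 * ((3 * p + s) * (2 * p))
      have h1 : (3 * p) * (3 * p - 1) ≤ (3 * p + s) * (3 * p + s - 1) :=
        Nat.mul_le_mul (by omega) (by omega)
      have h2 : (3 * p) * (2 * p) ≤ (3 * p + s) * (2 * p) := Nat.mul_le_mul_right _ (by omega)
      have h3 : (3 * p) * (3 * p - 1) + 3 * p = 9 * (p * p) := by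
        obtain ⟨u, rfl⟩ : ∃ u, p = u + 1 := ⟨p - 1, by omega⟩
        have : 3 * (u + 1) - 1 = 3 * u + 2 := by omega
        rw [this]
        ring
      have h4 : (3 * p) * (2 * p) = 6 * (p * p) := by ring
      omega

/-- **E3** -/
theorem rel3 {n q : ℕ} {P : SimpleGraph (Fin n) → Prop} (hP : GP n q P) (s r p : ℕ)
    (hp : 0 < p) (hQ : (3 * p + s).Prime) (hn : s + r + 5 * p = n)
    (hq : 2 * q + 3 * p < 21 * (p * p)) (bs : List ℕ) (hb : ∀ i ∈ bs, i < 3) :
    altO (fK P s r p) [mXX, mX1, mX2] (orL (bs.map b3)) = 0 := by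
  have : Fact (3 * p + s).Prime := ⟨hQ⟩
  have : NeZero p := ⟨by omega⟩
  have : NeZero (p + r) := ⟨by omega⟩
  refine merge_rel hP s r p (szX (3 * p + s) ![p, p + r]) μ3 ?_ _ _ (orP c3 bs)
    (fun j => OX ((![none, some 0, some 1] : Fin 3 → Option (Fin 2)) j))
    (fun a b => ad_c3 bs hb a b) ?_ ?_
  · intro j
    rw [Fin.sum_univ_seven]
    have e0 : sz7 s r p 0 = s := rfl
    have e1 : sz7 s r p 1 = r := rfl
    have e2 : sz7 s r p 2 = p := rfl
    have e3 : sz7 s r p 3 = p := rfl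
    have e4 : sz7 s r p 4 = p := rfl
    have e5 : sz7 s r p 5 = p := rfl
    have e6 : sz7 s r p 6 = p := rfl
    fin_cases j
    · change _ = 3 * p + s
      simp [μ3, e0, e1, e2, e3, e4, e5, e6]
      omega
    · change _ = p
      simp [μ3, e0, e1, e2, e3, e4, e5, e6]
    · change _ = p + r
      simp [μ3, e0, e1, e2, e3, e4, e5, e6]
      omega
  · intro j a b
    fin_cases j
    · exact t3XX a b
    · exact t3X1 a b
    · exact t3X2 a b
  · refine relX hP (3 * p + s) (W := ZMod p ⊕ ZMod (p + r)) (Sum.elim (fun _ => 0) (fun _ => 1))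
      ![p, p + r] ?_ (Equiv.sumCongr (Equiv.addRight (1 : ZMod p))
        (Equiv.addRight (1 : ZMod (p + r)))) ?_ ?_
      (m := 3) (![none, some 0, some 1] : Fin 3 → Option (Fin 2)) (by decide) ?_ (orP c3 bs) ?_ ?_
    · intro A
      fin_cases A
      · have e : {w : ZMod p ⊕ ZMod (p + r) //
            (Sum.elim (fun _ => 0) (fun _ => 1) w : Fin 2) = 0} ≃ ZMod p :=
          { toFun := fun w => match w with
              | ⟨Sum.inl a, _⟩ => a
              | ⟨Sum.inr b, h⟩ => absurd h (by simp)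
            invFun := fun a => ⟨Sum.inl a, rfl⟩
            left_inv := by
              rintro ⟨a | b, h⟩
              · rfl
              · exact absurd h (by simp)
            right_inv := fun a => rfl }
        change Nat.card {w : ZMod p ⊕ ZMod (p + r) //
          (Sum.elim (fun _ => 0) (fun _ => 1) w : Fin 2) = 0} = p
        rw [Nat.card_congr e, Nat.card_zmod]
      · have e : {w : ZMod p ⊕ ZMod (p + r) //
            (Sum.elim (fun _ => 0) (fun _ => 1) w : Fin 2) = 1} ≃ ZMod (p + r) :=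
          { toFun := fun w => match w with
              | ⟨Sum.inl a, h⟩ => absurd h (by simp)
              | ⟨Sum.inr b, _⟩ => b
            invFun := fun a => ⟨Sum.inr a, rfl⟩
            left_inv := by
              rintro ⟨a | b, h⟩
              · exact absurd h (by simp)
              · rfl
            right_inv := fun a => rfl }
        change Nat.card {w : ZMod p ⊕ ZMod (p + r) //
          (Sum.elim (fun _ => 0) (fun _ => 1) w : Fin 2) = 1} = p + r
        rw [Nat.card_congr e, Nat.card_zmod]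
    · rintro (w | w) <;> rfl
    · rw [Fintype.card_sum, ZMod.card, ZMod.card]
      omega
    · intro j i hj
      fin_cases j
      · simp at hj
      · have hi : i = 0 := by simpa using hj.symm
        subst hi
        refine ⟨⟨Sum.inl 0, rfl⟩, ?_⟩
        rintro (w | w) (w' | w') h h'
        · refine ⟨(w' - w).val, ?_⟩
          rw [add_pow_inl, ZMod.natCast_zmod_val]
          congr 1
          ring
        · simp at h'
        · simp at h
        · simp at h
      · have hi : i = 1 := by simpa using hj.symm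
        subst hi
        refine ⟨⟨Sum.inr 0, rfl⟩, ?_⟩
        rintro (w | w) (w' | w') h h'
        · simp at h
        · simp at h
        · simp at h'
        · refine ⟨(w' - w).val, ?_⟩
          rw [add_pow_inr, add_pow, ZMod.natCast_zmod_val]
          congr 1
          ring
    · intro j A B h1 h2
      rw [ad_orP] at h1
      obtain ⟨i, hi, h3⟩ := h1
      obtain ⟨h4, h5, h6⟩ := d3 i (hb i hi) A B h3
      fin_cases j
      · rw [show (![none, some 0, some 1] : Fin 3 → Option (Fin 2)) ⟨0, by decide⟩ = none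
          from rfl] at h2
        rw [h4] at h2
        exact Bool.noConfusion h2
      · rw [show (![none, some 0, some 1] : Fin 3 → Option (Fin 2)) ⟨1, by decide⟩ = some 0
          from rfl] at h2
        rw [h5] at h2
        exact Bool.noConfusion h2
      · rw [show (![none, some 0, some 1] : Fin 3 → Option (Fin 2)) ⟨2, by decide⟩ = some 1
          from rfl] at h2
        rw [h6] at h2
        exact Bool.noConfusion h2
    · rw [Fin.sum_univ_three]
      change 2 * q < cnt _ (OX none) + cnt _ (OX (some 0)) + cnt _ (OX (some 1))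
      rw [cnt_none, cnt_some0, cnt_some1]
      change 2 * q < (3 * p + s) * (3 * p + s - 1) + 2 * ((3 * p + s) * p) +
        2 * ((3 * p + s) * (p + r))
      have h1 : (3 * p) * (3 * p - 1) ≤ (3 * p + s) * (3 * p + s - 1) :=
        Nat.mul_le_mul (by omega) (by omega)
      have h2 : (3 * p) * p ≤ (3 * p + s) * p := Nat.mul_le_mul_right _ (by omega)
      have h2' : (3 * p) * p ≤ (3 * p + s) * (p + r) := Nat.mul_le_mul (by omega) (by omega)
      have h3 : (3 * p) * (3 * p - 1) + 3 * p = 9 * (p * p) := by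
        obtain ⟨u, rfl⟩ : ∃ u, p = u + 1 := ⟨p - 1, by omega⟩
        have : 3 * (u + 1) - 1 = 3 * u + 2 := by omega
        rw [this]
        ring
      have h4 : (3 * p) * p = 3 * (p * p) := by ring
      omega

end Pool.Agent.H8.KA
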