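import Mathlib
import Pool.Agent.H8.KA.Rel23

set_option autoImplicit false

/-!
MP_257582_lc (helper8): the facts used by the certificate.
-/

namespace Pool.Agent.H8.KA

open Finset
open Pool.Agent.H119R2.Kp

/-- the facts used by the certificate -/
structure FK (T : ℕ) (f : ℕ → ℤ) : Prop where
  h01 : ∀ g, f g = 0 ∨ f g = 1
  emb : ∀ d0 d1 : Fin 7, (d0 = 1 → d1 = 1) → d1 ≠ 0 → ∀ σ : Equiv.Perm (Fin 7), σ 0 = 0 →
    σ 1 = 1 → ∀ g g', (∀ i j, ag g i j = true → ∀ a, tm d0 d1 i a = true →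
      ∀ b, tm d0 d1 j b = true → ag g' (σ a) (σ b) = true) → f g ≤ f g'
  isol : ∀ g a, (∀ b, ag g a b = false) → f g = 0
  univ : ∀ g a, (∀ b, ag g a b = true) → f g = 1
  rel1 : ∀ k < 7, ∀ js bs : List ℕ, js.Nodup → (∀ j ∈ js, j < nb k ∧ j ∉ bs) →
    T ≤ (js.map (wt k)).sum → altO f (js.map (ob k)) (orL (bs.map (ob k))) = 0
  rel2 : ∀ bs : List ℕ, (∀ i ∈ bs, i < 4) → altO f [mXX, mXC] (orL (bs.map b2)) = 0
  rel3 : ∀ bs : List ℕ, (∀ i ∈ bs, i < 3) → altO f [mXX, mX1, mX2] (orL (bs.map b3)) = 0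

/-- the facts hold for the values of a property in the star case -/
theorem fK_FK {n q : ℕ} {P : SimpleGraph (Fin n) → Prop} (hP : GP n q P) (hS : Star n P)
    (s r p T : ℕ) [Fact p.Prime] (hp : 2 < p) (hQ : (3 * p + s).Prime) (hs : 0 < s) (hsr : s ≤ r)
    (hrp : s + r ≤ p) (hn : s + r + 5 * p = n) (hq : 2 * q + 5 * p < T * (p * p)) (hT : T ≤ 21) :
    FK T (fK P s r p) where
  h01 := fun _ => hv01 P _ _
  emb := fun d0 d1 h01 h10 σ hσ0 hσ1 g g' h => fK_emb hP s r p hsr hrp d0 d1 h01 h10 σ hσ0 hσ1 g g' h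
  isol := fun g a h => fK_isol hP hS s r p hs (by omega) (by omega) g a h
  univ := fun g a h => fK_univ hP hS s r p hs (by omega) (by omega) hn g a h
  rel1 := fun k hk js bs hnd hj hT => rel1 hP s r p T hp hn hq k hk js bs hnd hj hT
  rel2 := fun bs hb => rel2 hP s r p (by omega) hQ hn (by
    have := Nat.mul_le_mul_right (p * p) hT
    omega) bs hb
  rel3 := fun bs hb => rel3 hP s r p (by omega) hQ hn (by
    have := Nat.mul_le_mul_right (p * p) hT
    omega) bs hb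

end Pool.Agent.H8.KA
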