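import Mathlib
import Pool.Agent.H8.KA.FK

set_option autoImplicit false

/-!
MP_257582_lc (helper8): the facts are self-dual: with `f` also `g ↦ 1 - f (complement of g)`
satisfies them.
-/

namespace Pool.Agent.H8.KA

open Finset
open Pool.Agent.H98R2.Ev (EV toG NE)
open Pool.Agent.H119R2.Kp
open Pool.Agent.W5h78.Karp (ad ad_comm addP cnt mc)

theorem ag_comm (g : ℕ) (a b : Fin 7) : ag g a b = ag g b a := ad_comm _ _ _

theorem ag_mkM (l : List (Fin 7 × Fin 7)) (a b : Fin 7) :
    ag (mkM l) a b = (decide ((a, b) ∈ l) || decide ((b, a) ∈ l)) := by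
  induction l with
  | nil => simp [mkM, ag_zero]
  | cons x l ih =>
    have h1 : ∀ u v : Fin 7, (1 <<< (7 * x.1.val + x.2.val) : ℕ).testBit (7 * u.val + v.val) =
        decide ((u, v) = x) := by
      intro u v
      rw [Nat.one_shiftLeft, Nat.testBit_two_pow]
      have hx := x.2.isLt
      have hv := v.isLt
      congr 1
      rw [eq_iff_iff, Prod.ext_iff, Fin.ext_iff, Fin.ext_iff]
      simp only
      omega
    rw [mkM, ag_or, ih]
    unfold ag ad pK
    rw [h1, h1]
    simp only [List.mem_cons, Bool.decide_or]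
    cases decide ((a, b) = x) <;> cases decide ((b, a) = x) <;>
      cases decide ((a, b) ∈ l) <;> cases decide ((b, a) ∈ l) <;> rfl

/-- the pairs of parts -/
def prs : List (Fin 7 × Fin 7) :=
  (List.finRange 7).flatMap fun a => (List.finRange 7).map fun b => (a, b)

theorem mem_prs (x : Fin 7 × Fin 7) : x ∈ prs := by
  unfold prs
  rw [List.mem_flatMap]
  exact ⟨x.1, List.mem_finRange _, List.mem_map.2 ⟨x.2, List.mem_finRange _, rfl⟩⟩

/-- complement of a mask -/
def cpl (g : ℕ) : ℕ := mkM (prs.filter fun x => x.1 ≤ x.2 ∧ ag g x.1 x.2 = false)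

theorem ag_cpl (g : ℕ) (a b : Fin 7) : ag (cpl g) a b = !ag g a b := by
  unfold cpl
  rw [ag_mkM]
  simp only [List.mem_filter, mem_prs, true_and, decide_eq_true_eq]
  rw [ag_comm g b a]
  rcases le_total a b with h | h
  · cases ag g a b <;> simp [h]
  · cases ag g a b <;> simp [h]

theorem FK.congr {T : ℕ} {f : ℕ → ℤ} (hf : FK T f) {g g' : ℕ} (h : ∀ a b, ag g a b = ag g' a b) :
    f g = f g' := by
  have key : ∀ g g' : ℕ, (∀ a b, ag g a b = ag g' a b) → f g ≤ f g' := by
    intro g g' h
    refine hf.emb 0 1 (by decide) (by decide) 1 rfl rfl g g' fun i j hij a ha b hb => ?_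
    have h1 : ∀ i a : Fin 7, tm 0 1 i a = true → a = i := by decide
    rw [h1 i a ha, h1 j b hb]
    simpa using (h i j).symm.trans hij
  exact le_antisymm (key g g' h) (key g' g fun a b => (h a b).symm)

theorem altO_congr {T : ℕ} {f : ℕ → ℤ} (hf : FK T f) (ws : List ℕ) :
    ∀ {g g' : ℕ}, (∀ a b, ag g a b = ag g' a b) → altO f ws g = altO f ws g' := by
  induction ws with
  | nil => intro g g' h; exact hf.congr h
  | cons w ws ih =>
    intro g g' h
    unfold altO
    rw [ih h, ih (g := g ||| w) (g' := g' ||| w) fun a b => by rw [ag_or, ag_or, h a b]]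

/-- the dual -/
def dl (f : ℕ → ℤ) (g : ℕ) : ℤ := 1 - f (cpl g)

theorem altO_dl {T : ℕ} {f : ℕ → ℤ} (hf : FK T f) (ws : List ℕ) : ∀ (g g' : ℕ),
    (∀ a b, ag g' a b = !(ag g a b || ws.any fun w => ag w a b)) →
    (∀ w ∈ ws, ∀ a b, ag w a b = true → ag g a b = false) →
    ws.Pairwise (fun w w' => ∀ a b, ag w a b = true → ag w' a b = false) →
    altO (dl f) ws g = (if ws = [] then 1 else 0) - (-1) ^ ws.length * altO f ws g' := by
  induction ws with
  | nil =>
    intro g g' h _ _
    have h1 : f (cpl g) = f g' := hf.congr fun a b => by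
      rw [ag_cpl, h a b]; simp
    simp [altO, dl, h1]
  | cons w ws ih =>
    intro g g' h hd hp
    rw [List.pairwise_cons] at hp
    have e1 := ih g (g' ||| w) (fun a b => by
      rw [ag_or, h a b, List.any_cons]
      rcases hw : ag w a b with _ | _
      · simp
      · have h1 := hd w (by simp) a b hw
        have h2 : (ws.any fun w => ag w a b) = false := by
          rw [List.any_eq_false]
          intro w' hw'
          rw [hp.1 w' hw' a b hw]
          decide
        simp [h1, h2]) (fun w' hw' => hd w' (List.mem_cons_of_mem _ hw')) hp.2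
    have e2 := ih (g ||| w) g' (fun a b => by
      rw [ag_or, h a b, List.any_cons]
      simp [Bool.or_assoc]) (fun w' hw' a b hab => by
        rw [ag_or, hd w' (List.mem_cons_of_mem _ hw') a b hab, Bool.false_or]
        by_contra hc
        have h3 : ag w a b = true := by simpa using hc
        have := hp.1 w' hw' a b h3
        rw [hab] at this
        cases this) hp.2
    change altO (dl f) ws g - altO (dl f) ws (g ||| w) = _ - _ * (altO f ws g' - altO f ws (g' ||| w))
    rw [e1, e2, if_neg (List.cons_ne_nil _ _), List.length_cons, pow_succ]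
    ring

theorem ag_orL' (l : List ℕ) (a b : Fin 7) : ag (orL l) a b = l.any fun w => ag w a b := by
  induction l with
  | nil => simp [orL, ag_zero]
  | cons w l ih => simp [orL, ag_or, ih]

/-- dual relation for a partition of the pairs into masks -/
theorem dual_rel {T : ℕ} {f : ℕ → ℤ} (hf : FK T f) (N : ℕ) (o : ℕ → ℕ)
    (hdis : ∀ i < N, ∀ j < N, i ≠ j → ∀ a b, ag (o i) a b = true → ag (o j) a b = false)
    (hcov : ∀ a b, ∃ i < N, ag (o i) a b = true) (js bs : List ℕ) (hjs : js ≠ []) (hnd : js.Nodup)
    (hj : ∀ j ∈ js, j < N ∧ j ∉ bs) (hbs : ∀ j ∈ bs, N ≤ j → ∀ a b, ag (o j) a b = false)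
    (h : altO f (js.map o) (orL (((List.range N).filter fun j => j ∉ js ∧ j ∉ bs).map o)) = 0) :
    altO (dl f) (js.map o) (orL (bs.map o)) = 0 := by
  rw [altO_dl hf (js.map o) (orL (bs.map o))
    (orL (((List.range N).filter fun j => j ∉ js ∧ j ∉ bs).map o)), h]
  · simp [hjs]
  · intro a b
    obtain ⟨i, hi, hab⟩ := hcov a b
    have huniq : ∀ j < N, ag (o j) a b = true → j = i := by
      intro j hjN hj2
      by_contra hne
      have := hdis i hi j hjN (Ne.symm hne) a b hab
      rw [hj2] at this
      cases this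
    rw [ag_orL', ag_orL', List.any_map, List.any_map, List.any_map]
    have e1 : (((List.range N).filter fun j => j ∉ js ∧ j ∉ bs).any
        ((fun w => ag w a b) ∘ o)) = decide (i ∉ js ∧ i ∉ bs) := by
      rw [Bool.eq_iff_iff, List.any_eq_true, decide_eq_true_iff]
      constructor
      · rintro ⟨j, hj1, hj2⟩
        rw [List.mem_filter, List.mem_range, decide_eq_true_iff] at hj1
        have := huniq j hj1.1 hj2
        subst this
        exact hj1.2
      · intro h3
        exact ⟨i, by rw [List.mem_filter, List.mem_range, decide_eq_true_iff]; exact ⟨hi, h3⟩, hab⟩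
    have e2 : (bs.any ((fun w => ag w a b) ∘ o)) = decide (i ∈ bs) := by
      rw [Bool.eq_iff_iff, List.any_eq_true, decide_eq_true_iff]
      constructor
      · rintro ⟨j, hj1, hj2⟩
        by_cases hjN : j < N
        · have := huniq j hjN hj2
          subst this
          exact hj1
        · have h4 := hbs j hj1 (by omega) a b
          have h5 : ag (o j) a b = true := hj2
          rw [h4] at h5
          cases h5
      · intro h3
        exact ⟨i, h3, hab⟩
    have e3 : (js.any ((fun w => ag w a b) ∘ o)) = decide (i ∈ js) := by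
      rw [Bool.eq_iff_iff, List.any_eq_true, decide_eq_true_iff]
      constructor
      · rintro ⟨j, hj1, hj2⟩
        have := huniq j (hj j hj1).1 hj2
        subst this
        exact hj1
      · intro h3
        exact ⟨i, h3, hab⟩
    rw [e1, e2, e3]
    by_cases h5 : i ∈ js <;> by_cases h6 : i ∈ bs <;> simp [h5, h6]
  · intro w hw a b hab
    obtain ⟨j, hj1, rfl⟩ := List.mem_map.1 hw
    rw [ag_orL', List.any_map, List.any_eq_false]
    intro j' hj'
    by_cases hjN : j' < N
    · have h7 : j' ≠ j := fun h => (hj j hj1).2 (h ▸ hj')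
      have := hdis j (hj j hj1).1 j' hjN h7.symm a b hab
      simp [this]
    · have := hbs j' hj' (by omega) a b
      simp [this]
  · rw [List.pairwise_map]
    refine (hnd.imp_of_mem ?_)
    intro i j hi hj' hij a b hab
    exact hdis i (hj i hi).1 j (hj j hj').1 hij a b hab

theorem tm_symm : ∀ d0 d1 : Fin 7, (d0 = 1 → d1 = 1) → d1 ≠ 0 → ∀ a b : Fin 7,
    tm d0 d1 a b = true → tm d0 d1 b a = true := by decide +kernel

theorem cov1 : ∀ k < 7, ∀ a b : Fin 7, ∃ i < 28, ag (ob k i) a b = true := by decide +kernel

theorem nb_le28 : ∀ k < 7, nb k ≤ 28 := by decide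

theorem ob_big (k : ℕ) (hk : k < 7) (j : ℕ) (hj : 28 ≤ j) : ob k j = 0 := by
  have h1 : ∀ k < 7, (obT.getD k []).length ≤ 28 := by decide
  unfold ob
  rw [List.getD_eq_default]
  exact (h1 k hk).trans hj

theorem FK.dual {T : ℕ} (hT : 0 < T) {f : ℕ → ℤ} (hf : FK T f) : FK T (dl f) where
  h01 := fun g => by
    rcases hf.h01 (cpl g) with h | h <;> simp [dl, h]
  emb := by
    intro d0 d1 h01 h10 σ hσ0 hσ1 g g' h
    have key : f (cpl g') ≤ f (cpl g) := by
      have hs0 : σ.symm 0 = 0 := by rw [Equiv.symm_apply_eq, hσ0]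
      have hs1 : σ.symm 1 = 1 := by rw [Equiv.symm_apply_eq, hσ1]
      have e0 : σ d0 = 1 → σ d1 = 1 := by
        intro h2
        have h3 : d0 = 1 := by rw [← hσ1] at h2; exact σ.injective h2
        rw [h01 h3, hσ1]
      have e1 : σ d1 ≠ 0 := by
        intro h2
        exact h10 (by rw [← hσ0] at h2; exact σ.injective h2)
      have htm : ∀ u v : Fin 7, tm (σ d0) (σ d1) u v = true → tm d0 d1 (σ.symm u) (σ.symm v) = true := by
        intro u v huv
        have hi : ∀ x y : Fin 7, (σ.symm x = y) = (x = σ y) := fun x y => by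
          rw [Equiv.symm_apply_eq]
        have h0 : ∀ x : Fin 7, (σ.symm x = 0) = (x = 0) := fun x => by rw [hi, hσ0]
        have h1' : ∀ x : Fin 7, (σ.symm x = 1) = (x = 1) := fun x => by rw [hi, hσ1]
        have hd : ∀ x : Fin 7, (d0 = σ.symm x) = (σ d0 = x) := fun x => by
          rw [eq_iff_iff, Equiv.eq_symm_apply]
        have hd' : ∀ x : Fin 7, (d1 = σ.symm x) = (σ d1 = x) := fun x => by
          rw [eq_iff_iff, Equiv.eq_symm_apply]
        have hd1 : (d0 = 1) = (σ d0 = 1) := by
          rw [eq_iff_iff]
          constructor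
          · intro h5; rw [h5, hσ1]
          · intro h5; rw [← hσ1] at h5; exact σ.injective h5
        have hvu : (σ.symm v = σ.symm u) = (v = u) := by
          rw [eq_iff_iff, σ.symm.injective.eq_iff]
        unfold tm at huv ⊢
        simp only [h0, h1', hd, hd', hd1, hvu, hi v d0, hi v d1] at huv ⊢
        exact huv
      refine hf.emb (σ d0) (σ d1) e0 e1 σ.symm hs0 hs1 (cpl g') (cpl g) ?_
      intro i j hij a ha b hb
      rw [ag_cpl] at hij ⊢
      have hij' : ag g' i j = false := by simpa using hij
      by_contra hc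
      have hc' : ag g (σ.symm a) (σ.symm b) = true := by simpa using hc
      have h2 := h _ _ hc' (σ.symm i) (tm_symm d0 d1 h01 h10 _ _ (htm i a ha)) (σ.symm j)
        (tm_symm d0 d1 h01 h10 _ _ (htm j b hb))
      rw [Equiv.apply_symm_apply, Equiv.apply_symm_apply, hij'] at h2
      cases h2
    unfold dl
    omega
  isol := fun g a h => by
    have := hf.univ (cpl g) a fun b => by rw [ag_cpl, h b]; rfl
    simp [dl, this]
  univ := fun g a h => by
    have := hf.isol (cpl g) a fun b => by rw [ag_cpl, h b]; rfl
    simp [dl, this]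
  rel1 := by
    intro k hk js bs hnd hj hT'
    have hjs : js ≠ [] := by
      rintro rfl
      simp at hT'
      omega
    refine dual_rel hf 28 (ob k) (fun i hi j hj hij a b hab => tab_disj k hk i hi j hj hij a b hab)
      (cov1 k hk) js bs hjs hnd (fun j hj' => ⟨(hj j hj').1.trans_le (nb_le28 k hk), (hj j hj').2⟩)
      (fun j _ hj2 a b => by rw [ob_big k hk j hj2, ag_zero]) ?_
    refine hf.rel1 k hk js _ hnd (fun j hj' => ⟨(hj j hj').1, ?_⟩) hT'
    rw [List.mem_filter]
    simp [hj']
  rel2 := by
    intro bs hb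
    have hd : ∀ i < 6, ∀ j < 6, i ≠ j → ∀ a b : Fin 7,
        ag ((fun i => ([mXX, mXC, b2 0, b2 1, b2 2, b2 3] : List ℕ).getD i 0) i) a b = true →
        ag ((fun i => ([mXX, mXC, b2 0, b2 1, b2 2, b2 3] : List ℕ).getD i 0) j) a b = false := by
      decide +kernel
    have hc : ∀ a b : Fin 7, ∃ i < 6,
        ag ((fun i => ([mXX, mXC, b2 0, b2 1, b2 2, b2 3] : List ℕ).getD i 0) i) a b = true := by
      decide +kernel
    have e : ∀ l : List ℕ, (∀ i ∈ l, i < 4) → (l.map (· + 2)).map
        (fun i => ([mXX, mXC, b2 0, b2 1, b2 2, b2 3] : List ℕ).getD i 0) = l.map b2 := by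
      intro l hl
      rw [List.map_map]
      refine List.map_congr_left fun i hi => ?_
      have := hl i hi
      interval_cases i <;> rfl
    have h := dual_rel hf 6 (fun i => ([mXX, mXC, b2 0, b2 1, b2 2, b2 3] : List ℕ).getD i 0)
      hd hc [0, 1] (bs.map (· + 2)) (by decide) (by decide) (fun j hj => ⟨by
        simp at hj; omega, by
        simp at hj; simp; omega⟩) (fun j hj hj6 a b => by
          obtain ⟨i, hi, rfl⟩ := List.mem_map.1 hj
          have := hb i hi
          omega) ?_
    · rw [e bs hb] at h
      exact h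
    · have h1 := hf.rel2 ((List.range 4).filter fun j => j ∉ bs) (fun i hi => by
        rw [List.mem_filter, List.mem_range] at hi; exact hi.1)
      have h2 : ((List.range 6).filter fun j => j ∉ [0, 1] ∧ j ∉ bs.map (· + 2)) =
          ((List.range 4).filter fun j => j ∉ bs).map (· + 2) := by
        have h3 : List.range 6 = 0 :: 1 :: (List.range 4).map (· + 2) := by decide
        rw [h3, List.filter_cons, if_neg (by simp), List.filter_cons, if_neg (by simp),
          List.filter_map]
        congr 1
        refine List.filter_congr fun i _ => ?_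
        rw [Function.comp_apply, decide_eq_decide]
        simp only [List.mem_cons, List.mem_map, List.not_mem_nil, or_false]
        constructor
        · rintro ⟨_, h5⟩ h6
          exact h5 ⟨i, h6, rfl⟩
        · intro h5
          refine ⟨by omega, ?_⟩
          rintro ⟨x, hx, hxi⟩
          exact h5 ((Nat.add_right_cancel hxi) ▸ hx)
      rw [h2, e _ (fun i hi => by rw [List.mem_filter, List.mem_range] at hi; exact hi.1)]
      exact h1
  rel3 := by
    intro bs hb
    have hd : ∀ i < 6, ∀ j < 6, i ≠ j → ∀ a b : Fin 7,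
        ag ((fun i => ([mXX, mX1, mX2, b3 0, b3 1, b3 2] : List ℕ).getD i 0) i) a b = true →
        ag ((fun i => ([mXX, mX1, mX2, b3 0, b3 1, b3 2] : List ℕ).getD i 0) j) a b = false := by
      decide +kernel
    have hc : ∀ a b : Fin 7, ∃ i < 6,
        ag ((fun i => ([mXX, mX1, mX2, b3 0, b3 1, b3 2] : List ℕ).getD i 0) i) a b = true := by
      decide +kernel
    have e : ∀ l : List ℕ, (∀ i ∈ l, i < 3) → (l.map (· + 3)).map
        (fun i => ([mXX, mX1, mX2, b3 0, b3 1, b3 2] : List ℕ).getD i 0) = l.map b3 := by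
      intro l hl
      rw [List.map_map]
      refine List.map_congr_left fun i hi => ?_
      have := hl i hi
      interval_cases i <;> rfl
    have h := dual_rel hf 6 (fun i => ([mXX, mX1, mX2, b3 0, b3 1, b3 2] : List ℕ).getD i 0)
      hd hc [0, 1, 2] (bs.map (· + 3)) (by decide) (by decide) (fun j hj => ⟨by
        simp at hj; omega, by
        simp at hj; simp; omega⟩) (fun j hj hj6 a b => by
          obtain ⟨i, hi, rfl⟩ := List.mem_map.1 hj
          have := hb i hi
          omega) ?_
    · rw [e bs hb] at h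
      exact h
    · have h1 := hf.rel3 ((List.range 3).filter fun j => j ∉ bs) (fun i hi => by
        rw [List.mem_filter, List.mem_range] at hi; exact hi.1)
      have h2 : ((List.range 6).filter fun j => j ∉ [0, 1, 2] ∧ j ∉ bs.map (· + 3)) =
          ((List.range 3).filter fun j => j ∉ bs).map (· + 3) := by
        have h3 : List.range 6 = 0 :: 1 :: 2 :: (List.range 3).map (· + 3) := by decide
        rw [h3, List.filter_cons, if_neg (by simp), List.filter_cons, if_neg (by simp),
          List.filter_cons, if_neg (by simp), List.filter_map]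
        congr 1
        refine List.filter_congr fun i _ => ?_
        rw [Function.comp_apply, decide_eq_decide]
        simp only [List.mem_cons, List.mem_map, List.not_mem_nil, or_false]
        constructor
        · rintro ⟨_, h5⟩ h6
          exact h5 ⟨i, h6, rfl⟩
        · intro h5
          refine ⟨by omega, ?_⟩
          rintro ⟨x, hx, hxi⟩
          exact h5 ((Nat.add_right_cancel hxi) ▸ hx)
      rw [h2, e _ (fun i hi => by rw [List.mem_filter, List.mem_range] at hi; exact hi.1)]
      exact h1

/-- a certificate may assume that one value is `0`, if this value is at most the value of the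
complement -/
theorem FK.wlog {T : ℕ} (hT : 0 < T) (g : ℕ) (hg : ∀ f : ℕ → ℤ, FK T f → f g ≤ f (cpl g))
    (H : ∀ f : ℕ → ℤ, FK T f → f g = 0 → False) : ∀ f : ℕ → ℤ, FK T f → False := by
  intro f hf
  rcases hf.h01 g with h | h
  · exact H f hf h
  · refine H (dl f) (hf.dual hT) ?_
    have h1 := hg f hf
    rcases hf.h01 (cpl g) with h2 | h2
    · rw [h, h2] at h1
      norm_num at h1
    · simp [dl, h2]

end Pool.Agent.H8.KA
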