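import Mathlib
import Pool.Agent.H8.KA.Dual

set_option autoImplicit false

/-!
MP_257582_lc (helper8): executable checks for the certificate: embeddings of patterns and
relations between the values.  Masks are symmetric `7 × 7` matrices of bits, block permutations are
given by octal digits.
-/

namespace Pool.Agent.H8.KA

open Finset
open Pool.Agent.W5h78.Karp (ad ad_comm addP cnt mc)

/-- the digit of `p` at the bit `i` -/
def dg (p i : ℕ) : ℕ := Nat.land (Nat.shiftRight p i) 7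

/-- permute the rows -/
def rowsP (p x : ℕ) : ℕ :=
  Nat.lor (Nat.land x 16383)
  (Nat.lor (Nat.shiftLeft (Nat.land (Nat.shiftRight x 14) 127) (Nat.mul 7 (dg p 6)))
  (Nat.lor (Nat.shiftLeft (Nat.land (Nat.shiftRight x 21) 127) (Nat.mul 7 (dg p 9)))
  (Nat.lor (Nat.shiftLeft (Nat.land (Nat.shiftRight x 28) 127) (Nat.mul 7 (dg p 12)))
  (Nat.lor (Nat.shiftLeft (Nat.land (Nat.shiftRight x 35) 127) (Nat.mul 7 (dg p 15)))
  (Nat.shiftLeft (Nat.land (Nat.shiftRight x 42) 127) (Nat.mul 7 (dg p 18)))))))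

/-- permute the columns -/
def colsP (p x : ℕ) : ℕ :=
  Nat.lor (Nat.land x 13298030395779)
  (Nat.lor (Nat.shiftLeft (Nat.land (Nat.shiftRight x 2) 4432676798593) (dg p 6))
  (Nat.lor (Nat.shiftLeft (Nat.land (Nat.shiftRight x 3) 4432676798593) (dg p 9))
  (Nat.lor (Nat.shiftLeft (Nat.land (Nat.shiftRight x 4) 4432676798593) (dg p 12))
  (Nat.lor (Nat.shiftLeft (Nat.land (Nat.shiftRight x 5) 4432676798593) (dg p 15))
  (Nat.shiftLeft (Nat.land (Nat.shiftRight x 6) 4432676798593) (dg p 18))))))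

/-- permute -/
def Ph (p x : ℕ) : ℕ := colsP p (rowsP p x)

/-- the digits `2, …, 6` are a permutation of `2, …, 6` -/
def okP (p : ℕ) : Bool :=
  Nat.beq (Nat.lor (Nat.shiftLeft 1 (dg p 6)) (Nat.lor (Nat.shiftLeft 1 (dg p 9))
    (Nat.lor (Nat.shiftLeft 1 (dg p 12)) (Nat.lor (Nat.shiftLeft 1 (dg p 15))
    (Nat.shiftLeft 1 (dg p 18)))))) 124

/-- the digits -/
def sP (p : ℕ) : Fin 7 → ℕ := ![0, 1, dg p 6, dg p 9, dg p 12, dg p 15, dg p 18]

theorem tb127 (j : ℕ) : (127 : ℕ).testBit j = decide (j < 7) :=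
  Nat.testBit_two_pow_sub_one 7 j

theorem row_key (x i s a b : ℕ) (hb : b < 7) :
    (Nat.shiftLeft (Nat.land (Nat.shiftRight x (7 * i)) 127) (7 * s)).testBit (7 * a + b) =
      (decide (s = a) && x.testBit (7 * i + b)) := by
  change (((x >>> (7 * i)) &&& 127) <<< (7 * s)).testBit (7 * a + b) = _
  rw [Nat.testBit_shiftLeft, Nat.testBit_and, Nat.testBit_shiftRight, tb127]
  rcases lt_trichotomy s a with h | h | h
  · have h1 : ¬ (7 * a + b - 7 * s < 7) := by omega
    have h2 : s ≠ a := by omega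
    simp [h1, h2]
  · subst h
    have h1 : 7 * s + b - 7 * s = b := by omega
    simp [h1, hb]
  · have h1 : ¬ (7 * a + b ≥ 7 * s) := by omega
    have h2 : s ≠ a := by omega
    simp [h1, h2]

theorem tbCM : ∀ j < 49, (4432676798593 : ℕ).testBit j = decide (j % 7 = 0) := by
  decide +kernel

theorem tbCM3 : ∀ a : Fin 7, ∀ b : Fin 7, (13298030395779 : ℕ).testBit (7 * a.val + b.val) =
    decide (b.val < 2) := by
  decide +kernel

theorem col_key (x i s a b : ℕ) (ha : a < 7) (hb : b < 7) (hs : s < 7) :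
    (Nat.shiftLeft (Nat.land (Nat.shiftRight x i) 4432676798593) s).testBit (7 * a + b) =
      (decide (s = b) && x.testBit (7 * a + i)) := by
  change (((x >>> i) &&& 4432676798593) <<< s).testBit (7 * a + b) = _
  rw [Nat.testBit_shiftLeft, Nat.testBit_and, Nat.testBit_shiftRight]
  by_cases h : s = b
  · subst h
    have h1 : 7 * a + s - s = 7 * a := by omega
    rw [h1, tbCM _ (by omega)]
    have h2 : 7 * a + s ≥ s := by omega
    have h3 : i + 7 * a = 7 * a + i := by omega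
    simp [h2, h3]
  · by_cases h1 : 7 * a + b ≥ s
    · rw [tbCM _ (by omega)]
      have h2 : ¬ ((7 * a + b - s) % 7 = 0) := by omega
      simp [h, h2]
    · simp [h, h1]

theorem exists_fin7 (P : Fin 7 → Prop) :
    (∃ i, P i) ↔ P 0 ∨ P 1 ∨ P 2 ∨ P 3 ∨ P 4 ∨ P 5 ∨ P 6 := by
  constructor
  · rintro ⟨i, hi⟩
    fin_cases i <;> simp_all
  · rintro (h | h | h | h | h | h | h) <;> exact ⟨_, h⟩

theorem rowsP_bit (p x : ℕ) (a b : Fin 7) : (rowsP p x).testBit (7 * a.val + b.val) = true ↔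
    ∃ i : Fin 7, sP p i = a.val ∧ x.testBit (7 * i.val + b.val) = true := by
  have e : rowsP p x = ((x &&& 16383) |||
      ((Nat.shiftLeft (Nat.land (Nat.shiftRight x (7 * 2)) 127) (7 * (dg p 6))) |||
      ((Nat.shiftLeft (Nat.land (Nat.shiftRight x (7 * 3)) 127) (7 * (dg p 9))) |||
      ((Nat.shiftLeft (Nat.land (Nat.shiftRight x (7 * 4)) 127) (7 * (dg p 12))) |||
      ((Nat.shiftLeft (Nat.land (Nat.shiftRight x (7 * 5)) 127) (7 * (dg p 15))) |||
      (Nat.shiftLeft (Nat.land (Nat.shiftRight x (7 * 6)) 127) (7 * (dg p 18)))))))) := rfl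
  have h0 : (16383 : ℕ).testBit (7 * a.val + b.val) = decide (a.val < 2) := by
    have := Nat.testBit_two_pow_sub_one 14 (7 * a.val + b.val)
    rw [show (2 : ℕ) ^ 14 - 1 = 16383 by norm_num] at this
    rw [this]
    have hb := b.isLt
    congr 1
    rw [eq_iff_iff]
    omega
  rw [e, Nat.testBit_or, Nat.testBit_or, Nat.testBit_or, Nat.testBit_or, Nat.testBit_or,
    Nat.testBit_and, row_key _ _ _ _ _ b.isLt, row_key _ _ _ _ _ b.isLt,
    row_key _ _ _ _ _ b.isLt, row_key _ _ _ _ _ b.isLt, row_key _ _ _ _ _ b.isLt, h0,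
    exists_fin7]
  simp only [sP, Matrix.cons_val, Bool.or_eq_true, Bool.and_eq_true, decide_eq_true_iff]
  constructor
  · rintro (⟨h1, h2⟩ | h | h | h | h | h)
    · interval_cases ha : a.val
      · exact Or.inl ⟨rfl, h1⟩
      · exact Or.inr (Or.inl ⟨rfl, h1⟩)
    · exact Or.inr (Or.inr (Or.inl h))
    · exact Or.inr (Or.inr (Or.inr (Or.inl h)))
    · exact Or.inr (Or.inr (Or.inr (Or.inr (Or.inl h))))
    · exact Or.inr (Or.inr (Or.inr (Or.inr (Or.inr (Or.inl h)))))
    · exact Or.inr (Or.inr (Or.inr (Or.inr (Or.inr (Or.inr h)))))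
  · rintro (⟨h1, h2⟩ | ⟨h1, h2⟩ | h | h | h | h | h)
    · rw [← h1]
      exact Or.inl ⟨h2, by norm_num⟩
    · rw [← h1]
      exact Or.inl ⟨h2, by norm_num⟩
    · exact Or.inr (Or.inl h)
    · exact Or.inr (Or.inr (Or.inl h))
    · exact Or.inr (Or.inr (Or.inr (Or.inl h)))
    · exact Or.inr (Or.inr (Or.inr (Or.inr (Or.inl h))))
    · exact Or.inr (Or.inr (Or.inr (Or.inr (Or.inr h))))

theorem colsP_bit (p x : ℕ) (hs : ∀ i, sP p i < 7) (a b : Fin 7) :
    (colsP p x).testBit (7 * a.val + b.val) = true ↔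
    ∃ i : Fin 7, sP p i = b.val ∧ x.testBit (7 * a.val + i.val) = true := by
  have e : colsP p x = ((x &&& 13298030395779) |||
      ((Nat.shiftLeft (Nat.land (Nat.shiftRight x 2) 4432676798593) (dg p 6)) |||
      ((Nat.shiftLeft (Nat.land (Nat.shiftRight x 3) 4432676798593) (dg p 9)) |||
      ((Nat.shiftLeft (Nat.land (Nat.shiftRight x 4) 4432676798593) (dg p 12)) |||
      ((Nat.shiftLeft (Nat.land (Nat.shiftRight x 5) 4432676798593) (dg p 15)) |||
      (Nat.shiftLeft (Nat.land (Nat.shiftRight x 6) 4432676798593) (dg p 18))))))) := rfl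
  have g2 : dg p 6 < 7 := hs 2
  have g3 : dg p 9 < 7 := hs 3
  have g4 : dg p 12 < 7 := hs 4
  have g5 : dg p 15 < 7 := hs 5
  have g6 : dg p 18 < 7 := hs 6
  rw [e, Nat.testBit_or, Nat.testBit_or, Nat.testBit_or, Nat.testBit_or, Nat.testBit_or,
    Nat.testBit_and, col_key _ _ _ _ _ a.isLt b.isLt g2, col_key _ _ _ _ _ a.isLt b.isLt g3,
    col_key _ _ _ _ _ a.isLt b.isLt g4, col_key _ _ _ _ _ a.isLt b.isLt g5,
    col_key _ _ _ _ _ a.isLt b.isLt g6, tbCM3, exists_fin7]
  simp only [sP, Matrix.cons_val, Bool.or_eq_true, Bool.and_eq_true, decide_eq_true_iff]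
  constructor
  · rintro (⟨h1, h2⟩ | h | h | h | h | h)
    · interval_cases hb : b.val
      · exact Or.inl ⟨rfl, h1⟩
      · exact Or.inr (Or.inl ⟨rfl, h1⟩)
    · exact Or.inr (Or.inr (Or.inl h))
    · exact Or.inr (Or.inr (Or.inr (Or.inl h)))
    · exact Or.inr (Or.inr (Or.inr (Or.inr (Or.inl h))))
    · exact Or.inr (Or.inr (Or.inr (Or.inr (Or.inr (Or.inl h)))))
    · exact Or.inr (Or.inr (Or.inr (Or.inr (Or.inr (Or.inr h)))))
  · rintro (⟨h1, h2⟩ | ⟨h1, h2⟩ | h | h | h | h | h)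
    · rw [← h1]
      exact Or.inl ⟨h2, by norm_num⟩
    · rw [← h1]
      exact Or.inl ⟨h2, by norm_num⟩
    · exact Or.inr (Or.inl h)
    · exact Or.inr (Or.inr (Or.inl h))
    · exact Or.inr (Or.inr (Or.inr (Or.inl h)))
    · exact Or.inr (Or.inr (Or.inr (Or.inr (Or.inl h))))
    · exact Or.inr (Or.inr (Or.inr (Or.inr (Or.inr h))))

theorem okP_surj {p : ℕ} (h : okP p = true) (k : ℕ) (hk : k < 7) : ∃ i, sP p i = k := by
  have h1 : (1 <<< dg p 6 ||| (1 <<< dg p 9 ||| (1 <<< dg p 12 ||| (1 <<< dg p 15 |||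
      1 <<< dg p 18)))) = 124 := Nat.eq_of_beq_eq_true h
  have h2 : ∀ j : ℕ, (j = dg p 6 ∨ j = dg p 9 ∨ j = dg p 12 ∨ j = dg p 15 ∨ j = dg p 18) ↔
      (124 : ℕ).testBit j = true := by
    intro j
    rw [← h1]
    simp only [Nat.testBit_or, Nat.one_shiftLeft, Nat.testBit_two_pow, Bool.or_eq_true,
      decide_eq_true_iff]
    constructor
    · rintro (h | h | h | h | h) <;> simp [h]
    · rintro (h | h | h | h | h) <;> simp [h]
  have h3 : ∀ j, (124 : ℕ).testBit j = true → ∃ i, sP p i = j := by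
    intro j hj
    obtain h3 | h3 | h3 | h3 | h3 := (h2 j).2 hj
    · exact ⟨2, h3.symm⟩
    · exact ⟨3, h3.symm⟩
    · exact ⟨4, h3.symm⟩
    · exact ⟨5, h3.symm⟩
    · exact ⟨6, h3.symm⟩
  interval_cases k
  · exact ⟨0, rfl⟩
  · exact ⟨1, rfl⟩
  · exact h3 2 (by decide)
  · exact h3 3 (by decide)
  · exact h3 4 (by decide)
  · exact h3 5 (by decide)
  · exact h3 6 (by decide)

theorem okP_lt {p : ℕ} (h : okP p = true) (i : Fin 7) : sP p i < 7 := by
  have h1 : (1 <<< dg p 6 ||| (1 <<< dg p 9 ||| (1 <<< dg p 12 ||| (1 <<< dg p 15 |||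
      1 <<< dg p 18)))) = 124 := Nat.eq_of_beq_eq_true h
  have h2 : ∀ j : ℕ, (j = dg p 6 ∨ j = dg p 9 ∨ j = dg p 12 ∨ j = dg p 15 ∨ j = dg p 18) →
      j < 7 := by
    intro j hj
    have h3 : (124 : ℕ).testBit j = true := by
      rw [← h1]
      simp only [Nat.testBit_or, Nat.one_shiftLeft, Nat.testBit_two_pow, Bool.or_eq_true,
        decide_eq_true_iff]
      rcases hj with h | h | h | h | h <;> simp [h]
    by_contra hc
    have h4 : (124 : ℕ) < 2 ^ j := lt_of_lt_of_le (by norm_num : 124 < 2 ^ 7)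
      (Nat.pow_le_pow_right (by norm_num) (not_lt.1 hc))
    rw [Nat.testBit_lt_two_pow h4] at h3
    cases h3
  fin_cases i
  · exact Nat.zero_lt_succ _
  · exact (by norm_num : (1 : ℕ) < 7)
  · exact h2 _ (Or.inl rfl)
  · exact h2 _ (Or.inr (Or.inl rfl))
  · exact h2 _ (Or.inr (Or.inr (Or.inl rfl)))
  · exact h2 _ (Or.inr (Or.inr (Or.inr (Or.inl rfl))))
  · exact h2 _ (Or.inr (Or.inr (Or.inr (Or.inr rfl))))

/-- the permutation of the digits -/
noncomputable def permP {p : ℕ} (h : okP p = true) : Equiv.Perm (Fin 7) :=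
  Equiv.ofBijective (fun i => (⟨sP p i, okP_lt h i⟩ : Fin 7))
    (Finite.surjective_iff_bijective.1 fun k => by
      obtain ⟨i, hi⟩ := okP_surj h k.val k.isLt
      exact ⟨i, Fin.ext hi⟩)

theorem permP_val {p : ℕ} (h : okP p = true) (i : Fin 7) : (permP h i).val = sP p i := rfl

theorem Ph_bit {p : ℕ} (h : okP p = true) (x : ℕ) (i j : Fin 7) :
    (Ph p x).testBit (7 * (permP h i).val + (permP h j).val) = x.testBit (7 * i.val + j.val) := by
  rw [Bool.eq_iff_iff]
  unfold Ph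
  rw [colsP_bit p _ (okP_lt h)]
  constructor
  · rintro ⟨k, hk, h1⟩
    have hk' : k = j := (permP h).injective (Fin.ext hk)
    subst hk'
    rw [rowsP_bit] at h1
    obtain ⟨l, hl, h2⟩ := h1
    have hl' : l = i := (permP h).injective (Fin.ext hl)
    subst hl'
    exact h2
  · intro h1
    exact ⟨j, rfl, (rowsP_bit _ _ _ _).2 ⟨i, rfl, h1⟩⟩

theorem ag_Ph {p : ℕ} (h : okP p = true) (x : ℕ) (i j : Fin 7) :
    ag (Ph p x) (permP h i) (permP h j) = ag x i j := by
  unfold ag ad pK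
  rw [Ph_bit, Ph_bit]

theorem tm_id : ∀ i a : Fin 7, tm 0 1 i a = true → a = i := by decide

theorem FK.perm {T : ℕ} {f : ℕ → ℤ} (hf : FK T f) {p : ℕ} (h : okP p = true) (x : ℕ) :
    f (Ph p x) = f x := by
  have h0 : permP h 0 = 0 := Fin.ext rfl
  have h1 : permP h 1 = 1 := Fin.ext rfl
  have g0 : (permP h).symm 0 = 0 := by rw [Equiv.symm_apply_eq, h0]
  have g1 : (permP h).symm 1 = 1 := by rw [Equiv.symm_apply_eq, h1]
  refine le_antisymm ?_ ?_
  · refine hf.emb 0 1 (by decide) (by decide) (permP h).symm g0 g1 _ _ fun i j hij a ha b hb => ?_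
    rw [tm_id i a ha, tm_id j b hb, ← ag_Ph h, Equiv.apply_symm_apply, Equiv.apply_symm_apply]
    exact hij
  · refine hf.emb 0 1 (by decide) (by decide) (permP h) h0 h1 _ _ fun i j hij a ha b hb => ?_
    rw [tm_id i a ha, tm_id j b hb, ag_Ph h]
    exact hij

/-! ### Maps -/

/-- spread rows: keep the rows in `K`, add row `i` at place `a` for the `(i, a)` in `L` -/
def rowM (K : ℕ) (L : List (ℕ × ℕ)) (x : ℕ) : ℕ :=
  L.foldr (fun ia y => Nat.lor (Nat.shiftLeft (Nat.land (Nat.shiftRight x (Nat.mul 7 ia.1)) 127)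
    (Nat.mul 7 ia.2)) y) (Nat.land x K)

/-- spread columns -/
def colM (K : ℕ) (L : List (ℕ × ℕ)) (x : ℕ) : ℕ :=
  L.foldr (fun ia y => Nat.lor (Nat.shiftLeft (Nat.land (Nat.shiftRight x ia.1) 4432676798593)
    ia.2) y) (Nat.land x K)

theorem rowM_bit (K : ℕ) (L : List (ℕ × ℕ)) (x : ℕ) (i a b : Fin 7)
    (h : (i = a ∧ K.testBit (7 * a.val + b.val) = true) ∨ (i.val, a.val) ∈ L)
    (hx : x.testBit (7 * i.val + b.val) = true) :
    (rowM K L x).testBit (7 * a.val + b.val) = true := by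
  induction L with
  | nil =>
    rcases h with ⟨rfl, h⟩ | h
    · change (x &&& K).testBit _ = true
      rw [Nat.testBit_and, hx, h]; rfl
    · cases h
  | cons ia L ih =>
    change (Nat.shiftLeft (Nat.land (Nat.shiftRight x (7 * ia.1)) 127) (7 * ia.2) |||
      rowM K L x).testBit _ = true
    rw [Nat.testBit_or, row_key _ _ _ _ _ b.isLt, Bool.or_eq_true]
    rcases h with h | h
    · exact Or.inr (ih (Or.inl h))
    · rcases List.mem_cons.1 h with h | h
      · left
        rw [← h]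
        simp [hx]
      · exact Or.inr (ih (Or.inr h))

theorem colM_bit (K : ℕ) (L : List (ℕ × ℕ)) (x : ℕ) (i a b : Fin 7)
    (h : (i = b ∧ K.testBit (7 * a.val + b.val) = true) ∨ (i.val, b.val) ∈ L)
    (hx : x.testBit (7 * a.val + i.val) = true) :
    (colM K L x).testBit (7 * a.val + b.val) = true := by
  induction L with
  | nil =>
    rcases h with ⟨rfl, h⟩ | h
    · change (x &&& K).testBit _ = true
      rw [Nat.testBit_and, hx, h]; rfl
    · cases h
  | cons ia L ih =>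
    change (Nat.shiftLeft (Nat.land (Nat.shiftRight x ia.1) 4432676798593) ia.2 |||
      colM K L x).testBit _ = true
    rw [Nat.testBit_or, Bool.or_eq_true]
    rcases h with h | h
    · exact Or.inr (ih (Or.inl h))
    · rcases List.mem_cons.1 h with h | h
      · left
        rw [← h, col_key _ _ _ _ _ a.isLt b.isLt b.isLt]
        simp [hx]
      · exact Or.inr (ih (Or.inr h))

/-- data of a map: rows kept, columns kept, moves -/
structure MD where
  d0 : Fin 7
  d1 : Fin 7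
  K : ℕ
  K' : ℕ
  L : List (ℕ × ℕ)

/-- the data are correct -/
def MD.ok (m : MD) : Prop := (m.d0 = 1 → m.d1 = 1) ∧ m.d1 ≠ 0 ∧
  ∀ i a : Fin 7, tm m.d0 m.d1 i a = true →
    (i = a ∧ (∀ b : Fin 7, m.K.testBit (7 * a.val + b.val) = true) ∧
      ∀ b : Fin 7, m.K'.testBit (7 * b.val + a.val) = true) ∨ (i.val, a.val) ∈ m.L

instance (m : MD) : Decidable m.ok := by unfold MD.ok; infer_instance

/-- check of an embedding -/
def impD (m : MD) (p x y : ℕ) : Bool :=
  (okP p && Nat.beq (Nat.land (Ph p (colM m.K' m.L (rowM m.K m.L x))) y)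
    (Ph p (colM m.K' m.L (rowM m.K m.L x))))

theorem impD_sound {T : ℕ} {f : ℕ → ℤ} (hf : FK T f) {m : MD} (hm : m.ok) {p x y : ℕ}
    (h : impD m p x y = true) : f x ≤ f y := by
  unfold impD at h
  rw [Bool.and_eq_true] at h
  obtain ⟨hp, h⟩ := h
  have h2 : Ph p (colM m.K' m.L (rowM m.K m.L x)) &&& y = Ph p (colM m.K' m.L (rowM m.K m.L x)) :=
    Nat.eq_of_beq_eq_true h
  refine hf.emb m.d0 m.d1 hm.1 hm.2.1 (permP hp) (Fin.ext rfl) (Fin.ext rfl) x y
    fun i j hij a ha b hb => ?_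
  have key : ∀ i j a b : Fin 7, tm m.d0 m.d1 i a = true → tm m.d0 m.d1 j b = true →
      x.testBit (7 * i.val + j.val) = true →
      y.testBit (7 * (permP hp a).val + (permP hp b).val) = true := by
    intro i j a b ha hb hij
    have h3 : (rowM m.K m.L x).testBit (7 * a.val + j.val) = true := by
      refine rowM_bit _ _ _ i a j ?_ hij
      rcases hm.2.2 i a ha with ⟨h4, h5, h6⟩ | h4
      · exact Or.inl ⟨h4, h5 j⟩
      · exact Or.inr h4
    have h4 : (colM m.K' m.L (rowM m.K m.L x)).testBit (7 * a.val + b.val) = true := by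
      refine colM_bit _ _ _ j a b ?_ h3
      rcases hm.2.2 j b hb with ⟨h4, h5, h6⟩ | h4
      · exact Or.inl ⟨h4, h6 a⟩
      · exact Or.inr h4
    have h5 := Ph_bit hp (colM m.K' m.L (rowM m.K m.L x)) a b
    rw [h4, ← h2, Nat.testBit_and, Bool.and_eq_true] at h5
    exact h5.2
  unfold ag ad pK at hij ⊢
  rw [Bool.or_eq_true] at hij ⊢
  rcases hij with h1 | h1
  · exact Or.inl (key i j a b ha hb h1)
  · exact Or.inr (key j i b a hb ha h1)

end Pool.Agent.H8.KA
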