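import Mathlib
import Pool.Agent.H8.KA.Chk

set_option autoImplicit false

/-!
MP_257582_lc (helper8): executable check of the relations between the values.
-/

namespace Pool.Agent.H8.KA

open Finset
open Pool.Agent.W5h78.Karp (ad ad_comm addP cnt mc)

/-- symmetric masks of the orbits (`k < 7`), of the classes of E2 (`k = 7`) and of E3 (`k = 8`) -/
def obS : List (List ℕ) :=
  [
    [65536, 8519680, 1074003968, 137439477760, 17592187092992, 16777216, 2181038080, 274945015808, 35184506306560, 4294967296, 558345748480, 70385924046848, 1099511627776, 142936511610880, 281474976710656, 1, 130, 256, 16388, 2097160, 268435472, 34359738400, 4398046511168, 33280, 4195328, 536872960, 68719480832, 8796093030400],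
    [16842752, 8519680, 3255042048, 412384493568, 52776693399552, 4294967296, 558345748480, 70385924046848, 1099511627776, 142936511610880, 281474976710656, 1, 130, 256, 2113548, 268435472, 34359738400, 4398046511168, 4228608, 536872960, 68719480832, 8796093030400],
    [16842752, 8519680, 276019019776, 139620515840, 52776693399552, 1103806595072, 558345748480, 213322435657728, 281474976710656, 1, 130, 256, 2113548, 34628173872, 4398046511168, 4228608, 69256353792, 8796093030400],
    [4311810048, 3263561728, 970730242048, 123162617446400, 1099511627776, 142936511610880, 281474976710656, 1, 130, 256, 270549020, 34359738400, 4398046511168, 541101568, 68719480832, 8796093030400],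
    [4311810048, 3263561728, 124133347688448, 282574488338432, 142936511610880, 1, 130, 256, 270549020, 4432406249568, 541101568, 8864812511232],
    [1103823437824, 697974784000, 276019019776, 266099129057280, 281474976710656, 1, 130, 256, 34630287420, 4398046511168, 69260582400, 8796093030400],
    [282578800148480, 161089234010112, 105983888850944, 1, 130, 256, 4432676798588, 8865353612800],
    [500892239396977, 53192335048716, 25362432, 8865349384322, 4228608, 256],
    [500892239396977, 17730700591108, 44326983841930, 65536, 20972800, 8552960]]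

/-- symmetric mask `j` of family `k` -/
def oS (k j : ℕ) : ℕ := (obS.getD k []).getD j 0

theorem oS_ob : ∀ k < 7, ∀ j < 28, ∀ a b : Fin 7, ag (oS k j) a b = ag (ob k j) a b := by
  decide +kernel

theorem oS_ob' (k : ℕ) (hk : k < 7) (j : ℕ) (a b : Fin 7) : ag (oS k j) a b = ag (ob k j) a b := by
  by_cases hj : j < 28
  · exact oS_ob k hk j hj a b
  · have h1 : ∀ k < 7, (obS.getD k []).length ≤ 28 := by decide
    rw [ob_big k hk j (by omega)]
    unfold oS
    rw [List.getD_eq_default _ _ ((h1 k hk).trans (by omega))]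

theorem oS_7 : ∀ j < 6, ∀ a b : Fin 7,
    ag (oS 7 j) a b = ag (([mXX, mXC, b2 0, b2 1, b2 2, b2 3] : List ℕ).getD j 0) a b := by
  decide +kernel

theorem oS_8 : ∀ j < 6, ∀ a b : Fin 7,
    ag (oS 8 j) a b = ag (([mXX, mX1, mX2, b3 0, b3 1, b3 2] : List ℕ).getD j 0) a b := by
  decide +kernel

theorem altO_congr2 {T : ℕ} {f : ℕ → ℤ} (hf : FK T f) {ws ws' : List ℕ}
    (h : List.Forall₂ (fun w w' => ∀ a b, ag w a b = ag w' a b) ws ws') :
    ∀ {g g' : ℕ}, (∀ a b, ag g a b = ag g' a b) → altO f ws g = altO f ws' g' := by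
  induction h with
  | nil => intro g g' h; exact hf.congr h
  | @cons w w' _ _ hw _ ih =>
    intro g g' h
    unfold altO
    rw [ih h, ih (g := g ||| w) (g' := g' ||| w') fun a b => by rw [ag_or, ag_or, h a b, hw a b]]

theorem ag_orL_map {l : List ℕ} {o o' : ℕ → ℕ} (h : ∀ i ∈ l, ∀ a b, ag (o i) a b = ag (o' i) a b)
    (a b : Fin 7) : ag (orL (l.map o)) a b = ag (orL (l.map o')) a b := by
  induction l with
  | nil => rfl
  | cons i l ih =>
    simp only [List.map_cons, orL, ag_or]
    rw [h i (by simp) a b, ih fun j hj => h j (List.mem_cons_of_mem _ hj)]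

theorem forall2_map {l : List ℕ} {o o' : ℕ → ℕ} (h : ∀ i ∈ l, ∀ a b, ag (o i) a b = ag (o' i) a b) :
    List.Forall₂ (fun w w' => ∀ a b, ag w a b = ag w' a b) (l.map o) (l.map o') := by
  induction l with
  | nil => exact List.Forall₂.nil
  | cons i l ih =>
    exact List.Forall₂.cons (h i (by simp)) (ih fun j hj => h j (List.mem_cons_of_mem _ hj))

/-- the relation is one of the families -/
def relB (T k : ℕ) (js bs : List ℕ) : Bool :=
  if k < 7 then
    decide js.Nodup && js.all (fun j => decide (j < nb k) && !(bs.contains j)) &&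
      decide (T ≤ (js.map (wt k)).sum)
  else if k = 7 then decide (js = [0, 1]) && bs.all fun j => decide (2 ≤ j ∧ j < 6)
  else if k = 8 then decide (js = [0, 1, 2]) && bs.all fun j => decide (3 ≤ j ∧ j < 6)
  else false

theorem relB_sound {T : ℕ} {f : ℕ → ℤ} (hf : FK T f) {k : ℕ} {js bs : List ℕ}
    (h : relB T k js bs = true) : altO f (js.map (oS k)) (orL (bs.map (oS k))) = 0 := by
  unfold relB at h
  split_ifs at h with h1 h2 h3
  · simp only [Bool.and_eq_true, decide_eq_true_iff, List.all_eq_true] at h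
    obtain ⟨⟨h4, h5⟩, h6⟩ := h
    rw [altO_congr2 hf (forall2_map fun j _ a b => oS_ob' k h1 j a b)
      (ag_orL_map fun j _ a b => oS_ob' k h1 j a b)]
    refine hf.rel1 k h1 js bs h4 (fun j hj => ?_) h6
    obtain ⟨h7, h8⟩ := h5 j hj
    refine ⟨h7, fun h9 => ?_⟩
    rw [List.contains_iff_mem.2 h9] at h8
    cases h8
  · subst h2
    simp only [Bool.and_eq_true, decide_eq_true_iff, List.all_eq_true] at h
    obtain ⟨rfl, h5⟩ := h
    have e1 : ∀ j ∈ ([0, 1] : List ℕ), ∀ a b : Fin 7, ag (oS 7 j) a b =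
        ag ((fun j => ([mXX, mXC, b2 0, b2 1, b2 2, b2 3] : List ℕ).getD j 0) j) a b := by
      intro j hj a b
      refine oS_7 j ?_ a b
      simp at hj
      omega
    have e2 : ∀ j ∈ bs, ∀ a b : Fin 7, ag (oS 7 j) a b = ag ((fun j => b2 (j - 2)) j) a b := by
      intro j hj a b
      have := h5 j hj
      rw [oS_7 j this.2 a b]
      obtain ⟨h6, h7⟩ := this
      interval_cases j <;> rfl
    rw [altO_congr2 hf (forall2_map e1) (ag_orL_map e2)]
    have h8 := hf.rel2 (bs.map fun j => j - 2) fun i hi => by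
      obtain ⟨j, hj, rfl⟩ := List.mem_map.1 hi
      have := h5 j hj
      omega
    rw [List.map_map] at h8
    exact h8
  · subst h3
    simp only [Bool.and_eq_true, decide_eq_true_iff, List.all_eq_true] at h
    obtain ⟨rfl, h5⟩ := h
    have e1 : ∀ j ∈ ([0, 1, 2] : List ℕ), ∀ a b : Fin 7, ag (oS 8 j) a b =
        ag ((fun j => ([mXX, mX1, mX2, b3 0, b3 1, b3 2] : List ℕ).getD j 0) j) a b := by
      intro j hj a b
      refine oS_8 j ?_ a b
      simp at hj
      omega
    have e2 : ∀ j ∈ bs, ∀ a b : Fin 7, ag (oS 8 j) a b = ag ((fun j => b3 (j - 3)) j) a b := by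
      intro j hj a b
      have := h5 j hj
      rw [oS_8 j this.2 a b]
      obtain ⟨h6, h7⟩ := this
      interval_cases j <;> rfl
    rw [altO_congr2 hf (forall2_map e1) (ag_orL_map e2)]
    have h8 := hf.rel3 (bs.map fun j => j - 3) fun i hi => by
      obtain ⟨j, hj, rfl⟩ := List.mem_map.1 hi
      have := h5 j hj
      omega
    rw [List.map_map] at h8
    exact h8

/-! ### Expansion of the alternating sum -/

/-- union of the masks with the bits of `t` -/
def wk : List ℕ → ℕ → ℕ → ℕ
  | [], g, _ => g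
  | w :: ws, g, t => if t % 2 = 1 then w ||| wk ws g (t / 2) else wk ws g (t / 2)

/-- sign of `t` -/
def sg : ℕ → ℕ → ℤ
  | 0, _ => 1
  | m + 1, t => (if t % 2 = 1 then -1 else 1) * sg m (t / 2)

theorem wk_or (ws : List ℕ) (g w : ℕ) : ∀ t, wk ws (g ||| w) t = w ||| wk ws g t := by
  induction ws with
  | nil => intro t; exact Nat.lor_comm _ _
  | cons v ws ih =>
    intro t
    unfold wk
    split_ifs
    · rw [ih, ← Nat.lor_assoc, ← Nat.lor_assoc, Nat.lor_comm v w]
    · rw [ih]

theorem sum_range_two (F : ℕ → ℤ) (n : ℕ) :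
    ∑ t ∈ range (2 * n), F t = ∑ u ∈ range n, (F (2 * u) + F (2 * u + 1)) := by
  induction n with
  | zero => rfl
  | succ n ih => rw [Nat.mul_succ, sum_range_succ, sum_range_succ, ih, sum_range_succ, add_assoc]

theorem altO_sum (f : ℕ → ℤ) (ws : List ℕ) : ∀ g,
    altO f ws g = ∑ t ∈ range (2 ^ ws.length), sg ws.length t * f (wk ws g t) := by
  induction ws with
  | nil => intro g; simp [altO, sg, wk]
  | cons w ws ih =>
    intro g
    rw [altO, ih, ih, List.length_cons, pow_succ, mul_comm, sum_range_two, ← sum_sub_distrib]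
    refine sum_congr rfl fun u _ => ?_
    have h1 : 2 * u % 2 = 0 := by omega
    have h2 : (2 * u + 1) % 2 = 1 := by omega
    have h3 : 2 * u / 2 = u := by omega
    have h4 : (2 * u + 1) / 2 = u := by omega
    rw [wk_or]
    simp only [sg, wk, h1, h2, h3, h4]
    norm_num
    ring

/-! ### The check -/

/-- the list of the masks with the powers of `2` -/
def zp : List ℕ → ℕ → List (ℕ × ℕ)
  | [], _ => []
  | w :: ws, b => (w, b) :: zp ws (2 * b)

/-- union of the masks of the bits of `t` -/
def wkk (W : List (ℕ × ℕ)) (g t : ℕ) : ℕ :=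
  W.foldr (fun wb y => cond (Nat.beq (Nat.land t wb.2) 0) y (Nat.lor wb.1 y)) g

theorem wkk_zp (ws : List ℕ) (g t : ℕ) : ∀ i, wkk (zp ws (2 ^ i)) g t = wk ws g (t / 2 ^ i) := by
  induction ws with
  | nil => intro i; rfl
  | cons w ws ih =>
    intro i
    have e : wkk (zp (w :: ws) (2 ^ i)) g t = cond (Nat.beq (Nat.land t (2 ^ i)) 0)
      (wkk (zp ws (2 ^ (i + 1))) g t) (Nat.lor w (wkk (zp ws (2 ^ (i + 1))) g t)) := by
      rw [pow_succ, mul_comm]; rfl
    rw [e, ih, wk, Nat.pow_succ, ← Nat.div_div_eq_div_mul]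
    have h1 : Nat.land t (2 ^ i) = 2 ^ i * (t / 2 ^ i % 2) := by
      change t &&& 2 ^ i = _
      rw [Nat.and_two_pow, Nat.testBit_eq_decide_div_mod_eq]
      rcases Nat.mod_two_eq_zero_or_one (t / 2 ^ i) with h | h <;> simp [h]
    rcases Nat.mod_two_eq_zero_or_one (t / 2 ^ i) with h | h
    · rw [h1, h]; simp
    · have h2 : Nat.beq (2 ^ i * 1) 0 = false := by
        rw [← Bool.not_eq_true]
        intro h3
        have := Nat.eq_of_beq_eq_true h3
        simp at this
      rw [h1, h, h2]; rfl

/-- parity table -/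
def PT : ℕ := 74146578472109212997136511361482254487891641386702620145716156204378150869765806841403385319857558565549512234915555076261584853249966913297281241601813858394614116897041089993247811088911534355298428851353473257124296480147861272197456166579083811387730393363010282273585299534106637649680409542459252107670

theorem sg_PT : ∀ m < 11, ∀ t < 2 ^ m, sg m t = 1 - 2 * (Nat.land (Nat.shiftRight PT t) 1 : ℕ) := by
  decide +kernel

/-- number of odd entries -/
def od (E : List (ℕ × ℕ)) : ℕ := E.foldr (fun tp n => Nat.add (Nat.land (Nat.shiftRight PT tp.1) 1) n) 0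

/-- the set of the `t` -/
def sn (E : List (ℕ × ℕ)) : ℕ := E.foldr (fun tp y => Nat.lor (Nat.shiftLeft 1 tp.1) y) 0

/-- number of entries -/
def ln (E : List (ℕ × ℕ)) : ℕ := E.foldr (fun _ n => Nat.succ n) 0

/-- entries of a variable with mask `x` -/
def gOK (W : List (ℕ × ℕ)) (g x : ℕ) (E : List (ℕ × ℕ)) : Bool :=
  E.all fun tp => okP tp.2 && Nat.beq (Ph tp.2 x) (wkk W g tp.1)

/-- row and column -/
def RC : List ℕ := [4432676798719, 8865353613186, 17730709209604, 35461663949832, 70952625113104,
  145109832699936, 560768245309504]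

/-- row -/
def RO : List ℕ := [127, 16256, 2080768, 266338304, 34091302912, 4363686772736, 558551906910208]

/-- entries with an isolated part -/
def zOK (W : List (ℕ × ℕ)) (g : ℕ) (E : List (ℕ × ℕ)) : Bool :=
  E.all fun ta => Nat.blt ta.2 7 && Nat.beq (Nat.land (wkk W g ta.1) (RC.getD ta.2 0)) 0

/-- entries with a universal part -/
def uOK (W : List (ℕ × ℕ)) (g : ℕ) (E : List (ℕ × ℕ)) : Bool :=
  E.all fun ta => Nat.blt ta.2 7 && Nat.beq (Nat.land (wkk W g ta.1) (RO.getD ta.2 0)) (RO.getD ta.2 0)

/-- data of a relation: family, free masks, base masks, the free masks with powers of `2`, the base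
mask, the groups (mask of the variable, entries), the entries with value `0`, with value `1` -/
structure EqD where
  k : ℕ
  js : List ℕ
  bs : List ℕ
  W : List (ℕ × ℕ)
  g : ℕ
  G : List (ℕ × List (ℕ × ℕ))
  Z : List (ℕ × ℕ)
  U : List (ℕ × ℕ)

/-- equality of lists of pairs -/
def beqL : List (ℕ × ℕ) → List (ℕ × ℕ) → Bool
  | [], [] => true
  | x :: l, y :: l' => Nat.beq x.1 y.1 && (Nat.beq x.2 y.2 && beqL l l')
  | _, _ => false

theorem beqL_eq : ∀ {l l' : List (ℕ × ℕ)}, beqL l l' = true → l = l'
  | [], [], _ => rfl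
  | x :: l, y :: l', h => by
    rw [beqL, Bool.and_eq_true, Bool.and_eq_true] at h
    rw [beqL_eq h.2.2, Prod.ext (Nat.eq_of_beq_eq_true h.1) (Nat.eq_of_beq_eq_true h.2.1)]
  | [], _ :: _, h => by cases h
  | _ :: _, [], h => by cases h

/-- all entries -/
def EqD.A (d : EqD) : List (ℕ × ℕ) := (d.G.flatMap fun xE => xE.2) ++ (d.Z ++ d.U)

/-- the check -/
def EqD.chk (T : ℕ) (d : EqD) : Bool :=
  relB T d.k d.js d.bs && (beqL (zp (d.js.map (oS d.k)) 1) d.W && (
  Nat.beq (orL (d.bs.map (oS d.k))) d.g && (Nat.blt d.js.length 11 && (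
  (d.G.all fun xE => gOK d.W d.g xE.1 xE.2) && (zOK d.W d.g d.Z && (uOK d.W d.g d.U && (
  Nat.beq (ln d.A) (Nat.shiftLeft 1 d.js.length) &&
  Nat.beq (sn d.A) (Nat.sub (Nat.shiftLeft 1 (Nat.shiftLeft 1 d.js.length)) 1))))))))

theorem ln_eq (E : List (ℕ × ℕ)) : ln E = E.length := by
  induction E with
  | nil => rfl
  | cons x E ih => exact congrArg Nat.succ ih

theorem sn_bit (E : List (ℕ × ℕ)) (t : ℕ) (h : (sn E).testBit t = true) :
    t ∈ E.map Prod.fst := by
  induction E with
  | nil => simp [sn] at h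
  | cons x E ih =>
    have e : sn (x :: E) = (1 <<< x.1) ||| sn E := rfl
    rw [e, Nat.testBit_or, Nat.one_shiftLeft, Nat.testBit_two_pow, Bool.or_eq_true,
      decide_eq_true_iff] at h
    rw [List.map_cons, List.mem_cons]
    rcases h with h | h
    · exact Or.inl h.symm
    · exact Or.inr (ih h)

theorem od_cons (x : ℕ × ℕ) (E : List (ℕ × ℕ)) :
    od (x :: E) = Nat.land (Nat.shiftRight PT x.1) 1 + od E := rfl

theorem sum_const (m : ℕ) (hm : m < 11) (c : ℤ) (F : ℕ → ℤ) (E : List (ℕ × ℕ))
    (h : ∀ tp ∈ E, tp.1 < 2 ^ m ∧ F tp.1 = c) :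
    (E.map fun tp => sg m tp.1 * F tp.1).sum = ((ln E : ℤ) - 2 * od E) * c := by
  induction E with
  | nil => simp [ln, od]
  | cons x E ih =>
    rw [List.map_cons, List.sum_cons, ih fun tp htp => h tp (List.mem_cons_of_mem _ htp), od_cons,
      (h x (by simp)).2, sg_PT m hm _ (h x (by simp)).1]
    have e : ln (x :: E) = ln E + 1 := rfl
    rw [e]
    push_cast
    ring

theorem RC_ag : ∀ a : Fin 7, ∀ b : Fin 7, ((RC.getD a.val 0).testBit (7 * a.val + b.val) &&
    (RC.getD a.val 0).testBit (7 * b.val + a.val)) = true := by decide +kernel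

theorem RO_ag : ∀ a : Fin 7, ∀ b : Fin 7, (RO.getD a.val 0).testBit (7 * a.val + b.val) = true := by
  decide +kernel

theorem EqD.sound {T : ℕ} {f : ℕ → ℤ} (hf : FK T f) (d : EqD) (h : d.chk T = true) :
    (d.G.map fun xE => ((ln xE.2 : ℤ) - 2 * od xE.2) * f xE.1).sum +
      ((ln d.U : ℤ) - 2 * od d.U) = 0 := by
  unfold EqD.chk at h
  rw [Bool.and_eq_true, Bool.and_eq_true, Bool.and_eq_true, Bool.and_eq_true, Bool.and_eq_true,
    Bool.and_eq_true, Bool.and_eq_true, Bool.and_eq_true] at h
  obtain ⟨h1, h2, h3, h4, h5, h6, h7, h8, h9⟩ := h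
  have hW := beqL_eq h2
  have hg : orL (d.bs.map (oS d.k)) = d.g := Nat.eq_of_beq_eq_true h3
  have hm : d.js.length < 11 := by
    have : Nat.ble (d.js.length + 1) 11 = true := h4
    exact Nat.le_of_ble_eq_true this
  have hlen : d.A.length = 2 ^ d.js.length := by
    have := Nat.eq_of_beq_eq_true h8
    rw [ln_eq] at this
    rw [this]
    change 1 <<< _ = _
    rw [Nat.one_shiftLeft]
  have hsn : sn d.A = 2 ^ (2 ^ d.js.length) - 1 := by
    have := Nat.eq_of_beq_eq_true h9
    rw [this]
    change 1 <<< (1 <<< _) - 1 = _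
    rw [Nat.one_shiftLeft, Nat.one_shiftLeft]
  have hsub : List.range (2 ^ d.js.length) ⊆ d.A.map Prod.fst := by
    intro t ht
    rw [List.mem_range] at ht
    refine sn_bit _ _ ?_
    rw [hsn, Nat.testBit_two_pow_sub_one, decide_eq_true_iff]
    exact ht
  have hperm : (List.range (2 ^ d.js.length)).Perm (d.A.map Prod.fst) := by
    refine (List.subperm_of_subset (List.nodup_range) hsub).perm_of_length_le ?_
    rw [List.length_map, hlen, List.length_range]
  have hlt : ∀ tp ∈ d.A, tp.1 < 2 ^ d.js.length := by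
    intro tp htp
    exact List.mem_range.1 (hperm.mem_iff.2 (List.mem_map.2 ⟨tp, htp, rfl⟩))
  have hrel := relB_sound hf h1
  rw [altO_sum, List.length_map] at hrel
  have hF : ∀ t, wkk d.W d.g t = wk (d.js.map (oS d.k)) (orL (d.bs.map (oS d.k))) t := by
    intro t
    rw [← hW, hg]
    have := wkk_zp (d.js.map (oS d.k)) d.g t 0
    rw [pow_zero, Nat.div_one] at this
    exact this
  have e1 : ∑ t ∈ range (2 ^ d.js.length), sg d.js.length t *
      f (wk (d.js.map (oS d.k)) (orL (d.bs.map (oS d.k))) t) =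
      (d.A.map fun tp => sg d.js.length tp.1 * f (wkk d.W d.g tp.1)).sum := by
    have e2 : ∀ F : ℕ → ℤ, ∑ t ∈ range (2 ^ d.js.length), F t =
        ((List.range (2 ^ d.js.length)).map F).sum := by
      intro F
      rw [← List.sum_toFinset _ List.nodup_range]
      refine sum_congr ?_ fun _ _ => rfl
      ext t
      simp
    rw [e2, (hperm.map _).sum_eq, List.map_map]
    congr 1
    refine List.map_congr_left fun tp _ => ?_
    simp only [Function.comp_apply, hF]
  rw [e1] at hrel
  unfold EqD.A at hrel hlt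
  rw [List.map_append, List.map_append, List.sum_append, List.sum_append] at hrel
  have hZ : (d.Z.map fun tp => sg d.js.length tp.1 * f (wkk d.W d.g tp.1)).sum = 0 := by
    rw [sum_const d.js.length hm 0 (fun t => f (wkk d.W d.g t)), mul_zero]
    intro tp htp
    refine ⟨hlt tp (by simp [htp]), ?_⟩
    unfold zOK at h6
    rw [List.all_eq_true] at h6
    have h10 := h6 tp htp
    rw [Bool.and_eq_true] at h10
    have h11 : tp.2 < 7 := Nat.le_of_ble_eq_true h10.1
    have h12 : wkk d.W d.g tp.1 &&& RC.getD tp.2 0 = 0 := Nat.eq_of_beq_eq_true h10.2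
    refine hf.isol _ ⟨tp.2, h11⟩ fun b => ?_
    have h13 := RC_ag ⟨tp.2, h11⟩ b
    rw [Bool.and_eq_true] at h13
    have h14 : ∀ j, (RC.getD tp.2 0).testBit j = true → (wkk d.W d.g tp.1).testBit j = false := by
      intro j hj
      have h15 := congrArg (fun n => n.testBit j) h12
      simp only [Nat.testBit_and, Nat.zero_testBit, hj, Bool.and_true] at h15
      exact h15
    unfold ag ad pK
    rw [h14 _ h13.1, h14 _ h13.2]
    rfl
  have hU : (d.U.map fun tp => sg d.js.length tp.1 * f (wkk d.W d.g tp.1)).sum =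
      (ln d.U : ℤ) - 2 * od d.U := by
    rw [sum_const d.js.length hm 1 (fun t => f (wkk d.W d.g t)), mul_one]
    intro tp htp
    refine ⟨hlt tp (by simp [htp]), ?_⟩
    unfold uOK at h7
    rw [List.all_eq_true] at h7
    have h10 := h7 tp htp
    rw [Bool.and_eq_true] at h10
    have h11 : tp.2 < 7 := Nat.le_of_ble_eq_true h10.1
    have h12 : wkk d.W d.g tp.1 &&& RO.getD tp.2 0 = RO.getD tp.2 0 := Nat.eq_of_beq_eq_true h10.2
    refine hf.univ _ ⟨tp.2, h11⟩ fun b => ?_
    have h13 := RO_ag ⟨tp.2, h11⟩ b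
    have h15 := congrArg (fun n => n.testBit (7 * tp.2 + b.val)) h12
    simp only [Nat.testBit_and] at h15
    rw [h13, Bool.and_true] at h15
    unfold ag ad pK
    rw [h15]
    rfl
  have hG : ((d.G.flatMap fun xE => xE.2).map fun tp => sg d.js.length tp.1 *
      f (wkk d.W d.g tp.1)).sum = (d.G.map fun xE => ((ln xE.2 : ℤ) - 2 * od xE.2) * f xE.1).sum := by
    have hlt' : ∀ xE ∈ d.G, ∀ tp ∈ xE.2, tp.1 < 2 ^ d.js.length := by
      intro xE hxE tp htp
      refine hlt tp ?_
      rw [List.mem_append, List.mem_flatMap]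
      exact Or.inl ⟨xE, hxE, htp⟩
    rw [List.all_eq_true] at h5
    generalize d.G = G at h5 hlt'
    induction G with
    | nil => rfl
    | cons xE G ih =>
      rw [List.flatMap_cons, List.map_append, List.sum_append, List.map_cons, List.sum_cons,
        ih (fun y hy => h5 y (List.mem_cons_of_mem _ hy))
          fun y hy => hlt' y (List.mem_cons_of_mem _ hy)]
      congr 1
      refine sum_const d.js.length hm (f xE.1) (fun t => f (wkk d.W d.g t)) xE.2 fun tp htp => ?_
      refine ⟨hlt' xE (by simp) tp htp, ?_⟩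
      have h10 := h5 xE (by simp)
      unfold gOK at h10
      rw [List.all_eq_true] at h10
      have h11 := h10 tp htp
      rw [Bool.and_eq_true] at h11
      have h12 : Ph tp.2 xE.1 = wkk d.W d.g tp.1 := Nat.eq_of_beq_eq_true h11.2
      change f (wkk d.W d.g tp.1) = _
      rw [← h12, hf.perm h11.1]
  rw [hZ, hU, hG, zero_add] at hrel
  exact hrel

end Pool.Agent.H8.KA
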