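import Mathlib
import Pool.Agent.H8.KA.Gen

set_option autoImplicit false

/-!
MP_257582_lc (helper8): relations E4, E5: `k` blocks of prime size `p` permuted by `π`, and one part of
size `c` which is rotated.
-/

namespace Pool.Agent.H8.KA

open Finset
open Pool.Agent.H98R2.Ev (EV toG NE)
open Pool.Agent.H119R2.Kp
open Pool.Agent.W5h78.Karp (ad ad_comm addP cnt mm mc mm_mc)

namespace EC

/-- vertices -/
abbrev VC (k c p : ℕ) : Type := ZMod c ⊕ (Fin k × ZMod p)

variable {k c p : ℕ}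

/-- the part of a vertex -/
def prt : VC k c p → Fin (k + 1)
  | .inl _ => 0
  | .inr (i, _) => i.succ

/-- translation of block `b` -/
def tr (b : Fin k) (t : ZMod p) : Equiv.Perm (VC k c p) :=
  Equiv.sumCongr (Equiv.refl _)
    (Equiv.prodShear (Equiv.refl _) (fun b' => Equiv.addRight (if b' = b then t else 0)))

@[simp] theorem tr_inl (b : Fin k) (t : ZMod p) (a : ZMod c) :
    tr b t (Sum.inl a : VC k c p) = Sum.inl a := rfl

@[simp] theorem tr_inr (b b' : Fin k) (t u : ZMod p) :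
    tr b t (Sum.inr (b', u) : VC k c p) = Sum.inr (b', u + if b' = b then t else 0) := rfl

/-- rotation of the part `0`, permutation of the blocks combined with multiplications -/
def rc (π : Equiv.Perm (Fin k)) (m : Fin k → (ZMod p)ˣ) : Equiv.Perm (VC k c p) :=
  Equiv.sumCongr (Equiv.addRight 1) (Equiv.prodShear π (fun b => Units.mulLeft (m b)))

@[simp] theorem rc_inl (π : Equiv.Perm (Fin k)) (m : Fin k → (ZMod p)ˣ) (a : ZMod c) :
    rc π m (Sum.inl a : VC k c p) = Sum.inl (a + 1) := rfl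

@[simp] theorem rc_inr (π : Equiv.Perm (Fin k)) (m : Fin k → (ZMod p)ˣ) (i : Fin k)
    (u : ZMod p) : rc π m (Sum.inr (i, u) : VC k c p) = Sum.inr (π i, m i * u) := rfl

theorem rc_pow_inl (π : Equiv.Perm (Fin k)) (m : Fin k → (ZMod p)ˣ) (t : ℕ)
    (a : ZMod c) : (rc π m ^ t) (Sum.inl a : VC k c p) = Sum.inl (a + t) := by
  induction t with
  | zero => simp
  | succ t ih => rw [pow_succ', Equiv.Perm.mul_apply, ih, rc_inl]; simp [add_assoc]

theorem rc_pow_inr (π : Equiv.Perm (Fin k)) (m : Fin k → (ZMod p)ˣ) (t : ℕ)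
    (i : Fin k) (u : ZMod p) :
    (rc π m ^ t) (Sum.inr (i, u) : VC k c p) = Sum.inr ((π ^ t) i, mm π m t i * u) := by
  induction t with
  | zero => simp [mm]
  | succ t ih =>
    rw [pow_succ', Equiv.Perm.mul_apply, ih, rc_inr, pow_succ', Equiv.Perm.mul_apply, mm,
      Units.val_mul, mul_assoc]

theorem prt_tr (b : Fin k) (t : ZMod p) (w : VC k c p) :
    prt (tr b t w) = prt w := by
  rcases w with a | ⟨b', u⟩ <;> rfl

/-- the permutation of the parts -/
def pip (π : Equiv.Perm (Fin k)) : Fin (k + 1) → Fin (k + 1) :=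
  Fin.cases 0 (fun i => (π i).succ)

theorem prt_rc (π : Equiv.Perm (Fin k)) (m : Fin k → (ZMod p)ˣ) (w : VC k c p) :
    prt (rc π m w) = pip π (prt w) := by
  rcases w with a | ⟨i, u⟩ <;> rfl

theorem tr_add (b : Fin k) (t t' : ZMod p) :
    (tr b t * tr b t' : Equiv.Perm (VC k c p)) = tr b (t + t') := by
  ext w
  rcases w with a | ⟨b', u⟩
  · simp
  · simp only [Equiv.Perm.mul_apply, tr_inr]
    split_ifs
    · rw [add_assoc, add_comm t']
    · simp

theorem tr_zero (b : Fin k) : (tr b 0 : Equiv.Perm (VC k c p)) = 1 := by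
  ext w
  rcases w with a | ⟨b', u⟩
  · simp
  · simp

theorem tr_pow (b : Fin k) (t : ℕ) :
    (tr b 1 : Equiv.Perm (VC k c p)) ^ t = tr b (t : ZMod p) := by
  induction t with
  | zero => simp [tr_zero]
  | succ t ih => rw [pow_succ, ih, tr_add]; simp

theorem tr_comm (b b' : Fin k) (t t' : ZMod p) :
    (tr b t * tr b' t' : Equiv.Perm (VC k c p)) = tr b' t' * tr b t := by
  ext w
  rcases w with a | ⟨b'', u⟩
  · simp
  · simp only [Equiv.Perm.mul_apply, tr_inr]
    rw [add_assoc, add_assoc, add_comm (if b'' = b' then t' else 0)]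

theorem conj (π : Equiv.Perm (Fin k)) (m : Fin k → (ZMod p)ˣ) (i : Fin k) :
    ((rc π m)⁻¹ * tr (π i) 1 * rc π m : Equiv.Perm (VC k c p)) =
      tr i (((m i)⁻¹ : (ZMod p)ˣ) : ZMod p) := by
  rw [mul_assoc, inv_mul_eq_iff_eq_mul]
  ext w
  rcases w with a | ⟨j, u⟩
  · rfl
  · by_cases h : j = i
    · subst h
      simp [mul_add]
    · have h' : π j ≠ π i := fun hh => h (π.injective hh)
      simp [h, h']

theorem tr_mem [NeZero p] (b : Fin k) (t : ZMod p) :
    (tr b t : Equiv.Perm (VC k c p)) ∈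
      Subgroup.closure (Set.range (fun b : Fin k => (tr b 1 : Equiv.Perm (VC k c p)))) := by
  have h : (tr b t : Equiv.Perm (VC k c p)) = (tr b 1) ^ t.val := by
    rw [tr_pow, ZMod.natCast_zmod_val]
  rw [h]
  exact Subgroup.pow_mem _ (Subgroup.subset_closure (Set.mem_range_self (f := fun b : Fin k =>
    (tr b 1 : Equiv.Perm (VC k c p))) b)) _

/-- the group -/
def GG (π : Equiv.Perm (Fin k)) (m : Fin k → (ZMod p)ˣ) :
    Subgroup (Equiv.Perm (VC k c p)) :=
  Subgroup.closure (insert (rc π m) (Set.range (fun b : Fin k => tr b 1)))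

theorem tr_memG [NeZero p] (π : Equiv.Perm (Fin k)) (m : Fin k → (ZMod p)ˣ)
    (b : Fin k) (t : ZMod p) : (tr b t : Equiv.Perm (VC k c p)) ∈ GG π m :=
  Subgroup.closure_mono (Set.subset_insert _ _) (tr_mem b t)

theorem rc_memG (π : Equiv.Perm (Fin k)) (m : Fin k → (ZMod p)ˣ) (t : ℕ) :
    (rc π m ^ t : Equiv.Perm (VC k c p)) ∈ GG π m :=
  Subgroup.pow_mem _ (Subgroup.subset_closure (Set.mem_insert _ _)) _

/-- pairs in different blocks -/
theorem trans2 [NeZero p] (π : Equiv.Perm (Fin k)) (m : Fin k → (ZMod p)ˣ)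
    (A B : Fin k) (hAB : A ≠ B) (a b : ZMod p) (t : ℕ) (a' b' : ZMod p) :
    ∃ g ∈ (GG π m : Subgroup (Equiv.Perm (VC k c p))),
      g (Sum.inr (A, a)) = Sum.inr ((π ^ t) A, a') ∧
      g (Sum.inr (B, b)) = Sum.inr ((π ^ t) B, b') := by
  have hne : (π ^ t) A ≠ (π ^ t) B := fun h => hAB ((π ^ t).injective h)
  refine ⟨tr ((π ^ t) A) (a' - (mm π m t A : ZMod p) * a) *
    (tr ((π ^ t) B) (b' - (mm π m t B : ZMod p) * b) *
    rc π m ^ t), Subgroup.mul_mem _ (tr_memG _ _ _ _) (Subgroup.mul_mem _ (tr_memG _ _ _ _)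
    (rc_memG _ _ _)), ?_, ?_⟩
  · rw [Equiv.Perm.mul_apply, Equiv.Perm.mul_apply, rc_pow_inr, tr_inr, tr_inr]
    simp [hne]
  · rw [Equiv.Perm.mul_apply, Equiv.Perm.mul_apply, rc_pow_inr, tr_inr, tr_inr]
    simp [hne.symm]

/-- pairs between the rotated part and a block -/
theorem trans0 [NeZero p] (π : Equiv.Perm (Fin k)) (m : Fin k → (ZMod p)ˣ)
    (A : Fin k) (x x' : ZMod c) (a : ZMod p) (t : ℕ) (a' : ZMod p) (ht : x + t = x') :
    ∃ g ∈ (GG π m : Subgroup (Equiv.Perm (VC k c p))),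
      g (Sum.inl x) = Sum.inl x' ∧
      g (Sum.inr (A, a)) = Sum.inr ((π ^ t) A, a') := by
  refine ⟨tr ((π ^ t) A) (a' - (mm π m t A : ZMod p) * a) * rc π m ^ t,
    Subgroup.mul_mem _ (tr_memG _ _ _ _) (rc_memG _ _ _), ?_, ?_⟩
  · rw [Equiv.Perm.mul_apply, rc_pow_inl, tr_inl, ht]
  · rw [Equiv.Perm.mul_apply, rc_pow_inr, tr_inr]
    simp

/-- pairs in the same block -/
theorem trans3 [Fact p.Prime] (π : Equiv.Perm (Fin k)) (m : Fin k → (ZMod p)ˣ)
    (μ : (ZMod p)ˣ) (hμ : ∀ x, x ∈ Subgroup.zpowers μ)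
    (hm : ∀ i, ∃ t, (π ^ t) i = i ∧ mm π m t i = μ)
    (A : Fin k) (a b : ZMod p) (hab : a ≠ b) (t : ℕ) (a' b' : ZMod p) (hab' : a' ≠ b') :
    ∃ g ∈ (GG π m : Subgroup (Equiv.Perm (VC k c p))),
      g (Sum.inr (A, a)) = Sum.inr ((π ^ t) A, a') ∧
      g (Sum.inr (A, b)) = Sum.inr ((π ^ t) A, b') := by
  have : NeZero p := ⟨(Fact.out : p.Prime).ne_zero⟩
  set C := (π ^ t) A with hC
  set x : ZMod p := mm π m t A * a with hx
  set y : ZMod p := mm π m t A * b with hy
  have hxy : x - y ≠ 0 := by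
    rw [hx, hy, ← mul_sub]
    exact mul_ne_zero (Units.ne_zero _) (sub_ne_zero.2 hab)
  have hxy' : a' - b' ≠ 0 := sub_ne_zero.2 hab'
  obtain ⟨t0, ht0, ht1⟩ := hm C
  obtain ⟨s, hs⟩ : ∃ s : ℕ, μ ^ s = Units.mk0 (a' - b') hxy' / Units.mk0 (x - y) hxy := by
    have := hμ (Units.mk0 (a' - b') hxy' / Units.mk0 (x - y) hxy)
    rwa [← mem_powers_iff_mem_zpowers] at this
  have hs' : (μ : ZMod p) ^ s * (x - y) = a' - b' := by
    have h := congrArg (fun x : (ZMod p)ˣ => (x : ZMod p)) hs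
    simp only [Units.val_pow_eq_pow_val, Units.val_div_eq_div_val, Units.val_mk0] at h
    rw [h]
    field_simp
  have hpow : ∀ (s : ℕ) (z : ZMod p), ((rc π m ^ t0) ^ s) (Sum.inr (C, z) : VC k c p) =
      Sum.inr (C, (μ : ZMod p) ^ s * z) := by
    intro s z
    induction s with
    | zero => simp
    | succ s ih =>
      rw [pow_succ', Equiv.Perm.mul_apply, ih, rc_pow_inr, ht0, ht1, pow_succ', mul_assoc]
  refine ⟨tr C (a' - (μ : ZMod p) ^ s * x) * ((rc π m ^ t0) ^ s * rc π m ^ t),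
    Subgroup.mul_mem _ (tr_memG _ _ _ _) (Subgroup.mul_mem _ (Subgroup.pow_mem _ (rc_memG _ _ _) _)
    (rc_memG _ _ _)), ?_, ?_⟩
  · rw [Equiv.Perm.mul_apply, Equiv.Perm.mul_apply, rc_pow_inr, ← hC, hpow, tr_inr]
    simp [hx]
  · rw [Equiv.Perm.mul_apply, Equiv.Perm.mul_apply, rc_pow_inr, ← hC, hpow, tr_inr, if_pos rfl,
      ← hy]
    congr 2
    linear_combination -hs'

/-- sizes -/
def szC (k c p : ℕ) : Fin (k + 1) → ℕ := Fin.cons c (fun _ => p)

theorem fib [NeZero p] [NeZero c] (A : Fin (k + 1)) :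
    Nat.card {w : VC k c p // prt w = A} = szC k c p A := by
  refine Fin.cases ?_ (fun B => ?_) A
  · have e : {w : VC k c p // prt w = 0} ≃ ZMod c :=
      { toFun := fun w => match w with
          | ⟨Sum.inl a, _⟩ => a
          | ⟨Sum.inr (b, _), h⟩ => absurd h (Fin.succ_ne_zero b)
        invFun := fun a => ⟨Sum.inl a, rfl⟩
        left_inv := by
          rintro ⟨a | ⟨b, u⟩, h⟩
          · rfl
          · exact absurd h (Fin.succ_ne_zero b)
        right_inv := fun a => rfl }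
    rw [Nat.card_congr e, Nat.card_zmod]
    rfl
  · have e : {w : VC k c p // prt w = B.succ} ≃ ZMod p :=
      { toFun := fun w => match w with
          | ⟨Sum.inl a, _⟩ => 0
          | ⟨Sum.inr (_, u), _⟩ => u
        invFun := fun u => ⟨Sum.inr (B, u), rfl⟩
        left_inv := by
          rintro ⟨a | ⟨b', u⟩, h⟩
          · exact absurd h.symm (Fin.succ_ne_zero _)
          · simp only [prt] at h
            have := Fin.succ_injective _ h
            subst this
            rfl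
        right_inv := fun a => rfl }
    rw [Nat.card_congr e, Nat.card_zmod]
    rfl

end EC

open EC

/-- the relation with a rotated part -/
theorem relC {n q : ℕ} {P : SimpleGraph (Fin n) → Prop} (hP : GP n q P) (k c p : ℕ)
    [hpf : Fact p.Prime] [NeZero c] (hp : 2 < p) (hn : c + k * p = n) (π : Equiv.Perm (Fin k))
    (mk : Fin k → Bool) (hmk : ∀ i, ∃ t, (π ^ t) i = i ∧ mc π mk t i = 1) {m : ℕ}
    (Γ : Fin (k + 1) → Fin (k + 1) → Bool) (O : Fin m → Fin (k + 1) → Fin (k + 1) → Bool)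
    (hΓs : ∀ A B, ad Γ A B = true → ad Γ (pip π A) (pip π B) = true)
    (hOs : ∀ j A B, ad (O j) A B = true → ad (O j) (pip π A) (pip π B) = true)
    (hd : ∀ i j, i ≠ j → ∀ A B, ad (O i) A B = true → ad (O j) A B = true → False)
    (hd0 : ∀ i A B, ad Γ A B = true → ad (O i) A B = true → False)
    (hO : ∀ j, ∃ A B : Fin (k + 1), ad (O j) A B = true)
    (hO00 : ∀ j, ad (O j) 0 0 = false)
    (hmix : ∀ j (A B C : Fin k), ad (O j) 0 A.succ = true → ad (O j) B.succ C.succ = true → False)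
    (htr : ∀ j (A B A' B' : Fin k), ad (O j) A.succ B.succ = true →
      ad (O j) A'.succ B'.succ = true →
      ∃ t : ℕ, ((π ^ t) A = A' ∧ (π ^ t) B = B') ∨ ((π ^ t) A = B' ∧ (π ^ t) B = A'))
    (htr0 : ∀ j (A A' : Fin k), ad (O j) 0 A.succ = true → ad (O j) 0 A'.succ = true →
      ∀ x x' : ZMod c, ∃ t : ℕ, (π ^ t) A = A' ∧ x + t = x')
    (hq : 2 * q < ∑ j, cnt (szC k c p) (O j)) :
    ∑ I : Finset (Fin m), (-1 : ℤ) ^ I.card * hv P (szC k c p) (addP Γ O I) = 0 := by
  classical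
  have hp0 : NeZero p := ⟨by omega⟩
  obtain ⟨μ, hμ⟩ := IsCyclic.exists_generator (α := (ZMod p)ˣ)
  set mu : Fin k → (ZMod p)ˣ := fun b => if mk b then μ else 1 with hmu
  have hm : ∀ i, ∃ t, (π ^ t) i = i ∧ mm π mu t i = μ := by
    intro i
    obtain ⟨t, h1, h2⟩ := hmk i
    exact ⟨t, h1, by rw [hmu, mm_mc, h2, pow_one]⟩
  have hcard : Fintype.card (VC k c p) = n := by
    rw [Fintype.card_sum, Fintype.card_prod, ZMod.card, ZMod.card, Fintype.card_fin, hn]
  refine relGen (V := VC k c p) prt (szC k c p) fib hP hcard p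
    (fun b : Fin k => tr b 1) (rc π mu)
    (fun i j => tr_comm i j 1 1) (fun b => ?_) (fun i => ?_) (fun b w => prt_tr b 1 w)
    (pip π) (fun w => prt_rc π mu w) Γ O hΓs hOs hd hd0 (fun j => ?_) ?_ hq
  · rw [tr_pow]
    simp [tr_zero]
  · obtain ⟨j, rfl⟩ := π.surjective i
    show _ * tr (π j) 1 * _ ∈ _
    rw [conj]
    exact tr_mem _ _
  · -- non-empty
    have hw : ∀ A : Fin k, ∀ B : Fin k, ad (O j) A.succ B.succ = true →
        ∃ u v : VC k c p, u ≠ v ∧ ad (O j) (prt u) (prt v) = true := by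
      intro A B hAB
      by_cases hA : A = B
      · subst hA
        refine ⟨Sum.inr (A, 0), Sum.inr (A, 1), ?_, hAB⟩
        have : Fact (1 < p) := ⟨by omega⟩
        intro h
        have h2 := congrArg (fun w : VC k c p => match w with
          | .inl _ => (0 : ZMod p)
          | .inr (_, u) => u) h
        exact zero_ne_one h2
      · refine ⟨Sum.inr (A, 0), Sum.inr (B, 0), ?_, hAB⟩
        intro h
        apply hA
        have h2 : (A.succ : Fin (k + 1)) = B.succ := congrArg (fun w : VC k c p => prt w) h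
        exact Fin.succ_injective _ h2
    obtain ⟨A, B, hAB⟩ := hO j
    revert hAB
    refine Fin.cases ?_ (fun A' => ?_) A
    · refine Fin.cases ?_ (fun B' => ?_) B
      · intro h
        rw [hO00] at h
        exact Bool.noConfusion h
      · intro h
        exact ⟨Sum.inl 0, Sum.inr (B', 0), Sum.inl_ne_inr, h⟩
    · refine Fin.cases ?_ (fun B' => ?_) B
      · intro h
        exact ⟨Sum.inr (A', 0), Sum.inl 0, Sum.inr_ne_inl, h⟩
      · exact hw A' B'
  · intro j u v u' v' huv huv' h h'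
    change ∃ g ∈ GG π mu, _
    -- pairs with one end in the rotated part
    have key : ∀ (x x' : ZMod c) (A A' : Fin k) (a a' : ZMod p), ad (O j) 0 A.succ = true →
        ad (O j) 0 A'.succ = true → ∃ g ∈ (GG π mu : Subgroup (Equiv.Perm (VC k c p))),
          g (Sum.inl x) = Sum.inl x' ∧ g (Sum.inr (A, a)) = Sum.inr (A', a') := by
      intro x x' A A' a a' h1 h2
      obtain ⟨t, ht1, ht2⟩ := htr0 j A A' h1 h2 x x'
      obtain ⟨g, hg, g1, g2⟩ := trans0 π mu A x x' a t a' ht2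
      rw [ht1] at g2
      exact ⟨g, hg, g1, g2⟩
    rcases u with x | ⟨A, a⟩ <;> rcases v with y | ⟨B, b⟩ <;> rcases u' with x' | ⟨A', a'⟩ <;>
      rcases v' with y' | ⟨B', b'⟩ <;> simp only [prt] at h h'
    · rw [hO00] at h; exact Bool.noConfusion h
    · rw [hO00] at h; exact Bool.noConfusion h
    · rw [hO00] at h; exact Bool.noConfusion h
    · rw [hO00] at h; exact Bool.noConfusion h
    · rw [hO00] at h'; exact Bool.noConfusion h'
    · obtain ⟨g, hg, g1, g2⟩ := key x x' B B' b b' h h'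
      exact ⟨g, hg, Or.inl ⟨g1, g2⟩⟩
    · rw [ad_comm] at h'
      obtain ⟨g, hg, g1, g2⟩ := key x y' B A' b a' h h'
      exact ⟨g, hg, Or.inr ⟨g1, g2⟩⟩
    · exact (hmix j _ _ _ h h').elim
    · rw [hO00] at h'; exact Bool.noConfusion h'
    · rw [ad_comm] at h
      obtain ⟨g, hg, g1, g2⟩ := key y x' A B' a b' h h'
      exact ⟨g, hg, Or.inr ⟨g2, g1⟩⟩
    · rw [ad_comm] at h h'
      obtain ⟨g, hg, g1, g2⟩ := key y y' A A' a a' h h'
      exact ⟨g, hg, Or.inl ⟨g2, g1⟩⟩
    · rw [ad_comm] at h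
      exact (hmix j _ _ _ h h').elim
    · rw [hO00] at h'; exact Bool.noConfusion h'
    · exact (hmix j _ _ _ h' h).elim
    · rw [ad_comm] at h'
      exact (hmix j _ _ _ h' h).elim
    · obtain ⟨t, ht⟩ := htr j A B A' B' h h'
      by_cases hAB : A = B
      · subst hAB
        have hab : a ≠ b := fun hh => huv (by rw [hh])
        have e1 : A' = B' := by
          rcases ht with ⟨h1, h2⟩ | ⟨h1, h2⟩
          · rw [← h1, ← h2]
          · rw [← h1, ← h2]
        subst e1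
        have hab' : a' ≠ b' := fun hh => huv' (by rw [hh])
        have e2 : (π ^ t) A = A' := by
          rcases ht with ⟨h1, h2⟩ | ⟨h1, h2⟩ <;> exact h1
        obtain ⟨g, hg, g1, g2⟩ := trans3 (c := c) π mu μ hμ hm A a b hab t a' b' hab'
        rw [e2] at g1 g2
        exact ⟨g, hg, Or.inl ⟨g1, g2⟩⟩
      · rcases ht with ⟨h1, h2⟩ | ⟨h1, h2⟩
        · obtain ⟨g, hg, g1, g2⟩ := trans2 (c := c) π mu A B hAB a b t a' b'
          rw [h1] at g1
          rw [h2] at g2
          exact ⟨g, hg, Or.inl ⟨g1, g2⟩⟩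
        · obtain ⟨g, hg, g1, g2⟩ := trans2 (c := c) π mu A B hAB a b t b' a'
          rw [h1] at g1
          rw [h2] at g2
          exact ⟨g, hg, Or.inr ⟨g1, g2⟩⟩

end Pool.Agent.H8.KA
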