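import Mathlib
import Pool.Agent.H8.KA.Dual
import Pool.Agent.H8.KA.EC

set_option autoImplicit false

/-!
MP_257582_lc (helper8): the relations E4 (`n` odd: a block, `G` and `F` are rotated together) and E5
(`n` even: two blocks, `G` and `F` are rotated together) for the values on masks.
-/

namespace Pool.Agent.H8.KA

open Finset
open Pool.Agent.H98R2.Ev (EV toG NE)
open Pool.Agent.H119R2.Kp
open Pool.Agent.W5h78.Karp (ad ad_comm addP cnt mc)
open EC

/-- passing from coarse patterns to masks -/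
theorem merge_relN {n q : ℕ} {P : SimpleGraph (Fin n) → Prop} (hP : GP n q P) (s r p N : ℕ)
    (s3 : Fin N → ℕ) (μ : Fin 7 → Fin N)
    (hs : ∀ j, ∑ i, (if μ i = j then sz7 s r p i else 0) = s3 j) (B : ℕ) (ws : List ℕ)
    (Γ : Fin N → Fin N → Bool) (O : Fin ws.length → Fin N → Fin N → Bool)
    (hB : ∀ a b, ag B a b = ad Γ (μ a) (μ b))
    (hw : ∀ j a b, ag (ws.get j) a b = ad (O j) (μ a) (μ b))
    (h : ∑ I : Finset (Fin ws.length), (-1 : ℤ) ^ I.card * hv P s3 (addP Γ O I) = 0) :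
    altO (fK P s r p) ws B = 0 := by
  rw [alt_sum, ← h]
  refine Finset.sum_congr rfl fun I _ => ?_
  congr 1
  refine hv_merge hP _ _ μ hs _ _ fun a b => ?_
  rw [Bool.eq_iff_iff]
  have h1 : ∀ (x y : Bool), (x || y) = true ↔ x = true ∨ y = true := fun x y => by
    rw [Bool.or_eq_true]
  have h2 := fun a b => Bool.eq_iff_iff.1 (hB a b)
  have h3 := fun j a b => Bool.eq_iff_iff.1 (hw j a b)
  simp only [ag, ad, h1] at h2 h3
  simp only [ad, addP, h1, decide_eq_true_eq]
  constructor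
  · rintro ((h4 | ⟨j, hj, h4⟩) | (h4 | ⟨j, hj, h4⟩))
    · rcases (h2 a b).1 (Or.inl h4) with h5 | h5
      · exact Or.inl (Or.inl h5)
      · exact Or.inr (Or.inl h5)
    · rcases (h3 j a b).1 (Or.inl h4) with h5 | h5
      · exact Or.inl (Or.inr ⟨j, hj, h5⟩)
      · exact Or.inr (Or.inr ⟨j, hj, h5⟩)
    · rcases (h2 a b).1 (Or.inr h4) with h5 | h5
      · exact Or.inl (Or.inl h5)
      · exact Or.inr (Or.inl h5)
    · rcases (h3 j a b).1 (Or.inr h4) with h5 | h5
      · exact Or.inl (Or.inr ⟨j, hj, h5⟩)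
      · exact Or.inr (Or.inr ⟨j, hj, h5⟩)
  · rintro ((h4 | ⟨j, hj, h4⟩) | (h4 | ⟨j, hj, h4⟩))
    · rcases (h2 a b).2 (Or.inl h4) with h5 | h5
      · exact Or.inl (Or.inl h5)
      · exact Or.inr (Or.inl h5)
    · rcases (h3 j a b).2 (Or.inl h4) with h5 | h5
      · exact Or.inl (Or.inr ⟨j, hj, h5⟩)
      · exact Or.inr (Or.inr ⟨j, hj, h5⟩)
    · rcases (h2 a b).2 (Or.inr h4) with h5 | h5
      · exact Or.inl (Or.inl h5)
      · exact Or.inr (Or.inl h5)
    · rcases (h3 j a b).2 (Or.inr h4) with h5 | h5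
      · exact Or.inl (Or.inr ⟨j, hj, h5⟩)
      · exact Or.inr (Or.inr ⟨j, hj, h5⟩)

/-- the coarse pattern of a mask -/
def cP {k : ℕ} (ν : Fin (k + 1) → Fin 7) (g : ℕ) : Fin (k + 1) → Fin (k + 1) → Bool :=
  fun A B => ag g (ν A) (ν B)

theorem ad_cP {k : ℕ} (ν : Fin (k + 1) → Fin 7) (g : ℕ) (A B : Fin (k + 1)) :
    ad (cP ν g) A B = ag g (ν A) (ν B) := by
  unfold ad cP
  rw [ag_comm g (ν B), Bool.or_self]

/-- weights of the parts -/
def om (k w : ℕ) : Fin (k + 1) → ℕ := Fin.cons w (fun _ => 1)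

theorem om_le (k w c p : ℕ) (hc : w * p ≤ c) (A : Fin (k + 1)) : om k w A * p ≤ szC k c p A := by
  refine Fin.cases ?_ (fun B => ?_) A
  · exact hc
  · change 1 * p ≤ p
    rw [one_mul]

theorem cnt_geC (k w c p : ℕ) (hc : w * p ≤ c) (O : Fin (k + 1) → Fin (k + 1) → Bool)
    (h00 : ad O 0 0 = false) :
    (∑ A, ∑ B, if ad O A B = true then om k w A * om k w B else 0) * (p * p) ≤
      cnt (szC k c p) O + (∑ A, if ad O A A = true then 1 else 0) * p := by
  unfold cnt
  rw [Finset.sum_mul, Finset.sum_mul, ← Finset.sum_add_distrib]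
  apply Finset.sum_le_sum
  intro A _
  rw [Finset.sum_mul]
  have h1 : (if ad O A A = true then 1 else 0) * p =
      ∑ C : Fin (k + 1), if A = C then (if ad O A C = true then p else 0) else 0 := by
    rw [Finset.sum_ite_eq, if_pos (Finset.mem_univ _)]
    split_ifs <;> simp
  rw [h1, ← Finset.sum_add_distrib]
  apply Finset.sum_le_sum
  intro C _
  by_cases h2 : ad O A C = true
  · rw [if_pos h2, if_pos h2, if_pos h2]
    by_cases h3 : A = C
    · subst h3
      rw [if_pos rfl, if_pos rfl]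
      have hA : A ≠ 0 := by
        rintro rfl
        rw [h00] at h2
        exact Bool.noConfusion h2
      obtain ⟨B, rfl⟩ := Fin.exists_succ_eq.2 hA
      change 1 * 1 * (p * p) ≤ p * (p - 1) + p
      rcases Nat.eq_zero_or_pos p with hp | hp
      · subst hp; simp
      · obtain ⟨u, rfl⟩ : ∃ u, p = u + 1 := ⟨p - 1, by omega⟩
        simp only [Nat.add_sub_cancel]
        apply le_of_eq
        ring
    · rw [if_neg h3, if_neg h3, add_zero]
      calc om k w A * om k w C * (p * p) = (om k w A * p) * (om k w C * p) := by ring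
        _ ≤ _ := Nat.mul_le_mul (om_le k w c p hc A) (om_le k w c p hc C)
  · rw [if_neg h2, if_neg h2, if_neg h2]
    split_ifs <;> simp

/-- the relations with a rotated part, for masks -/
theorem relCm {n q : ℕ} {P : SimpleGraph (Fin n) → Prop} (hP : GP n q P) (s r p T : ℕ)
    [Fact p.Prime] (hp : 2 < p) (k w : ℕ) (hn : (s + r + w * p) + k * p = n)
    (hodd : Odd (s + r + w * p)) (hq : 2 * q + 5 * p < T * (p * p))
    (μ : Fin 7 → Fin (k + 1)) (ν : Fin (k + 1) → Fin 7)
    (hs : ∀ j, ∑ i, (if μ i = j then sz7 s r p i else 0) = szC k (s + r + w * p) p j)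
    (π : Equiv.Perm (Fin k)) (mk : Fin k → Bool)
    (hmk : ∀ i, ∃ t, (π ^ t) i = i ∧ mc π mk t i = 1)
    (o : ℕ → ℕ) (N : ℕ) (wt lp : ℕ → ℕ)
    (hμ : ∀ j a b, ag (o j) a b = ag (o j) (ν (μ a)) (ν (μ b)))
    (hinv : ∀ j A B, ag (o j) (ν A) (ν B) = true →
      ag (o j) (ν (pip π A)) (ν (pip π B)) = true)
    (hdis : ∀ i j, i ≠ j → ∀ A B, ag (o i) (ν A) (ν B) = true → ag (o j) (ν A) (ν B) = false)
    (hne : ∀ j < N, ∃ A B, ag (o j) (ν A) (ν B) = true)
    (h00 : ∀ j < N, ag (o j) (ν 0) (ν 0) = false)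
    (hmix : ∀ j < N, ∀ A B C : Fin k, ag (o j) (ν 0) (ν A.succ) = true →
      ag (o j) (ν B.succ) (ν C.succ) = true → False)
    (htr : ∀ j < N, ∀ A B : Fin k, ag (o j) (ν A.succ) (ν B.succ) = true →
      ∀ A' B' : Fin k, ag (o j) (ν A'.succ) (ν B'.succ) = true →
      ∃ t : ℕ, ((π ^ t) A = A' ∧ (π ^ t) B = B') ∨ ((π ^ t) A = B' ∧ (π ^ t) B = A'))
    (htr0 : ∀ j < N, ∀ A : Fin k, ag (o j) (ν 0) (ν A.succ) = true → ∀ A' : Fin k,
      ag (o j) (ν 0) (ν A'.succ) = true → (π ^ 4) A = A ∧ ∃ t, (π ^ t) A = A')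
    (hwt : ∀ j < N, (∑ A, ∑ B, if ag (o j) (ν A) (ν B) = true then om k w A * om k w B else 0) =
      wt j)
    (hlp : ∀ j < N, (∑ A, if ag (o j) (ν A) (ν A) = true then 1 else 0) = lp j)
    (hlps : ∀ js : List ℕ, js.Nodup → (∀ j ∈ js, j < N) → (js.map lp).sum ≤ 5)
    (js bs : List ℕ) (hnd : js.Nodup) (hj : ∀ j ∈ js, j < N ∧ j ∉ bs)
    (hT : T ≤ (js.map wt).sum) :
    altO (fK P s r p) (js.map o) (orL (bs.map o)) = 0 := by
  have hc0 : NeZero (s + r + w * p) := ⟨by rcases hodd with ⟨u, hu⟩; omega⟩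
  have hjb : ∀ j : Fin (js.map o).length, ∃ i, i ∈ js ∧ i < N ∧ i ∉ bs ∧
      (js.map o).get j = o i ∧ js[j.val]? = some i := by
    intro j
    have h1 : j.val < js.length := by simpa using j.2
    refine ⟨js[j.val], List.getElem_mem h1, (hj _ (List.getElem_mem h1)).1,
      (hj _ (List.getElem_mem h1)).2, by simp, by simp [h1]⟩
  refine merge_relN hP s r p (k + 1) (szC k (s + r + w * p) p) μ hs _ _
    (cP ν (orL (bs.map o))) (fun j => cP ν ((js.map o).get j)) ?_ ?_ ?_
  · intro a b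
    rw [ad_cP, Bool.eq_iff_iff, ag_orL, ag_orL]
    constructor
    · rintro ⟨x, hx, h1⟩
      refine ⟨x, hx, ?_⟩
      obtain ⟨i, -, rfl⟩ := List.mem_map.1 hx
      rw [← hμ]
      exact h1
    · rintro ⟨x, hx, h1⟩
      refine ⟨x, hx, ?_⟩
      obtain ⟨i, -, rfl⟩ := List.mem_map.1 hx
      rw [hμ]
      exact h1
  · intro j a b
    obtain ⟨i, -, -, -, h1, -⟩ := hjb j
    rw [ad_cP, h1, hμ]
  refine relC hP k (s + r + w * p) p hp hn π mk hmk _ _ ?_ ?_ ?_ ?_ ?_ ?_ ?_ ?_ ?_ ?_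
  · intro A B h
    rw [ad_cP, ag_orL] at h ⊢
    obtain ⟨x, hx, h1⟩ := h
    refine ⟨x, hx, ?_⟩
    obtain ⟨i, -, rfl⟩ := List.mem_map.1 hx
    exact hinv i A B h1
  · intro j A B h
    rw [ad_cP] at h ⊢
    obtain ⟨i, -, -, -, h1, -⟩ := hjb j
    rw [h1] at h ⊢
    exact hinv i A B h
  · intro i j hij A B h1 h2
    rw [ad_cP] at h1 h2
    obtain ⟨a, -, -, -, ha1, ha2⟩ := hjb i
    obtain ⟨b, -, -, -, hb1, hb2⟩ := hjb j
    rw [ha1] at h1
    rw [hb1] at h2
    have hne : a ≠ b := by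
      rintro rfl
      apply hij
      apply Fin.ext
      have h3 : i.val < js.length := by simpa using i.2
      exact (List.nodup_iff_getElem?_ne_getElem?.1 hnd |> fun H => by
        by_contra hne
        rcases lt_or_gt_of_ne hne with hlt | hlt
        · exact H i.val j.val hlt (by simpa using j.2) (by rw [ha2, hb2])
        · exact H j.val i.val hlt h3 (by rw [ha2, hb2]))
    rw [hdis a b hne A B h1] at h2
    exact Bool.noConfusion h2
  · intro j A B h1 h2
    rw [ad_cP] at h1 h2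
    obtain ⟨i, -, -, hnb, h3, -⟩ := hjb j
    rw [h3] at h2
    rw [ag_orL] at h1
    obtain ⟨x, hx, h4⟩ := h1
    obtain ⟨b, hb, rfl⟩ := List.mem_map.1 hx
    have hne : b ≠ i := fun h => hnb (h ▸ hb)
    rw [hdis b i hne A B h4] at h2
    exact Bool.noConfusion h2
  · intro j
    obtain ⟨i, -, hi, -, h3, -⟩ := hjb j
    obtain ⟨A, B, h⟩ := hne i hi
    refine ⟨A, B, ?_⟩
    rw [ad_cP, h3]
    exact h
  · intro j
    obtain ⟨i, -, hi, -, h3, -⟩ := hjb j
    rw [ad_cP, h3]
    exact h00 i hi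
  · intro j A B C h1 h2
    rw [ad_cP] at h1 h2
    obtain ⟨i, -, hi, -, h3, -⟩ := hjb j
    rw [h3] at h1 h2
    exact hmix i hi A B C h1 h2
  · intro j A B A' B' h h'
    rw [ad_cP] at h h'
    obtain ⟨i, -, hi, -, h3, -⟩ := hjb j
    rw [h3] at h h'
    exact htr i hi A B h A' B' h'
  · intro j A A' h h' x x'
    rw [ad_cP] at h h'
    obtain ⟨i, -, hi, -, h3, -⟩ := hjb j
    rw [h3] at h h'
    obtain ⟨h4, t0, ht0⟩ := htr0 i hi A h A' h'
    have hco : Nat.Coprime 4 (s + r + w * p) := by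
      have h2 : Nat.Coprime 2 (s + r + w * p) := by
        rw [Nat.coprime_two_left]
        exact hodd
      exact Nat.Coprime.pow_left 2 h2
    obtain ⟨t, ht1, ht2⟩ := Nat.chineseRemainder hco t0 (x' - x).val
    refine ⟨t, ?_, ?_⟩
    · have h5 : ∀ u, (π ^ u) A = (π ^ (u % 4)) A := by
        intro u
        conv_lhs => rw [← Nat.mod_add_div u 4, pow_add, pow_mul, Equiv.Perm.mul_apply]
        congr 1
        induction u / 4 with
        | zero => rfl
        | succ v ih => rw [pow_succ, Equiv.Perm.mul_apply, h4, ih]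
      rw [h5 t, ht1, ← h5 t0, ht0]
    · have h6 : (t : ZMod (s + r + w * p)) = ((x' - x).val : ℕ) :=
        (ZMod.natCast_eq_natCast_iff _ _ _).2 ht2
      rw [h6, ZMod.natCast_zmod_val]
      ring
  · -- the weights
    have e1 : ∑ j : Fin (js.map o).length, cnt (szC k (s + r + w * p) p)
        (cP ν ((js.map o).get j)) =
        (js.map (fun i => cnt (szC k (s + r + w * p) p) (cP ν (o i)))).sum := by
      rw [← List.sum_ofFn]
      congr 1
      rw [List.ofFn_eq_map]
      have : (fun i => cnt (szC k (s + r + w * p) p) (cP ν (o i))) =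
          (fun x => cnt (szC k (s + r + w * p) p) (cP ν x)) ∘ o := rfl
      rw [this, ← List.map_map]
      conv_rhs => rw [← List.map_get_finRange (js.map o)]
      rw [List.map_map]
      rfl
    rw [e1]
    have e2 : ∀ l : List ℕ, (∀ j ∈ l, j < N) → (l.map wt).sum * (p * p) ≤
        (l.map (fun i => cnt (szC k (s + r + w * p) p) (cP ν (o i)))).sum +
          (l.map lp).sum * p := by
      intro l hl
      induction l with
      | nil => simp
      | cons a l ih =>
        have h7 := ih (fun x hx => hl x (List.mem_cons_of_mem _ hx))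
        have ha : a < N := hl a List.mem_cons_self
        have h8 := cnt_geC k w (s + r + w * p) p (by omega) (cP ν (o a)) (by
          rw [ad_cP]; exact h00 a ha)
        simp only [ad_cP] at h8
        rw [hwt a ha, hlp a ha] at h8
        simp only [List.map_cons, List.sum_cons, add_mul] at h7 h8 ⊢
        omega
    have e3 := e2 js (fun j hj' => (hj j hj').1)
    have e4 := hlps js hnd fun j hj' => (hj j hj').1
    have e6 := Nat.mul_le_mul_right (p * p) hT
    have e7 := Nat.mul_le_mul_right p e4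
    omega

end Pool.Agent.H8.KA
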