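import Mathlib
import Pool.Agent.H8.KA.RelC

set_option autoImplicit false

/-!
MP_257582_lc (helper8): E4 and E5 for the values on masks.
-/

namespace Pool.Agent.H8.KA

open Finset
open Pool.Agent.H98R2.Ev (EV toG NE)
open Pool.Agent.H119R2.Kp
open Pool.Agent.W5h78.Karp (ad ad_comm addP cnt mc)
open EC

/-- the block permutations -/
def pi4 : ℕ → Equiv.Perm (Fin 4)
  | 1 => ⟨![1, 0, 2, 3], ![1, 0, 2, 3], by decide, by decide⟩
  | 2 => ⟨![1, 0, 3, 2], ![1, 0, 3, 2], by decide, by decide⟩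
  | 3 => ⟨![1, 2, 0, 3], ![2, 0, 1, 3], by decide, by decide⟩
  | 4 => ⟨![1, 2, 3, 0], ![3, 0, 1, 2], by decide, by decide⟩
  | _ => ⟨![0, 1, 2, 3], ![0, 1, 2, 3], by decide, by decide⟩

/-- one marked block in every cycle -/
def mk4 : ℕ → Fin 4 → Bool
  | 1 => ![true, false, true, true]
  | 2 => ![true, false, true, false]
  | 3 => ![true, false, false, true]
  | 4 => ![true, false, false, false]
  | _ => ![true, true, true, true]

/-- masks of the orbits; the first ones are free -/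
def ob4T : List (List ℕ) :=
  [[65536, 131072, 262144, 524288, 1049092, 16777216, 33554432, 67108864, 134218760, 4294967296, 8589934592, 17179871248, 1099511627776, 2199023259680, 281474976719171], [16842752, 131072, 33816576, 67633152, 135267852, 4294967296, 8589934592, 17179871248, 1099511627776, 2199023259680, 281474976719171], [16842752, 131072, 67371008, 34078720, 135267852, 1103806595072, 8589934592, 2216203130928, 281474976719171], [4311810048, 33947648, 8657567744, 1099511627776, 2199023259680, 17315139100, 281474976719171], [1103823437824, 8624144384, 67371008, 2216338398780, 281474976719171]]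

/-- number of free orbits -/
def nb4 (k : ℕ) : ℕ := ([14, 10, 8, 5, 4] : List ℕ).getD k 0

/-- weights -/
def wt4T : List (List ℕ) :=
  [[1, 2, 2, 2, 2, 1, 2, 2, 2, 1, 2, 2, 1, 2], [2, 2, 4, 4, 4, 1, 2, 2, 1, 2], [2, 2, 4, 4, 4, 2, 2, 4], [3, 6, 6, 1, 2], [4, 8, 4, 8]]

/-- inner classes -/
def lp4T : List (List ℕ) :=
  [[1, 0, 0, 0, 0, 1, 0, 0, 0, 1, 0, 0, 1, 0], [2, 0, 0, 0, 0, 1, 0, 0, 1, 0], [2, 0, 0, 0, 0, 2, 0, 0], [3, 0, 0, 1, 0], [4, 0, 0, 0]]

/-- orbit `j` of permutation `k` -/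
def ob4 (k j : ℕ) : ℕ := (ob4T.getD k []).getD j 0

/-- weight of orbit `j` -/
def wt4 (k j : ℕ) : ℕ := (wt4T.getD k []).getD j 0

/-- number of inner classes of orbit `j` -/
def lp4 (k j : ℕ) : ℕ := (lp4T.getD k []).getD j 0

/-- the merging of the parts -/
def mu4 : Fin 7 → Fin (4 + 1) := ![0, 0, 1, 2, 3, 4, 0]

/-- a part of each class -/
def nu4 : Fin (4 + 1) → Fin 7 := ![6, 2, 3, 4, 5]

theorem c4_hmk (k : ℕ) (hk : k < 5) : ∀ i, ∃ t, ((pi4 k) ^ t) i = i ∧
    mc (pi4 k) (mk4 k) t i = 1 := by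
  have key : ∀ k < 5, ∀ i : Fin 4, ∃ t : Fin 7, ((pi4 k) ^ t.val) i = i ∧
      mc (pi4 k) (mk4 k) t.val i = 1 := by decide +kernel
  intro i
  obtain ⟨t, ht⟩ := key k hk i
  exact ⟨t.val, ht⟩

theorem ob4_big (k : ℕ) (hk : k < 5) (j : ℕ) (hj : 15 ≤ j) : ob4 k j = 0 := by
  have h1 : ∀ k < 5, (ob4T.getD k []).length ≤ 15 := by decide
  unfold ob4
  rw [List.getD_eq_default]
  exact (h1 k hk).trans hj

theorem c4_mu (k : ℕ) (hk : k < 5) (j : ℕ) (a b : Fin 7) :
    ag (ob4 k j) a b = ag (ob4 k j) (nu4 (mu4 a)) (nu4 (mu4 b)) := by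
  have key : ∀ k < 5, ∀ j < 15, ∀ a b : Fin 7,
    ag (ob4 k j) a b = ag (ob4 k j) (nu4 (mu4 a)) (nu4 (mu4 b)) := by decide +kernel
  by_cases hj : j < 15
  · exact key k hk j hj a b
  · rw [ob4_big k hk j (not_lt.1 hj), ag_zero, ag_zero]

theorem c4_inv (k : ℕ) (hk : k < 5) (j : ℕ) (A B : Fin (4 + 1))
    (h : ag (ob4 k j) (nu4 A) (nu4 B) = true) :
    ag (ob4 k j) (nu4 (pip (pi4 k) A)) (nu4 (pip (pi4 k) B)) = true := by
  have key : ∀ k < 5, ∀ j < 15, ∀ A B : Fin (4 + 1), ag (ob4 k j) (nu4 A) (nu4 B) = true →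
    ag (ob4 k j) (nu4 (pip (pi4 k) A)) (nu4 (pip (pi4 k) B)) = true := by decide +kernel
  by_cases hj : j < 15
  · exact key k hk j hj A B h
  · rw [ob4_big k hk j (not_lt.1 hj), ag_zero] at h
    cases h

theorem c4_dis (k : ℕ) (hk : k < 5) (i j : ℕ) (hij : i ≠ j) (A B : Fin (4 + 1))
    (h : ag (ob4 k i) (nu4 A) (nu4 B) = true) :
    ag (ob4 k j) (nu4 A) (nu4 B) = false := by
  have key : ∀ k < 5, ((List.range 15).all fun i => (List.range 15).all fun j =>
    (i == j) || (List.finRange (4 + 1)).all fun A => (List.finRange (4 + 1)).all fun B =>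
      !(ag (ob4 k i) (nu4 A) (nu4 B) && ag (ob4 k j) (nu4 A) (nu4 B))) = true := by
    decide +kernel
  by_cases hi : i < 15
  · by_cases hj : j < 15
    · have h1 := key k hk
      rw [List.all_eq_true] at h1
      have h2 := h1 i (List.mem_range.2 hi)
      rw [List.all_eq_true] at h2
      have h3 := h2 j (List.mem_range.2 hj)
      rw [Bool.or_eq_true, beq_iff_eq] at h3
      rcases h3 with h3 | h3
      · exact absurd h3 hij
      · rw [List.all_eq_true] at h3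
        have h4 := h3 A (List.mem_finRange _)
        rw [List.all_eq_true] at h4
        have h5 := h4 B (List.mem_finRange _)
        rw [h] at h5
        simpa using h5
    · rw [ob4_big k hk j (not_lt.1 hj), ag_zero]
  · rw [ob4_big k hk i (not_lt.1 hi), ag_zero] at h
    cases h

theorem c4_ne : ∀ k < 5, ∀ j < nb4 k, ∃ A B : Fin (4 + 1),
    ag (ob4 k j) (nu4 A) (nu4 B) = true := by decide +kernel

theorem c4_00 : ∀ k < 5, ∀ j < nb4 k, ag (ob4 k j) (nu4 0) (nu4 0) = false := by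
  decide +kernel

theorem c4_mix : ∀ k < 5, ∀ j < nb4 k, ∀ A B C : Fin 4,
    ag (ob4 k j) (nu4 0) (nu4 A.succ) = true →
    ag (ob4 k j) (nu4 B.succ) (nu4 C.succ) = true → False := by decide +kernel

theorem c4_tr (k : ℕ) (hk : k < 5) (j : ℕ) (hj : j < nb4 k) (A B : Fin 4)
    (h : ag (ob4 k j) (nu4 A.succ) (nu4 B.succ) = true) (A' B' : Fin 4)
    (h' : ag (ob4 k j) (nu4 A'.succ) (nu4 B'.succ) = true) :
    ∃ t : ℕ, (((pi4 k) ^ t) A = A' ∧ ((pi4 k) ^ t) B = B') ∨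
      (((pi4 k) ^ t) A = B' ∧ ((pi4 k) ^ t) B = A') := by
  have key : ∀ k < 5, ((List.range (nb4 k)).all fun j =>
    (List.finRange 4).all fun A => (List.finRange 4).all fun B =>
    !(ag (ob4 k j) (nu4 A.succ) (nu4 B.succ)) ||
    (List.finRange 4).all fun A' => (List.finRange 4).all fun B' =>
      !(ag (ob4 k j) (nu4 A'.succ) (nu4 B'.succ)) || (List.range 6).any fun t =>
        (decide ((⇑(pi4 k))^[t] A = A') && decide ((⇑(pi4 k))^[t] B = B')) ||
        (decide ((⇑(pi4 k))^[t] A = B') && decide ((⇑(pi4 k))^[t] B = A'))) = true := by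
    decide +kernel
  have h1 := key k hk
  rw [List.all_eq_true] at h1
  have h2 := h1 j (List.mem_range.2 hj)
  rw [List.all_eq_true] at h2
  have h3 := h2 A (List.mem_finRange _)
  rw [List.all_eq_true] at h3
  have h4 := h3 B (List.mem_finRange _)
  rw [h, Bool.not_true, Bool.false_or, List.all_eq_true] at h4
  have h5 := h4 A' (List.mem_finRange _)
  rw [List.all_eq_true] at h5
  have h6 := h5 B' (List.mem_finRange _)
  rw [h', Bool.not_true, Bool.false_or, List.any_eq_true] at h6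
  obtain ⟨t, -, ht⟩ := h6
  exact ⟨t, by simpa [Equiv.Perm.iterate_eq_pow] using ht⟩

theorem c4_tr0 (k : ℕ) (hk : k < 5) (j : ℕ) (hj : j < nb4 k) (A : Fin 4)
    (h : ag (ob4 k j) (nu4 0) (nu4 A.succ) = true) (A' : Fin 4)
    (h' : ag (ob4 k j) (nu4 0) (nu4 A'.succ) = true) :
    ((pi4 k) ^ 4) A = A ∧ ∃ t, ((pi4 k) ^ t) A = A' := by
  have key : ∀ k < 5, ∀ j < nb4 k, ∀ A : Fin 4,
    ag (ob4 k j) (nu4 0) (nu4 A.succ) = true → ∀ A' : Fin 4,
    ag (ob4 k j) (nu4 0) (nu4 A'.succ) = true →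
    (⇑(pi4 k))^[4] A = A ∧ ∃ t < 6, (⇑(pi4 k))^[t] A = A' := by decide +kernel
  obtain ⟨h4, t, -, ht⟩ := key k hk j hj A h A' h'
  rw [Equiv.Perm.iterate_eq_pow] at h4 ht
  exact ⟨h4, t, ht⟩

theorem c4_wt : ∀ k < 5, ∀ j < nb4 k,
    (∑ A : Fin (4 + 1), ∑ B : Fin (4 + 1),
      if ag (ob4 k j) (nu4 A) (nu4 B) = true then om 4 1 A * om 4 1 B else 0) =
      wt4 k j := by
  decide +kernel

theorem c4_lp : ∀ k < 5, ∀ j < nb4 k,
    (∑ A : Fin (4 + 1), if ag (ob4 k j) (nu4 A) (nu4 A) = true then 1 else 0) = lp4 k j := by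
  decide +kernel

theorem c4_lps (k : ℕ) (hk : k < 5) (js : List ℕ) (hnd : js.Nodup)
    (hj : ∀ j ∈ js, j < nb4 k) : (js.map (lp4 k)).sum ≤ 5 := by
  have key : ∀ k < 5, ∑ j ∈ range (nb4 k), lp4 k j ≤ 5 := by decide +kernel
  refine le_trans ?_ (key k hk)
  rw [← List.sum_toFinset _ hnd]
  apply Finset.sum_le_sum_of_subset
  intro j hj'
  rw [List.mem_toFinset] at hj'
  rw [Finset.mem_range]
  exact hj j hj'

/-- **E4** -/
theorem rel4 {n q : ℕ} {P : SimpleGraph (Fin n) → Prop} (hP : GP n q P) (s r p T : ℕ)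
    [Fact p.Prime] (hp : 2 < p) (hn : s + r + 5 * p = n) (hodd : Odd (s + r + 1 * p))
    (hq : 2 * q + 5 * p < T * (p * p)) (k : ℕ) (hk : k < 5) (js bs : List ℕ) (hnd : js.Nodup)
    (hj : ∀ j ∈ js, j < nb4 k ∧ j ∉ bs) (hT : T ≤ (js.map (wt4 k)).sum) :
    altO (fK P s r p) (js.map (ob4 k)) (orL (bs.map (ob4 k))) = 0 := by
  refine relCm hP s r p T hp 4 1 (by omega) hodd hq mu4 nu4 ?_ (pi4 k) (mk4 k)
    (c4_hmk k hk) (ob4 k) (nb4 k) (wt4 k) (lp4 k) (c4_mu k hk) (c4_inv k hk)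
    (c4_dis k hk) (c4_ne k hk) (c4_00 k hk) (c4_mix k hk) (c4_tr k hk) (c4_tr0 k hk)
    (c4_wt k hk) (c4_lp k hk) (c4_lps k hk) js bs hnd hj hT
  intro j
  rw [Fin.sum_univ_seven]
  have e0 : sz7 s r p 0 = s := rfl
  have e1 : sz7 s r p 1 = r := rfl
  have e2 : sz7 s r p 2 = p := rfl
  have e3 : sz7 s r p 3 = p := rfl
  have e4 : sz7 s r p 4 = p := rfl
  have e5 : sz7 s r p 5 = p := rfl
  have e6 : sz7 s r p 6 = p := rfl
  rw [e0, e1, e2, e3, e4, e5, e6]
  fin_cases j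
  · change _ = s + r + 1 * p
    simp [mu4]
    try omega
  · change _ = p
    simp [mu4]
  · change _ = p
    simp [mu4]
  · change _ = p
    simp [mu4]
  · change _ = p
    simp [mu4]

/-- the block permutations -/
def pi5 : ℕ → Equiv.Perm (Fin 3)
  | 1 => ⟨![1, 0, 2], ![1, 0, 2], by decide, by decide⟩
  | 2 => ⟨![1, 2, 0], ![2, 0, 1], by decide, by decide⟩
  | _ => ⟨![0, 1, 2], ![0, 1, 2], by decide, by decide⟩

/-- one marked block in every cycle -/
def mk5 : ℕ → Fin 3 → Bool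
  | 1 => ![true, false, true]
  | 2 => ![true, false, false]
  | _ => ![true, true, true]

/-- masks of the orbits; the first ones are free -/
def ob5T : List (List ℕ) :=
  [[65536, 131072, 262144, 1573380, 16777216, 33554432, 201327624, 4294967296, 25769805840, 284773511606627], [16842752, 131072, 33816576, 202901004, 4294967296, 25769805840, 284773511606627], [4311810048, 33947648, 25972706844, 284773511606627]]

/-- number of free orbits -/
def nb5 (k : ℕ) : ℕ := ([9, 6, 2] : List ℕ).getD k 0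

/-- weights -/
def wt5T : List (List ℕ) :=
  [[1, 2, 2, 4, 1, 2, 4, 1, 4], [2, 2, 4, 8, 1, 4], [3, 6]]

/-- inner classes -/
def lp5T : List (List ℕ) :=
  [[1, 0, 0, 0, 1, 0, 0, 1, 0], [2, 0, 0, 0, 1, 0], [3, 0]]

/-- orbit `j` of permutation `k` -/
def ob5 (k j : ℕ) : ℕ := (ob5T.getD k []).getD j 0

/-- weight of orbit `j` -/
def wt5 (k j : ℕ) : ℕ := (wt5T.getD k []).getD j 0

/-- number of inner classes of orbit `j` -/
def lp5 (k j : ℕ) : ℕ := (lp5T.getD k []).getD j 0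

/-- the merging of the parts -/
def mu5 : Fin 7 → Fin (3 + 1) := ![0, 0, 1, 2, 3, 0, 0]

/-- a part of each class -/
def nu5 : Fin (3 + 1) → Fin 7 := ![6, 2, 3, 4]

theorem c5_hmk (k : ℕ) (hk : k < 3) : ∀ i, ∃ t, ((pi5 k) ^ t) i = i ∧
    mc (pi5 k) (mk5 k) t i = 1 := by
  have key : ∀ k < 3, ∀ i : Fin 3, ∃ t : Fin 7, ((pi5 k) ^ t.val) i = i ∧
      mc (pi5 k) (mk5 k) t.val i = 1 := by decide +kernel
  intro i
  obtain ⟨t, ht⟩ := key k hk i
  exact ⟨t.val, ht⟩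

theorem ob5_big (k : ℕ) (hk : k < 3) (j : ℕ) (hj : 15 ≤ j) : ob5 k j = 0 := by
  have h1 : ∀ k < 3, (ob5T.getD k []).length ≤ 15 := by decide
  unfold ob5
  rw [List.getD_eq_default]
  exact (h1 k hk).trans hj

theorem c5_mu (k : ℕ) (hk : k < 3) (j : ℕ) (a b : Fin 7) :
    ag (ob5 k j) a b = ag (ob5 k j) (nu5 (mu5 a)) (nu5 (mu5 b)) := by
  have key : ∀ k < 3, ∀ j < 15, ∀ a b : Fin 7,
    ag (ob5 k j) a b = ag (ob5 k j) (nu5 (mu5 a)) (nu5 (mu5 b)) := by decide +kernel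
  by_cases hj : j < 15
  · exact key k hk j hj a b
  · rw [ob5_big k hk j (not_lt.1 hj), ag_zero, ag_zero]

theorem c5_inv (k : ℕ) (hk : k < 3) (j : ℕ) (A B : Fin (3 + 1))
    (h : ag (ob5 k j) (nu5 A) (nu5 B) = true) :
    ag (ob5 k j) (nu5 (pip (pi5 k) A)) (nu5 (pip (pi5 k) B)) = true := by
  have key : ∀ k < 3, ∀ j < 15, ∀ A B : Fin (3 + 1), ag (ob5 k j) (nu5 A) (nu5 B) = true →
    ag (ob5 k j) (nu5 (pip (pi5 k) A)) (nu5 (pip (pi5 k) B)) = true := by decide +kernel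
  by_cases hj : j < 15
  · exact key k hk j hj A B h
  · rw [ob5_big k hk j (not_lt.1 hj), ag_zero] at h
    cases h

theorem c5_dis (k : ℕ) (hk : k < 3) (i j : ℕ) (hij : i ≠ j) (A B : Fin (3 + 1))
    (h : ag (ob5 k i) (nu5 A) (nu5 B) = true) :
    ag (ob5 k j) (nu5 A) (nu5 B) = false := by
  have key : ∀ k < 3, ((List.range 15).all fun i => (List.range 15).all fun j =>
    (i == j) || (List.finRange (3 + 1)).all fun A => (List.finRange (3 + 1)).all fun B =>
      !(ag (ob5 k i) (nu5 A) (nu5 B) && ag (ob5 k j) (nu5 A) (nu5 B))) = true := by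
    decide +kernel
  by_cases hi : i < 15
  · by_cases hj : j < 15
    · have h1 := key k hk
      rw [List.all_eq_true] at h1
      have h2 := h1 i (List.mem_range.2 hi)
      rw [List.all_eq_true] at h2
      have h3 := h2 j (List.mem_range.2 hj)
      rw [Bool.or_eq_true, beq_iff_eq] at h3
      rcases h3 with h3 | h3
      · exact absurd h3 hij
      · rw [List.all_eq_true] at h3
        have h4 := h3 A (List.mem_finRange _)
        rw [List.all_eq_true] at h4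
        have h5 := h4 B (List.mem_finRange _)
        rw [h] at h5
        simpa using h5
    · rw [ob5_big k hk j (not_lt.1 hj), ag_zero]
  · rw [ob5_big k hk i (not_lt.1 hi), ag_zero] at h
    cases h

theorem c5_ne : ∀ k < 3, ∀ j < nb5 k, ∃ A B : Fin (3 + 1),
    ag (ob5 k j) (nu5 A) (nu5 B) = true := by decide +kernel

theorem c5_00 : ∀ k < 3, ∀ j < nb5 k, ag (ob5 k j) (nu5 0) (nu5 0) = false := by
  decide +kernel

theorem c5_mix : ∀ k < 3, ∀ j < nb5 k, ∀ A B C : Fin 3,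
    ag (ob5 k j) (nu5 0) (nu5 A.succ) = true →
    ag (ob5 k j) (nu5 B.succ) (nu5 C.succ) = true → False := by decide +kernel

theorem c5_tr (k : ℕ) (hk : k < 3) (j : ℕ) (hj : j < nb5 k) (A B : Fin 3)
    (h : ag (ob5 k j) (nu5 A.succ) (nu5 B.succ) = true) (A' B' : Fin 3)
    (h' : ag (ob5 k j) (nu5 A'.succ) (nu5 B'.succ) = true) :
    ∃ t : ℕ, (((pi5 k) ^ t) A = A' ∧ ((pi5 k) ^ t) B = B') ∨
      (((pi5 k) ^ t) A = B' ∧ ((pi5 k) ^ t) B = A') := by
  have key : ∀ k < 3, ((List.range (nb5 k)).all fun j =>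
    (List.finRange 3).all fun A => (List.finRange 3).all fun B =>
    !(ag (ob5 k j) (nu5 A.succ) (nu5 B.succ)) ||
    (List.finRange 3).all fun A' => (List.finRange 3).all fun B' =>
      !(ag (ob5 k j) (nu5 A'.succ) (nu5 B'.succ)) || (List.range 6).any fun t =>
        (decide ((⇑(pi5 k))^[t] A = A') && decide ((⇑(pi5 k))^[t] B = B')) ||
        (decide ((⇑(pi5 k))^[t] A = B') && decide ((⇑(pi5 k))^[t] B = A'))) = true := by
    decide +kernel
  have h1 := key k hk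
  rw [List.all_eq_true] at h1
  have h2 := h1 j (List.mem_range.2 hj)
  rw [List.all_eq_true] at h2
  have h3 := h2 A (List.mem_finRange _)
  rw [List.all_eq_true] at h3
  have h4 := h3 B (List.mem_finRange _)
  rw [h, Bool.not_true, Bool.false_or, List.all_eq_true] at h4
  have h5 := h4 A' (List.mem_finRange _)
  rw [List.all_eq_true] at h5
  have h6 := h5 B' (List.mem_finRange _)
  rw [h', Bool.not_true, Bool.false_or, List.any_eq_true] at h6
  obtain ⟨t, -, ht⟩ := h6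
  exact ⟨t, by simpa [Equiv.Perm.iterate_eq_pow] using ht⟩

theorem c5_tr0 (k : ℕ) (hk : k < 3) (j : ℕ) (hj : j < nb5 k) (A : Fin 3)
    (h : ag (ob5 k j) (nu5 0) (nu5 A.succ) = true) (A' : Fin 3)
    (h' : ag (ob5 k j) (nu5 0) (nu5 A'.succ) = true) :
    ((pi5 k) ^ 4) A = A ∧ ∃ t, ((pi5 k) ^ t) A = A' := by
  have key : ∀ k < 3, ∀ j < nb5 k, ∀ A : Fin 3,
    ag (ob5 k j) (nu5 0) (nu5 A.succ) = true → ∀ A' : Fin 3,
    ag (ob5 k j) (nu5 0) (nu5 A'.succ) = true →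
    (⇑(pi5 k))^[4] A = A ∧ ∃ t < 6, (⇑(pi5 k))^[t] A = A' := by decide +kernel
  obtain ⟨h4, t, -, ht⟩ := key k hk j hj A h A' h'
  rw [Equiv.Perm.iterate_eq_pow] at h4 ht
  exact ⟨h4, t, ht⟩

theorem c5_wt : ∀ k < 3, ∀ j < nb5 k,
    (∑ A : Fin (3 + 1), ∑ B : Fin (3 + 1),
      if ag (ob5 k j) (nu5 A) (nu5 B) = true then om 3 2 A * om 3 2 B else 0) =
      wt5 k j := by
  decide +kernel

theorem c5_lp : ∀ k < 3, ∀ j < nb5 k,
    (∑ A : Fin (3 + 1), if ag (ob5 k j) (nu5 A) (nu5 A) = true then 1 else 0) = lp5 k j := by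
  decide +kernel

theorem c5_lps (k : ℕ) (hk : k < 3) (js : List ℕ) (hnd : js.Nodup)
    (hj : ∀ j ∈ js, j < nb5 k) : (js.map (lp5 k)).sum ≤ 5 := by
  have key : ∀ k < 3, ∑ j ∈ range (nb5 k), lp5 k j ≤ 5 := by decide +kernel
  refine le_trans ?_ (key k hk)
  rw [← List.sum_toFinset _ hnd]
  apply Finset.sum_le_sum_of_subset
  intro j hj'
  rw [List.mem_toFinset] at hj'
  rw [Finset.mem_range]
  exact hj j hj'

/-- **E5** -/
theorem rel5 {n q : ℕ} {P : SimpleGraph (Fin n) → Prop} (hP : GP n q P) (s r p T : ℕ)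
    [Fact p.Prime] (hp : 2 < p) (hn : s + r + 5 * p = n) (hodd : Odd (s + r + 2 * p))
    (hq : 2 * q + 5 * p < T * (p * p)) (k : ℕ) (hk : k < 3) (js bs : List ℕ) (hnd : js.Nodup)
    (hj : ∀ j ∈ js, j < nb5 k ∧ j ∉ bs) (hT : T ≤ (js.map (wt5 k)).sum) :
    altO (fK P s r p) (js.map (ob5 k)) (orL (bs.map (ob5 k))) = 0 := by
  refine relCm hP s r p T hp 3 2 (by omega) hodd hq mu5 nu5 ?_ (pi5 k) (mk5 k)
    (c5_hmk k hk) (ob5 k) (nb5 k) (wt5 k) (lp5 k) (c5_mu k hk) (c5_inv k hk)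
    (c5_dis k hk) (c5_ne k hk) (c5_00 k hk) (c5_mix k hk) (c5_tr k hk) (c5_tr0 k hk)
    (c5_wt k hk) (c5_lp k hk) (c5_lps k hk) js bs hnd hj hT
  intro j
  rw [Fin.sum_univ_seven]
  have e0 : sz7 s r p 0 = s := rfl
  have e1 : sz7 s r p 1 = r := rfl
  have e2 : sz7 s r p 2 = p := rfl
  have e3 : sz7 s r p 3 = p := rfl
  have e4 : sz7 s r p 4 = p := rfl
  have e5 : sz7 s r p 5 = p := rfl
  have e6 : sz7 s r p 6 = p := rfl
  rw [e0, e1, e2, e3, e4, e5, e6]
  fin_cases j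
  · change _ = s + r + 2 * p
    simp [mu5]
    try omega
  · change _ = p
    simp [mu5]
  · change _ = p
    simp [mu5]
  · change _ = p
    simp [mu5]

end Pool.Agent.H8.KA
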