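import Mathlib
import Pool.Agent.H8.KA.Chk2
import Pool.Agent.H8.KA.RelC2

set_option autoImplicit false

/-!
MP_257582_lc (helper8): all the families of relations with parity, and the soundness of the
expansion of a relation.
-/

namespace Pool.Agent.H8.KA

open Finset
open Pool.Agent.W5h78.Karp (ad ad_comm addP cnt mc)

/-- the facts with the relations E4 (`par = 1`) and E5 (`par = 2`) -/
structure FKP (par T : ℕ) (f : ℕ → ℤ) : Prop extends FK T f where
  rel4 : par = 1 → ∀ k < 5, ∀ js bs : List ℕ, js.Nodup → (∀ j ∈ js, j < nb4 k ∧ j ∉ bs) →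
    T ≤ (js.map (wt4 k)).sum → altO f (js.map (ob4 k)) (orL (bs.map (ob4 k))) = 0
  rel5 : par = 2 → ∀ k < 3, ∀ js bs : List ℕ, js.Nodup → (∀ j ∈ js, j < nb5 k ∧ j ∉ bs) →
    T ≤ (js.map (wt5 k)).sum → altO f (js.map (ob5 k)) (orL (bs.map (ob5 k))) = 0

theorem FK.toP {T : ℕ} {f : ℕ → ℤ} (h : FK T f) : FKP 0 T f :=
  { h with rel4 := fun h => absurd h (by norm_num), rel5 := fun h => absurd h (by norm_num) }

/-- symmetric masks of all the families: E1 (`k < 7`), E2 (`7`), E3 (`8`), E4 (`9 ≤ k < 14`), E5
(`14 ≤ k < 17`) -/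
def obX : List (List ℕ) :=
  [
    [65536, 8519680, 1074003968, 137439477760, 17592187092992, 16777216, 2181038080, 274945015808, 35184506306560, 4294967296, 558345748480, 70385924046848, 1099511627776, 142936511610880, 281474976710656, 1, 130, 256, 16388, 2097160, 268435472, 34359738400, 4398046511168, 33280, 4195328, 536872960, 68719480832, 8796093030400],
    [16842752, 8519680, 3255042048, 412384493568, 52776693399552, 4294967296, 558345748480, 70385924046848, 1099511627776, 142936511610880, 281474976710656, 1, 130, 256, 2113548, 268435472, 34359738400, 4398046511168, 4228608, 536872960, 68719480832, 8796093030400],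
    [16842752, 8519680, 276019019776, 139620515840, 52776693399552, 1103806595072, 558345748480, 213322435657728, 281474976710656, 1, 130, 256, 2113548, 34628173872, 4398046511168, 4228608, 69256353792, 8796093030400],
    [4311810048, 3263561728, 970730242048, 123162617446400, 1099511627776, 142936511610880, 281474976710656, 1, 130, 256, 270549020, 34359738400, 4398046511168, 541101568, 68719480832, 8796093030400],
    [4311810048, 3263561728, 124133347688448, 282574488338432, 142936511610880, 1, 130, 256, 270549020, 4432406249568, 541101568, 8864812511232],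
    [1103823437824, 697974784000, 276019019776, 266099129057280, 281474976710656, 1, 130, 256, 34630287420, 4398046511168, 69260582400, 8796093030400],
    [282578800148480, 161089234010112, 105983888850944, 1, 130, 256, 4432676798588, 8865353612800],
    [500892239396977, 53192335048716, 25362432, 8865349384322, 4228608, 256],
    [500892239396977, 17730700591108, 44326983841930, 65536, 20972800, 8552960],
    [65536, 8519680, 1074003968, 137439477760, 17592187142660, 16777216, 2181038080, 274945015808, 35184512599048, 4294967296, 558345748480, 70386729355280, 1099511627776, 143039590830112, 294669116252611],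
    [16842752, 8519680, 3255042048, 412384493568, 52776699741708, 4294967296, 558345748480, 70386729355280, 1099511627776, 143039590830112, 294669116252611],
    [16842752, 8519680, 276019019776, 139620515840, 52776699741708, 1103806595072, 558345748480, 213426320185392, 294669116252611],
    [4311810048, 3263561728, 970730242048, 1099511627776, 143039590830112, 123163429096988, 294669116252611],
    [1103823437824, 697974784000, 276019019776, 266203019927100, 294669116252611],
    [65536, 8519680, 1074003968, 17729626620420, 16777216, 2181038080, 35459457614856, 4294967296, 70945075103760, 438808218710499],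
    [16842752, 8519680, 3255042048, 53189084235276, 4294967296, 70945075103760, 438808218710499],
    [4311810048, 3263561728, 124134159339036, 438808218710499]]

/-- symmetric mask `j` of family `k` -/
def oX (k j : ℕ) : ℕ := (obX.getD k []).getD j 0

theorem oX_oS (k : ℕ) (hk : k < 9) (j : ℕ) : oX k j = oS k j := by
  have h : ∀ k < 9, obX.getD k [] = obS.getD k [] := by decide
  unfold oX oS
  rw [h k hk]

theorem oX_4 (k : ℕ) (hk : k < 5) (j : ℕ) (a b : Fin 7) :
    ag (oX (k + 9) j) a b = ag (ob4 k j) a b := by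
  have key : ∀ k < 5, ∀ j < 15, ∀ a b : Fin 7, ag (oX (k + 9) j) a b = ag (ob4 k j) a b := by
    decide +kernel
  by_cases hj : j < 15
  · exact key k hk j hj a b
  · have h1 : ∀ k < 5, (obX.getD (k + 9) []).length ≤ 15 := by decide
    rw [ob4_big k hk j (not_lt.1 hj)]
    unfold oX
    rw [List.getD_eq_default _ _ ((h1 k hk).trans (not_lt.1 hj))]

theorem oX_5 (k : ℕ) (hk : k < 3) (j : ℕ) (a b : Fin 7) :
    ag (oX (k + 14) j) a b = ag (ob5 k j) a b := by
  have key : ∀ k < 3, ∀ j < 15, ∀ a b : Fin 7, ag (oX (k + 14) j) a b = ag (ob5 k j) a b := by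
    decide +kernel
  by_cases hj : j < 15
  · exact key k hk j hj a b
  · have h1 : ∀ k < 3, (obX.getD (k + 14) []).length ≤ 15 := by decide
    rw [ob5_big k hk j (not_lt.1 hj)]
    unfold oX
    rw [List.getD_eq_default _ _ ((h1 k hk).trans (not_lt.1 hj))]

/-- conditions of E4, E5 -/
def relJ (T N : ℕ) (wt : ℕ → ℕ) (js bs : List ℕ) : Bool :=
  decide js.Nodup && js.all (fun j => decide (j < N) && !(bs.contains j)) &&
    decide (T ≤ (js.map wt).sum)

theorem relJ_iff {T N : ℕ} {wt : ℕ → ℕ} {js bs : List ℕ} (h : relJ T N wt js bs = true) :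
    js.Nodup ∧ (∀ j ∈ js, j < N ∧ j ∉ bs) ∧ T ≤ (js.map wt).sum := by
  unfold relJ at h
  simp only [Bool.and_eq_true, decide_eq_true_iff, List.all_eq_true] at h
  obtain ⟨⟨h4, h5⟩, h6⟩ := h
  refine ⟨h4, fun j hj => ?_, h6⟩
  obtain ⟨h7, h8⟩ := h5 j hj
  refine ⟨h7, fun h9 => ?_⟩
  rw [List.contains_iff_mem.2 h9] at h8
  cases h8

/-- the relation is one of the families -/
def relY (par T k : ℕ) (js bs : List ℕ) : Bool :=
  if k < 9 then relB T k js bs
  else if k < 14 then decide (par = 1) && relJ T (nb4 (k - 9)) (wt4 (k - 9)) js bs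
  else if k < 17 then decide (par = 2) && relJ T (nb5 (k - 14)) (wt5 (k - 14)) js bs
  else false

theorem relY_sound {par T : ℕ} {f : ℕ → ℤ} (hf : FKP par T f) {k : ℕ} {js bs : List ℕ}
    (h : relY par T k js bs = true) : altO f (js.map (oX k)) (orL (bs.map (oX k))) = 0 := by
  unfold relY at h
  split_ifs at h with h1 h2 h3
  · have e : oX k = oS k := funext fun j => oX_oS k h1 j
    rw [e]
    exact relB_sound hf.toFK h
  · rw [Bool.and_eq_true, decide_eq_true_iff] at h
    obtain ⟨h4, h5⟩ := h
    obtain ⟨h6, h7, h8⟩ := relJ_iff h5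
    obtain ⟨k', rfl⟩ : ∃ k', k = k' + 9 := ⟨k - 9, by omega⟩
    rw [Nat.add_sub_cancel] at h7 h8
    rw [altO_congr2 hf.toFK (forall2_map fun j _ a b => oX_4 k' (by omega) j a b)
      (ag_orL_map fun j _ a b => oX_4 k' (by omega) j a b)]
    exact hf.rel4 h4 k' (by omega) js bs h6 h7 h8
  · rw [Bool.and_eq_true, decide_eq_true_iff] at h
    obtain ⟨h4, h5⟩ := h
    obtain ⟨h6, h7, h8⟩ := relJ_iff h5
    obtain ⟨k', rfl⟩ : ∃ k', k = k' + 14 := ⟨k - 14, by omega⟩
    rw [Nat.add_sub_cancel] at h7 h8
    rw [altO_congr2 hf.toFK (forall2_map fun j _ a b => oX_5 k' (by omega) j a b)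
      (ag_orL_map fun j _ a b => oX_5 k' (by omega) j a b)]
    exact hf.rel5 h4 k' (by omega) js bs h6 h7 h8

/-- all entries -/
def aE (G : List (ℕ × List (ℕ × ℕ))) (Z U : List (ℕ × ℕ)) : List (ℕ × ℕ) :=
  (G.flatMap fun xE => xE.2) ++ (Z ++ U)

theorem core_sound {T : ℕ} {f : ℕ → ℤ} (hf : FK T f) (ws : List ℕ) (g : ℕ)
    (hrel : altO f ws g = 0) (hm : ws.length < 11) (G : List (ℕ × List (ℕ × ℕ)))
    (Z U : List (ℕ × ℕ)) (h5 : ∀ xE ∈ G, gOK (zp ws 1) g xE.1 xE.2 = true)
    (h6 : zOK (zp ws 1) g Z = true) (h7 : uOK (zp ws 1) g U = true)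
    (hlen : ln (aE G Z U) = 2 ^ ws.length) (hsn : sn (aE G Z U) = 2 ^ (2 ^ ws.length) - 1) :
    (G.map fun xE => ((ln xE.2 : ℤ) - 2 * od xE.2) * f xE.1).sum +
      ((ln U : ℤ) - 2 * od U) = 0 := by
  rw [ln_eq] at hlen
  have hsub : List.range (2 ^ ws.length) ⊆ (aE G Z U).map Prod.fst := by
    intro t ht
    rw [List.mem_range] at ht
    refine sn_bit _ _ ?_
    rw [hsn, Nat.testBit_two_pow_sub_one, decide_eq_true_iff]
    exact ht
  have hperm : (List.range (2 ^ ws.length)).Perm ((aE G Z U).map Prod.fst) := by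
    refine (List.subperm_of_subset (List.nodup_range) hsub).perm_of_length_le ?_
    rw [List.length_map, hlen, List.length_range]
  have hlt : ∀ tp ∈ aE G Z U, tp.1 < 2 ^ ws.length := by
    intro tp htp
    exact List.mem_range.1 (hperm.mem_iff.2 (List.mem_map.2 ⟨tp, htp, rfl⟩))
  rw [altO_sum] at hrel
  have hF : ∀ t, wkk (zp ws 1) g t = wk ws g t := by
    intro t
    have := wkk_zp ws g t 0
    rw [pow_zero, Nat.div_one] at this
    exact this
  have e1 : ∑ t ∈ range (2 ^ ws.length), sg ws.length t * f (wk ws g t) =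
      ((aE G Z U).map fun tp => sg ws.length tp.1 * f (wkk (zp ws 1) g tp.1)).sum := by
    have e2 : ∀ F : ℕ → ℤ, ∑ t ∈ range (2 ^ ws.length), F t =
        ((List.range (2 ^ ws.length)).map F).sum := by
      intro F
      rw [← List.sum_toFinset _ List.nodup_range]
      refine sum_congr ?_ fun _ _ => rfl
      ext t
      simp
    rw [e2, (hperm.map _).sum_eq, List.map_map]
    congr 1
    refine List.map_congr_left fun tp _ => ?_
    simp only [Function.comp_apply, hF]
  rw [e1] at hrel
  unfold aE at hrel hlt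
  rw [List.map_append, List.map_append, List.sum_append, List.sum_append] at hrel
  have hZ : (Z.map fun tp => sg ws.length tp.1 * f (wkk (zp ws 1) g tp.1)).sum = 0 := by
    rw [sum_const ws.length hm 0 (fun t => f (wkk (zp ws 1) g t)), mul_zero]
    intro tp htp
    refine ⟨hlt tp (by simp [htp]), ?_⟩
    unfold zOK at h6
    rw [List.all_eq_true] at h6
    have h10 := h6 tp htp
    rw [Bool.and_eq_true] at h10
    have h11 : tp.2 < 7 := Nat.le_of_ble_eq_true h10.1
    have h12 : wkk (zp ws 1) g tp.1 &&& RC.getD tp.2 0 = 0 := Nat.eq_of_beq_eq_true h10.2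
    refine hf.isol _ ⟨tp.2, h11⟩ fun b => ?_
    have h13 := RC_ag ⟨tp.2, h11⟩ b
    rw [Bool.and_eq_true] at h13
    have h14 : ∀ j, (RC.getD tp.2 0).testBit j = true → (wkk (zp ws 1) g tp.1).testBit j = false := by
      intro j hj
      have h15 := congrArg (fun n => n.testBit j) h12
      simp only [Nat.testBit_and, Nat.zero_testBit, hj, Bool.and_true] at h15
      exact h15
    unfold ag ad pK
    rw [h14 _ h13.1, h14 _ h13.2]
    rfl
  have hU : (U.map fun tp => sg ws.length tp.1 * f (wkk (zp ws 1) g tp.1)).sum =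
      (ln U : ℤ) - 2 * od U := by
    rw [sum_const ws.length hm 1 (fun t => f (wkk (zp ws 1) g t)), mul_one]
    intro tp htp
    refine ⟨hlt tp (by simp [htp]), ?_⟩
    unfold uOK at h7
    rw [List.all_eq_true] at h7
    have h10 := h7 tp htp
    rw [Bool.and_eq_true] at h10
    have h11 : tp.2 < 7 := Nat.le_of_ble_eq_true h10.1
    have h12 : wkk (zp ws 1) g tp.1 &&& RO.getD tp.2 0 = RO.getD tp.2 0 :=
      Nat.eq_of_beq_eq_true h10.2
    refine hf.univ _ ⟨tp.2, h11⟩ fun b => ?_
    have h13 := RO_ag ⟨tp.2, h11⟩ b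
    have h15 := congrArg (fun n => n.testBit (7 * tp.2 + b.val)) h12
    simp only [Nat.testBit_and] at h15
    rw [h13, Bool.and_true] at h15
    unfold ag ad pK
    rw [h15]
    rfl
  have hG : ((G.flatMap fun xE => xE.2).map fun tp => sg ws.length tp.1 *
      f (wkk (zp ws 1) g tp.1)).sum =
      (G.map fun xE => ((ln xE.2 : ℤ) - 2 * od xE.2) * f xE.1).sum := by
    have hlt' : ∀ xE ∈ G, ∀ tp ∈ xE.2, tp.1 < 2 ^ ws.length := by
      intro xE hxE tp htp
      refine hlt tp ?_
      rw [List.mem_append, List.mem_flatMap]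
      exact Or.inl ⟨xE, hxE, htp⟩
    clear hlt hperm hsub hsn hlen e1 hrel
    induction G with
    | nil => rfl
    | cons xE G ih =>
      rw [List.flatMap_cons, List.map_append, List.sum_append, List.map_cons, List.sum_cons,
        ih (fun y hy => h5 y (List.mem_cons_of_mem _ hy))
          fun y hy => hlt' y (List.mem_cons_of_mem _ hy)]
      congr 1
      refine sum_const ws.length hm (f xE.1) (fun t => f (wkk (zp ws 1) g t)) xE.2
        fun tp htp => ?_
      refine ⟨hlt' xE (by simp) tp htp, ?_⟩
      have h10 := h5 xE (by simp)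
      unfold gOK at h10
      rw [List.all_eq_true] at h10
      have h11 := h10 tp htp
      rw [Bool.and_eq_true] at h11
      have h12 : Ph tp.2 xE.1 = wkk (zp ws 1) g tp.1 := Nat.eq_of_beq_eq_true h11.2
      change f (wkk (zp ws 1) g tp.1) = _
      rw [← h12, hf.perm h11.1]
  rw [hZ, hU, hG, zero_add] at hrel
  exact hrel

end Pool.Agent.H8.KA
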