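import Mathlib
import Pool.Agent.H8.KA.Lnk1
import Pool.Agent.H8.KA.Lib.R_seed8.H119R2.Kp.D
import Pool.Agent.H8.KA.Lib.R_seed8.H119R2.Kp.D4
import Pool.Agent.H8.KA.Lib.R_seed8.H119R2.Kp.Base
import Pool.Agent.H8.KA.Lib.R_seed8.H119R2.Kp.NT

set_option autoImplicit false

/-!
MP_257582_lc (helper8): the theorem, from two certificates (`n` odd, `n` even), `kss`, `prime_base`, `prime_between`,
`dec_of_strategy`.
-/

namespace Pool.Agent.H8.KA

open Finset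
open Pool.Agent.H98R2.Ev (EV toG NE)
open Pool.Agent.H119R2.Kp

/-- the star case for `s + r + 5 p` vertices -/
theorem star_core2 (T : ℕ) (hT : T ≤ 21) (cert : ∀ f : ℕ → ℤ, FKP 1 T f ∨ FKP 2 T f → False) {n q : ℕ}
    {P : SimpleGraph (Fin n) → Prop} (hP : GP n q P) (hS : Star n P)
    (s r p : ℕ) [Fact p.Prime] (hp : 2 < p) (hQ : (3 * p + s).Prime) (hs : 0 < s) (hsr : s ≤ r)
    (hrp : s + r ≤ p) (hn : s + r + 5 * p = n) :
    T * (p * p) ≤ 2 * q + 5 * p := by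
  by_contra h
  have hq : 2 * q + 5 * p < T * (p * p) := not_le.1 h
  have hFK := fK_FK hP hS s r p T hp hQ hs hsr hrp hn hq hT
  have hpo : Odd p := (Fact.out (p := p.Prime)).odd_of_ne_two (by omega)
  rcases Nat.even_or_odd (s + r) with he | ho
  · refine cert (fK P s r p) (Or.inl { hFK with
      rel4 := fun _ k hk js bs hnd hj hT' => rel4 hP s r p T hp hn ?_ hq k hk js bs hnd hj hT'
      rel5 := fun h2 => absurd h2 (by norm_num) })
    rw [one_mul]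
    exact he.add_odd hpo
  · refine cert (fK P s r p) (Or.inr { hFK with
      rel4 := fun h2 => absurd h2 (by norm_num)
      rel5 := fun _ k hk js bs hnd hj hT' => rel5 hP s r p T hp hn ?_ hq k hk js bs hnd hj hT' })
    exact ho.add_even (even_two_mul p)

/-- the star case -/
theorem star_case2 (T : ℕ) (hT : T ≤ 21) (cert : ∀ f : ℕ → ℤ, FKP 1 T f ∨ FKP 2 T f → False)
    (e : ℝ) (he : 0 < e) (he1 : e ≤ 1 / 100) : ∃ N : ℕ, ∀ n : ℕ, N ≤ n →
    ∀ (q : ℕ) (P : SimpleGraph (Fin n) → Prop), GP n q P → Star n P →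
      (q : ℝ) < (T / 50 - e / 2) * (n : ℝ) ^ 2 → False := by
  set δ := e / 10 with hδ
  have hδ0 : 0 < δ := by positivity
  have hδ1 : δ ≤ 1 / 1000 := by rw [hδ]; linarith
  obtain ⟨N₀, hN₀⟩ := prime_between (δ / 2) (by positivity)
  obtain ⟨N₁, hN₁⟩ := prime_between (δ / 8) (by positivity)
  refine ⟨10 * N₀ + 10 * N₁ + ⌈16 / e⌉₊ + 100, fun n hn q P hP hS hq => ?_⟩
  have hn' : (10 * (N₀ : ℝ) + 10 * N₁ + ⌈16 / e⌉₊ + 100) ≤ n := by exact_mod_cast hn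
  have hceil : 16 / e ≤ (⌈16 / e⌉₊ : ℝ) := Nat.le_ceil _
  have hN0 : (0 : ℝ) ≤ N₀ := Nat.cast_nonneg _
  have hN1 : (0 : ℝ) ≤ N₁ := Nat.cast_nonneg _
  have hc0 : (0 : ℝ) ≤ (⌈16 / e⌉₊ : ℝ) := Nat.cast_nonneg _
  obtain ⟨t, ht⟩ : ∃ t : ℝ, (n : ℝ) = t := ⟨_, rfl⟩
  rw [ht] at hn' hq
  have ht100 : 100 ≤ t := by linarith
  have hte : 16 ≤ e * t := by
    have : 16 / e ≤ t := by linarith
    rw [div_le_iff₀ he] at this
    linarith
  have hδt : δ * t ≤ t / 1000 := by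
    have := mul_le_mul_of_nonneg_right hδ1 (show 0 ≤ t by linarith)
    linarith
  have hδt0 : 0 < δ * t := by positivity
  -- the first prime
  obtain ⟨p, hp, hp1, hp2⟩ := hN₀ ((1 - δ) * t / 5) (by
    have : (1 - δ) * t / 5 = (t - δ * t) / 5 := by ring
    rw [this]
    linarith)
  have hp2' : 5 * (p : ℝ) < t - δ * t / 2 := by
    have h1 : (1 + δ / 2) * ((1 - δ) * t / 5) = (t - δ * t / 2 - δ ^ 2 * t / 2) / 5 := by ring
    rw [h1] at hp2
    have : 0 ≤ δ ^ 2 * t := by positivity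
    linarith
  have hp1' : t - δ * t < 5 * (p : ℝ) := by
    have : (1 - δ) * t / 5 = (t - δ * t) / 5 := by ring
    rw [this] at hp1
    linarith
  -- the second prime
  obtain ⟨Q, hQ, hQ1, hQ2⟩ := hN₁ (3 * (p : ℝ)) (by linarith)
  have hQ2' : (Q : ℝ) < 3 * p + δ * t / 8 := by
    have h1 : (1 + δ / 8) * (3 * (p : ℝ)) = 3 * p + δ * (3 * p) / 8 := by ring
    rw [h1] at hQ2
    have : δ * (3 * (p : ℝ)) ≤ δ * t := by
      apply mul_le_mul_of_nonneg_left _ hδ0.le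
      linarith
    linarith
  have hQp : 3 * p < Q := by exact_mod_cast hQ1
  obtain ⟨s, hs⟩ : ∃ s : ℕ, 3 * p + s = Q := ⟨Q - 3 * p, by omega⟩
  have hs0 : 0 < s := by omega
  have hsr' : (s : ℝ) < δ * t / 8 := by
    have : ((3 * p + s : ℕ) : ℝ) = Q := by rw [hs]
    push_cast at this
    linarith
  have h5p : 5 * p + s < n := by
    rw [← Nat.cast_lt (α := ℝ)]
    push_cast
    rw [ht]
    linarith
  obtain ⟨r, hr⟩ : ∃ r : ℕ, s + r + 5 * p = n := ⟨n - 5 * p - s, by omega⟩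
  have hrr : (r : ℝ) = t - 5 * p - s := by
    have : ((s + r + 5 * p : ℕ) : ℝ) = t := by rw [hr, ht]
    push_cast at this
    linarith
  have hsr : s ≤ r := by
    have : (s : ℝ) ≤ r := by rw [hrr]; linarith
    exact_mod_cast this
  have hrp : s + r ≤ p := by
    have : ((s + r : ℕ) : ℝ) ≤ p := by push_cast; rw [hrr]; linarith
    exact_mod_cast this
  have hp3 : 2 < p := by
    have : (2 : ℝ) < p := by linarith
    exact_mod_cast this
  have : Fact p.Prime := ⟨hp⟩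
  have h6 := star_core2 T hT cert hP hS s r p hp3 (by rw [hs]; exact hQ) hs0 hsr hrp hr
  have h7 : (T : ℝ) * ((p : ℝ) * p) ≤ 2 * q + 5 * p := by exact_mod_cast h6
  have hT' : (T : ℝ) ≤ 21 := by exact_mod_cast hT
  have hT0 : (0 : ℝ) ≤ T := Nat.cast_nonneg _
  -- contradiction
  have h8 : (t - δ * t) ^ 2 ≤ (5 * (p : ℝ)) ^ 2 := by
    apply pow_le_pow_left₀ _ hp1'.le
    linarith
  have h9 : (t - δ * t) ^ 2 = t ^ 2 - 2 * (δ * t ^ 2) + δ ^ 2 * t ^ 2 := by ring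
  have h10 : 0 ≤ δ ^ 2 * t ^ 2 := by positivity
  have h11 : e * t ^ 2 = 10 * (δ * t ^ 2) := by rw [hδ]; ring
  have h12 : 16 * t ≤ e * t ^ 2 := by
    have := mul_le_mul_of_nonneg_right hte (show 0 ≤ t by linarith)
    have h13 : e * t * t = e * t ^ 2 := by ring
    linarith
  have h14 : 0 < δ * t ^ 2 := by positivity
  have h15 : (5 * (p : ℝ)) ^ 2 = 25 * ((p : ℝ) * p) := by ring
  have h16 : ((T : ℝ) / 50 - e / 2) * t ^ 2 = T / 50 * t ^ 2 - e * t ^ 2 / 2 := by ring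
  rw [h16] at hq
  have h17 : t ^ 2 - 2 * (δ * t ^ 2) ≤ 25 * ((p : ℝ) * p) := by linarith
  have h18 : (T : ℝ) * (t ^ 2 - 2 * (δ * t ^ 2)) ≤ T * (25 * ((p : ℝ) * p)) :=
    mul_le_mul_of_nonneg_left h17 hT0
  have h19 : (T : ℝ) * (δ * t ^ 2) ≤ 21 * (δ * t ^ 2) := mul_le_mul_of_nonneg_right hT' h14.le
  have h20 : (T : ℝ) * (25 * ((p : ℝ) * p)) = 25 * (T * ((p : ℝ) * p)) := by ring
  have h21 : (T : ℝ) * (t ^ 2 - 2 * (δ * t ^ 2)) = T * t ^ 2 - 2 * (T * (δ * t ^ 2)) := by ring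
  have h22 : (T : ℝ) / 50 * t ^ 2 = (T * t ^ 2) / 50 := by ring
  rw [h22] at hq
  linarith

private theorem L5 (c : ℝ) (hc : c ≤ 1 / 2) (hc0 : 1 / 4 ≤ c) (δ : ℝ) (hδ0 : 0 < δ)
    (hδ1 : δ ≤ 1 / 1000) : c - 10 * δ ≤ (c - 10 * δ / 2) * (1 - δ) ^ 2 := by
  have h1 : (c - 10 * δ / 2) * (1 - δ) ^ 2 =
      c - 10 * δ + (5 - 2 * c) * δ + (10 + c) * δ ^ 2 - 5 * δ ^ 3 := by ring
  rw [h1]
  have h2 : 0 < δ ^ 2 := by positivity
  have h3 : δ ^ 3 ≤ δ ^ 2 := by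
    have : δ ^ 3 = δ * δ ^ 2 := by ring
    rw [this]
    have := mul_le_mul_of_nonneg_right hδ1 h2.le
    linarith
  have h4 : 0 ≤ (5 - 2 * c) * δ := mul_nonneg (by linarith) hδ0.le
  have h5 : 5 * δ ^ 2 ≤ (10 + c) * δ ^ 2 := mul_le_mul_of_nonneg_right (by linarith) h2.le
  linarith

theorem final2 (T : ℕ) (hT : T ≤ 21) (hT0 : 15 ≤ T) (cert : ∀ f : ℕ → ℤ, FKP 1 T f ∨ FKP 2 T f → False) :
    ∀ ε : ℝ, 0 < ε → ∃ N : ℕ, ∀ n : ℕ, N ≤ n →
    ∀ P : SimpleGraph (Fin n) → Prop,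
      (∀ (σ : Fin n ≃ Fin n) (G : SimpleGraph (Fin n)), P G → P (G.map σ.toEmbedding)) →
      (∀ G H : SimpleGraph (Fin n), G ≤ H → P G → P H) →
      (∃ G, P G) → (∃ G, ¬ P G) →
      ∀ s : Finset (Sym2 (Fin n)) → SimpleGraph (Fin n) → Sym2 (Fin n),
      (∀ (Q : Finset (Sym2 (Fin n))) (G H : SimpleGraph (Fin n)),
        (∀ e ∈ Q, (e ∈ G.edgeSet ↔ e ∈ H.edgeSet)) → s Q G = s Q H) →
      ∀ q : ℕ, (q : ℝ) < (T / 50 - ε) * (n : ℝ) ^ 2 →
        ∃ G H : SimpleGraph (Fin n),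
          (∀ e ∈ (fun Q : Finset (Sym2 (Fin n)) => insert (s Q G) Q)^[q]
            (∅ : Finset (Sym2 (Fin n))), (e ∈ G.edgeSet ↔ e ∈ H.edgeSet)) ∧ P G ∧ ¬ P H := by
  intro ε hε
  have hTr : (T : ℝ) ≤ 21 := by exact_mod_cast hT
  have hTr0 : (15 : ℝ) ≤ T := by exact_mod_cast hT0
  set e := min ε (1 / 100) with he
  have he0 : 0 < e := lt_min hε (by norm_num)
  have he1 : e ≤ 1 / 100 := min_le_right _ _
  have heε : e ≤ ε := min_le_left _ _
  set δ := e / 10 with hδ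
  have hδ0 : 0 < δ := by positivity
  have hδ1 : δ ≤ 1 / 1000 := by rw [hδ]; linarith
  have heδ : e = 10 * δ := by rw [hδ]; ring
  obtain ⟨N₀, hN₀⟩ := prime_between δ hδ0
  obtain ⟨N₁, hN₁⟩ := star_case2 T hT cert e he0 he1
  refine ⟨2 * N₀ + 2 * N₁ + 100, fun n hn P hiso hmono h1 h0 s hs q hq => ?_⟩
  by_contra hcon
  have hdec : Dec q (fun S : Finset (EV (Fin n)) => P (toG S)) := by
    refine dec_of_strategy q P s hs fun G H hGH hPG => ?_
    by_contra hPH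
    exact hcon ⟨G, H, hGH, hPG, hPH⟩
  have hGP : GP n q P := ⟨hmono, hiso, hdec⟩
  have hn' : (2 * (N₀ : ℝ) + 2 * N₁ + 100) ≤ n := by exact_mod_cast hn
  have hN0 : (0 : ℝ) ≤ N₀ := Nat.cast_nonneg _
  have hN1 : (0 : ℝ) ≤ N₁ := Nat.cast_nonneg _
  obtain ⟨t, ht⟩ : ∃ t : ℝ, (n : ℝ) = t := ⟨_, rfl⟩
  rw [ht] at hn' hq
  have ht100 : 100 ≤ t := by linarith
  have ht2 : 0 < t ^ 2 := by positivity
  have hq' : (q : ℝ) < ((T : ℝ) / 50 - 10 * δ) * t ^ 2 := by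
    refine lt_of_lt_of_le hq ?_
    rw [← heδ]
    apply mul_le_mul_of_nonneg_right _ ht2.le
    linarith
  have hδt : δ * t ≤ t / 1000 := by
    have := mul_le_mul_of_nonneg_right hδ1 (show 0 ≤ t by linarith)
    linarith
  obtain ⟨m, hm, hm1, hm2⟩ := hN₀ ((1 - δ) * t) (by linarith)
  have hmt : (m : ℝ) ≤ t := by
    have h2 : (1 + δ) * ((1 - δ) * t) = t - δ ^ 2 * t := by ring
    rw [h2] at hm2
    have : 0 ≤ δ ^ 2 * t := by positivity
    linarith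
  have hmn : m ≤ n := by
    rw [← Nat.cast_le (α := ℝ), ht]
    exact hmt
  have : Fact m.Prime := ⟨hm⟩
  rcases kss P hGP h1 h0 m hm.one_lt.le hmn with ⟨n', hn1, hn2, P', hP', hS'⟩ | ⟨P', hP', h1', h0'⟩
  · refine hN₁ n' ?_ q P' hP' hS' ?_
    · have h1 : (N₁ : ℝ) ≤ n' := by
        have h2 : (m : ℝ) < n' := by exact_mod_cast hn1
        linarith
      exact_mod_cast h1
    · have h2 : (m : ℝ) < n' := by exact_mod_cast hn1
      have h3 : (1 - δ) * t < n' := by linarith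
      have h4 : ((1 - δ) * t) ^ 2 ≤ (n' : ℝ) ^ 2 := by
        apply pow_le_pow_left₀ _ h3.le
        linarith
      refine lt_of_lt_of_le hq' ?_
      have h5 : ((T : ℝ) / 50 - 10 * δ) * t ^ 2 ≤ ((T : ℝ) / 50 - e / 2) * ((1 - δ) * t) ^ 2 := by
        rw [heδ, mul_pow, ← mul_assoc]
        apply mul_le_mul_of_nonneg_right _ ht2.le
        exact L5 _ (by linarith) (by linarith) δ hδ0 hδ1
      refine h5.trans ?_
      apply mul_le_mul_of_nonneg_left h4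
      linarith
  · have h2 := prime_base P' hP' h1' h0'
    have h3 : m * (m - 1) ≤ 2 * q + 1 := by omega
    have h4 : ((m : ℝ) * (m - 1)) ≤ 2 * q + 1 := by
      have : ((m * (m - 1) : ℕ) : ℝ) ≤ ((2 * q + 1 : ℕ) : ℝ) := by exact_mod_cast h3
      push_cast [Nat.cast_sub hm.one_lt.le] at this
      exact this
    have h6 : 0.99 * t ≤ m := by linarith
    have h7 : (0.99 * t) ^ 2 ≤ (m : ℝ) ^ 2 := by
      apply pow_le_pow_left₀ (by positivity) h6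
    have h8 : (0.99 * t) ^ 2 = 0.9801 * t ^ 2 := by ring
    have h9 : (m : ℝ) * (m - 1) = (m : ℝ) ^ 2 - m := by ring
    have h10 : ((T : ℝ) / 50 - 10 * δ) * t ^ 2 = T / 50 * t ^ 2 - 10 * (δ * t ^ 2) := by ring
    have h11 : 0 < δ * t ^ 2 := by positivity
    have h12 : 100 * t ≤ t ^ 2 := by
      rw [sq]
      exact mul_le_mul_of_nonneg_right ht100 (by linarith)
    have h13 : (T : ℝ) / 50 * t ^ 2 ≤ 21 / 50 * t ^ 2 := by
      apply mul_le_mul_of_nonneg_right _ ht2.le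
      linarith
    linarith

end Pool.Agent.H8.KA
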