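import Mathlib
import Pool.Agent.H8.KA.Lnk1
import Pool.Agent.H23.KD.Snd

set_option autoImplicit false

/-!
MP_257582_lc (helper8): packed justifications of the implications and the equations of a
certificate, and the soundness of their checks.
-/

namespace Pool.Agent.H8.KA

open Pool.Agent.H23.KD

/-! ### Lists -/

/-- conjunction -/
noncomputable def andR (a b : Bool) : Bool := Bool.rec (motive := fun _ => Bool) false b a

theorem andR_iff {a b : Bool} : andR a b = true ↔ a = true ∧ b = true := by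
  cases a
  · exact ⟨fun h => Bool.noConfusion h, fun h => Bool.noConfusion h.1⟩
  · exact ⟨fun h => ⟨rfl, h⟩, fun h => h.2⟩

/-- fold -/
noncomputable def foldR {α : Type} (f : α → ℕ → ℕ) (b : ℕ) (l : List α) : ℕ :=
  List.rec (motive := fun _ => ℕ) b (fun a _ ih => f a ih) l

theorem foldR_eq {α : Type} (f : α → ℕ → ℕ) (b : ℕ) (l : List α) :
    foldR f b l = l.foldr f b := by
  induction l with
  | nil => rfl
  | cons a l ih => exact congrArg (f a) ih

/-- all -/
noncomputable def allR {α : Type} (f : α → Bool) (l : List α) : Bool :=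
  List.rec (motive := fun _ => Bool) true (fun a _ ih => andR (f a) ih) l

theorem allR_iff {α : Type} {f : α → Bool} {l : List α} :
    allR f l = true ↔ ∀ a ∈ l, f a = true := by
  induction l with
  | nil => simp [allR]
  | cons a l ih =>
    have e : allR f (a :: l) = andR (f a) (allR f l) := rfl
    rw [e, andR_iff, ih, List.forall_mem_cons]

/-! ### The valuation -/

/-- mask of variable `v`: a leaf of the table contains 64 masks -/
noncomputable def cd (VT : Tr) (v : ℕ) : ℕ :=
  force (VT.get (Nat.shiftRight v 6)) fun n =>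
    Nat.land (Nat.shiftRight n (Nat.mul 49 (Nat.land v 63))) 562949953421311

/-- value of a literal -/
noncomputable def wF (VT : Tr) (f : ℕ → ℤ) (m : ℕ) : Bool :=
  if m < 64 then true else Bool.xor (decide (f (cd VT (m / 2 - 32)) = 1)) (decide (m % 2 = 1))

theorem wF_low (VT : Tr) (f : ℕ → ℤ) (m : ℕ) (h : m < 64) : wF VT f m = true := if_pos h

theorem wF_neg (VT : Tr) (f : ℕ → ℤ) (m : ℕ) (h : 64 ≤ m) : wF VT f (m ^^^ 1) = !wF VT f m := by
  have h1 : (m ^^^ 1) / 2 = m / 2 := by
    rw [Nat.xor_div_two]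
    simp
  have h2 : (m ^^^ 1) % 2 = (m + 1) % 2 := Nat.xor_mod_two_eq
  unfold wF
  rw [if_neg (not_lt.2 h), if_neg (by omega), h1, h2]
  rcases Nat.mod_two_eq_zero_or_one m with h3 | h3
  · have h4 : (m + 1) % 2 = 1 := by omega
    rw [h3, h4]
    cases decide (f (cd VT (m / 2 - 32)) = 1) <;> rfl
  · have h4 : (m + 1) % 2 = 0 := by omega
    rw [h3, h4]
    cases decide (f (cd VT (m / 2 - 32)) = 1) <;> rfl

theorem wF_pos (VT : Tr) (f : ℕ → ℤ) (m : ℕ) (h : 64 ≤ m) (h2 : m % 2 = 0) :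
    wF VT f m = true ↔ f (cd VT (m / 2 - 32)) = 1 := by
  unfold wF
  rw [if_neg (not_lt.2 h), h2]
  simp

theorem wF_odd (VT : Tr) (f : ℕ → ℤ) (m : ℕ) (h : 64 ≤ m) (h2 : m % 2 = 1) :
    wF VT f m = true ↔ ¬ f (cd VT (m / 2 - 32)) = 1 := by
  unfold wF
  rw [if_neg (not_lt.2 h), h2]
  simp

/-! ### Implications -/

/-- the maps -/
def mdL : List MD := [
    ⟨0, 1, 562949953421311, 562949953421311, []⟩,
    ⟨2, 1, 562949953421184, 558517276622718, [(0, 2), (2, 0)]⟩,
    ⟨3, 1, 562949953421184, 558517276622718, [(0, 3), (3, 0)]⟩,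
    ⟨4, 1, 562949953421184, 558517276622718, [(0, 4), (4, 0)]⟩,
    ⟨5, 1, 562949953421184, 558517276622718, [(0, 5), (5, 0)]⟩,
    ⟨6, 1, 562949953421184, 558517276622718, [(0, 6), (6, 0)]⟩,
    ⟨0, 2, 562949953405055, 554084599824125, [(1, 2), (2, 1)]⟩,
    ⟨0, 3, 562949953405055, 554084599824125, [(1, 3), (3, 1)]⟩,
    ⟨0, 4, 562949953405055, 554084599824125, [(1, 4), (4, 1)]⟩,
    ⟨0, 5, 562949953405055, 554084599824125, [(1, 5), (5, 1)]⟩,
    ⟨0, 6, 562949953405055, 554084599824125, [(1, 6), (6, 1)]⟩,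
    ⟨2, 2, 562949953404928, 549651923025532, [(0, 2), (1, 2), (2, 0), (2, 1)]⟩,
    ⟨3, 3, 562949953404928, 549651923025532, [(0, 3), (1, 3), (3, 0), (3, 1)]⟩,
    ⟨4, 4, 562949953404928, 549651923025532, [(0, 4), (1, 4), (4, 0), (4, 1)]⟩,
    ⟨5, 5, 562949953404928, 549651923025532, [(0, 5), (1, 5), (5, 0), (5, 1)]⟩,
    ⟨6, 6, 562949953404928, 549651923025532, [(0, 6), (1, 6), (6, 0), (6, 1)]⟩,
    ⟨1, 1, 562949953421184, 558517276622718, [(0, 1), (1, 0)]⟩,
    ⟨2, 3, 562949953404928, 549651923025532, [(0, 2), (1, 3), (2, 0), (3, 1)]⟩,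
    ⟨2, 4, 562949953404928, 549651923025532, [(0, 2), (1, 4), (2, 0), (4, 1)]⟩,
    ⟨2, 5, 562949953404928, 549651923025532, [(0, 2), (1, 5), (2, 0), (5, 1)]⟩,
    ⟨2, 6, 562949953404928, 549651923025532, [(0, 2), (1, 6), (2, 0), (6, 1)]⟩,
    ⟨3, 2, 562949953404928, 549651923025532, [(0, 3), (1, 2), (2, 1), (3, 0)]⟩,
    ⟨3, 4, 562949953404928, 549651923025532, [(0, 3), (1, 4), (3, 0), (4, 1)]⟩,
    ⟨3, 5, 562949953404928, 549651923025532, [(0, 3), (1, 5), (3, 0), (5, 1)]⟩,
    ⟨3, 6, 562949953404928, 549651923025532, [(0, 3), (1, 6), (3, 0), (6, 1)]⟩,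
    ⟨4, 2, 562949953404928, 549651923025532, [(0, 4), (1, 2), (2, 1), (4, 0)]⟩,
    ⟨4, 3, 562949953404928, 549651923025532, [(0, 4), (1, 3), (3, 1), (4, 0)]⟩,
    ⟨4, 5, 562949953404928, 549651923025532, [(0, 4), (1, 5), (4, 0), (5, 1)]⟩,
    ⟨4, 6, 562949953404928, 549651923025532, [(0, 4), (1, 6), (4, 0), (6, 1)]⟩,
    ⟨5, 2, 562949953404928, 549651923025532, [(0, 5), (1, 2), (2, 1), (5, 0)]⟩,
    ⟨5, 3, 562949953404928, 549651923025532, [(0, 5), (1, 3), (3, 1), (5, 0)]⟩,
    ⟨5, 4, 562949953404928, 549651923025532, [(0, 5), (1, 4), (4, 1), (5, 0)]⟩,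
    ⟨5, 6, 562949953404928, 549651923025532, [(0, 5), (1, 6), (5, 0), (6, 1)]⟩,
    ⟨6, 2, 562949953404928, 549651923025532, [(0, 6), (1, 2), (2, 1), (6, 0)]⟩,
    ⟨6, 3, 562949953404928, 549651923025532, [(0, 6), (1, 3), (3, 1), (6, 0)]⟩,
    ⟨6, 4, 562949953404928, 549651923025532, [(0, 6), (1, 4), (4, 1), (6, 0)]⟩,
    ⟨6, 5, 562949953404928, 549651923025532, [(0, 6), (1, 5), (5, 1), (6, 0)]⟩]

/-- the identity -/
def md0 : MD := ⟨0, 1, 562949953421311, 562949953421311, []⟩

/-- map `m` -/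
def mdT (m : ℕ) : MD := mdL.getD m md0

theorem mdT_ok (m : ℕ) : (mdT m).ok := by
  have h1 : ∀ x ∈ mdL, x.ok := by decide +kernel
  have h0 : md0.ok := by decide +kernel
  unfold mdT
  rcases lt_or_ge m mdL.length with h | h
  · rw [List.getD_eq_getElem _ _ h]
    exact h1 _ (List.getElem_mem h)
  · rw [List.getD_eq_default _ _ h]
    exact h0

/-- spread rows -/
noncomputable def rowF (K : ℕ) (L : List (ℕ × ℕ)) (x : ℕ) : ℕ :=
  foldR (fun ia y => Nat.lor (Nat.shiftLeft (Nat.land (Nat.shiftRight x (Nat.mul 7 ia.1)) 127)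
    (Nat.mul 7 ia.2)) y) (Nat.land x K) L

/-- spread columns -/
noncomputable def colF (K : ℕ) (L : List (ℕ × ℕ)) (x : ℕ) : ℕ :=
  foldR (fun ia y => Nat.lor (Nat.shiftLeft (Nat.land (Nat.shiftRight x ia.1) 4432676798593)
    ia.2) y) (Nat.land x K) L

/-- check of an embedding -/
noncomputable def impF (m : MD) (p x y : ℕ) : Bool :=
  andR (okP p) (force (rowF m.K m.L x) fun u => force (colF m.K' m.L u) fun v =>
    force (rowsP p v) fun s => force (colsP p s) fun z => Nat.beq (Nat.land z y) z)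

theorem impF_sound {T : ℕ} {f : ℕ → ℤ} (hf : FK T f) {m : MD} (hm : m.ok) {p x y : ℕ}
    (h : impF m p x y = true) : f x ≤ f y := by
  refine impD_sound hf hm (p := p) ?_
  unfold impF at h
  rw [andR_iff] at h
  obtain ⟨h1, h2⟩ := h
  have e1 : rowF m.K m.L x = rowM m.K m.L x := foldR_eq _ _ _
  have e2 : ∀ u, colF m.K' m.L u = colM m.K' m.L u := fun u => foldR_eq _ _ _
  have h3 : Nat.beq (Nat.land (Ph p (colM m.K' m.L (rowM m.K m.L x))) y)
      (Ph p (colM m.K' m.L (rowM m.K m.L x))) = true := by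
    rw [← e1, ← e2]
    exact h2
  unfold impD
  rw [h1, h3]
  rfl

/-- check of an embedding with packed data -/
noncomputable def impJ (jj x y : ℕ) : Bool :=
  force (Nat.land jj 63) fun m => force (Nat.land jj 2097088) fun p => impF (mdT m) p x y

/-- a chain of embeddings -/
noncomputable def chn (c : ℕ) : ℕ → ℕ → ℕ → Bool :=
  Nat.rec (motive := fun _ => ℕ → ℕ → ℕ → Bool)
    (fun n x y => impJ (Nat.land n 2097151) x y)
    (fun _ ih n x y => force (Nat.land (Nat.shiftRight n 21) 562949953421311) fun z =>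
      andR (impJ (Nat.land n 2097151) x z) (ih (Nat.shiftRight n 70) z y)) c

theorem chn_sound {T : ℕ} {f : ℕ → ℤ} (hf : FK T f) (c : ℕ) : ∀ n x y : ℕ,
    chn c n x y = true → f x ≤ f y := by
  induction c with
  | zero => intro n x y h; exact impF_sound hf (mdT_ok _) h
  | succ c ih =>
    intro n x y h
    have h1 : andR (impJ (Nat.land n 2097151) x
      (Nat.land (Nat.shiftRight n 21) 562949953421311))
      (chn c (Nat.shiftRight n 70) (Nat.land (Nat.shiftRight n 21) 562949953421311) y) = true := h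
    rw [andR_iff] at h1
    exact (impF_sound hf (mdT_ok _) h1.1).trans (ih _ _ _ h1.2)

/-- check of `f x ≤ f y` -/
noncomputable def dOK (XT : Tr) (x y jj : ℕ) : Bool :=
  Bool.rec (motive := fun _ => Bool) (impJ jj x y)
    (force (get8 XT (Nat.shiftRight jj 6)) fun e =>
      chn (Nat.land e 7) (Nat.shiftRight e 3) x y) (Nat.beq 63 (Nat.land jj 63))

theorem dOK_sound {T : ℕ} {f : ℕ → ℤ} (hf : FK T f) {XT : Tr} {x y jj : ℕ}
    (h : dOK XT x y jj = true) : f x ≤ f y := by
  unfold dOK at h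
  cases hb : Nat.beq 63 (Nat.land jj 63)
  · rw [hb] at h
    exact impF_sound hf (mdT_ok _) h
  · rw [hb] at h
    exact chn_sound hf _ _ _ _ h

/-- literal `l` follows from literal `l0` -/
noncomputable def fOK (VT : Tr) (XT : Tr) (l0 l jj : ℕ) : Bool :=
  Bool.rec (motive := fun _ => Bool)
    (andR (Nat.beq (Nat.land l 1) (Nat.land l0 1)) (andR (Nat.ble 64 l) (andR (Nat.ble 64 l0)
      (force (Nat.sub (Nat.shiftRight l 1) 32) fun v =>
      force (Nat.sub (Nat.shiftRight l0 1) 32) fun v0 =>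
      force (cd VT v) fun x => force (cd VT v0) fun x0 =>
        Bool.rec (motive := fun _ => Bool) (dOK XT x0 x jj) (dOK XT x x0 jj)
          (Nat.beq 1 (Nat.land l 1))))))
    true (Nat.beq l l0)

theorem fOK_sound {T : ℕ} {f : ℕ → ℤ} (hf : FK T f) {VT : Tr} {XT : Tr} {l0 l jj : ℕ}
    (h : fOK VT XT l0 l jj = true) (hl : wF VT f l0 = true) : wF VT f l = true := by
  unfold fOK at h
  cases hb : Nat.beq l l0
  · rw [hb] at h
    have h' := h
    change andR _ (andR _ (andR _ _)) = true at h'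
    rw [andR_iff, andR_iff, andR_iff] at h'
    obtain ⟨h1, h2, h3, h4⟩ := h'
    have h1' : l &&& 1 = l0 &&& 1 := Nat.eq_of_beq_eq_true h1
    rw [Nat.and_one_is_mod, Nat.and_one_is_mod] at h1'
    have h2' : 64 ≤ l := Nat.le_of_ble_eq_true h2
    have h3' : 64 ≤ l0 := Nat.le_of_ble_eq_true h3
    have h4' : Bool.rec (motive := fun _ => Bool)
      (dOK XT (cd VT (l0 / 2 - 32)) (cd VT (l / 2 - 32)) jj)
      (dOK XT (cd VT (l / 2 - 32)) (cd VT (l0 / 2 - 32)) jj) (Nat.beq 1 (Nat.land l 1)) = true := by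
      have e1 : Nat.shiftRight l 1 = l / 2 := Nat.shiftRight_succ l 0
      have e2 : Nat.shiftRight l0 1 = l0 / 2 := Nat.shiftRight_succ l0 0
      rw [← e1, ← e2]
      exact h4
    rcases hf.h01 (cd VT (l / 2 - 32)) with g1 | g1 <;>
      rcases hf.h01 (cd VT (l0 / 2 - 32)) with g2 | g2 <;>
      rcases Nat.mod_two_eq_zero_or_one l with h5 | h5
    all_goals
      first
      | rw [wF_pos VT f l h2' h5]
        rw [wF_pos VT f l0 h3' (h1' ▸ h5)] at hl
      | rw [wF_odd VT f l h2' h5]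
        rw [wF_odd VT f l0 h3' (h1' ▸ h5)] at hl
    all_goals
      first
      | (rw [g1]; norm_num; done)
      | exact g1
      | (rw [g2] at hl; norm_num at hl; done)
      | exact absurd g2 hl
      | skip
    · have h6 : Nat.beq 1 (Nat.land l 1) = false := by
        change Nat.beq 1 (l &&& 1) = false
        rw [Nat.and_one_is_mod, h5]; rfl
      rw [h6] at h4'
      have := dOK_sound hf h4'
      rw [g1, g2] at this
      norm_num at this
    · have h6 : Nat.beq 1 (Nat.land l 1) = true := by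
        change Nat.beq 1 (l &&& 1) = true
        rw [Nat.and_one_is_mod, h5]; rfl
      rw [h6] at h4'
      have := dOK_sound hf h4'
      rw [g1, g2] at this
      norm_num at this
  · rw [Nat.eq_of_beq_eq_true hb]
    exact hl

/-- the fields of an entry -/
noncomputable def cI (VT : Tr) (XT : Tr) (l0 c : ℕ) : ℕ → ℕ → Bool :=
  Nat.rec (motive := fun _ => ℕ → ℕ → Bool) (fun _ _ => true)
    (fun _ ih n J => andR (force (Nat.land n 131071) fun l =>
      fOK VT XT l0 l (Nat.land J 2097151)) (ih (Nat.shiftRight n 17) (Nat.shiftRight J 21))) c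

theorem fld_succ (n j : ℕ) : fld n (j + 1) = fld (n >>> 17) j := by
  unfold fld
  rw [← Nat.shiftRight_add]
  congr 2
  ring

theorem cI_sound {T : ℕ} {f : ℕ → ℤ} (hf : FK T f) {VT : Tr} {XT : Tr} {l0 : ℕ}
    (hl : wF VT f l0 = true) (c : ℕ) : ∀ n J : ℕ, cI VT XT l0 c n J = true →
    ∀ j < c, wF VT f (fld n j) = true := by
  induction c with
  | zero => intro n J _ j hj; exact absurd hj (Nat.not_lt_zero j)
  | succ c ih =>
    intro n J h j hj
    have h1 : andR (fOK VT XT l0 (Nat.land n 131071) (Nat.land J 2097151))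
      (cI VT XT l0 c (Nat.shiftRight n 17) (Nat.shiftRight J 21)) = true := h
    rw [andR_iff] at h1
    rcases j with _ | j
    · have e : fld n 0 = Nat.land n 131071 := rfl
      rw [e]
      exact fOK_sound hf h1.1 hl
    · rw [fld_succ]
      exact ih _ _ h1.2 j (by omega)

/-- an entry of the table of implications -/
noncomputable def chkI (VT : Tr) (XT : Tr) (c J : ℕ) : Bool :=
  force (Nat.land (Nat.shiftRight c 12) 131071) fun l0 =>
    cI VT XT l0 (Nat.mul 4 (Nat.land c 4095)) (Nat.shiftRight c 12) J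

theorem chkI_sound {T : ℕ} {f : ℕ → ℤ} (hf : FK T f) {VT : Tr} {XT : Tr} {c J : ℕ}
    (h : chkI VT XT c J = true) : ISat (wF VT f) c := by
  intro hl j hj
  exact cI_sound hf (l0 := Nat.land (Nat.shiftRight c 12) 131071) hl _ _ _ h j hj

/-! ### Trees -/

/-- the entries of two leaves -/
noncomputable def eight (P : ℕ → ℕ → Bool) (n r : ℕ) : Bool :=
  Nat.rec (motive := fun _ => Bool) true
    (fun j ih => andR (force (ent n j) fun c => force (ent r j) fun J => P c J) ih) 8

theorem eight_aux (P : ℕ → ℕ → Bool) (n r : ℕ) (c : ℕ) :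
    Nat.rec (motive := fun _ => Bool) true
    (fun j ih => andR (force (ent n j) fun c => force (ent r j) fun J => P c J) ih) c = true →
    ∀ j < c, P (ent n j) (ent r j) = true := by
  induction c with
  | zero => intro _ j hj; exact absurd hj (Nat.not_lt_zero j)
  | succ c ih =>
    intro h j hj
    have h1 := andR_iff.1 h
    rcases Nat.lt_succ_iff_lt_or_eq.1 hj with h2 | h2
    · exact ih h1.2 j h2
    · rw [h2]
      exact h1.1

theorem eight_sound {P : ℕ → ℕ → Bool} {n r : ℕ} (h : eight P n r = true) :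
    ∀ j < 8, P (ent n j) (ent r j) = true := eight_aux P n r 8 h

/-- all the leaves of two trees -/
noncomputable def all2 (P : ℕ → ℕ → Bool) (t : Tr) : Tr → Bool :=
  Tr.rec (motive := fun _ => Tr → Bool)
    (fun n u => Tr.rec (motive := fun _ => Bool) (fun r => P n r) (fun _ _ _ _ => false) u)
    (fun _ _ ihl ihr u => Tr.rec (motive := fun _ => Bool) (fun _ => false)
      (fun ul ur _ _ => andR (ihl ul) (ihr ur)) u) t

theorem all2_sound {P : ℕ → ℕ → Bool} {Q : ℕ → Prop} (hQ : ∀ n r, P n r = true → Q n) (t : Tr) :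
    ∀ u, all2 P t u = true → t.All Q := by
  induction t with
  | leaf n =>
    intro u h
    cases u with
    | leaf r => exact hQ n r h
    | node a b => exact Bool.noConfusion h
  | node l r ihl ihr =>
    intro u h
    cases u with
    | leaf r => exact Bool.noConfusion h
    | node a b =>
      have h1 := andR_iff.1 h
      exact ⟨ihl a h1.1, ihr b h1.2⟩

/-- a table of implications -/
theorem impAll {T : ℕ} {f : ℕ → ℤ} (hf : FK T f) {VT : Tr} {XT IT JT : Tr}
    (h : all2 (eight (chkI VT XT)) IT JT = true) :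
    IT.All (fun n => ∀ j < 8, ISat (wF VT f) (ent n j)) := by
  refine all2_sound (P := eight (chkI VT XT)) (Q := fun n => ∀ j < 8, ISat (wF VT f) (ent n j))
    ?_ IT JT h
  intro n r h' j hj
  have h2 := eight_sound (P := chkI VT XT) h' j hj
  exact chkI_sound hf h2

end Pool.Agent.H8.KA
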