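import Mathlib
import Pool.Agent.H8.KA.Lnk2

set_option autoImplicit false

/-!
MP_257582_lc (helper8): packed justifications of the equations of a certificate, and the soundness
of their checks.
-/

namespace Pool.Agent.H8.KA

open Pool.Agent.H23.KD

/-! ### Decoding -/

/-- entries: `t` (10 bits), digits (15 bits) -/
noncomputable def decE (c : ℕ) : ℕ → List (ℕ × ℕ) :=
  Nat.rec (motive := fun _ => ℕ → List (ℕ × ℕ)) (fun _ => [])
    (fun _ ih n => force (Nat.land n 1023) fun t =>
      force (Nat.land (Nat.shiftRight n 4) 2097088) fun p => (t, p) :: ih (Nat.shiftRight n 25)) c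

/-- entries: `t` (10 bits), part (3 bits) -/
noncomputable def decZ (c : ℕ) : ℕ → List (ℕ × ℕ) :=
  Nat.rec (motive := fun _ => ℕ → List (ℕ × ℕ)) (fun _ => [])
    (fun _ ih n => force (Nat.land n 1023) fun t =>
      force (Nat.land (Nat.shiftRight n 10) 7) fun p => (t, p) :: ih (Nat.shiftRight n 13)) c

/-- numbers of 5 bits -/
noncomputable def decJ (c : ℕ) : ℕ → List ℕ :=
  Nat.rec (motive := fun _ => ℕ → List ℕ) (fun _ => [])
    (fun _ ih n => force (Nat.land n 31) fun j => j :: ih (Nat.shiftRight n 5)) c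

/-- groups: variable (16 bits), number of entries (11 bits), entries -/
noncomputable def decG (c : ℕ) : ℕ → List (ℕ × List (ℕ × ℕ)) :=
  Nat.rec (motive := fun _ => ℕ → List (ℕ × List (ℕ × ℕ))) (fun _ => [])
    (fun _ ih n => force (Nat.land n 65535) fun v =>
      force (Nat.land (Nat.shiftRight n 16) 2047) fun m => force (Nat.shiftRight n 27) fun n1 =>
        (v, decE m n1) :: ih (Nat.shiftRight n1 (Nat.mul 25 m))) c

/-! ### Checks on lists -/

/-- number of entries -/
noncomputable def lnR (E : List (ℕ × ℕ)) : ℕ := foldR (fun _ n => Nat.succ n) 0 E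

/-- number of odd entries -/
noncomputable def odR (E : List (ℕ × ℕ)) : ℕ :=
  foldR (fun tp n => Nat.add (Nat.land (Nat.shiftRight PT tp.1) 1) n) 0 E

/-- set of the entries -/
noncomputable def snR (E : List (ℕ × ℕ)) : ℕ :=
  foldR (fun tp y => Nat.lor (Nat.shiftLeft 1 tp.1) y) 0 E

theorem lnR_eq (E : List (ℕ × ℕ)) : lnR E = ln E := foldR_eq _ _ _
theorem odR_eq (E : List (ℕ × ℕ)) : odR E = od E := foldR_eq _ _ _
theorem snR_eq (E : List (ℕ × ℕ)) : snR E = sn E := foldR_eq _ _ _

/-- union of the masks of the bits of `t` -/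
noncomputable def wkF (W : List (ℕ × ℕ)) (g t : ℕ) : ℕ :=
  foldR (fun wb y => Bool.rec (motive := fun _ => ℕ) (Nat.lor wb.1 y) y
    (Nat.beq (Nat.land t wb.2) 0)) g W

theorem wkF_eq (W : List (ℕ × ℕ)) (g t : ℕ) : wkF W g t = wkk W g t := by
  unfold wkF wkk
  rw [foldR_eq]
  congr 1
  funext wb y
  cases Nat.beq (Nat.land t wb.2) 0 <;> rfl

theorem wk_split (n : ℕ) : ∀ (ws : List ℕ) (g t : ℕ),
    wk ws g t = wk (ws.take n) 0 (t % 2 ^ n) ||| wk (ws.drop n) g (t / 2 ^ n) := by
  induction n with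
  | zero =>
    intro ws g t
    simp [wk]
  | succ n ih =>
    intro ws g t
    cases ws with
    | nil => simp [wk]
    | cons w ws =>
      have h1 : t % 2 ^ (n + 1) % 2 = t % 2 := by
        rw [pow_succ, mul_comm, Nat.mod_mul_right_mod]
      have h2 : t % 2 ^ (n + 1) / 2 = t / 2 % 2 ^ n := by
        rw [pow_succ, mul_comm, Nat.mod_mul_right_div_self]
      have h3 : t / 2 ^ (n + 1) = t / 2 / 2 ^ n := by
        rw [Nat.div_div_eq_div_mul, pow_succ, mul_comm]
      rw [List.take_succ_cons, List.drop_succ_cons, wk, wk, h1, h2, h3, ih ws g (t / 2)]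
      split_ifs
      · rw [Nat.or_assoc]
      · rfl

/-- union of the masks of the bits of `t`, in two parts -/
noncomputable def wk2 (WL WH : List (ℕ × ℕ)) (g t : ℕ) : ℕ :=
  force (Nat.land t 31) fun a => force (Nat.shiftRight t 5) fun b =>
    Nat.lor (wkF WL 0 a) (wkF WH g b)

theorem wk2_eq (ws : List ℕ) (g t : ℕ) :
    wk2 (zp (ws.take 5) 1) (zp (ws.drop 5) 1) g t = wkk (zp ws 1) g t := by
  have h : ∀ (ws : List ℕ) (g t : ℕ), wkk (zp ws 1) g t = wk ws g t := by
    intro ws g t
    have := wkk_zp ws g t 0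
    rw [pow_zero, Nat.div_one] at this
    exact this
  have e : wk2 (zp (ws.take 5) 1) (zp (ws.drop 5) 1) g t =
      wkF (zp (ws.take 5) 1) 0 (t &&& 31) ||| wkF (zp (ws.drop 5) 1) g (t >>> 5) := rfl
  rw [e, wkF_eq, wkF_eq, h, h, h, wk_split 5 ws g t, Nat.shiftRight_eq_div_pow]
  congr 2
  exact Nat.and_two_pow_sub_one_eq_mod t 5

/-- entries of a variable with mask `x` -/
noncomputable def gF (WL WH : List (ℕ × ℕ)) (g x : ℕ) (E : List (ℕ × ℕ)) : Bool :=
  allR (fun tp => andR (okP tp.2) (force (rowsP tp.2 x) fun s =>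
    Nat.beq (colsP tp.2 s) (wk2 WL WH g tp.1))) E

theorem gF_sound {ws : List ℕ} {g x : ℕ} {E : List (ℕ × ℕ)}
    (h : gF (zp (ws.take 5) 1) (zp (ws.drop 5) 1) g x E = true) :
    gOK (zp ws 1) g x E = true := by
  unfold gF at h
  rw [allR_iff] at h
  unfold gOK
  rw [List.all_eq_true]
  intro tp htp
  have h1 := h tp htp
  rw [andR_iff] at h1
  rw [Bool.and_eq_true]
  refine ⟨h1.1, ?_⟩
  have h2 : Nat.beq (Ph tp.2 x) (wk2 (zp (ws.take 5) 1) (zp (ws.drop 5) 1) g tp.1) = true := h1.2
  rw [wk2_eq] at h2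
  exact h2

/-- row and column -/
noncomputable def RCf (a : ℕ) : ℕ := RC.getD a 0

/-- row -/
noncomputable def ROf (a : ℕ) : ℕ := RO.getD a 0

/-- entries with an isolated part -/
noncomputable def zF (WL WH : List (ℕ × ℕ)) (g : ℕ) (E : List (ℕ × ℕ)) : Bool :=
  allR (fun ta => andR (Nat.ble (Nat.succ ta.2) 7)
    (Nat.beq (Nat.land (wk2 WL WH g ta.1) (RCf ta.2)) 0)) E

/-- entries with a universal part -/
noncomputable def uF (WL WH : List (ℕ × ℕ)) (g : ℕ) (E : List (ℕ × ℕ)) : Bool :=
  allR (fun ta => andR (Nat.ble (Nat.succ ta.2) 7)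
    (Nat.beq (Nat.land (wk2 WL WH g ta.1) (ROf ta.2)) (ROf ta.2))) E

theorem zF_sound {ws : List ℕ} {g : ℕ} {E : List (ℕ × ℕ)}
    (h : zF (zp (ws.take 5) 1) (zp (ws.drop 5) 1) g E = true) :
    zOK (zp ws 1) g E = true := by
  unfold zF at h
  rw [allR_iff] at h
  unfold zOK
  rw [List.all_eq_true]
  intro tp htp
  have h1 := h tp htp
  rw [andR_iff, wk2_eq] at h1
  rw [Bool.and_eq_true]
  exact h1

theorem uF_sound {ws : List ℕ} {g : ℕ} {E : List (ℕ × ℕ)}
    (h : uF (zp (ws.take 5) 1) (zp (ws.drop 5) 1) g E = true) :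
    uOK (zp ws 1) g E = true := by
  unfold uF at h
  rw [allR_iff] at h
  unfold uOK
  rw [List.all_eq_true]
  intro tp htp
  have h1 := h tp htp
  rw [andR_iff, wk2_eq] at h1
  rw [Bool.and_eq_true]
  exact h1

/-- number of all the entries -/
noncomputable def lnA (G : List (ℕ × List (ℕ × ℕ))) (Z U : List (ℕ × ℕ)) : ℕ :=
  Nat.add (foldR (fun vE y => Nat.add (lnR vE.2) y) 0 G) (Nat.add (lnR Z) (lnR U))

/-- set of all the entries -/
noncomputable def snA (G : List (ℕ × List (ℕ × ℕ))) (Z U : List (ℕ × ℕ)) : ℕ :=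
  Nat.lor (foldR (fun vE y => Nat.lor (snR vE.2) y) 0 G) (Nat.lor (snR Z) (snR U))

theorem sn_append (E E' : List (ℕ × ℕ)) : sn (E ++ E') = sn E ||| sn E' := by
  induction E with
  | nil => exact (Nat.zero_or _).symm
  | cons x E ih =>
    have e : ∀ L : List (ℕ × ℕ), sn (x :: L) = (1 <<< x.1) ||| sn L := fun _ => rfl
    rw [List.cons_append, e, e, ih, Nat.or_assoc]

/-- masks instead of variables -/
noncomputable def mG (VT : Tr) (G : List (ℕ × List (ℕ × ℕ))) : List (ℕ × List (ℕ × ℕ)) :=
  G.map fun vE => (cd VT vE.1, vE.2)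

theorem lnA_eq (VT : Tr) (G : List (ℕ × List (ℕ × ℕ))) (Z U : List (ℕ × ℕ)) :
    ln (aE (mG VT G) Z U) = lnA G Z U := by
  unfold lnA aE
  rw [ln_eq, List.length_append, List.length_append, foldR_eq, lnR_eq, lnR_eq, ln_eq, ln_eq]
  congr 1
  induction G with
  | nil => rfl
  | cons x G ih =>
    have e : mG VT (x :: G) = (cd VT x.1, x.2) :: mG VT G := rfl
    rw [e, List.flatMap_cons, List.length_append, ih, List.foldr_cons, lnR_eq, ln_eq]
    rfl

theorem snA_eq (VT : Tr) (G : List (ℕ × List (ℕ × ℕ))) (Z U : List (ℕ × ℕ)) :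
    sn (aE (mG VT G) Z U) = snA G Z U := by
  unfold snA aE
  rw [sn_append, sn_append, foldR_eq, snR_eq, snR_eq]
  congr 1
  induction G with
  | nil => rfl
  | cons x G ih =>
    have e : mG VT (x :: G) = (cd VT x.1, x.2) :: mG VT G := rfl
    rw [e, List.flatMap_cons, sn_append, ih, List.foldr_cons, snR_eq]
    rfl

/-! ### Comparison of the terms -/

/-- the group of a term: literal, coefficient -/
noncomputable def mC (e n q : ℕ) (vE : ℕ × List (ℕ × ℕ)) : Bool :=
  andR (Nat.beq (Nat.shiftRight (Nat.land n 131071) 1) (Nat.add 32 vE.1))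
    (Bool.rec (motive := fun _ => Bool)
      (Nat.beq (Nat.add (lnR vE.2) q) (Nat.mul 2 (odR vE.2)))
      (Nat.beq (lnR vE.2) (Nat.add q (Nat.mul 2 (odR vE.2))))
      (Nat.beq (Nat.land n 1) e))

/-- the terms of an entry are the groups -/
noncomputable def mT (e c : ℕ) : ℕ → List (ℕ × List (ℕ × ℕ)) → Bool :=
  Nat.rec (motive := fun _ => ℕ → List (ℕ × List (ℕ × ℕ)) → Bool)
    (fun _ G => allR (fun vE => Nat.beq (lnR vE.2) (Nat.mul 2 (odR vE.2))) G)
    (fun _ ih n G => force (Nat.land (Nat.shiftRight n 17) 255) fun q =>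
      Bool.rec (motive := fun _ => Bool)
        (List.rec (motive := fun _ => Bool) false
          (fun vE G' _ => andR (mC e n q vE) (ih (Nat.shiftRight n 25) G')) G)
        (ih (Nat.shiftRight n 25) G) (Nat.beq q 0)) c

/-- sum of the coefficients of the negated literals -/
noncomputable def nsF (c : ℕ) : ℕ → ℕ :=
  Nat.rec (motive := fun _ => ℕ → ℕ) (fun _ => 0)
    (fun _ ih n => Nat.add (Nat.mul (Nat.land (Nat.shiftRight n 17) 255) (Nat.land n 1))
      (ih (Nat.shiftRight n 25))) c

/-- sum of the coefficients -/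
noncomputable def tsF (c : ℕ) : ℕ → ℕ :=
  Nat.rec (motive := fun _ => ℕ → ℕ) (fun _ => 0)
    (fun _ ih n => Nat.add (Nat.land (Nat.shiftRight n 17) 255) (ih (Nat.shiftRight n 25))) c

/-- linear form of the groups -/
noncomputable def LG (VT : Tr) (f : ℕ → ℤ) (G : List (ℕ × List (ℕ × ℕ))) : ℤ :=
  (G.map fun vE => ((ln vE.2 : ℤ) - 2 * od vE.2) * f (cd VT vE.1)).sum

/-- left side -/
noncomputable def SS (w : ℕ → Bool) (c n : ℕ) : ℕ :=
  ∑ j ∈ Finset.range c, tc n j * (w (tl n j)).toNat

/-- left side with negated literals -/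
noncomputable def SN (w : ℕ → Bool) (c n : ℕ) : ℕ :=
  ∑ j ∈ Finset.range c, tc n j * (w (tl n j ^^^ 1)).toNat

theorem tl_succ (n j : ℕ) : tl n (j + 1) = tl (n >>> 25) j := by
  unfold tl
  rw [← Nat.shiftRight_add]
  congr 2
  ring

theorem tc_succ (n j : ℕ) : tc n (j + 1) = tc (n >>> 25) j := by
  unfold tc
  rw [← Nat.shiftRight_add]
  congr 2
  ring

theorem SS_succ (w : ℕ → Bool) (c n : ℕ) :
    SS w (c + 1) n = tc n 0 * (w (tl n 0)).toNat + SS w c (n >>> 25) := by
  unfold SS
  rw [Finset.sum_range_succ', add_comm]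
  simp only [tl_succ, tc_succ]

theorem SN_succ (w : ℕ → Bool) (c n : ℕ) :
    SN w (c + 1) n = tc n 0 * (w (tl n 0 ^^^ 1)).toNat + SN w c (n >>> 25) := by
  unfold SN
  rw [Finset.sum_range_succ', add_comm]
  simp only [tl_succ, tc_succ]

theorem tc_zero (n : ℕ) : tc n 0 = Nat.land (Nat.shiftRight n 17) 255 := rfl

theorem tl_zero (n : ℕ) : tl n 0 = Nat.land n 131071 := rfl

theorem land_one_131071 (n : ℕ) : Nat.land n 1 = (Nat.land n 131071) % 2 := by
  change n &&& 1 = (n &&& 131071) % 2
  rw [Nat.and_one_is_mod, ← Nat.and_one_is_mod (n &&& 131071), Nat.and_assoc]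
  exact (Nat.and_one_is_mod n).symm

theorem mT_sound {T : ℕ} {f : ℕ → ℤ} (hf : FK T f) (VT : Tr) {e : ℕ} (he : e < 2) (c : ℕ) :
    ∀ n G, mT e c n G = true →
      (SS (wF VT f) c n : ℤ) = (if e = 0 then 1 else -1) * LG VT f G + nsF c n ∧
      SN (wF VT f) c n + SS (wF VT f) c n = tsF c n := by
  induction c with
  | zero =>
    intro n G h
    have h1 : allR (fun vE => Nat.beq (lnR vE.2) (Nat.mul 2 (odR vE.2))) G = true := h
    rw [allR_iff] at h1
    have h2 : LG VT f G = 0 := by
      unfold LG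
      apply List.sum_eq_zero
      intro x hx
      obtain ⟨vE, hvE, rfl⟩ := List.mem_map.1 hx
      have h3 := Nat.eq_of_beq_eq_true (h1 vE hvE)
      rw [lnR_eq, odR_eq] at h3
      have h4 : ln vE.2 = 2 * od vE.2 := h3
      rw [h4]
      push_cast
      ring
    have e1 : nsF 0 n = 0 := rfl
    have e2 : tsF 0 n = 0 := rfl
    rw [h2, e1, e2]
    simp [SS, SN]
  | succ c ih =>
    intro n G h
    have en : nsF (c + 1) n = Nat.land (Nat.shiftRight n 17) 255 * Nat.land n 1 +
      nsF c (n >>> 25) := rfl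
    have et : tsF (c + 1) n = Nat.land (Nat.shiftRight n 17) 255 + tsF c (n >>> 25) := rfl
    have h0 : Bool.rec (motive := fun _ => Bool)
        (List.rec (motive := fun _ => Bool) false
          (fun vE G' _ => andR (mC e n (Nat.land (Nat.shiftRight n 17) 255) vE)
            (mT e c (Nat.shiftRight n 25) G')) G)
        (mT e c (Nat.shiftRight n 25) G) (Nat.beq (Nat.land (Nat.shiftRight n 17) 255) 0) = true :=
      h
    rw [SS_succ, SN_succ, en, et, tc_zero]
    cases hb : Nat.beq (Nat.land (Nat.shiftRight n 17) 255) 0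
    · rw [hb] at h0
      cases G with
      | nil => exact Bool.noConfusion h0
      | cons vE G =>
        have h1 : andR (mC e n (Nat.land (Nat.shiftRight n 17) 255) vE)
            (mT e c (Nat.shiftRight n 25) G) = true := h0
        rw [andR_iff] at h1
        obtain ⟨h2, h3⟩ := h1
        obtain ⟨i1, i2⟩ := ih _ _ h3
        unfold mC at h2
        rw [andR_iff] at h2
        obtain ⟨h4, h5⟩ := h2
        have h6 : tl n 0 / 2 = 32 + vE.1 := by
          have := Nat.eq_of_beq_eq_true h4
          have e1 : Nat.shiftRight (Nat.land n 131071) 1 = (Nat.land n 131071) / 2 :=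
            Nat.shiftRight_succ _ 0
          rw [e1] at this
          exact this
        have h7 : 64 ≤ tl n 0 := by omega
        have h8 : tl n 0 / 2 - 32 = vE.1 := by omega
        have hL : LG VT f (vE :: G) = ((ln vE.2 : ℤ) - 2 * od vE.2) * f (cd VT vE.1) +
            LG VT f G := by
          unfold LG
          rw [List.map_cons, List.sum_cons]
        have hpar := land_one_131071 n
        rw [← tl_zero] at hpar
        have hneg := wF_neg VT f (tl n 0) h7
        set q := Nat.land (Nat.shiftRight n 17) 255 with hq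
        have hS2 : q * (wF VT f (tl n 0 ^^^ 1)).toNat + q * (wF VT f (tl n 0)).toNat = q := by
          rw [hneg]
          cases wF VT f (tl n 0) <;> simp
        refine ⟨?_, by
          have : SN (wF VT f) c (n >>> 25) + SS (wF VT f) c (n >>> 25) = tsF c (n >>> 25) := i2
          omega⟩
        have i1' : (SS (wF VT f) c (n >>> 25) : ℤ) = (if e = 0 then 1 else -1) * LG VT f G +
          nsF c (n >>> 25) := i1
        push_cast
        rw [i1', hL]
        -- the value of the literal
        have hval : (((wF VT f (tl n 0)).toNat : ℕ) : ℤ) =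
            if Nat.land n 1 = 0 then f (cd VT vE.1) else 1 - f (cd VT vE.1) := by
          rcases Nat.mod_two_eq_zero_or_one (tl n 0) with h9 | h9
          · rw [hpar, if_pos h9]
            rcases hf.h01 (cd VT vE.1) with g | g
            · have : wF VT f (tl n 0) = false := by
                rw [← Bool.not_eq_true, wF_pos VT f _ h7 h9, h8, g]
                norm_num
              rw [this, g]; rfl
            · have : wF VT f (tl n 0) = true := by
                rw [wF_pos VT f _ h7 h9, h8, g]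
              rw [this, g]; rfl
          · rw [hpar, if_neg (by omega)]
            rcases hf.h01 (cd VT vE.1) with g | g
            · have : wF VT f (tl n 0) = true := by
                rw [wF_odd VT f _ h7 h9, h8, g]
                norm_num
              rw [this, g]; rfl
            · have : wF VT f (tl n 0) = false := by
                rw [← Bool.not_eq_true, wF_odd VT f _ h7 h9, h8, g]
                norm_num
              rw [this, g]; rfl
        rw [hval]
        have hs2 : Nat.land n 1 = 0 ∨ Nat.land n 1 = 1 := by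
          rw [hpar]
          exact Nat.mod_two_eq_zero_or_one _
        have he2 : e = 0 ∨ e = 1 := by omega
        rw [lnR_eq, odR_eq] at h5
        rcases hs2 with hs | hs <;> rcases he2 with rfl | rfl <;> rw [hs] at h5 ⊢
        · have h10 : ln vE.2 = q + 2 * od vE.2 := Nat.eq_of_beq_eq_true h5
          rw [h10]; push_cast; simp; ring
        · have h10 : ln vE.2 + q = 2 * od vE.2 := Nat.eq_of_beq_eq_true h5
          have h11 : (ln vE.2 : ℤ) = 2 * od vE.2 - q := by
            have : ((ln vE.2 + q : ℕ) : ℤ) = ((2 * od vE.2 : ℕ) : ℤ) := by rw [h10]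
            push_cast at this
            linarith
          rw [h11]; push_cast; simp; ring
        · have h10 : ln vE.2 + q = 2 * od vE.2 := Nat.eq_of_beq_eq_true h5
          have h11 : (ln vE.2 : ℤ) = 2 * od vE.2 - q := by
            have : ((ln vE.2 + q : ℕ) : ℤ) = ((2 * od vE.2 : ℕ) : ℤ) := by rw [h10]
            push_cast at this
            linarith
          rw [h11]; push_cast; simp; ring
        · have h10 : ln vE.2 = q + 2 * od vE.2 := Nat.eq_of_beq_eq_true h5
          rw [h10]; push_cast; simp; ring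
    · rw [hb] at h0
      have h9 : Nat.land (Nat.shiftRight n 17) 255 = 0 := Nat.eq_of_beq_eq_true hb
      obtain ⟨i1, i2⟩ := ih _ _ h0
      rw [h9]
      refine ⟨?_, ?_⟩
      · have i1' : (SS (wF VT f) c (n >>> 25) : ℤ) = (if e = 0 then 1 else -1) * LG VT f G +
          nsF c (n >>> 25) := i1
        push_cast
        rw [i1']
        ring
      · have i2' : SN (wF VT f) c (n >>> 25) + SS (wF VT f) c (n >>> 25) = tsF c (n >>> 25) := i2
        omega

/-! ### The check of an equation -/

/-- after decoding -/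
noncomputable def chkM (par T : ℕ) (VT : Tr) (c k e : ℕ) (js bs : List ℕ) (G : List (ℕ × List (ℕ × ℕ)))
    (Z U : List (ℕ × ℕ)) (WL WH : List (ℕ × ℕ)) (g : ℕ) : Bool :=
  andR (Nat.ble (Nat.succ js.length) 11) (andR (allR (fun vE => force (cd VT vE.1) fun x =>
    gF WL WH g x vE.2) G) (andR (zF WL WH g Z) (andR (uF WL WH g U)
  (andR (Nat.beq (lnA G Z U) (Nat.shiftLeft 1 js.length))
  (andR (Nat.beq (snA G Z U) (Nat.sub (Nat.shiftLeft 1 (Nat.shiftLeft 1 js.length)) 1))
  (andR (mT e (Nat.mul 4 (Nat.land c 4095)) (Nat.shiftRight c 56) G)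
  (andR (Nat.beq (Nat.add (Nat.land (Nat.shiftRight c 16) 1048575)
      (Nat.land (Nat.shiftRight c 36) 1048575))
    (tsF (Nat.mul 4 (Nat.land c 4095)) (Nat.shiftRight c 56)))
  (andR (Bool.rec (motive := fun _ => Bool)
    (Nat.beq (Nat.add (Nat.land (Nat.shiftRight c 16) 1048575) (Nat.mul 2 (odR U)))
      (Nat.add (nsF (Nat.mul 4 (Nat.land c 4095)) (Nat.shiftRight c 56)) (lnR U)))
    (Nat.beq (Nat.add (Nat.land (Nat.shiftRight c 16) 1048575) (lnR U))
      (Nat.add (nsF (Nat.mul 4 (Nat.land c 4095)) (Nat.shiftRight c 56)) (Nat.mul 2 (odR U))))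
    (Nat.beq e 0)) (relY par T k js bs)))))))))

theorem chkM_sound {par T : ℕ} {f : ℕ → ℤ} (hf : FKP par T f) {VT : Tr} {c k e : ℕ} (he : e < 2)
    {js bs : List ℕ} {G : List (ℕ × List (ℕ × ℕ))} {Z U : List (ℕ × ℕ)}
    (h : chkM par T VT c k e js bs G Z U (zp ((js.map (oX k)).take 5) 1)
      (zp ((js.map (oX k)).drop 5) 1) (orL (bs.map (oX k))) = true) :
    ESat (wF VT f) c := by
  unfold chkM at h
  rw [andR_iff, andR_iff, andR_iff, andR_iff, andR_iff, andR_iff, andR_iff, andR_iff,
    andR_iff] at h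
  obtain ⟨h1, h2, h3, h4, h5, h6, h7, h8, h9, h10⟩ := h
  have hrel := relY_sound hf h10
  have hlen : (js.map (oX k)).length = js.length := List.length_map _
  have hm : (js.map (oX k)).length < 11 := by
    rw [hlen]
    exact Nat.le_of_ble_eq_true h1
  have hsum := core_sound hf.toFK (js.map (oX k)) (orL (bs.map (oX k))) hrel hm (mG VT G) Z U
    (by
      intro xE hxE
      obtain ⟨vE, hvE, rfl⟩ := List.mem_map.1 hxE
      rw [allR_iff] at h2
      exact gF_sound (h2 vE hvE)) (zF_sound h3) (uF_sound h4)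
    (by
      rw [lnA_eq, Nat.eq_of_beq_eq_true h5, hlen]
      change 1 <<< _ = _
      rw [Nat.one_shiftLeft])
    (by
      rw [snA_eq, Nat.eq_of_beq_eq_true h6, hlen]
      change 1 <<< (1 <<< _) - 1 = _
      rw [Nat.one_shiftLeft, Nat.one_shiftLeft])
  have hLG : ((mG VT G).map fun xE => ((ln xE.2 : ℤ) - 2 * od xE.2) * f xE.1).sum =
      LG VT f G := by
    unfold mG LG
    rw [List.map_map]
    rfl
  rw [hLG] at hsum
  obtain ⟨m1, m2⟩ := mT_sound hf.toFK VT he _ _ _ h7
  have h8' := Nat.eq_of_beq_eq_true h8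
  have key : SS (wF VT f) (4 * (c &&& 4095)) (c >>> 56) = (c >>> 16) &&& 1048575 := by
    have he2 : e = 0 ∨ e = 1 := by omega
    rw [odR_eq, lnR_eq] at h9
    rcases he2 with rfl | rfl
    · have h11 : ((c >>> 16) &&& 1048575) + ln U = nsF (4 * (c &&& 4095)) (c >>> 56) + 2 * od U :=
        Nat.eq_of_beq_eq_true h9
      have m1' : (SS (wF VT f) (4 * (c &&& 4095)) (c >>> 56) : ℤ) = (if 0 = 0 then 1 else -1) *
        LG VT f G + nsF (4 * (c &&& 4095)) (c >>> 56) := m1
      rw [if_pos rfl, one_mul] at m1'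
      zify at h11 ⊢
      linarith
    · have h11 : ((c >>> 16) &&& 1048575) + 2 * od U = nsF (4 * (c &&& 4095)) (c >>> 56) + ln U :=
        Nat.eq_of_beq_eq_true h9
      have m1' : (SS (wF VT f) (4 * (c &&& 4095)) (c >>> 56) : ℤ) = (if 1 = 0 then 1 else -1) *
        LG VT f G + nsF (4 * (c &&& 4095)) (c >>> 56) := m1
      rw [if_neg (by norm_num)] at m1'
      zify at h11 ⊢
      linarith
  refine ⟨key, ?_⟩
  have m2' : SN (wF VT f) (4 * (c &&& 4095)) (c >>> 56) +
    SS (wF VT f) (4 * (c &&& 4095)) (c >>> 56) = tsF (4 * (c &&& 4095)) (c >>> 56) := m2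
  have h12 : ((c >>> 16) &&& 1048575) + ((c >>> 36) &&& 1048575) =
    tsF (4 * (c &&& 4095)) (c >>> 56) := h8'
  change SN (wF VT f) (4 * (c &&& 4095)) (c >>> 56) = _
  omega

/-- an entry of the table of equations: header (family 5 bits, sign 1, free orbits 4, base orbits 5,
zeros 11, ones 11, groups 16, free orbits 50, base orbits 140), zeros, ones, groups -/
noncomputable def chkE (par T : ℕ) (VT : Tr) (c r : ℕ) : Bool :=
  Bool.rec (motive := fun _ => Bool)
  (force (Nat.land r 31) fun k =>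
  force (Nat.land (Nat.shiftRight r 5) 1) fun e =>
  force (Nat.land (Nat.shiftRight r 6) 15) fun cj =>
  force (Nat.land (Nat.shiftRight r 10) 31) fun cb =>
  force (Nat.land (Nat.shiftRight r 15) 2047) fun cz =>
  force (Nat.land (Nat.shiftRight r 26) 2047) fun cu =>
  force (Nat.land (Nat.shiftRight r 37) 65535) fun cg =>
  force (Nat.shiftRight r 243) fun n1 =>
  force (Nat.shiftRight n1 (Nat.mul 13 cz)) fun n2 =>
  force (Nat.shiftRight n2 (Nat.mul 13 cu)) fun n3 =>
  force (orL ((decJ cb (Nat.shiftRight r 103)).map (oX k))) fun g =>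
  chkM par T VT c k e (decJ cj (Nat.shiftRight r 53)) (decJ cb (Nat.shiftRight r 103))
    (decG cg n3) (decZ cz n1) (decZ cu n2) (zp (((decJ cj (Nat.shiftRight r 53)).map (oX k)).take 5) 1)
    (zp (((decJ cj (Nat.shiftRight r 53)).map (oX k)).drop 5) 1) g)
  true (Nat.beq c 0)

theorem chkE_sound {par T : ℕ} {f : ℕ → ℤ} (hf : FKP par T f) {VT : Tr} {c r : ℕ}
    (h : chkE par T VT c r = true) : ESat (wF VT f) c := by
  unfold chkE at h
  cases hb : Nat.beq c 0
  · rw [hb] at h
    refine chkM_sound hf (e := Nat.land (Nat.shiftRight r 5) 1) ?_ h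
    change (Nat.shiftRight r 5) &&& 1 < 2
    rw [Nat.and_one_is_mod]
    exact Nat.mod_lt _ (by norm_num)
  · have h0 : c = 0 := Nat.eq_of_beq_eq_true hb
    subst h0
    constructor <;> simp

/-- a table of equations -/
theorem equAll {par T : ℕ} {f : ℕ → ℤ} (hf : FKP par T f) {VT : Tr} {ET RT : Tr}
    (h : all2 (eight (chkE par T VT)) ET RT = true) :
    ET.All (fun n => ∀ j < 8, ESat (wF VT f) (ent n j)) := by
  refine all2_sound (P := eight (chkE par T VT))
    (Q := fun n => ∀ j < 8, ESat (wF VT f) (ent n j)) ?_ ET RT h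
  intro n r h' j hj
  have h2 := eight_sound (P := chkE par T VT) h' j hj
  exact chkE_sound hf h2

/-- the valuation of the facts -/
theorem val_of {f : ℕ → ℤ} {VT : Tr} {ET IT : Tr}
    (hE : ET.All (fun n => ∀ j < 8, ESat (wF VT f) (ent n j)))
    (hI : IT.All (fun n => ∀ j < 8, ISat (wF VT f) (ent n j))) : Val (wF VT f) ET IT where
  low := wF_low VT f
  neg := wF_neg VT f
  equ := fun x => get8_of_all (Q := ESat (wF VT f)) hE x
  imp := fun x => get8_of_all (Q := ISat (wF VT f)) hI x

end Pool.Agent.H8.KA
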