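import Mathlib
import Pool.Agent.H8.KA.Lnk3

set_option autoImplicit false

/-!
MP_257582_lc (helper8): vectors of masks packed in one number (lanes of 52 bits).
-/

namespace Pool.Agent.H8.KA

open Pool.Agent.H23.KD

/-- lane `i` -/
def La (A i : ℕ) : ℕ := (A >>> (52 * i)) % 2 ^ 52

theorem La_bit (A i j : ℕ) :
    (La A i).testBit j = (decide (j < 52) && A.testBit (52 * i + j)) := by
  unfold La
  rw [Nat.testBit_mod_two_pow, Nat.testBit_shiftRight]

theorem La_and (A B i : ℕ) : La (A &&& B) i = La A i &&& La B i := by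
  apply Nat.eq_of_testBit_eq
  intro j
  simp only [La_bit, Nat.testBit_and]
  cases decide (j < 52) <;> simp

theorem La_or (A B i : ℕ) : La (A ||| B) i = La A i ||| La B i := by
  apply Nat.eq_of_testBit_eq
  intro j
  simp only [La_bit, Nat.testBit_or]
  cases decide (j < 52) <;> simp

theorem La_xor (A B i : ℕ) : La (A ^^^ B) i = La A i ^^^ La B i := by
  apply Nat.eq_of_testBit_eq
  intro j
  simp only [La_bit, Nat.testBit_xor]
  cases decide (j < 52) <;> simp

theorem La_lt (A i : ℕ) : La A i < 2 ^ 52 := Nat.mod_lt _ (by norm_num)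

theorem tb_false {a k j : ℕ} (h : a < 2 ^ k) (hj : k ≤ j) : a.testBit j = false :=
  Nat.testBit_lt_two_pow (lt_of_lt_of_le h (Nat.pow_le_pow_right (by norm_num) hj))

theorem La_shr (A B i s : ℕ) (hB : La B i < 2 ^ (52 - s)) :
    La ((A >>> s) &&& B) i = (La A i >>> s) &&& La B i := by
  apply Nat.eq_of_testBit_eq
  intro j
  rw [La_bit, Nat.testBit_and, Nat.testBit_and, Nat.testBit_shiftRight, Nat.testBit_shiftRight,
    La_bit, La_bit]
  by_cases h : s + j < 52
  · have h1 : j < 52 := by omega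
    have h2 : s + (52 * i + j) = 52 * i + (s + j) := by ring
    simp [h, h1, h2]
  · have h3 := tb_false (j := j) hB (by omega)
    rw [La_bit] at h3
    rw [h3, Bool.and_false, ← Bool.and_assoc, Bool.and_comm (decide (j < 52)), Bool.and_assoc, h3,
      Bool.and_false]

theorem La_shrx (A B i s : ℕ) (hB : La B i < 2 ^ (52 - s)) :
    La (((A >>> s) ^^^ A) &&& B) i = ((La A i >>> s) ^^^ La A i) &&& La B i := by
  rw [Nat.and_xor_distrib_right, La_xor, La_shr A B i s hB, La_and, ← Nat.and_xor_distrib_right]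

theorem La_shl (A i s : ℕ) (hs : s ≤ 52) (h : ∀ k, La A k < 2 ^ (52 - s)) :
    La (A <<< s) i = La A i <<< s := by
  apply Nat.eq_of_testBit_eq
  intro j
  rw [La_bit, Nat.testBit_shiftLeft, Nat.testBit_shiftLeft]
  by_cases h1 : s ≤ j
  · by_cases h2 : j < 52
    · rw [La_bit]
      have h3 : 52 * i + j ≥ s := by omega
      have h4 : 52 * i + j - s = 52 * i + (j - s) := by omega
      have h5 : j - s < 52 := by omega
      simp [h1, h2, h3, h4, h5]
    · rw [tb_false (j := j - s) (h i) (by omega)]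
      simp [h2]
  · rcases i with _ | i
    · simp [h1]
    · have h4 : 52 * (i + 1) + j - s = 52 * i + (52 + j - s) := by omega
      have h5 := tb_false (j := 52 + j - s) (h i) (by omega)
      rw [La_bit] at h5
      have h6 : 52 + j - s < 52 := by omega
      rw [decide_eq_true h6, Bool.true_and] at h5
      rw [h4, h5]
      simp [h1]

theorem La_zero' (A : ℕ) : La A 0 = A % 2 ^ 52 := by
  unfold La
  rw [Nat.mul_zero, Nat.shiftRight_zero]

theorem La_succ (A i : ℕ) : La A (i + 1) = La (A / 2 ^ 52) i := by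
  unfold La
  rw [show 52 * (i + 1) = 52 + 52 * i by ring, Nat.shiftRight_add,
    Nat.shiftRight_eq_div_pow A 52]

theorem La_mul01 (w i : ℕ) (hw : w < 2 ^ 52) : ∀ A : ℕ, (∀ k, La A k ≤ 1) →
    La (A * w) i = La A i * w := by
  induction i with
  | zero =>
    intro A hA
    have h0 := hA 0
    rw [La_zero'] at h0
    rw [La_zero', La_zero', Nat.mul_mod, Nat.mod_eq_of_lt hw]
    apply Nat.mod_eq_of_lt
    calc A % 2 ^ 52 * w ≤ 1 * w := Nat.mul_le_mul_right _ h0
      _ < 2 ^ 52 := by rwa [one_mul]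
  | succ i ih =>
    intro A hA
    rw [La_succ, La_succ, ← ih (A / 2 ^ 52) fun k => by rw [← La_succ]; exact hA (k + 1)]
    congr 1
    have h0 := hA 0
    rw [La_zero'] at h0
    have h1 : A % 2 ^ 52 * w < 2 ^ 52 := by
      calc A % 2 ^ 52 * w ≤ 1 * w := Nat.mul_le_mul_right _ h0
        _ < 2 ^ 52 := by rwa [one_mul]
    have h2 : A * w = 2 ^ 52 * (A / 2 ^ 52 * w) + A % 2 ^ 52 * w := by
      conv_lhs => rw [← Nat.div_add_mod A (2 ^ 52)]
      ring
    rw [h2, Nat.mul_add_div (by norm_num), Nat.div_eq_of_lt h1, add_zero]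

/-- `n` lanes with value `1` -/
noncomputable def Rp (n : ℕ) : ℕ :=
  Nat.div (Nat.sub (Nat.shiftLeft 1 (Nat.mul 52 n)) 1) 4503599627370495

/-- the same by recursion -/
def Rq : ℕ → ℕ
  | 0 => 0
  | n + 1 => 2 ^ 52 * Rq n + 1

theorem Rq_mul (n : ℕ) : 4503599627370495 * Rq n + 1 = 2 ^ (52 * n) := by
  induction n with
  | zero => rfl
  | succ n ih =>
    rw [Rq, show 52 * (n + 1) = 52 * n + 52 by ring, pow_add, ← ih]
    norm_num
    ring

theorem Rp_eq (n : ℕ) : Rp n = Rq n := by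
  unfold Rp
  change (1 <<< (52 * n) - 1) / 4503599627370495 = Rq n
  rw [Nat.one_shiftLeft, ← Rq_mul, Nat.add_sub_cancel, Nat.mul_div_cancel_left _ (by norm_num)]

theorem La_Rp (n : ℕ) : ∀ i, La (Rp n) i = if i < n then 1 else 0 := by
  induction n with
  | zero =>
    intro i
    rw [Rp_eq, Rq]
    unfold La
    simp
  | succ n ih =>
    intro i
    rw [Rp_eq, Rq]
    rcases i with _ | i
    · rw [La_zero']
      rw [Nat.mul_add_mod]
      simp
    · have h : (2 ^ 52 * Rq n + 1) / 2 ^ 52 = Rq n := by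
        rw [Nat.mul_add_div (by norm_num)]
        norm_num
      rw [La_succ, h, ← Rp_eq, ih]
      simp

theorem La_shl52 (A n i : ℕ) : La (A <<< (52 * n)) i = if i < n then 0 else La A (i - n) := by
  apply Nat.eq_of_testBit_eq
  intro j
  rw [La_bit, Nat.testBit_shiftLeft]
  by_cases h : i < n
  · rw [if_pos h, Nat.zero_testBit]
    by_cases hj : j < 52
    · have h1 : ¬ (52 * i + j ≥ 52 * n) := by omega
      simp [h1]
    · simp [hj]
  · rw [if_neg h, La_bit]
    by_cases hj : j < 52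
    · have h1 : 52 * i + j ≥ 52 * n := by omega
      have h2 : 52 * i + j - 52 * n = 52 * (i - n) + j := by omega
      simp [h1, h2]
    · simp [hj]

/-! ### Conditional exchange of two adjacent parts -/

/-- mask of row `a` -/
def mr (a : ℕ) : ℕ := [127, 16256, 2080768, 266338304, 34091302912, 4363686772736].getD a 0

/-- mask of column `a` -/
def mc' (a : ℕ) : ℕ := [4432676798593, 8865353597186, 17730707194372, 35461414388744,
  70922828777488, 141845657554976].getD a 0

/-- exchange of the parts `a`, `a + 1` in the lanes with `c = 1` -/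
noncomputable def swC (C a X : ℕ) : ℕ :=
  force (Nat.land (Nat.xor (Nat.shiftRight X 7) X) (Nat.mul C (mr a))) fun t =>
  force (Nat.xor X (Nat.xor t (Nat.shiftLeft t 7))) fun Y =>
  force (Nat.land (Nat.xor (Nat.shiftRight Y 1) Y) (Nat.mul C (mc' a))) fun u =>
    Nat.xor Y (Nat.xor u (Nat.shiftLeft u 1))

/-- the same without `force` -/
def swD (C a X : ℕ) : ℕ :=
  let t := ((X >>> 7) ^^^ X) &&& (C * mr a)
  let Y := X ^^^ (t ^^^ (t <<< 7))
  let u := ((Y >>> 1) ^^^ Y) &&& (C * mc' a)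
  Y ^^^ (u ^^^ (u <<< 1))

theorem swC_eq (C a X : ℕ) : swC C a X = swD C a X := rfl

theorem mr_lt (a : ℕ) : mr a < 2 ^ 42 := by
  unfold mr
  rcases a with _ | _ | _ | _ | _ | _ | a <;> simp

theorem mc_lt (a : ℕ) : mc' a < 2 ^ 48 := by
  unfold mc'
  rcases a with _ | _ | _ | _ | _ | _ | a <;> simp

theorem and_lt_r {a b k : ℕ} (h : b < 2 ^ k) : a &&& b < 2 ^ k :=
  lt_of_le_of_lt Nat.and_le_right h

theorem le1_mul {c w k : ℕ} (hc : c ≤ 1) (hw : w < 2 ^ k) : c * w < 2 ^ k :=
  lt_of_le_of_lt (by simpa using Nat.mul_le_mul_right w hc) hw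

theorem shl_lt {a k s : ℕ} (h : a < 2 ^ k) : a <<< s < 2 ^ (k + s) := by
  rw [Nat.shiftLeft_eq, pow_add]
  exact Nat.mul_lt_mul_of_pos_right h (by positivity)

theorem swD_lt {C a X : ℕ} (hC : C ≤ 1) (hX : X < 2 ^ 49) : swD C a X < 2 ^ 49 := by
  unfold swD
  have h1 : ((X >>> 7) ^^^ X) &&& (C * mr a) < 2 ^ 42 := and_lt_r (le1_mul hC (mr_lt a))
  have h2 : X ^^^ ((((X >>> 7) ^^^ X) &&& (C * mr a)) ^^^
      ((((X >>> 7) ^^^ X) &&& (C * mr a)) <<< 7)) < 2 ^ 49 :=
    Nat.xor_lt_two_pow hX (Nat.xor_lt_two_pow (h1.trans (by norm_num)) (shl_lt h1))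
  set Y := X ^^^ ((((X >>> 7) ^^^ X) &&& (C * mr a)) ^^^
      ((((X >>> 7) ^^^ X) &&& (C * mr a)) <<< 7)) with hYd
  have h3 : ((Y >>> 1) ^^^ Y) &&& (C * mc' a) < 2 ^ 48 := and_lt_r (le1_mul hC (mc_lt a))
  exact Nat.xor_lt_two_pow h2 (Nat.xor_lt_two_pow (h3.trans (by norm_num)) (shl_lt h3))

theorem La_swD {C a X : ℕ} (hC : ∀ k, La C k ≤ 1) (i : ℕ) :
    La (swD C a X) i = swD (La C i) a (La X i) := by
  have hm : ∀ k, La (C * mr a) k = La C k * mr a := fun k =>
    La_mul01 _ _ ((mr_lt a).trans (by norm_num)) C hC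
  have hm2 : ∀ k, La (C * mc' a) k = La C k * mc' a := fun k =>
    La_mul01 _ _ ((mc_lt a).trans (by norm_num)) C hC
  have ht : ∀ k, La (((X >>> 7) ^^^ X) &&& (C * mr a)) k =
      ((La X k >>> 7) ^^^ La X k) &&& (La C k * mr a) := by
    intro k
    rw [La_shrx _ _ _ _ (by
      rw [hm]
      exact (le1_mul (hC k) (mr_lt a)).trans (by norm_num)), hm]
  have ht2 : ∀ k, La (((X >>> 7) ^^^ X) &&& (C * mr a)) k < 2 ^ 42 := by
    intro k
    rw [ht]
    exact and_lt_r (le1_mul (hC k) (mr_lt a))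
  have hY : ∀ k, La (X ^^^ ((((X >>> 7) ^^^ X) &&& (C * mr a)) ^^^
      ((((X >>> 7) ^^^ X) &&& (C * mr a)) <<< 7))) k =
      La X k ^^^ ((((La X k >>> 7) ^^^ La X k) &&& (La C k * mr a)) ^^^
      ((((La X k >>> 7) ^^^ La X k) &&& (La C k * mr a)) <<< 7)) := by
    intro k
    rw [La_xor, La_xor, La_shl _ _ 7 (by norm_num) fun k => (ht2 k).trans (by norm_num), ht]
  unfold swD
  set Y := X ^^^ ((((X >>> 7) ^^^ X) &&& (C * mr a)) ^^^
      ((((X >>> 7) ^^^ X) &&& (C * mr a)) <<< 7)) with hYd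
  have hu : ∀ k, La (((Y >>> 1) ^^^ Y) &&& (C * mc' a)) k =
      ((La Y k >>> 1) ^^^ La Y k) &&& (La C k * mc' a) := by
    intro k
    rw [La_shrx _ _ _ _ (by
      rw [hm2]
      exact (le1_mul (hC k) (mc_lt a)).trans (by norm_num)), hm2]
  have hu2 : ∀ k, La (((Y >>> 1) ^^^ Y) &&& (C * mc' a)) k < 2 ^ 48 := by
    intro k
    rw [hu]
    exact and_lt_r (le1_mul (hC k) (mc_lt a))
  change La (Y ^^^ ((((Y >>> 1) ^^^ Y) &&& (C * mc' a)) ^^^
    ((((Y >>> 1) ^^^ Y) &&& (C * mc' a)) <<< 1))) i = _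
  clear_value Y
  rw [La_xor, La_xor, La_shl _ _ 1 (by norm_num) fun k => (hu2 k).trans (by norm_num), hu, hY]

/-- exchange of `a` and `a + 1` -/
def swa (a u : ℕ) : ℕ := if u = a then a + 1 else if u = a + 1 then a else u

theorem mr_bit : ∀ a < 6, ∀ u < 7, ∀ v < 7, (mr a).testBit (7 * u + v) = decide (u = a) := by
  decide +kernel

theorem mc_bit : ∀ a < 6, ∀ u < 7, ∀ v < 7, (mc' a).testBit (7 * u + v) = decide (v = a) := by
  decide +kernel

theorem row_sw (x a u v : ℕ) (ha : a < 6) (hu : u < 7) (hv : v < 7) :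
    (x ^^^ ((((x >>> 7) ^^^ x) &&& mr a) ^^^ ((((x >>> 7) ^^^ x) &&& mr a) <<< 7))).testBit
      (7 * u + v) = x.testBit (7 * swa a u + v) := by
  rw [Nat.testBit_xor, Nat.testBit_xor, Nat.testBit_shiftLeft]
  simp only [Nat.testBit_and, Nat.testBit_xor, Nat.testBit_shiftRight]
  rw [mr_bit a ha u hu v hv]
  unfold swa
  rcases Nat.lt_or_ge (7 * u + v) 7 with h | h
  · have hu0 : u = 0 := by omega
    subst hu0
    have h1 : ¬ (7 * 0 + v ≥ 7) := by omega
    by_cases h2 : 0 = a
    · subst h2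
      have h3 : 7 + (7 * 0 + v) = 7 * (0 + 1) + v := by ring
      simp only [h1, h3, decide_false, Bool.false_and, if_true, decide_true]
      cases x.testBit (7 * (0 + 1) + v) <;> cases x.testBit (7 * 0 + v) <;> rfl
    · have h4 : ¬ (0 = a + 1) := by omega
      simp only [h1, h2, h4, decide_false, Bool.false_and, Bool.and_false, if_false, Bool.xor_false]
  · obtain ⟨u, rfl⟩ : ∃ u', u = u' + 1 := ⟨u - 1, by omega⟩
    have h1 : 7 * (u + 1) + v - 7 = 7 * u + v := by omega
    rw [h1, mr_bit a ha u (by omega) v hv]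
    have h5 : 7 + (7 * u + v) = 7 * (u + 1) + v := by ring
    rw [h5]
    have h6 : 7 + (7 * (u + 1) + v) = 7 * (u + 1 + 1) + v := by ring
    rw [h6]
    by_cases h2 : u + 1 = a
    · subst h2
      have h7 : ¬ (u = u + 1) := by omega
      simp only [h, h7, decide_true, decide_false, if_true, Bool.and_true, Bool.and_false]
      cases x.testBit (7 * (u + 1 + 1) + v) <;> cases x.testBit (7 * (u + 1) + v) <;> rfl
    · by_cases h3 : u + 1 = a + 1
      · have h8 : u = a := by omega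
        subst h8
        simp only [h, h2, decide_true, decide_false, if_true, if_false, Bool.and_true,
          Bool.and_false, Bool.true_and]
        cases x.testBit (7 * (u + 1) + v) <;> cases x.testBit (7 * u + v) <;> rfl
      · have h8 : ¬ (u = a) := by omega
        simp [h2, h8]

theorem col_sw (x a u v : ℕ) (ha : a < 6) (hu : u < 7) (hv : v < 7) :
    (x ^^^ ((((x >>> 1) ^^^ x) &&& mc' a) ^^^ ((((x >>> 1) ^^^ x) &&& mc' a) <<< 1))).testBit
      (7 * u + v) = x.testBit (7 * u + swa a v) := by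
  rw [Nat.testBit_xor, Nat.testBit_xor, Nat.testBit_shiftLeft]
  simp only [Nat.testBit_and, Nat.testBit_xor, Nat.testBit_shiftRight]
  rw [mc_bit a ha u hu v hv]
  unfold swa
  rcases v with _ | v
  · have hk : (decide (7 * u + 0 ≥ 1) && ((x.testBit (1 + (7 * u + 0 - 1)) ^^
        x.testBit (7 * u + 0 - 1)) && (mc' a).testBit (7 * u + 0 - 1))) = false := by
      rcases u with _ | u
      · simp
      · have h1 : 7 * (u + 1) + 0 - 1 = 7 * u + 6 := by omega
        rw [h1, mc_bit a ha u (by omega) 6 (by omega)]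
        have h2 : ¬ (6 = a) := by omega
        simp [h2]
    rw [hk]
    by_cases h2 : 0 = a
    · subst h2
      have h3 : 1 + (7 * u + 0) = 7 * u + (0 + 1) := by ring
      simp only [h3, if_true, decide_true, Bool.and_true]
      cases x.testBit (7 * u + (0 + 1)) <;> cases x.testBit (7 * u + 0) <;> rfl
    · have h4 : ¬ (0 = a + 1) := by omega
      simp [h2]
  · have h1 : 7 * u + (v + 1) - 1 = 7 * u + v := by omega
    have h0 : 7 * u + (v + 1) ≥ 1 := by omega
    rw [h1, mc_bit a ha u hu v (by omega)]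
    have h5 : 1 + (7 * u + v) = 7 * u + (v + 1) := by ring
    rw [h5]
    have h6 : 1 + (7 * u + (v + 1)) = 7 * u + (v + 1 + 1) := by ring
    rw [h6]
    by_cases h2 : v + 1 = a
    · subst h2
      have h7 : ¬ (v = v + 1) := by omega
      simp only [h0, h7, decide_true, decide_false, if_true, Bool.and_true, Bool.and_false]
      cases x.testBit (7 * u + (v + 1 + 1)) <;> cases x.testBit (7 * u + (v + 1)) <;> rfl
    · by_cases h3 : v + 1 = a + 1
      · have h8 : v = a := by omega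
        subst h8
        simp only [h0, h2, decide_true, decide_false, if_true, if_false, Bool.and_true,
          Bool.and_false, Bool.true_and]
        cases x.testBit (7 * u + (v + 1)) <;> cases x.testBit (7 * u + v) <;> rfl
      · have h8 : ¬ (v = a) := by omega
        simp [h2, h8]

theorem swa_lt {a u : ℕ} (ha : a < 6) (hu : u < 7) : swa a u < 7 := by
  unfold swa
  split_ifs <;> omega

theorem swD_bit (x a u v : ℕ) (ha : a < 6) (hu : u < 7) (hv : v < 7) :
    (swD 1 a x).testBit (7 * u + v) = x.testBit (7 * swa a u + swa a v) := by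
  unfold swD
  simp only [one_mul]
  rw [col_sw _ a u v ha hu hv, row_sw _ a u _ ha hu (swa_lt ha hv)]

theorem swD_zero (x a : ℕ) : swD 0 a x = x := by
  unfold swD
  simp

/-- the exchange as a permutation -/
def swp (a : ℕ) (ha : a < 6) : Equiv.Perm (Fin 7) :=
  Equiv.swap ⟨a, by omega⟩ ⟨a + 1, by omega⟩

theorem swp_val (a : ℕ) (ha : a < 6) (u : Fin 7) : (swp a ha u).val = swa a u.val := by
  unfold swp swa
  rw [Equiv.swap_apply_def]
  by_cases h1 : u = ⟨a, by omega⟩
  · rw [if_pos h1, if_pos (by rw [h1])]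
  · have h2 : ¬ (u.val = a) := fun h => h1 (Fin.ext h)
    rw [if_neg h1, if_neg h2]
    by_cases h3 : u = ⟨a + 1, by omega⟩
    · rw [if_pos h3, if_pos (by rw [h3])]
    · have h4 : ¬ (u.val = a + 1) := fun h => h3 (Fin.ext h)
      rw [if_neg h3, if_neg h4]

theorem FK.swD_eq {T : ℕ} {f : ℕ → ℤ} (hf : FK T f) {a : ℕ} (ha : a < 6) (h2 : 2 ≤ a) {c : ℕ}
    (hc : c ≤ 1) (x : ℕ) : f (swD c a x) = f x := by
  rcases Nat.le_one_iff_eq_zero_or_eq_one.1 hc with rfl | rfl
  · rw [swD_zero]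
  have key : ∀ u v : Fin 7, ag (swD 1 a x) u v = ag x (swp a ha u) (swp a ha v) := by
    intro u v
    unfold ag Pool.Agent.W5h78.Karp.ad pK
    rw [swD_bit x a u.val v.val ha u.isLt v.isLt, swD_bit x a v.val u.val ha v.isLt u.isLt,
      ← swp_val a ha u, ← swp_val a ha v]
  have hs : ∀ u, swp a ha (swp a ha u) = u := fun u => Equiv.swap_apply_self _ _ _
  have h0 : swp a ha 0 = 0 := by
    apply Fin.ext
    rw [swp_val]
    unfold swa
    rw [if_neg (by simp; omega), if_neg (by simp)]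
  have h1 : swp a ha 1 = 1 := by
    apply Fin.ext
    rw [swp_val]
    unfold swa
    rw [if_neg (by simp; omega), if_neg (by simp; omega)]
  refine le_antisymm ?_ ?_
  · refine hf.emb 0 1 (by decide) (by decide) (swp a ha) h0 h1 _ _ fun i j hij a' ha' b hb => ?_
    rw [tm_id i a' ha', tm_id j b hb]
    rw [key] at hij
    exact hij
  · refine hf.emb 0 1 (by decide) (by decide) (swp a ha) h0 h1 _ _ fun i j hij a' ha' b hb => ?_
    rw [tm_id i a' ha', tm_id j b hb, key, hs, hs]
    exact hij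

end Pool.Agent.H8.KA
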