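import Mathlib
import Pool.Agent.H8.KA.Lane

set_option autoImplicit false

/-!
MP_257582_lc (helper8): check of the equations of a certificate with packed vectors.
-/

namespace Pool.Agent.H8.KA

open Finset Pool.Agent.H23.KD

/-! ### Network -/

/-- network: position of the bit, part -/
def net : List (ℕ × ℕ) :=
  [(10, 2), (11, 3), (12, 2), (13, 4), (14, 3), (15, 2), (16, 5), (17, 4), (18, 3), (19, 2)]

/-- apply the network to all lanes -/
noncomputable def nwV (N on X : ℕ) (l : List (ℕ × ℕ)) : ℕ :=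
  foldR (fun ka y => force (Nat.land (Nat.shiftRight N ka.1) on) fun C =>
    force y fun Y => swC C ka.2 Y) X l

/-- apply the network to one mask -/
def nwL (e o x : ℕ) (l : List (ℕ × ℕ)) : ℕ :=
  l.foldr (fun ka y => swD ((e >>> ka.1) &&& o) ka.2 y) x

theorem La_cond {N on s i : ℕ} (hs : s < 52) (hon : ∀ k, La on k ≤ 1) :
    La ((N >>> s) &&& on) i = (La N i >>> s) &&& La on i := by
  refine La_shr _ _ _ _ (lt_of_le_of_lt (hon i) ?_)
  exact Nat.one_lt_pow (by omega) (by norm_num)

theorem land_le1 {a b : ℕ} (h : b ≤ 1) : a &&& b ≤ 1 := Nat.and_le_right.trans h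

theorem La_nwV {N on X : ℕ} (hon : ∀ k, La on k ≤ 1) (hX : ∀ k, La X k < 2 ^ 49)
    (l : List (ℕ × ℕ)) (hl : ∀ ka ∈ l, ka.1 < 52) :
    ∀ i, La (nwV N on X l) i = nwL (La N i) (La on i) (La X i) l ∧ La (nwV N on X l) i < 2 ^ 49 := by
  induction l with
  | nil => intro i; exact ⟨rfl, hX i⟩
  | cons ka l ih =>
    intro i
    have ih' := ih fun x hx => hl x (List.mem_cons_of_mem _ hx)
    have e : nwV N on X (ka :: l) = swD ((N >>> ka.1) &&& on) ka.2 (nwV N on X l) := rfl
    have e2 : nwL (La N i) (La on i) (La X i) (ka :: l) =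
      swD ((La N i >>> ka.1) &&& La on i) ka.2 (nwL (La N i) (La on i) (La X i) l) := rfl
    have hC : ∀ k, La ((N >>> ka.1) &&& on) k = (La N k >>> ka.1) &&& La on k := fun k =>
      La_cond (hl ka (by simp)) hon
    have hC1 : ∀ k, La ((N >>> ka.1) &&& on) k ≤ 1 := fun k => by
      rw [hC]
      exact land_le1 (hon k)
    rw [e, La_swD hC1, e2, hC, (ih' i).1]
    refine ⟨rfl, swD_lt (land_le1 (hon i)) ?_⟩
    rw [← (ih' i).1]
    exact (ih' i).2

theorem nwL_eq {T : ℕ} {f : ℕ → ℤ} (hf : FK T f) {e o x : ℕ} (ho : o ≤ 1) (l : List (ℕ × ℕ))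
    (hl : ∀ ka ∈ l, 2 ≤ ka.2 ∧ ka.2 < 6) : f (nwL e o x l) = f x := by
  induction l with
  | nil => rfl
  | cons ka l ih =>
    have e2 : nwL e o x (ka :: l) = swD ((e >>> ka.1) &&& o) ka.2 (nwL e o x l) := rfl
    rw [e2, hf.swD_eq (hl ka (by simp)).2 (hl ka (by simp)).1 (land_le1 ho),
      ih fun y hy => hl y (List.mem_cons_of_mem _ hy)]

/-! ### Masks of the subsets -/

/-- the masks of all the lanes -/
noncomputable def mvV (N on g : ℕ) (ws : List ℕ) : ℕ → ℕ :=
  List.rec (motive := fun _ => ℕ → ℕ) (fun _ => Nat.mul on g)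
    (fun w _ ih j => Nat.lor (Nat.mul (Nat.land (Nat.shiftRight N j) on) w) (ih (Nat.succ j))) ws

theorem La_mvV {N on g : ℕ} (hon : ∀ k, La on k ≤ 1) (hg : g < 2 ^ 52) (ws : List ℕ)
    (hws : ∀ w ∈ ws, w < 2 ^ 52) (i : ℕ) (hi : La on i = 1) : ∀ j, j + ws.length ≤ 52 →
    La (mvV N on g ws j) i = wk ws g (La N i >>> j) := by
  induction ws with
  | nil =>
    intro j _
    have e : mvV N on g [] j = on * g := rfl
    rw [e, La_mul01 _ _ hg _ hon, hi, one_mul]
    rfl
  | cons w ws ih =>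
    intro j hj
    rw [List.length_cons] at hj
    have e : mvV N on g (w :: ws) j = (((N >>> j) &&& on) * w) ||| mvV N on g ws (j + 1) := rfl
    have hC : ∀ k, La ((N >>> j) &&& on) k = (La N k >>> j) &&& La on k := fun k =>
      La_cond (by omega) hon
    rw [e, La_or, La_mul01 _ _ (hws w (by simp)) _ fun k => by
        rw [hC]
        exact land_le1 (hon k), hC, hi,
      ih (fun x hx => hws x (List.mem_cons_of_mem _ hx)) (j + 1) (by omega), wk]
    have h1 : La N i >>> (j + 1) = (La N i >>> j) / 2 := by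
      rw [Nat.shiftRight_add]
      rfl
    rw [h1, Nat.and_one_is_mod]
    rcases Nat.mod_two_eq_zero_or_one (La N i >>> j) with h | h
    · rw [h, zero_mul, Nat.zero_or, if_neg (by norm_num)]
    · rw [h, one_mul, if_pos rfl]

theorem wk_mod (ws : List ℕ) (g : ℕ) : ∀ t k, ws.length ≤ k → wk ws g (t % 2 ^ k) = wk ws g t := by
  induction ws with
  | nil => intro t k _; rfl
  | cons w ws ih =>
    intro t k hk
    rw [List.length_cons] at hk
    obtain ⟨k, rfl⟩ : ∃ k', k = k' + 1 := ⟨k - 1, by omega⟩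
    have h1 : t % 2 ^ (k + 1) % 2 = t % 2 := by
      rw [pow_succ, mul_comm, Nat.mod_mul_right_mod]
    have h2 : t % 2 ^ (k + 1) / 2 = t / 2 % 2 ^ k := by
      rw [pow_succ, mul_comm, Nat.mod_mul_right_div_self]
    rw [wk, wk, h1, h2, ih _ _ (by omega)]

/-! ### Parities -/

/-- the parities of all the lanes -/
noncomputable def pvV (N on : ℕ) (c : ℕ) : ℕ :=
  Nat.rec (motive := fun _ => ℕ) 0
    (fun j ih => Nat.xor (Nat.land (Nat.shiftRight N j) on) ih) c

/-- parity of the low `c` bits -/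
def pa (e : ℕ) : ℕ → ℕ
  | 0 => 0
  | j + 1 => ((e >>> j) &&& 1) ^^^ pa e j

theorem La_pvV {N on : ℕ} (hon : ∀ k, La on k ≤ 1) (i : ℕ) (hi : La on i = 1) (c : ℕ)
    (hc : c ≤ 52) : La (pvV N on c) i = pa (La N i) c := by
  induction c with
  | zero =>
    have e : pvV N on 0 = 0 := rfl
    rw [e]
    unfold La pa
    simp
  | succ c ih =>
    have e : pvV N on (c + 1) = ((N >>> c) &&& on) ^^^ pvV N on c := rfl
    rw [e, La_xor, La_cond (by omega) hon, hi, ih (by omega), pa]

theorem pa_mod (e : ℕ) (k : ℕ) : ∀ c ≤ k, pa (e % 2 ^ k) c = pa e c := by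
  intro c
  induction c with
  | zero => intro _; rfl
  | succ c ih =>
    intro hc
    rw [pa, pa, ih (by omega)]
    congr 1
    apply Nat.eq_of_testBit_eq
    intro j
    rw [Nat.testBit_and, Nat.testBit_and, Nat.testBit_shiftRight, Nat.testBit_shiftRight,
      Nat.testBit_mod_two_pow]
    rcases j with _ | j
    · have : c + 0 < k := by omega
      simp [this]
      omega
    · have : (1 : ℕ).testBit (j + 1) = false := tb_false (k := 1) (by norm_num) (by omega)
      rw [this, Bool.and_false, Bool.and_false]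

theorem pa_PT : ∀ t < 1024, pa t 10 = Nat.land (Nat.shiftRight PT t) 1 := by
  decide +kernel

theorem sg_pa {m : ℕ} (hm : m < 11) {e : ℕ} (he : e % 1024 < 2 ^ m) :
    sg m (e % 1024) = 1 - 2 * (pa e 10 : ℤ) := by
  rw [sg_PT m hm _ he, ← pa_PT _ (Nat.mod_lt _ (by norm_num))]
  have := pa_mod e 10 10 le_rfl
  rw [show (2 : ℕ) ^ 10 = 1024 by norm_num] at this
  rw [this]

/-! ### Groups: index, number of even and of odd entries -/

/-- number of entries -/
noncomputable def MN (G : List (ℕ × ℕ × ℕ)) : ℕ :=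
  foldR (fun g y => Nat.add (Nat.add g.2.1 g.2.2) y) 0 G

/-- the masks of the groups -/
noncomputable def XV (c : ℕ → ℕ) (G : List (ℕ × ℕ × ℕ)) : ℕ :=
  foldR (fun g y => force (c g.1) fun x => force (Nat.add g.2.1 g.2.2) fun n =>
    Nat.lor (Nat.mul (Rp n) x) (Nat.shiftLeft y (Nat.mul 52 n))) 0 G

/-- the parities of the groups -/
noncomputable def EV (G : List (ℕ × ℕ × ℕ)) : ℕ :=
  foldR (fun g y => Nat.lor (Nat.shiftLeft (Rp g.2.2) (Nat.mul 52 g.2.1))
    (Nat.shiftLeft y (Nat.mul 52 (Nat.add g.2.1 g.2.2)))) 0 G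

/-- the entries -/
def xs (c : ℕ → ℕ) (G : List (ℕ × ℕ × ℕ)) : List (ℕ × ℕ) :=
  G.flatMap fun g => List.replicate g.2.1 (c g.1, 0) ++ List.replicate g.2.2 (c g.1, 1)

theorem xs_cons (c : ℕ → ℕ) (g : ℕ × ℕ × ℕ) (G : List (ℕ × ℕ × ℕ)) :
    xs c (g :: G) = (List.replicate g.2.1 (c g.1, 0) ++ List.replicate g.2.2 (c g.1, 1)) ++
      xs c G := rfl

theorem MN_eq (c : ℕ → ℕ) (G : List (ℕ × ℕ × ℕ)) : MN G = (xs c G).length := by
  induction G with
  | nil => rfl
  | cons g G ih =>
    have e : MN (g :: G) = (g.2.1 + g.2.2) + MN G := rfl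
    rw [e, xs_cons, List.length_append, List.length_append, List.length_replicate,
      List.length_replicate, ih]

theorem xs_getD (c : ℕ → ℕ) (g : ℕ × ℕ × ℕ) (G : List (ℕ × ℕ × ℕ)) (i : ℕ) :
    (xs c (g :: G)).getD i (0, 0) =
      if i < g.2.1 + g.2.2 then (c g.1, if i < g.2.1 then 0 else 1)
      else (xs c G).getD (i - (g.2.1 + g.2.2)) (0, 0) := by
  rw [xs_cons]
  have hl : (List.replicate g.2.1 (c g.1, 0) ++ List.replicate g.2.2 (c g.1, 1)).length =
      g.2.1 + g.2.2 := by
    rw [List.length_append, List.length_replicate, List.length_replicate]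
  by_cases h : i < g.2.1 + g.2.2
  · rw [if_pos h, List.getD_append _ _ _ _ (by rw [hl]; exact h)]
    by_cases h2 : i < g.2.1
    · rw [if_pos h2, List.getD_append _ _ _ _ (by rw [List.length_replicate]; exact h2),
        List.getD_replicate _ h2]
    · rw [if_neg h2, List.getD_append_right _ _ _ _ (by rw [List.length_replicate]; omega),
        List.length_replicate, List.getD_replicate _ (by omega)]
  · rw [if_neg h, List.getD_append_right _ _ _ _ (by rw [hl]; omega), hl]

theorem La_XV {c : ℕ → ℕ} (G : List (ℕ × ℕ × ℕ)) (hc : ∀ g ∈ G, c g.1 < 2 ^ 52) :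
    ∀ i, La (XV c G) i = ((xs c G).getD i (0, 0)).1 := by
  induction G with
  | nil =>
    intro i
    have e : XV c [] = 0 := rfl
    rw [e]
    unfold La xs
    simp
  | cons g G ih =>
    intro i
    have e : XV c (g :: G) = (Rp (g.2.1 + g.2.2) * c g.1) |||
      (XV c G <<< (52 * (g.2.1 + g.2.2))) := rfl
    rw [e, La_or, La_mul01 _ _ (hc g (by simp)) _ fun k => by
        rw [La_Rp]
        split_ifs <;> norm_num, La_Rp, La_shl52, xs_getD,
      ih fun x hx => hc x (List.mem_cons_of_mem _ hx)]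
    by_cases h : i < g.2.1 + g.2.2
    · rw [if_pos h, if_pos h, if_pos h, one_mul, Nat.or_zero]
    · rw [if_neg h, if_neg h, if_neg h, zero_mul, Nat.zero_or]

theorem La_EV (c : ℕ → ℕ) (G : List (ℕ × ℕ × ℕ)) :
    ∀ i, La (EV G) i = ((xs c G).getD i (0, 0)).2 := by
  induction G with
  | nil =>
    intro i
    have e : EV [] = 0 := rfl
    rw [e]
    unfold La xs
    simp
  | cons g G ih =>
    intro i
    have e : EV (g :: G) = (Rp g.2.2 <<< (52 * g.2.1)) |||
      (EV G <<< (52 * (g.2.1 + g.2.2))) := rfl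
    rw [e, La_or, La_shl52, La_shl52, La_Rp, xs_getD, ih]
    by_cases h : i < g.2.1 + g.2.2
    · rw [if_pos h, if_pos h, Nat.or_zero]
      by_cases h2 : i < g.2.1
      · rw [if_pos h2, if_pos h2]
      · rw [if_neg h2, if_neg h2, if_pos (by omega)]
    · rw [if_neg h, if_neg h, if_neg (by omega), if_neg (by omega), Nat.zero_or]

/-- value of the groups -/
def gLs (c : ℕ → ℕ) (f : ℕ → ℤ) (G : List (ℕ × ℕ × ℕ)) : ℤ :=
  (G.map fun g => ((g.2.1 : ℤ) - g.2.2) * f (c g.1)).sum

theorem xs_sum (c : ℕ → ℕ) (f : ℕ → ℤ) (G : List (ℕ × ℕ × ℕ)) :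
    ((xs c G).map fun x => (1 - 2 * (x.2 : ℤ)) * f x.1).sum = gLs c f G := by
  induction G with
  | nil => rfl
  | cons g G ih =>
    have e : gLs c f (g :: G) = ((g.2.1 : ℤ) - g.2.2) * f (c g.1) + gLs c f G := rfl
    rw [xs_cons, List.map_append, List.map_append, List.sum_append, List.sum_append, ih, e,
      List.map_replicate, List.map_replicate, List.sum_replicate, List.sum_replicate]
    simp only [nsmul_eq_mul]
    push_cast
    ring

/-! ### The subsets -/

/-- set of the indices of the lanes -/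
noncomputable def snN (c : ℕ) : ℕ → ℕ :=
  Nat.rec (motive := fun _ => ℕ → ℕ) (fun _ => 0)
    (fun _ ih n => force (Nat.shiftRight n 52) fun n' =>
      Nat.lor (Nat.shiftLeft 1 (Nat.land n 1023)) (ih n')) c

theorem snN_bit (c : ℕ) : ∀ n t, (snN c n).testBit t = true → ∃ i < c, La n i % 1024 = t := by
  induction c with
  | zero =>
    intro n t h
    have e : snN 0 n = 0 := rfl
    rw [e, Nat.zero_testBit] at h
    cases h
  | succ c ih =>
    intro n t h
    have e : snN (c + 1) n = (1 <<< (n &&& 1023)) ||| snN c (n >>> 52) := rfl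
    rw [e, Nat.testBit_or, Nat.one_shiftLeft, Nat.testBit_two_pow, Bool.or_eq_true,
      decide_eq_true_iff] at h
    rcases h with h | h
    · refine ⟨0, by omega, ?_⟩
      rw [← h, La_zero']
      have h1 : n &&& 1023 = n % 1024 := Nat.and_two_pow_sub_one_eq_mod n 10
      rw [h1]
      exact Nat.mod_mod_of_dvd n (by norm_num)
    · obtain ⟨i, hi, h2⟩ := ih _ _ h
      refine ⟨i + 1, by omega, ?_⟩
      rw [La_succ, ← Nat.shiftRight_eq_div_pow]
      exact h2

/-- indices of the lanes -/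
def tL (N c : ℕ) : List ℕ := (List.range c).map fun i => La N i % 1024

theorem core2 {f : ℕ → ℤ} (ws : List ℕ) (g : ℕ) (hrel : altO f ws g = 0) (TL : List ℕ)
    (hlen : TL.length = 2 ^ ws.length) (hcov : ∀ t < 2 ^ ws.length, t ∈ TL) :
    (TL.map fun t => sg ws.length t * f (wk ws g t)).sum = 0 ∧ ∀ t ∈ TL, t < 2 ^ ws.length := by
  have hperm : (List.range (2 ^ ws.length)).Perm TL := by
    refine (List.subperm_of_subset (List.nodup_range) ?_).perm_of_length_le ?_
    · intro t ht
      exact hcov t (List.mem_range.1 ht)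
    · rw [hlen, List.length_range]
  refine ⟨?_, fun t ht => List.mem_range.1 (hperm.mem_iff.2 ht)⟩
  rw [← (hperm.map _).sum_eq, ← hrel, altO_sum, ← List.sum_toFinset _ List.nodup_range]
  refine sum_congr ?_ fun _ _ => rfl
  ext t
  simp

/-- all the lanes of a vector have the values of the entries -/
theorem lanes_sum {c : ℕ → ℕ} {f : ℕ → ℤ} {G : List (ℕ × ℕ × ℕ)} {N m : ℕ} {F : ℕ → ℤ}
    (h : ∀ i < MN G, sg m (La N i % 1024) * F (La N i % 1024) =
      (1 - 2 * ((((xs c G).getD i (0, 0)).2 : ℕ) : ℤ)) * f ((xs c G).getD i (0, 0)).1) :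
    ((tL N (MN G)).map fun t => sg m t * F t).sum = gLs c f G := by
  rw [← xs_sum, tL, List.map_map]
  congr 1
  apply List.ext_getElem
  · rw [List.length_map, List.length_map, List.length_range, MN_eq c]
  · intro i h1 h2
    rw [List.length_map, List.length_range] at h1
    rw [List.getElem_map, List.getElem_map, List.getElem_range]
    have h3 : i < (xs c G).length := by rw [← MN_eq]; exact h1
    have h4 := h i h1
    rw [List.getD_eq_getElem _ _ h3] at h4
    exact h4

end Pool.Agent.H8.KA
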