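import Mathlib
import Pool.Agent.H8.KA.Lnk4

set_option autoImplicit false

/-!
MP_257582_lc (helper8): check of the equations of a certificate with packed vectors, soundness.
-/

namespace Pool.Agent.H8.KA

open Finset Pool.Agent.H23.KD

/-! ### Comparison of the terms -/

/-- the group of a term: literal, coefficient -/
noncomputable def mC2 (e n q : ℕ) (g : ℕ × ℕ × ℕ) : Bool :=
  andR (Nat.beq (Nat.shiftRight (Nat.land n 131071) 1) (Nat.add 32 g.1))
    (Bool.rec (motive := fun _ => Bool)
      (Nat.beq g.2.2 (Nat.add q g.2.1))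
      (Nat.beq g.2.1 (Nat.add q g.2.2))
      (Nat.beq (Nat.land n 1) e))

/-- the terms of an entry are the groups -/
noncomputable def mT2 (K : ℕ → ℕ → Bool) (e c : ℕ) :
    ℕ → List (ℕ × ℕ × ℕ) → ℕ → ℕ → Bool :=
  Nat.rec (motive := fun _ => ℕ → List (ℕ × ℕ × ℕ) → ℕ → ℕ → Bool)
    (fun _ G ns ts => andR (allR (fun g => Nat.beq g.2.1 g.2.2) G) (K ns ts))
    (fun _ ih n G ns ts => force (Nat.land (Nat.shiftRight n 17) 255) fun q =>
      Bool.rec (motive := fun _ => Bool)
        (List.rec (motive := fun _ => Bool) false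
          (fun g G' _ => andR (mC2 e n q g)
            (force (Nat.shiftRight n 25) fun n' => force (Nat.add ns (Nat.mul q (Nat.land n 1)))
              fun ns' => force (Nat.add ts q) fun ts' => ih n' G' ns' ts')) G)
        (ih (Nat.shiftRight n 25) G ns ts) (Nat.beq q 0)) c

theorem mT2_sound {T : ℕ} {f : ℕ → ℤ} (hf : FK T f) (VT : Tr) {K : ℕ → ℕ → Bool} {e : ℕ}
    (he : e < 2) (c : ℕ) : ∀ n G ns ts, mT2 K e c n G ns ts = true →
      K (ns + nsF c n) (ts + tsF c n) = true ∧
      (SS (wF VT f) c n : ℤ) = (if e = 0 then 1 else -1) * gLs (cd VT) f G + nsF c n ∧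
      SN (wF VT f) c n + SS (wF VT f) c n = tsF c n := by
  induction c with
  | zero =>
    intro n G ns ts h
    have h1 : andR (allR (fun g => Nat.beq g.2.1 g.2.2) G) (K ns ts) = true := h
    rw [andR_iff, allR_iff] at h1
    have h2 : gLs (cd VT) f G = 0 := by
      unfold gLs
      apply List.sum_eq_zero
      intro x hx
      obtain ⟨g, hg, rfl⟩ := List.mem_map.1 hx
      have h3 := Nat.eq_of_beq_eq_true (h1.1 g hg)
      rw [h3, sub_self, zero_mul]
    have e1 : nsF 0 n = 0 := rfl
    have e2 : tsF 0 n = 0 := rfl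
    rw [h2, e1, e2]
    refine ⟨h1.2, ?_, ?_⟩ <;> simp [SS, SN]
  | succ c ih =>
    intro n G ns ts h
    have en : nsF (c + 1) n = Nat.land (Nat.shiftRight n 17) 255 * Nat.land n 1 +
      nsF c (n >>> 25) := rfl
    have et : tsF (c + 1) n = Nat.land (Nat.shiftRight n 17) 255 + tsF c (n >>> 25) := rfl
    have h0 : Bool.rec (motive := fun _ => Bool)
        (List.rec (motive := fun _ => Bool) false
          (fun g G' _ => andR (mC2 e n (Nat.land (Nat.shiftRight n 17) 255) g)
            (mT2 K e c (Nat.shiftRight n 25) G'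
              (Nat.add ns (Nat.mul (Nat.land (Nat.shiftRight n 17) 255) (Nat.land n 1)))
              (Nat.add ts (Nat.land (Nat.shiftRight n 17) 255)))) G)
        (mT2 K e c (Nat.shiftRight n 25) G ns ts)
        (Nat.beq (Nat.land (Nat.shiftRight n 17) 255) 0) = true := h
    rw [SS_succ, SN_succ, en, et, tc_zero]
    cases hb : Nat.beq (Nat.land (Nat.shiftRight n 17) 255) 0
    · rw [hb] at h0
      cases G with
      | nil => exact Bool.noConfusion h0
      | cons g G =>
        have h1 : andR (mC2 e n (Nat.land (Nat.shiftRight n 17) 255) g)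
            (mT2 K e c (Nat.shiftRight n 25) G
              (Nat.add ns (Nat.mul (Nat.land (Nat.shiftRight n 17) 255) (Nat.land n 1)))
              (Nat.add ts (Nat.land (Nat.shiftRight n 17) 255))) = true := h0
        rw [andR_iff] at h1
        obtain ⟨h2, h3⟩ := h1
        obtain ⟨i0, i1, i2⟩ := ih _ _ _ _ h3
        unfold mC2 at h2
        rw [andR_iff] at h2
        obtain ⟨h4, h5⟩ := h2
        have h6 : tl n 0 / 2 = 32 + g.1 := by
          have := Nat.eq_of_beq_eq_true h4
          have e1 : Nat.shiftRight (Nat.land n 131071) 1 = (Nat.land n 131071) / 2 :=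
            Nat.shiftRight_succ _ 0
          rw [e1] at this
          exact this
        have h7 : 64 ≤ tl n 0 := by omega
        have h8 : tl n 0 / 2 - 32 = g.1 := by omega
        have hL : gLs (cd VT) f (g :: G) = ((g.2.1 : ℤ) - g.2.2) * f (cd VT g.1) +
            gLs (cd VT) f G := rfl
        have hpar := land_one_131071 n
        rw [← tl_zero] at hpar
        have hneg := wF_neg VT f (tl n 0) h7
        set q := Nat.land (Nat.shiftRight n 17) 255 with hq
        have hS2 : q * (wF VT f (tl n 0 ^^^ 1)).toNat + q * (wF VT f (tl n 0)).toNat = q := by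
          rw [hneg]
          cases wF VT f (tl n 0) <;> simp
        have j0 : K ((ns + q * Nat.land n 1) + nsF c (n >>> 25)) ((ts + q) + tsF c (n >>> 25)) =
          true := i0
        rw [add_assoc, add_assoc] at j0
        refine ⟨j0, ?_, by
          have : SN (wF VT f) c (n >>> 25) + SS (wF VT f) c (n >>> 25) = tsF c (n >>> 25) := i2
          omega⟩
        have i1' : (SS (wF VT f) c (n >>> 25) : ℤ) = (if e = 0 then 1 else -1) *
          gLs (cd VT) f G + nsF c (n >>> 25) := i1
        push_cast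
        rw [i1', hL]
        -- the value of the literal
        have hval : (((wF VT f (tl n 0)).toNat : ℕ) : ℤ) =
            if Nat.land n 1 = 0 then f (cd VT g.1) else 1 - f (cd VT g.1) := by
          rcases Nat.mod_two_eq_zero_or_one (tl n 0) with h9 | h9
          · rw [hpar, if_pos h9]
            rcases hf.h01 (cd VT g.1) with g1 | g1
            · have : wF VT f (tl n 0) = false := by
                rw [← Bool.not_eq_true, wF_pos VT f _ h7 h9, h8, g1]
                norm_num
              rw [this, g1]; rfl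
            · have : wF VT f (tl n 0) = true := by
                rw [wF_pos VT f _ h7 h9, h8, g1]
              rw [this, g1]; rfl
          · rw [hpar, if_neg (by omega)]
            rcases hf.h01 (cd VT g.1) with g1 | g1
            · have : wF VT f (tl n 0) = true := by
                rw [wF_odd VT f _ h7 h9, h8, g1]
                norm_num
              rw [this, g1]; rfl
            · have : wF VT f (tl n 0) = false := by
                rw [← Bool.not_eq_true, wF_odd VT f _ h7 h9, h8, g1]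
                norm_num
              rw [this, g1]; rfl
        rw [hval]
        have hs2 : Nat.land n 1 = 0 ∨ Nat.land n 1 = 1 := by
          rw [hpar]
          exact Nat.mod_two_eq_zero_or_one _
        have he2 : e = 0 ∨ e = 1 := by omega
        rcases hs2 with hs | hs <;> rcases he2 with rfl | rfl <;> rw [hs] at h5 ⊢
        · have h10 : g.2.1 = q + g.2.2 := Nat.eq_of_beq_eq_true h5
          rw [h10]; push_cast; simp; ring
        · have h10 : g.2.2 = q + g.2.1 := Nat.eq_of_beq_eq_true h5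
          rw [h10]; push_cast; simp; ring
        · have h10 : g.2.2 = q + g.2.1 := Nat.eq_of_beq_eq_true h5
          rw [h10]; push_cast; simp; ring
        · have h10 : g.2.1 = q + g.2.2 := Nat.eq_of_beq_eq_true h5
          rw [h10]; push_cast; simp; ring
    · rw [hb] at h0
      have h9 : Nat.land (Nat.shiftRight n 17) 255 = 0 := Nat.eq_of_beq_eq_true hb
      obtain ⟨i0, i1, i2⟩ := ih _ _ _ _ h0
      rw [h9]
      refine ⟨?_, ?_, ?_⟩
      · rw [Nat.zero_mul, Nat.zero_add, Nat.zero_add]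
        exact i0
      · have i1' : (SS (wF VT f) c (n >>> 25) : ℤ) = (if e = 0 then 1 else -1) *
          gLs (cd VT) f G + nsF c (n >>> 25) := i1
        push_cast
        rw [i1']
        ring
      · have i2' : SN (wF VT f) c (n >>> 25) + SS (wF VT f) c (n >>> 25) = tsF c (n >>> 25) := i2
        omega

/-! ### Bounds, isolated and universal parts -/

theorem oX_lt (k j : ℕ) : oX k j < 2 ^ 49 := by
  have h : ∀ l ∈ obX, ∀ x ∈ l, x < 2 ^ 49 := by decide
  unfold oX
  rcases lt_or_ge k obX.length with hk | hk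
  · rw [List.getD_eq_getElem _ _ hk]
    rcases lt_or_ge j (obX[k]).length with hj | hj
    · rw [List.getD_eq_getElem _ _ hj]
      exact h _ (List.getElem_mem hk) _ (List.getElem_mem hj)
    · rw [List.getD_eq_default _ _ hj]
      norm_num
  · rw [List.getD_eq_default _ _ hk]
    simp

theorem orL_lt (l : List ℕ) (h : ∀ x ∈ l, x < 2 ^ 49) : orL l < 2 ^ 49 := by
  induction l with
  | nil => exact (by norm_num : (0 : ℕ) < 2 ^ 49)
  | cons x l ih =>
    have e : orL (x :: l) = x ||| orL l := rfl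
    rw [e]
    exact Nat.or_lt_two_pow (h x (by simp)) (ih fun y hy => h y (List.mem_cons_of_mem _ hy))

theorem cd_lt (VT : Tr) (v : ℕ) : cd VT v < 2 ^ 49 := by
  have h : cd VT v = ((VT.get (v >>> 6)) >>> (49 * (v &&& 63))) &&& 562949953421311 := rfl
  rw [h]
  exact lt_of_le_of_lt Nat.and_le_right (by norm_num)

theorem getD_lt (l : List ℕ) (h : ∀ x ∈ l, x < 2 ^ 52) (a : ℕ) : l.getD a 0 < 2 ^ 52 := by
  rcases lt_or_ge a l.length with ha | ha
  · rw [List.getD_eq_getElem _ _ ha]
    exact h _ (List.getElem_mem ha)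
  · rw [List.getD_eq_default _ _ ha]
    norm_num

theorem RCf_lt (a : ℕ) : RCf a < 2 ^ 52 := getD_lt _ (by decide) a
theorem ROf_lt (a : ℕ) : ROf a < 2 ^ 52 := getD_lt _ (by decide) a

theorem xs_lt {c : ℕ → ℕ} (hc : ∀ v, c v < 2 ^ 49) (G : List (ℕ × ℕ × ℕ)) :
    ∀ i, ((xs c G).getD i (0, 0)).1 < 2 ^ 49 := by
  induction G with
  | nil => intro i; simp [xs]
  | cons g G ih =>
    intro i
    rw [xs_getD]
    split_ifs
    · exact hc _
    · exact hc _
    · exact ih _

theorem xs_mem (c : ℕ → ℕ) (G : List (ℕ × ℕ × ℕ)) :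
    ∀ i < MN G, ∃ g ∈ G, ((xs c G).getD i (0, 0)).1 = c g.1 := by
  induction G with
  | nil => intro i hi; exact absurd hi (Nat.not_lt_zero i)
  | cons g G ih =>
    intro i hi
    have e : MN (g :: G) = (g.2.1 + g.2.2) + MN G := rfl
    rw [e] at hi
    rw [xs_getD]
    by_cases h : i < g.2.1 + g.2.2
    · rw [if_pos h]
      exact ⟨g, by simp, rfl⟩
    · rw [if_neg h]
      obtain ⟨g', hg', h'⟩ := ih (i - (g.2.1 + g.2.2)) (by omega)
      exact ⟨g', List.mem_cons_of_mem _ hg', h'⟩

theorem f_isol {T : ℕ} {f : ℕ → ℤ} (hf : FK T f) {a x : ℕ} (ha : a < 7)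
    (h12 : x &&& RC.getD a 0 = 0) : f x = 0 := by
  refine hf.isol _ ⟨a, ha⟩ fun b => ?_
  have h13 := RC_ag ⟨a, ha⟩ b
  rw [Bool.and_eq_true] at h13
  have h14 : ∀ j, (RC.getD a 0).testBit j = true → x.testBit j = false := by
    intro j hj
    have h15 := congrArg (fun n => n.testBit j) h12
    simp only [Nat.testBit_and, Nat.zero_testBit, hj, Bool.and_true] at h15
    exact h15
  unfold ag Pool.Agent.W5h78.Karp.ad pK
  rw [h14 _ h13.1, h14 _ h13.2]
  rfl

theorem f_univ {T : ℕ} {f : ℕ → ℤ} (hf : FK T f) {a x : ℕ} (ha : a < 7)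
    (h12 : x &&& RO.getD a 0 = RO.getD a 0) : f x = 1 := by
  refine hf.univ _ ⟨a, ha⟩ fun b => ?_
  have h13 := RO_ag ⟨a, ha⟩ b
  have h15 := congrArg (fun n => n.testBit (7 * a + b.val)) h12
  simp only [Nat.testBit_and] at h15
  rw [h13, Bool.and_true] at h15
  unfold ag Pool.Agent.W5h78.Karp.ad pK
  rw [h15]
  rfl

/-! ### The check -/

/-- sum of the even entries -/
noncomputable def MNp (G : List (ℕ × ℕ × ℕ)) : ℕ := foldR (fun g y => Nat.add g.2.1 y) 0 G

/-- sum of the odd entries -/
noncomputable def MNm (G : List (ℕ × ℕ × ℕ)) : ℕ := foldR (fun g y => Nat.add g.2.2 y) 0 G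

theorem gLs_one (c : ℕ → ℕ) (G : List (ℕ × ℕ × ℕ)) :
    gLs c (fun _ => 1) G = (MNp G : ℤ) - MNm G := by
  induction G with
  | nil => rfl
  | cons g G ih =>
    have e : gLs c (fun _ => 1) (g :: G) = ((g.2.1 : ℤ) - g.2.2) * 1 +
      gLs c (fun _ => 1) G := rfl
    have e1 : MNp (g :: G) = g.2.1 + MNp G := rfl
    have e2 : MNm (g :: G) = g.2.2 + MNm G := rfl
    rw [e, ih, e1, e2]
    push_cast
    ring

/-- after decoding -/
noncomputable def chkN (par T : ℕ) (VT : Tr) (c k e : ℕ) (js bs : List ℕ)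
    (G Z U : List (ℕ × ℕ × ℕ)) (NG NZ NU mg mz mu o1 o2 o3 : ℕ) (ws : List ℕ) (g : ℕ) : Bool :=
  andR (Nat.ble (Nat.succ js.length) 11)
  (andR (Nat.beq (nwV NG o1 (XV (cd VT) G) net) (mvV NG o1 g ws 0))
  (andR (Nat.beq (pvV NG o1 10) (EV G))
  (andR (allR (fun z => Nat.ble (Nat.succ z.1) 7) Z)
  (andR (Nat.beq (Nat.land (mvV NZ o2 g ws 0) (XV RCf Z)) 0)
  (andR (allR (fun z => Nat.ble (Nat.succ z.1) 7) U)
  (andR (Nat.beq (Nat.land (mvV NU o3 g ws 0) (XV ROf U)) (XV ROf U))
  (andR (Nat.beq (pvV NU o3 10) (EV U))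
  (andR (Nat.beq (Nat.add mg (Nat.add mz mu)) (Nat.shiftLeft 1 js.length))
  (andR (Nat.beq (Nat.lor (snN mg NG) (Nat.lor (snN mz NZ) (snN mu NU)))
      (Nat.sub (Nat.shiftLeft 1 (Nat.shiftLeft 1 js.length)) 1))
  (andR (relY par T k js bs)
    (mT2 (fun ns ts => andR (Nat.beq (Nat.add (Nat.land (Nat.shiftRight c 16) 1048575)
        (Nat.land (Nat.shiftRight c 36) 1048575)) ts)
      (Bool.rec (motive := fun _ => Bool)
        (Nat.beq (Nat.add (Nat.land (Nat.shiftRight c 16) 1048575) (MNm U)) (Nat.add ns (MNp U)))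
        (Nat.beq (Nat.add (Nat.land (Nat.shiftRight c 16) 1048575) (MNp U)) (Nat.add ns (MNm U)))
        (Nat.beq e 0)))
      e (Nat.mul 4 (Nat.land c 4095)) (Nat.shiftRight c 56) G 0 0)))))))))))

theorem chkN_sound {par T : ℕ} {f : ℕ → ℤ} (hf : FKP par T f) {VT : Tr} {c k e : ℕ} (he : e < 2)
    {js bs : List ℕ} {G Z U : List (ℕ × ℕ × ℕ)} {NG NZ NU : ℕ}
    (h : chkN par T VT c k e js bs G Z U NG NZ NU (MN G) (MN Z) (MN U) (Rp (MN G)) (Rp (MN Z))
      (Rp (MN U)) (js.map (oX k)) (orL (bs.map (oX k))) = true) :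
    ESat (wF VT f) c := by
  unfold chkN at h
  rw [andR_iff, andR_iff, andR_iff, andR_iff, andR_iff, andR_iff, andR_iff, andR_iff,
    andR_iff, andR_iff, andR_iff] at h
  obtain ⟨h1, h2, h3, h4, h5, h6, h7, h8, h9, h10, h11, h12⟩ := h
  set ws := js.map (oX k) with hws
  set g := orL (bs.map (oX k)) with hg
  have hrel := relY_sound hf h11
  have hlen : ws.length = js.length := List.length_map _
  have hm : ws.length < 11 := by
    rw [hlen]
    exact Nat.le_of_ble_eq_true h1
  have hwl : ∀ w ∈ ws, w < 2 ^ 52 := by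
    intro w hw
    obtain ⟨j, _, rfl⟩ := List.mem_map.1 hw
    exact (oX_lt k j).trans (by norm_num)
  have hgl : g < 2 ^ 52 := by
    refine (orL_lt _ fun x hx => ?_).trans (by norm_num)
    obtain ⟨j, _, rfl⟩ := List.mem_map.1 hx
    exact oX_lt k j
  have hR1 : ∀ n k, La (Rp n) k ≤ 1 := by
    intro n k
    rw [La_Rp]
    split_ifs <;> norm_num
  have hmv : ∀ N n i, i < n → La (mvV N (Rp n) g ws 0) i = wk ws g (La N i % 1024) := by
    intro N n i hi
    rw [La_mvV (hR1 n) hgl ws hwl i (by rw [La_Rp, if_pos hi]) 0 (by omega), Nat.shiftRight_zero]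
    have := wk_mod ws g (La N i) 10 (by omega)
    rw [show (2 : ℕ) ^ 10 = 1024 by norm_num] at this
    exact this.symm
  -- the subsets
  set TL := tL NG (MN G) ++ (tL NZ (MN Z) ++ tL NU (MN U)) with hTL
  have hlenT : TL.length = 2 ^ ws.length := by
    have e1 : ∀ N n, (tL N n).length = n := by
      intro N n
      unfold tL
      rw [List.length_map, List.length_range]
    have e2 : MN G + (MN Z + MN U) = 1 <<< js.length := Nat.eq_of_beq_eq_true h9
    rw [hTL, List.length_append, List.length_append, e1, e1, e1, e2, hlen, Nat.one_shiftLeft]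
  have hcov : ∀ t < 2 ^ ws.length, t ∈ TL := by
    intro t ht
    have e3 : snN (MN G) NG ||| (snN (MN Z) NZ ||| snN (MN U) NU) =
      1 <<< (1 <<< js.length) - 1 := Nat.eq_of_beq_eq_true h10
    rw [Nat.one_shiftLeft, Nat.one_shiftLeft, ← hlen] at e3
    have e4 := congrArg (fun n => n.testBit t) e3
    simp only [Nat.testBit_or, Nat.testBit_two_pow_sub_one, decide_eq_true ht, Bool.or_eq_true]
      at e4
    rw [hTL, List.mem_append, List.mem_append]
    have e5 : ∀ N n, (snN n N).testBit t = true → t ∈ tL N n := by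
      intro N n hn
      obtain ⟨i, hi, h'⟩ := snN_bit n N t hn
      exact List.mem_map.2 ⟨i, List.mem_range.2 hi, h'⟩
    rcases e4 with e4 | e4 | e4
    · exact Or.inl (e5 _ _ e4)
    · exact Or.inr (Or.inl (e5 _ _ e4))
    · exact Or.inr (Or.inr (e5 _ _ e4))
  obtain ⟨hsum, hlt⟩ := core2 ws g hrel TL hlenT hcov
  have hmem : ∀ N n i, i < n → La N i % 1024 ∈ tL N n := fun N n i hi =>
    List.mem_map.2 ⟨i, List.mem_range.2 hi, rfl⟩
  -- the variables
  have hG : ((tL NG (MN G)).map fun t => sg ws.length t * f (wk ws g t)).sum =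
      gLs (cd VT) f G := by
    apply lanes_sum
    intro i hi
    have i1 : i < MN G := hi
    have e1 : nwV NG (Rp (MN G)) (XV (cd VT) G) net = mvV NG (Rp (MN G)) g ws 0 :=
      Nat.eq_of_beq_eq_true h2
    have hX : ∀ i, La (XV (cd VT) G) i = ((xs (cd VT) G).getD i (0, 0)).1 :=
      La_XV G fun g' _ => (cd_lt VT _).trans (by norm_num)
    have e2 := (La_nwV (N := NG) (hR1 (MN G)) (X := XV (cd VT) G) (fun k => by
      rw [hX]
      exact xs_lt (cd_lt VT) G k) net (by decide) i).1
    rw [e1, hmv _ _ _ i1, hX] at e2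
    have e3 : f (wk ws g (La NG i % 1024)) = f ((xs (cd VT) G).getD i (0, 0)).1 := by
      rw [e2]
      exact nwL_eq hf.toFK (hR1 (MN G) i) net (by decide)
    have e4 : La NG i % 1024 < 2 ^ ws.length := hlt _ (by
      rw [hTL, List.mem_append]
      exact Or.inl (hmem _ _ _ i1))
    have e5 : pvV NG (Rp (MN G)) 10 = EV G := Nat.eq_of_beq_eq_true h3
    have e6 := La_pvV (N := NG) (hR1 (MN G)) i (by rw [La_Rp, if_pos i1]) 10 (by norm_num)
    rw [e5, La_EV (cd VT)] at e6
    rw [e3, sg_pa hm e4, ← e6]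
  -- the zeros
  have hZ : ((tL NZ (MN Z)).map fun t => sg ws.length t * f (wk ws g t)).sum = 0 := by
    apply List.sum_eq_zero
    intro x hx
    obtain ⟨t, ht, rfl⟩ := List.mem_map.1 hx
    obtain ⟨i, hi, rfl⟩ := List.mem_map.1 ht
    rw [List.mem_range] at hi
    have e1 : mvV NZ (Rp (MN Z)) g ws 0 &&& XV RCf Z = 0 := Nat.eq_of_beq_eq_true h5
    have e2 := congrArg (fun A => La A i) e1
    simp only [La_and] at e2
    obtain ⟨z, hz, e3⟩ := xs_mem RCf Z i hi
    rw [hmv _ _ _ hi, La_XV Z fun g' _ => RCf_lt _, e3] at e2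
    have e4 : La 0 i = 0 := by
      unfold La
      simp
    rw [e4] at e2
    rw [allR_iff] at h4
    have e5 : z.1 < 7 := Nat.le_of_ble_eq_true (h4 z hz)
    rw [f_isol hf.toFK e5 e2, mul_zero]
  -- the ones
  have hU : ((tL NU (MN U)).map fun t => sg ws.length t * f (wk ws g t)).sum =
      gLs ROf (fun _ => 1) U := by
    apply lanes_sum
    intro i hi
    have e1 : mvV NU (Rp (MN U)) g ws 0 &&& XV ROf U = XV ROf U := Nat.eq_of_beq_eq_true h7
    have e2 := congrArg (fun A => La A i) e1
    simp only [La_and] at e2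
    obtain ⟨z, hz, e3⟩ := xs_mem ROf U i hi
    rw [hmv _ _ _ hi, La_XV U fun g' _ => ROf_lt _, e3] at e2
    rw [allR_iff] at h6
    have e5 : z.1 < 7 := Nat.le_of_ble_eq_true (h6 z hz)
    have e4 : La NU i % 1024 < 2 ^ ws.length := hlt _ (by
      rw [hTL, List.mem_append, List.mem_append]
      exact Or.inr (Or.inr (hmem _ _ _ hi)))
    have e6 : pvV NU (Rp (MN U)) 10 = EV U := Nat.eq_of_beq_eq_true h8
    have e7 := La_pvV (N := NU) (hR1 (MN U)) i (by rw [La_Rp, if_pos hi]) 10 (by norm_num)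
    rw [e6, La_EV ROf] at e7
    rw [f_univ hf.toFK e5 e2, sg_pa hm e4, ← e7]
  rw [hTL, List.map_append, List.map_append, List.sum_append, List.sum_append, hG, hZ, hU,
    zero_add, gLs_one] at hsum
  obtain ⟨m0, m1, m2⟩ := mT2_sound hf.toFK VT he _ _ _ _ _ h12
  rw [andR_iff, Nat.zero_add, Nat.zero_add] at m0
  obtain ⟨h13, h14⟩ := m0
  have key : SS (wF VT f) (4 * (c &&& 4095)) (c >>> 56) = (c >>> 16) &&& 1048575 := by
    have he2 : e = 0 ∨ e = 1 := by omega
    rcases he2 with rfl | rfl
    · have h15 : ((c >>> 16) &&& 1048575) + MNp U = nsF (4 * (c &&& 4095)) (c >>> 56) + MNm U :=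
        Nat.eq_of_beq_eq_true h14
      have m1' : (SS (wF VT f) (4 * (c &&& 4095)) (c >>> 56) : ℤ) = (if 0 = 0 then 1 else -1) *
        gLs (cd VT) f G + nsF (4 * (c &&& 4095)) (c >>> 56) := m1
      rw [if_pos rfl, one_mul] at m1'
      zify at h15 ⊢
      linarith
    · have h15 : ((c >>> 16) &&& 1048575) + MNm U = nsF (4 * (c &&& 4095)) (c >>> 56) + MNp U :=
        Nat.eq_of_beq_eq_true h14
      have m1' : (SS (wF VT f) (4 * (c &&& 4095)) (c >>> 56) : ℤ) = (if 1 = 0 then 1 else -1) *
        gLs (cd VT) f G + nsF (4 * (c &&& 4095)) (c >>> 56) := m1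
      rw [if_neg (by norm_num)] at m1'
      zify at h15 ⊢
      linarith
  refine ⟨key, ?_⟩
  have m2' : SN (wF VT f) (4 * (c &&& 4095)) (c >>> 56) +
    SS (wF VT f) (4 * (c &&& 4095)) (c >>> 56) = tsF (4 * (c &&& 4095)) (c >>> 56) := m2
  have h16 : ((c >>> 16) &&& 1048575) + ((c >>> 36) &&& 1048575) =
    tsF (4 * (c &&& 4095)) (c >>> 56) := Nat.eq_of_beq_eq_true h13
  change SN (wF VT f) (4 * (c &&& 4095)) (c >>> 56) = _
  omega

/-! ### Decoding -/

/-- groups: index (16 bits), number of even entries (11 bits), of odd entries (11 bits) -/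
noncomputable def decN (c : ℕ) : ℕ → List (ℕ × ℕ × ℕ) :=
  Nat.rec (motive := fun _ => ℕ → List (ℕ × ℕ × ℕ)) (fun _ => [])
    (fun _ ih n => force (Nat.land n 65535) fun v =>
      force (Nat.land (Nat.shiftRight n 16) 2047) fun a =>
      force (Nat.land (Nat.shiftRight n 27) 2047) fun b =>
      force (Nat.shiftRight n 38) fun n' => (v, a, b) :: ih n') c

/-- list of the masks, evaluated -/
noncomputable def mkF (k : ℕ) (l : List ℕ) : (List ℕ → Bool) → Bool :=
  List.rec (motive := fun _ => (List ℕ → Bool) → Bool) (fun K => K [])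
    (fun j _ ih K => force (oX k j) fun w => ih fun l' => K (w :: l')) l

theorem mkF_eq (k : ℕ) (l : List ℕ) : ∀ K : List ℕ → Bool, mkF k l K = K (l.map (oX k)) := by
  induction l with
  | nil => intro K; rfl
  | cons j l ih =>
    intro K
    have e : mkF k (j :: l) K = mkF k l fun l' => K (oX k j :: l') := rfl
    rw [e, ih]
    rfl

/-- an entry of the table of equations: header (family 5 bits, sign 1, free orbits 4, base orbits 5,
groups of zeros 4, groups of ones 4, groups 16, free orbits 50, base orbits 140), groups, lanes -/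
noncomputable def chkV (par T : ℕ) (VT : Tr) (c r : ℕ) : Bool :=
  Bool.rec (motive := fun _ => Bool)
  (force (Nat.land r 31) fun k =>
  force (Nat.land (Nat.shiftRight r 5) 1) fun e =>
  force (Nat.land (Nat.shiftRight r 6) 15) fun cj =>
  force (Nat.land (Nat.shiftRight r 10) 31) fun cb =>
  force (Nat.land (Nat.shiftRight r 15) 15) fun cz =>
  force (Nat.land (Nat.shiftRight r 19) 15) fun cu =>
  force (Nat.land (Nat.shiftRight r 23) 65535) fun cg =>
  force (Nat.shiftRight r 229) fun n1 =>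
  force (Nat.shiftRight n1 (Nat.mul 38 cz)) fun n2 =>
  force (Nat.shiftRight n2 (Nat.mul 38 cu)) fun n3 =>
  force (Nat.shiftRight n3 (Nat.mul 38 cg)) fun NG =>
  force (MN (decN cg n3)) fun mg =>
  force (MN (decN cz n1)) fun mz =>
  force (MN (decN cu n2)) fun mu =>
  force (Nat.shiftRight NG (Nat.mul 52 mg)) fun NZ =>
  force (Nat.shiftRight NZ (Nat.mul 52 mz)) fun NU =>
  force (Rp mg) fun o1 => force (Rp mz) fun o2 => force (Rp mu) fun o3 =>
  force (orL ((decJ cb (Nat.shiftRight r 89)).map (oX k))) fun g =>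
  mkF k (decJ cj (Nat.shiftRight r 39)) fun ws =>
  chkN par T VT c k e (decJ cj (Nat.shiftRight r 39)) (decJ cb (Nat.shiftRight r 89))
    (decN cg n3) (decN cz n1) (decN cu n2) NG NZ NU mg mz mu o1 o2 o3 ws g)
  true (Nat.beq c 0)

theorem chkV_sound {par T : ℕ} {f : ℕ → ℤ} (hf : FKP par T f) {VT : Tr} {c r : ℕ}
    (h : chkV par T VT c r = true) : ESat (wF VT f) c := by
  unfold chkV at h
  cases hb : Nat.beq c 0
  · rw [hb] at h
    simp only [force_eq, mkF_eq] at h
    refine chkN_sound hf (e := Nat.land (Nat.shiftRight r 5) 1) ?_ h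
    change (Nat.shiftRight r 5) &&& 1 < 2
    rw [Nat.and_one_is_mod]
    exact Nat.mod_lt _ (by norm_num)
  · have h0 : c = 0 := Nat.eq_of_beq_eq_true hb
    subst h0
    constructor <;> simp

/-- a table of equations -/
theorem equAllV {par T : ℕ} {f : ℕ → ℤ} (hf : FKP par T f) {VT : Tr} {ET RT : Tr}
    (h : all2 (eight (chkV par T VT)) ET RT = true) :
    ET.All (fun n => ∀ j < 8, ESat (wF VT f) (ent n j)) := by
  refine all2_sound (P := eight (chkV par T VT))
    (Q := fun n => ∀ j < 8, ESat (wF VT f) (ent n j)) ?_ ET RT h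
  intro n r h' j hj
  have h2 := eight_sound (P := chkV par T VT) h' j hj
  exact chkV_sound hf h2

end Pool.Agent.H8.KA
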