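import Mathlib
import Pool.Agent.H8.KA.Lnk5

set_option autoImplicit false

/-!
MP_257582_lc (helper8): check of the equations of a certificate with packed vectors, faster version.
-/

namespace Pool.Agent.H8.KA

open Finset Pool.Agent.H23.KD

/-! ### The conditions of a relation -/

/-- numbers of orbits -/
def nbX : List ℕ := [15, 11, 9, 7, 5, 5, 3, 0, 0, 14, 10, 8, 5, 4, 9, 6, 2]

/-- weights of the orbits, packed -/
def wX : List ℕ := [81383729545749025, 1241817302050, 5404640290, 18966115, 142435, 99460, 2725, 0, 0, 9326135507821089, 142305674274, 1109672994, 136803, 33924, 17517593121, 4293666, 99]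

/-- the conditions: sorted, below `N`, not in the base, sum of the weights -/
noncomputable def rz (T N W B : ℕ) (l : List ℕ) : ℕ → ℕ → Bool :=
  List.rec (motive := fun _ => ℕ → ℕ → Bool) (fun _ acc => Nat.ble T acc)
    (fun j _ ih lo acc => andR (Nat.ble lo j) (andR (Nat.ble (Nat.succ j) N)
      (andR (Nat.beq (Nat.land (Nat.shiftRight B j) 1) 0)
        (ih (Nat.succ j) (Nat.add acc (Nat.land (Nat.shiftRight W (Nat.mul 4 j)) 15)))))) l

theorem rz_sound {T N W B : ℕ} (l : List ℕ) : ∀ lo acc, rz T N W B l lo acc = true →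
    l.Nodup ∧ (∀ j ∈ l, lo ≤ j ∧ j < N ∧ B.testBit j = false) ∧
      T ≤ acc + (l.map fun j => (W >>> (4 * j)) &&& 15).sum := by
  induction l with
  | nil =>
    intro lo acc h
    refine ⟨List.nodup_nil, by simp, ?_⟩
    simpa using Nat.le_of_ble_eq_true h
  | cons j l ih =>
    intro lo acc h
    have h1 : andR (Nat.ble lo j) (andR (Nat.ble (Nat.succ j) N)
      (andR (Nat.beq (Nat.land (Nat.shiftRight B j) 1) 0)
        (rz T N W B l (j + 1) (acc + ((W >>> (4 * j)) &&& 15))))) = true := h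
    rw [andR_iff, andR_iff, andR_iff] at h1
    obtain ⟨h2, h3, h4, h5⟩ := h1
    obtain ⟨g1, g2, g3⟩ := ih _ _ h5
    refine ⟨?_, ?_, ?_⟩
    · rw [List.nodup_cons]
      refine ⟨fun hj => ?_, g1⟩
      have := (g2 j hj).1
      omega
    · intro i hi
      rcases List.mem_cons.1 hi with rfl | hi
      · refine ⟨Nat.le_of_ble_eq_true h2, Nat.le_of_ble_eq_true h3, ?_⟩
        have h6 : (B >>> i) &&& 1 = 0 := Nat.eq_of_beq_eq_true h4
        rw [Nat.and_one_is_mod] at h6
        rw [Nat.testBit_eq_decide_div_mod_eq, ← Nat.shiftRight_eq_div_pow, h6]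
        rfl
      · have := g2 i hi
        have h7 := Nat.le_of_ble_eq_true h2
        exact ⟨by omega, this.2⟩
    · rw [List.map_cons, List.sum_cons]
      omega

/-- the set of the base -/
noncomputable def bR (bs : List ℕ) : ℕ := foldR (fun b y => Nat.lor (Nat.shiftLeft 1 b) y) 0 bs

theorem bR_bit (bs : List ℕ) (b : ℕ) (h : (bR bs).testBit b = false) : b ∉ bs := by
  induction bs with
  | nil => simp
  | cons x bs ih =>
    have e : bR (x :: bs) = (1 <<< x) ||| bR bs := rfl
    rw [e, Nat.testBit_or, Bool.or_eq_false_iff, Nat.one_shiftLeft, Nat.testBit_two_pow,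
      decide_eq_false_iff_not] at h
    rw [List.mem_cons, not_or]
    exact ⟨fun h' => h.1 h'.symm, ih h.2⟩

theorem wX_wt : ∀ k < 7, ∀ j < nbX.getD k 0, (wX.getD k 0 >>> (4 * j)) &&& 15 = wt k j := by
  decide +kernel
theorem wX_wt4 : ∀ k < 5, ∀ j < nbX.getD (k + 9) 0,
    (wX.getD (k + 9) 0 >>> (4 * j)) &&& 15 = wt4 k j := by
  decide +kernel
theorem wX_wt5 : ∀ k < 3, ∀ j < nbX.getD (k + 14) 0,
    (wX.getD (k + 14) 0 >>> (4 * j)) &&& 15 = wt5 k j := by
  decide +kernel
theorem nbX_nb : ∀ k < 7, nbX.getD k 0 = nb k := by decide +kernel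
theorem nbX_nb4 : ∀ k < 5, nbX.getD (k + 9) 0 = nb4 k := by decide +kernel
theorem nbX_nb5 : ∀ k < 3, nbX.getD (k + 14) 0 = nb5 k := by decide +kernel

/-- fast version of `relY` -/
noncomputable def relF (par T k : ℕ) (js bs : List ℕ) : Bool :=
  Bool.rec (motive := fun _ => Bool)
    (force (bR bs) fun B => force (nbX.getD k 0) fun N => force (wX.getD k 0) fun W =>
      andR (rz T N W B js 0 0) (Bool.rec (motive := fun _ => Bool)
        (Nat.beq par (Bool.rec (motive := fun _ => ℕ) 2 1 (Nat.ble k 13))) true (Nat.ble k 6)))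
    (relY par T k js bs) (Nat.beq (nbX.getD k 0) 0)

theorem relF_sound {par T k : ℕ} {js bs : List ℕ} (h : relF par T k js bs = true) :
    relY par T k js bs = true := by
  unfold relF at h
  cases hb : Nat.beq (nbX.getD k 0) 0
  · rw [hb] at h
    have h0 : andR (rz T (nbX.getD k 0) (wX.getD k 0) (bR bs) js 0 0)
        (Bool.rec (motive := fun _ => Bool)
        (Nat.beq par (Bool.rec (motive := fun _ => ℕ) 2 1 (Nat.ble k 13))) true (Nat.ble k 6)) =
        true := h
    rw [andR_iff] at h0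
    obtain ⟨h1, h2⟩ := h0
    obtain ⟨g1, g2, g3⟩ := rz_sound js 0 0 h1
    rw [Nat.zero_add] at g3
    have g4 : ∀ j ∈ js, (!(bs.contains j)) = true := by
      intro j hj
      have := bR_bit bs j (g2 j hj).2.2
      rw [Bool.not_eq_true', ← Bool.not_eq_true, List.contains_iff_mem]
      exact this
    have hne : nbX.getD k 0 ≠ 0 := by
      intro h3
      rw [h3] at hb
      exact Bool.noConfusion hb
    have hk : k < 17 := by
      by_contra hk
      rw [List.getD_eq_default _ _ (by simpa [nbX] using hk)] at hne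
      exact hne rfl
    unfold relY
    rcases Nat.lt_or_ge k 7 with k7 | k7
    · rw [if_pos (by omega : k < 9)]
      unfold relB
      rw [if_pos k7]
      simp only [Bool.and_eq_true, decide_eq_true_iff, List.all_eq_true]
      refine ⟨⟨g1, fun j hj => ⟨?_, g4 j hj⟩⟩, ?_⟩
      · rw [← nbX_nb k k7]
        exact (g2 j hj).2.1
      · have : js.map (wt k) = js.map fun j => (wX.getD k 0 >>> (4 * j)) &&& 15 :=
          List.map_congr_left fun j hj => (wX_wt k k7 j (g2 j hj).2.1).symm
        rw [this]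
        exact g3
    · have hk9 : 9 ≤ k := by
        by_contra h9
        have : k = 7 ∨ k = 8 := by omega
        rcases this with rfl | rfl <;> exact hne rfl
      rw [if_neg (by omega : ¬ k < 9)]
      have h6 : Nat.ble k 6 = false := by
        rw [← Bool.not_eq_true]
        intro h'
        have := Nat.le_of_ble_eq_true h'
        omega
      rw [h6] at h2
      rcases Nat.lt_or_ge k 14 with k14 | k14
      · rw [if_pos k14]
        have h7 : Nat.ble k 13 = true := Nat.ble_eq_true_of_le (by omega)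
        rw [h7] at h2
        have h8 : par = 1 := Nat.eq_of_beq_eq_true h2
        obtain ⟨k', rfl⟩ : ∃ k', k = k' + 9 := ⟨k - 9, by omega⟩
        rw [Nat.add_sub_cancel, Bool.and_eq_true, decide_eq_true_iff]
        refine ⟨h8, ?_⟩
        unfold relJ
        simp only [Bool.and_eq_true, decide_eq_true_iff, List.all_eq_true]
        refine ⟨⟨g1, fun j hj => ⟨?_, g4 j hj⟩⟩, ?_⟩
        · rw [← nbX_nb4 k' (by omega)]
          exact (g2 j hj).2.1
        · have : js.map (wt4 k') = js.map fun j => (wX.getD (k' + 9) 0 >>> (4 * j)) &&& 15 :=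
            List.map_congr_left fun j hj => (wX_wt4 k' (by omega) j (g2 j hj).2.1).symm
          rw [this]
          exact g3
      · rw [if_neg (by omega), if_pos hk]
        have h7 : Nat.ble k 13 = false := by
          rw [← Bool.not_eq_true]
          intro h'
          have := Nat.le_of_ble_eq_true h'
          omega
        rw [h7] at h2
        have h8 : par = 2 := Nat.eq_of_beq_eq_true h2
        obtain ⟨k', rfl⟩ : ∃ k', k = k' + 14 := ⟨k - 14, by omega⟩
        rw [Nat.add_sub_cancel, Bool.and_eq_true, decide_eq_true_iff]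
        refine ⟨h8, ?_⟩
        unfold relJ
        simp only [Bool.and_eq_true, decide_eq_true_iff, List.all_eq_true]
        refine ⟨⟨g1, fun j hj => ⟨?_, g4 j hj⟩⟩, ?_⟩
        · rw [← nbX_nb5 k' (by omega)]
          exact (g2 j hj).2.1
        · have : js.map (wt5 k') = js.map fun j => (wX.getD (k' + 14) 0 >>> (4 * j)) &&& 15 :=
            List.map_congr_left fun j hj => (wX_wt5 k' (by omega) j (g2 j hj).2.1).symm
          rw [this]
          exact g3
  · rw [hb] at h
    exact h

/-! ### The subsets -/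

/-- the indices of four lanes -/
noncomputable def sn4 (n : ℕ) : ℕ :=
  Nat.lor (Nat.lor (Nat.shiftLeft 1 (Nat.land n 1023))
    (Nat.shiftLeft 1 (Nat.land (Nat.shiftRight n 52) 1023)))
    (Nat.lor (Nat.shiftLeft 1 (Nat.land (Nat.shiftRight n 104) 1023))
    (Nat.shiftLeft 1 (Nat.land (Nat.shiftRight n 156) 1023)))

/-- the indices of `2 ^ (c + 2)` lanes -/
noncomputable def snM (c : ℕ) : ℕ → ℕ :=
  Nat.rec (motive := fun _ => ℕ → ℕ) (fun n => sn4 n)
    (fun c ih n => Nat.lor (ih n)
      (force (Nat.shiftRight n (Nat.shiftLeft 208 c)) fun n' => ih n')) c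

theorem La_shr52 (A a i : ℕ) : La (A >>> (52 * a)) i = La A (a + i) := by
  unfold La
  rw [← Nat.shiftRight_add]
  congr 2
  ring

theorem La_mod (n i : ℕ) : La n i % 1024 = (n >>> (52 * i)) &&& 1023 := by
  unfold La
  rw [show (n >>> (52 * i)) &&& 1023 = (n >>> (52 * i)) % 1024 from
    Nat.and_two_pow_sub_one_eq_mod _ 10]
  exact Nat.mod_mod_of_dvd _ (by norm_num)

theorem snM_bit (c : ℕ) : ∀ n t, (snM c n).testBit t = true →
    ∃ i < 2 ^ (c + 2), La n i % 1024 = t := by
  induction c with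
  | zero =>
    intro n t h
    have e : snM 0 n = ((1 <<< (n &&& 1023)) ||| (1 <<< ((n >>> 52) &&& 1023))) |||
      ((1 <<< ((n >>> 104) &&& 1023)) ||| (1 <<< ((n >>> 156) &&& 1023))) := rfl
    rw [e] at h
    simp only [Nat.testBit_or, Nat.one_shiftLeft, Nat.testBit_two_pow, Bool.or_eq_true,
      decide_eq_true_iff] at h
    rcases h with (h | h) | h | h
    · refine ⟨0, by norm_num, ?_⟩
      rw [La_mod]
      exact h
    · refine ⟨1, by norm_num, ?_⟩
      rw [La_mod]
      exact h
    · refine ⟨2, by norm_num, ?_⟩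
      rw [La_mod]
      exact h
    · refine ⟨3, by norm_num, ?_⟩
      rw [La_mod]
      exact h
  | succ c ih =>
    intro n t h
    have e : snM (c + 1) n = snM c n ||| snM c (n >>> (208 <<< c)) := rfl
    rw [e, Nat.testBit_or, Bool.or_eq_true] at h
    have h2 : 2 ^ (c + 1 + 2) = 2 ^ (c + 2) + 2 ^ (c + 2) := by ring
    rcases h with h | h
    · obtain ⟨i, hi, h'⟩ := ih _ _ h
      exact ⟨i, by omega, h'⟩
    · obtain ⟨i, hi, h'⟩ := ih _ _ h
      refine ⟨2 ^ (c + 2) + i, by omega, ?_⟩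
      rw [← La_shr52]
      have h3 : 208 <<< c = 52 * 2 ^ (c + 2) := by
        rw [Nat.shiftLeft_eq]
        ring
      rw [h3] at h'
      exact h'

/-! ### The check -/

/-- after decoding -/
noncomputable def chkW (par T : ℕ) (VT : Tr) (c k e : ℕ) (js bs : List ℕ)
    (G Z U : List (ℕ × ℕ × ℕ)) (NG NZ NU mg mz mu o1 o2 o3 : ℕ) (ws : List ℕ) (g : ℕ) : Bool :=
  andR (Nat.ble (Nat.succ js.length) 11)
  (andR (Nat.beq (nwV NG o1 (XV (cd VT) G) net) (mvV NG o1 g ws 0))
  (andR (Nat.beq (pvV NG o1 10) (EV G))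
  (andR (allR (fun z => Nat.ble (Nat.succ z.1) 7) Z)
  (andR (Nat.beq (Nat.land (mvV NZ o2 g ws 0) (XV RCf Z)) 0)
  (andR (allR (fun z => Nat.ble (Nat.succ z.1) 7) U)
  (andR (Nat.beq (Nat.land (mvV NU o3 g ws 0) (XV ROf U)) (XV ROf U))
  (andR (Nat.beq (pvV NU o3 10) (EV U))
  (andR (Nat.beq (Nat.add mg (Nat.add mz mu)) (Nat.shiftLeft 1 js.length))
  (andR (andR (Nat.ble 2 js.length) (Nat.beq (snM (Nat.sub js.length 2) NG)
      (Nat.sub (Nat.shiftLeft 1 (Nat.shiftLeft 1 js.length)) 1)))
  (andR (relF par T k js bs)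
    (mT2 (fun ns ts => andR (Nat.beq (Nat.add (Nat.land (Nat.shiftRight c 16) 1048575)
        (Nat.land (Nat.shiftRight c 36) 1048575)) ts)
      (Bool.rec (motive := fun _ => Bool)
        (Nat.beq (Nat.add (Nat.land (Nat.shiftRight c 16) 1048575) (MNm U)) (Nat.add ns (MNp U)))
        (Nat.beq (Nat.add (Nat.land (Nat.shiftRight c 16) 1048575) (MNp U)) (Nat.add ns (MNm U)))
        (Nat.beq e 0)))
      e (Nat.mul 4 (Nat.land c 4095)) (Nat.shiftRight c 56) G 0 0)))))))))))

theorem chkW_sound {par T : ℕ} {f : ℕ → ℤ} (hf : FKP par T f) {VT : Tr} {c k e : ℕ} (he : e < 2)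
    {js bs : List ℕ} {G Z U : List (ℕ × ℕ × ℕ)} {NG NZ NU : ℕ}
    (hNZ : NZ = NG >>> (52 * MN G)) (hNU : NU = NZ >>> (52 * MN Z))
    (h : chkW par T VT c k e js bs G Z U NG NZ NU (MN G) (MN Z) (MN U) (Rp (MN G)) (Rp (MN Z))
      (Rp (MN U)) (js.map (oX k)) (orL (bs.map (oX k))) = true) :
    ESat (wF VT f) c := by
  unfold chkW at h
  rw [andR_iff, andR_iff, andR_iff, andR_iff, andR_iff, andR_iff, andR_iff, andR_iff,
    andR_iff, andR_iff, andR_iff, andR_iff] at h
  obtain ⟨h1, h2, h3, h4, h5, h6, h7, h8, h9, h10, h11, h12⟩ := h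
  set ws := js.map (oX k) with hws
  set g := orL (bs.map (oX k)) with hg
  have hrel := relY_sound hf (relF_sound h11)
  have hlen : ws.length = js.length := List.length_map _
  have hm : ws.length < 11 := by
    rw [hlen]
    exact Nat.le_of_ble_eq_true h1
  have hwl : ∀ w ∈ ws, w < 2 ^ 52 := by
    intro w hw
    obtain ⟨j, _, rfl⟩ := List.mem_map.1 hw
    exact (oX_lt k j).trans (by norm_num)
  have hgl : g < 2 ^ 52 := by
    refine (orL_lt _ fun x hx => ?_).trans (by norm_num)
    obtain ⟨j, _, rfl⟩ := List.mem_map.1 hx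
    exact oX_lt k j
  have hR1 : ∀ n k, La (Rp n) k ≤ 1 := by
    intro n k
    rw [La_Rp]
    split_ifs <;> norm_num
  have hmv : ∀ N n i, i < n → La (mvV N (Rp n) g ws 0) i = wk ws g (La N i % 1024) := by
    intro N n i hi
    rw [La_mvV (hR1 n) hgl ws hwl i (by rw [La_Rp, if_pos hi]) 0 (by omega), Nat.shiftRight_zero]
    have := wk_mod ws g (La N i) 10 (by omega)
    rw [show (2 : ℕ) ^ 10 = 1024 by norm_num] at this
    exact this.symm
  -- the subsets
  set TL := tL NG (MN G) ++ (tL NZ (MN Z) ++ tL NU (MN U)) with hTL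
  have hlenT : TL.length = 2 ^ ws.length := by
    have e1 : ∀ N n, (tL N n).length = n := by
      intro N n
      unfold tL
      rw [List.length_map, List.length_range]
    have e2 : MN G + (MN Z + MN U) = 1 <<< js.length := Nat.eq_of_beq_eq_true h9
    rw [hTL, List.length_append, List.length_append, e1, e1, e1, e2, hlen, Nat.one_shiftLeft]
  have hcov : ∀ t < 2 ^ ws.length, t ∈ TL := by
    intro t ht
    have e0 : 2 ≤ js.length := Nat.le_of_ble_eq_true h10.1
    have e3 : snM (js.length - 2) NG = 1 <<< (1 <<< js.length) - 1 :=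
      Nat.eq_of_beq_eq_true h10.2
    rw [Nat.one_shiftLeft, Nat.one_shiftLeft, ← hlen] at e3
    have e4 := congrArg (fun n => n.testBit t) e3
    simp only [Nat.testBit_two_pow_sub_one, decide_eq_true ht] at e4
    obtain ⟨i, hi, h'⟩ := snM_bit _ _ _ e4
    have e6 : ws.length - 2 + 2 = js.length := by omega
    have e7 : MN G + (MN Z + MN U) = 1 <<< js.length := Nat.eq_of_beq_eq_true h9
    rw [e6, ← Nat.one_shiftLeft, ← e7] at hi
    rw [hTL, List.mem_append, List.mem_append]
    have e5 : ∀ N n i, i < n → La N i % 1024 = t → t ∈ tL N n := fun N n i hi h' =>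
      List.mem_map.2 ⟨i, List.mem_range.2 hi, h'⟩
    rcases Nat.lt_or_ge i (MN G) with g1 | g1
    · exact Or.inl (e5 _ _ i g1 h')
    · rcases Nat.lt_or_ge i (MN G + MN Z) with g2 | g2
      · refine Or.inr (Or.inl (e5 _ _ (i - MN G) (by omega) ?_))
        rw [hNZ, La_shr52, Nat.add_sub_cancel' g1]
        exact h'
      · refine Or.inr (Or.inr (e5 _ _ (i - MN G - MN Z) (by omega) ?_))
        rw [hNU, La_shr52, hNZ, La_shr52]
        rw [show MN G + (MN Z + (i - MN G - MN Z)) = i by omega]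
        exact h'
  obtain ⟨hsum, hlt⟩ := core2 ws g hrel TL hlenT hcov
  have hmem : ∀ N n i, i < n → La N i % 1024 ∈ tL N n := fun N n i hi =>
    List.mem_map.2 ⟨i, List.mem_range.2 hi, rfl⟩
  -- the variables
  have hG : ((tL NG (MN G)).map fun t => sg ws.length t * f (wk ws g t)).sum =
      gLs (cd VT) f G := by
    apply lanes_sum
    intro i hi
    have i1 : i < MN G := hi
    have e1 : nwV NG (Rp (MN G)) (XV (cd VT) G) net = mvV NG (Rp (MN G)) g ws 0 :=
      Nat.eq_of_beq_eq_true h2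
    have hX : ∀ i, La (XV (cd VT) G) i = ((xs (cd VT) G).getD i (0, 0)).1 :=
      La_XV G fun g' _ => (cd_lt VT _).trans (by norm_num)
    have e2 := (La_nwV (N := NG) (hR1 (MN G)) (X := XV (cd VT) G) (fun k => by
      rw [hX]
      exact xs_lt (cd_lt VT) G k) net (by decide) i).1
    rw [e1, hmv _ _ _ i1, hX] at e2
    have e3 : f (wk ws g (La NG i % 1024)) = f ((xs (cd VT) G).getD i (0, 0)).1 := by
      rw [e2]
      exact nwL_eq hf.toFK (hR1 (MN G) i) net (by decide)
    have e4 : La NG i % 1024 < 2 ^ ws.length := hlt _ (by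
      rw [hTL, List.mem_append]
      exact Or.inl (hmem _ _ _ i1))
    have e5 : pvV NG (Rp (MN G)) 10 = EV G := Nat.eq_of_beq_eq_true h3
    have e6 := La_pvV (N := NG) (hR1 (MN G)) i (by rw [La_Rp, if_pos i1]) 10 (by norm_num)
    rw [e5, La_EV (cd VT)] at e6
    rw [e3, sg_pa hm e4, ← e6]
  -- the zeros
  have hZ : ((tL NZ (MN Z)).map fun t => sg ws.length t * f (wk ws g t)).sum = 0 := by
    apply List.sum_eq_zero
    intro x hx
    obtain ⟨t, ht, rfl⟩ := List.mem_map.1 hx
    obtain ⟨i, hi, rfl⟩ := List.mem_map.1 ht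
    rw [List.mem_range] at hi
    have e1 : mvV NZ (Rp (MN Z)) g ws 0 &&& XV RCf Z = 0 := Nat.eq_of_beq_eq_true h5
    have e2 := congrArg (fun A => La A i) e1
    simp only [La_and] at e2
    obtain ⟨z, hz, e3⟩ := xs_mem RCf Z i hi
    rw [hmv _ _ _ hi, La_XV Z fun g' _ => RCf_lt _, e3] at e2
    have e4 : La 0 i = 0 := by
      unfold La
      simp
    rw [e4] at e2
    rw [allR_iff] at h4
    have e5 : z.1 < 7 := Nat.le_of_ble_eq_true (h4 z hz)
    rw [f_isol hf.toFK e5 e2, mul_zero]
  -- the ones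
  have hU : ((tL NU (MN U)).map fun t => sg ws.length t * f (wk ws g t)).sum =
      gLs ROf (fun _ => 1) U := by
    apply lanes_sum
    intro i hi
    have e1 : mvV NU (Rp (MN U)) g ws 0 &&& XV ROf U = XV ROf U := Nat.eq_of_beq_eq_true h7
    have e2 := congrArg (fun A => La A i) e1
    simp only [La_and] at e2
    obtain ⟨z, hz, e3⟩ := xs_mem ROf U i hi
    rw [hmv _ _ _ hi, La_XV U fun g' _ => ROf_lt _, e3] at e2
    rw [allR_iff] at h6
    have e5 : z.1 < 7 := Nat.le_of_ble_eq_true (h6 z hz)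
    have e4 : La NU i % 1024 < 2 ^ ws.length := hlt _ (by
      rw [hTL, List.mem_append, List.mem_append]
      exact Or.inr (Or.inr (hmem _ _ _ hi)))
    have e6 : pvV NU (Rp (MN U)) 10 = EV U := Nat.eq_of_beq_eq_true h8
    have e7 := La_pvV (N := NU) (hR1 (MN U)) i (by rw [La_Rp, if_pos hi]) 10 (by norm_num)
    rw [e6, La_EV ROf] at e7
    rw [f_univ hf.toFK e5 e2, sg_pa hm e4, ← e7]
  rw [hTL, List.map_append, List.map_append, List.sum_append, List.sum_append, hG, hZ, hU,
    zero_add, gLs_one] at hsum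
  obtain ⟨m0, m1, m2⟩ := mT2_sound hf.toFK VT he _ _ _ _ _ h12
  rw [andR_iff, Nat.zero_add, Nat.zero_add] at m0
  obtain ⟨h13, h14⟩ := m0
  have key : SS (wF VT f) (4 * (c &&& 4095)) (c >>> 56) = (c >>> 16) &&& 1048575 := by
    have he2 : e = 0 ∨ e = 1 := by omega
    rcases he2 with rfl | rfl
    · have h15 : ((c >>> 16) &&& 1048575) + MNp U = nsF (4 * (c &&& 4095)) (c >>> 56) + MNm U :=
        Nat.eq_of_beq_eq_true h14
      have m1' : (SS (wF VT f) (4 * (c &&& 4095)) (c >>> 56) : ℤ) = (if 0 = 0 then 1 else -1) *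
        gLs (cd VT) f G + nsF (4 * (c &&& 4095)) (c >>> 56) := m1
      rw [if_pos rfl, one_mul] at m1'
      zify at h15 ⊢
      linarith
    · have h15 : ((c >>> 16) &&& 1048575) + MNm U = nsF (4 * (c &&& 4095)) (c >>> 56) + MNp U :=
        Nat.eq_of_beq_eq_true h14
      have m1' : (SS (wF VT f) (4 * (c &&& 4095)) (c >>> 56) : ℤ) = (if 1 = 0 then 1 else -1) *
        gLs (cd VT) f G + nsF (4 * (c &&& 4095)) (c >>> 56) := m1
      rw [if_neg (by norm_num)] at m1'
      zify at h15 ⊢
      linarith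
  refine ⟨key, ?_⟩
  have m2' : SN (wF VT f) (4 * (c &&& 4095)) (c >>> 56) +
    SS (wF VT f) (4 * (c &&& 4095)) (c >>> 56) = tsF (4 * (c &&& 4095)) (c >>> 56) := m2
  have h16 : ((c >>> 16) &&& 1048575) + ((c >>> 36) &&& 1048575) =
    tsF (4 * (c &&& 4095)) (c >>> 56) := Nat.eq_of_beq_eq_true h13
  change SN (wF VT f) (4 * (c &&& 4095)) (c >>> 56) = _
  omega

/-! ### Decoding -/

/-- an entry of the table of equations: header (family 5 bits, sign 1, free orbits 4, base orbits 5,
groups of zeros 4, groups of ones 4, groups 16, free orbits 50, base orbits 140), groups, lanes -/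
noncomputable def chkX (par T : ℕ) (VT : Tr) (c r : ℕ) : Bool :=
  Bool.rec (motive := fun _ => Bool)
  (force (Nat.land r 31) fun k =>
  force (Nat.land (Nat.shiftRight r 5) 1) fun e =>
  force (Nat.land (Nat.shiftRight r 6) 15) fun cj =>
  force (Nat.land (Nat.shiftRight r 10) 31) fun cb =>
  force (Nat.land (Nat.shiftRight r 15) 15) fun cz =>
  force (Nat.land (Nat.shiftRight r 19) 15) fun cu =>
  force (Nat.land (Nat.shiftRight r 23) 65535) fun cg =>
  force (Nat.shiftRight r 229) fun n1 =>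
  force (Nat.shiftRight n1 (Nat.mul 38 cz)) fun n2 =>
  force (Nat.shiftRight n2 (Nat.mul 38 cu)) fun n3 =>
  force (Nat.shiftRight n3 (Nat.mul 38 cg)) fun NG =>
  force (MN (decN cg n3)) fun mg =>
  force (MN (decN cz n1)) fun mz =>
  force (MN (decN cu n2)) fun mu =>
  force (Nat.shiftRight NG (Nat.mul 52 mg)) fun NZ =>
  force (Nat.shiftRight NZ (Nat.mul 52 mz)) fun NU =>
  force (Rp mg) fun o1 => force (Rp mz) fun o2 => force (Rp mu) fun o3 =>
  force (orL ((decJ cb (Nat.shiftRight r 89)).map (oX k))) fun g =>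
  mkF k (decJ cj (Nat.shiftRight r 39)) fun ws =>
  chkW par T VT c k e (decJ cj (Nat.shiftRight r 39)) (decJ cb (Nat.shiftRight r 89))
    (decN cg n3) (decN cz n1) (decN cu n2) NG NZ NU mg mz mu o1 o2 o3 ws g)
  true (Nat.beq c 0)

theorem chkX_sound {par T : ℕ} {f : ℕ → ℤ} (hf : FKP par T f) {VT : Tr} {c r : ℕ}
    (h : chkX par T VT c r = true) : ESat (wF VT f) c := by
  unfold chkX at h
  cases hb : Nat.beq c 0
  · rw [hb] at h
    simp only [force_eq, mkF_eq] at h
    refine chkW_sound hf (e := Nat.land (Nat.shiftRight r 5) 1) ?_ rfl rfl h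
    change (Nat.shiftRight r 5) &&& 1 < 2
    rw [Nat.and_one_is_mod]
    exact Nat.mod_lt _ (by norm_num)
  · have h0 : c = 0 := Nat.eq_of_beq_eq_true hb
    subst h0
    constructor <;> simp

/-- long numerals -/
def hc (a b : ℕ) : ℕ := Nat.lor a (Nat.shiftLeft b 4096)

/-- the entries of two leaves -/
noncomputable def eight' (P : ℕ → ℕ → Bool) (n r : ℕ) : Bool :=
  force n fun n' => force r fun r' => eight P n' r'

/-- a table of equations -/
theorem equAllX {par T : ℕ} {f : ℕ → ℤ} (hf : FKP par T f) {VT : Tr} {ET RT : Tr}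
    (h : all2 (eight' (chkX par T VT)) ET RT = true) :
    ET.All (fun n => ∀ j < 8, ESat (wF VT f) (ent n j)) := by
  refine all2_sound (P := eight' (chkX par T VT))
    (Q := fun n => ∀ j < 8, ESat (wF VT f) (ent n j)) ?_ ET RT h
  intro n r h' j hj
  have h2 := eight_sound (P := chkX par T VT) h' j hj
  exact chkX_sound hf h2

end Pool.Agent.H8.KA
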